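import Pool.Agent.K1H85.CL.Stm

/-! # CL-8: basic bounds (helper24, for project CL of helper85) -/

set_option autoImplicit false

open MeasureTheory ProbabilityTheory Filter
open scoped Topology BigOperators ENNReal

namespace Pool.Agent.K1H85.CL

universe u

namespace BND

theorem int_mul {α : Type*} [MeasurableSpace α] {ν : Measure α} {u v : α → ℝ}
    (hu : MemLp u 2 ν) (hv : MemLp v 2 ν) : Integrable (fun x => u x * v x) ν :=
  hu.integrable_mul hv

theorem int_sq {α : Type*} [MeasurableSpace α] {ν : Measure α} {u : α → ℝ}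
    (hu : MemLp u 2 ν) : Integrable (fun x => u x ^ 2) ν := hu.integrable_sq

/-- Cauchy–Schwarz -/
theorem cs {α : Type*} [MeasurableSpace α] {ν : Measure α} {u v : α → ℝ}
    (hu : MemLp u 2 ν) (hv : MemLp v 2 ν) :
    |∫ x, u x * v x ∂ν| ≤ √(∫ x, u x ^ 2 ∂ν) * √(∫ x, v x ^ 2 ∂ν) := by
  have h1 : ∀ t : ℝ, 0 ≤ (∫ x, u x ^ 2 ∂ν) * (t * t) + (2 * ∫ x, u x * v x ∂ν) * t + ∫ x, v x ^ 2 ∂ν := by
    intro t
    have h2 : ∫ x, (u x * t + v x) ^ 2 ∂ν =
        (∫ x, u x ^ 2 ∂ν) * (t * t) + (2 * ∫ x, u x * v x ∂ν) * t + ∫ x, v x ^ 2 ∂ν := by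
      have h3 : (fun x => (u x * t + v x) ^ 2) =
          fun x => (u x ^ 2 * (t * t) + (u x * v x) * (2 * t)) + v x ^ 2 := by
        funext x
        ring
      have i3 : Integrable (fun x => u x ^ 2 * (t * t) + (u x * v x) * (2 * t)) ν :=
        ((int_sq hu).mul_const _).add ((int_mul hu hv).mul_const _)
      rw [h3, integral_add i3 (int_sq hv),
        integral_add ((int_sq hu).mul_const _) ((int_mul hu hv).mul_const _), integral_mul_const,
        integral_mul_const]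
      ring
    rw [← h2]
    exact integral_nonneg fun x => sq_nonneg _
  have h4 := discrim_le_zero h1
  unfold discrim at h4
  have hu0 : 0 ≤ ∫ x, u x ^ 2 ∂ν := integral_nonneg fun x => sq_nonneg _
  rw [← Real.sqrt_mul hu0]
  apply Real.abs_le_sqrt
  nlinarith

/-- two functions -/
theorem sq_sub_le {α : Type*} [MeasurableSpace α] {ν : Measure α} {u v : α → ℝ}
    (hu : MemLp u 2 ν) (hv : MemLp v 2 ν) :
    ∫ x, (u x - v x) ^ 2 ∂ν ≤ 2 * ∫ x, u x ^ 2 ∂ν + 2 * ∫ x, v x ^ 2 ∂ν := by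
  rw [← integral_const_mul, ← integral_const_mul,
    ← integral_add ((int_sq hu).const_mul 2) ((int_sq hv).const_mul 2)]
  refine integral_mono (int_sq (hu.sub hv)) (((int_sq hu).const_mul 2).add ((int_sq hv).const_mul 2))
    fun x => ?_
  show (u x - v x) ^ 2 ≤ 2 * u x ^ 2 + 2 * v x ^ 2
  nlinarith [sq_nonneg (u x + v x)]

/-- three functions -/
theorem sq_three_le {α : Type*} [MeasurableSpace α] {ν : Measure α} {u v w : α → ℝ}
    (hu : MemLp u 2 ν) (hv : MemLp v 2 ν) (hw : MemLp w 2 ν) :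
    ∫ x, (u x + v x - w x) ^ 2 ∂ν ≤
      3 * ∫ x, u x ^ 2 ∂ν + 3 * ∫ x, v x ^ 2 ∂ν + 3 * ∫ x, w x ^ 2 ∂ν := by
  have i3 : Integrable (fun x => 3 * u x ^ 2 + 3 * v x ^ 2) ν :=
    ((int_sq hu).const_mul 3).add ((int_sq hv).const_mul 3)
  rw [← integral_const_mul, ← integral_const_mul, ← integral_const_mul,
    ← integral_add ((int_sq hu).const_mul 3) ((int_sq hv).const_mul 3),
    ← integral_add i3 ((int_sq hw).const_mul 3)]
  refine integral_mono (int_sq ((hu.add hv).sub hw)) (i3.add ((int_sq hw).const_mul 3))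
    fun x => ?_
  show (u x + v x - w x) ^ 2 ≤ 3 * u x ^ 2 + 3 * v x ^ 2 + 3 * w x ^ 2
  nlinarith [sq_nonneg (u x - v x), sq_nonneg (u x + w x), sq_nonneg (v x + w x)]

/-- Young -/
theorem young {α : Type*} [MeasurableSpace α] {ν : Measure α} {u v : α → ℝ}
    (hu : MemLp u 2 ν) (hv : MemLp v 2 ν) {c : ℝ} (hc : 0 < c) :
    -(2 * ∫ x, u x * v x ∂ν) ≤ (∫ x, u x ^ 2 ∂ν) / c + c * ∫ x, v x ^ 2 ∂ν := by
  rw [← integral_const_mul, ← integral_neg, ← integral_const_mul, ← integral_div,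
    ← integral_add ((int_sq hu).div_const c) ((int_sq hv).const_mul c)]
  refine integral_mono (((int_mul hu hv).const_mul 2).neg)
    (((int_sq hu).div_const c).add ((int_sq hv).const_mul c)) fun x => ?_
  show -(2 * (u x * v x)) ≤ u x ^ 2 / c + c * v x ^ 2
  have h1 : u x ^ 2 / c + c * v x ^ 2 + 2 * (u x * v x) = (u x + c * v x) ^ 2 / c := by
    field_simp
    ring
  have h2 : 0 ≤ (u x + c * v x) ^ 2 / c := by positivity
  linarith

section marg

variable {X : Type u} [MeasurableSpace X] {π : Measure X} {μ : Measure (X × X)}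

theorem mem_fst (hf : μ.map Prod.fst = π) {u : X → ℝ} (hu : MemLp u 2 π) :
    MemLp (fun p : X × X => u p.1) 2 μ := by
  rw [← hf] at hu
  exact (memLp_map_measure_iff hu.1 measurable_fst.aemeasurable).1 hu

theorem mem_snd (hf : μ.map Prod.snd = π) {u : X → ℝ} (hu : MemLp u 2 π) :
    MemLp (fun p : X × X => u p.2) 2 μ := by
  rw [← hf] at hu
  exact (memLp_map_measure_iff hu.1 measurable_snd.aemeasurable).1 hu

theorem int_fst (hf : μ.map Prod.fst = π) {u : X → ℝ} (hu : AEStronglyMeasurable u π) :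
    ∫ p, u p.1 ∂μ = ∫ x, u x ∂π := by
  rw [← hf] at hu ⊢
  rw [integral_map measurable_fst.aemeasurable hu]

theorem int_snd (hf : μ.map Prod.snd = π) {u : X → ℝ} (hu : AEStronglyMeasurable u π) :
    ∫ p, u p.2 ∂μ = ∫ x, u x ∂π := by
  rw [← hf] at hu ⊢
  rw [integral_map measurable_snd.aemeasurable hu]

/-- the Dirichlet form -/
theorem dir (h1 : μ.map Prod.fst = π) (h2 : μ.map Prod.snd = π) {q : X → ℝ} (hq : MemLp q 2 π) :
    ∫ p, (q p.2 - q p.1) ^ 2 ∂μ = 2 * ∫ x, q x ^ 2 ∂π - 2 * ∫ p, q p.1 * q p.2 ∂μ := by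
  have i1 := mem_fst h1 hq
  have i2 := mem_snd h2 hq
  have e1 : (fun p : X × X => (q p.2 - q p.1) ^ 2) =
      fun p : X × X => (q p.2 ^ 2 + q p.1 ^ 2) - 2 * (q p.1 * q p.2) := by
    funext p
    ring
  have i3 : Integrable (fun p : X × X => q p.2 ^ 2 + q p.1 ^ 2) μ := (int_sq i2).add (int_sq i1)
  rw [e1, integral_sub i3 ((int_mul i1 i2).const_mul 2),
    integral_add (int_sq i2) (int_sq i1), integral_const_mul,
    int_fst h1 (u := fun x => q x ^ 2) (int_sq hq).1, int_snd h2 (u := fun x => q x ^ 2) (int_sq hq).1]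
  ring

/-- forward step -/
theorem fwd (h1 : μ.map Prod.fst = π) (h2 : μ.map Prod.snd = π) {q d : X → ℝ} (hq : MemLp q 2 π)
    (hD : ∀ Φ : X → ℝ, MemLp Φ 2 π → ∫ p, Φ p.1 * (q p.2 - q p.1) ∂μ = ∫ x, Φ x * d x ∂π) :
    ∫ p, (q p.2 - q p.1) ^ 2 ∂μ = -(2 * ∫ x, q x * d x ∂π) := by
  have i1 := mem_fst h1 hq
  have i2 := mem_snd h2 hq
  rw [dir h1 h2 hq, ← hD q hq]
  have e1 : (fun p : X × X => q p.1 * (q p.2 - q p.1)) = fun p => q p.1 * q p.2 - q p.1 ^ 2 := by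
    funext p
    ring
  rw [e1, integral_sub (int_mul i1 i2) (int_sq i1), int_fst h1 (u := fun x => q x ^ 2) (int_sq hq).1]
  ring

/-- backward step -/
theorem bwd (h1 : μ.map Prod.fst = π) (h2 : μ.map Prod.snd = π) {q d : X → ℝ} (hq : MemLp q 2 π)
    (hD : ∀ Φ : X → ℝ, MemLp Φ 2 π → ∫ p, Φ p.2 * (q p.1 - q p.2) ∂μ = ∫ x, Φ x * d x ∂π) :
    ∫ p, (q p.2 - q p.1) ^ 2 ∂μ = -(2 * ∫ x, q x * d x ∂π) := by
  have i1 := mem_fst h1 hq
  have i2 := mem_snd h2 hq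
  rw [dir h1 h2 hq, ← hD q hq]
  have e1 : (fun p : X × X => q p.2 * (q p.1 - q p.2)) = fun p => q p.1 * q p.2 - q p.2 ^ 2 := by
    funext p
    ring
  rw [e1, integral_sub (int_mul i1 i2) (int_sq i2), int_snd h2 (u := fun x => q x ^ 2) (int_sq hq).1]
  ring

end marg

end BND

open BND

set_option maxHeartbeats 1000000 in
theorem t_BND (X : Type u) [MeasurableSpace X] : S_BND X := by
  intro π μ f g h a b γ hc m s
  obtain ⟨i, hi⟩ : ∃ i : ℕ, i = m + s / 2 := ⟨_, rfl⟩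
  have hP0 : (0 : ℝ) < 2 ^ i := by positivity
  have hg1 : 0 ≤ γ i ^ 2 := sq_nonneg _
  have hg2 : 0 ≤ γ (i + 1) ^ 2 := sq_nonneg _
  have hPA : 0 ≤ 2 ^ i * γ i ^ 2 := by positivity
  have hPB : 0 ≤ 2 ^ i * γ (i + 1) ^ 2 := by positivity
  have hpow : (2 : ℝ) ^ (i + 1) = 2 * 2 ^ i := by rw [pow_succ]; ring
  -- the bounds of the functions
  have ng1 := hc.ng i
  have ng2 := hc.ng (i + 1)
  have nh1 := hc.nh i
  have nh2 := hc.nh (i + 1)
  have na1 := hc.na i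
  have na2 := hc.na (i + 1)
  have nb1 := hc.nb i
  have nb2 := hc.nb (i + 1)
  have nf1 := hc.nf i
  rw [hpow] at ng2 nh2 na2 nb2
  have na2' : 2 ^ i * ∫ x, a (i + 1) x ^ 2 ∂π ≤ γ (i + 1) ^ 2 / 2 := by
    have := mul_le_mul_of_nonneg_left na2 hP0.le
    have e : 2 ^ i * (γ (i + 1) ^ 2 / (2 * 2 ^ i)) = γ (i + 1) ^ 2 / 2 := by field_simp
    rwa [e] at this
  have nb2' : 2 ^ i * ∫ x, b (i + 1) x ^ 2 ∂π ≤ γ (i + 1) ^ 2 / 2 := by
    have := mul_le_mul_of_nonneg_left nb2 hP0.le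
    have e : 2 ^ i * (γ (i + 1) ^ 2 / (2 * 2 ^ i)) = γ (i + 1) ^ 2 / 2 := by field_simp
    rwa [e] at this
  have na1' : 2 ^ i * ∫ x, a i x ^ 2 ∂π ≤ γ i ^ 2 := by
    have := mul_le_mul_of_nonneg_left na1 hP0.le
    have e : 2 ^ i * (γ i ^ 2 / 2 ^ i) = γ i ^ 2 := by field_simp
    rwa [e] at this
  have nb1' : 2 ^ i * ∫ x, b i x ^ 2 ∂π ≤ γ i ^ 2 := by
    have := mul_le_mul_of_nonneg_left nb1 hP0.le
    have e : 2 ^ i * (γ i ^ 2 / 2 ^ i) = γ i ^ 2 := by field_simp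
    rwa [e] at this
  have hidx : m + (s + 1) / 2 = i ∨ m + (s + 1) / 2 = i + 1 := by omega
  -- differences of the correctors
  have hqg : MemLp (fun x => g (i + 1) x - g i x) 2 π := (hc.Lg _).sub (hc.Lg _)
  have hqh : MemLp (fun x => h (i + 1) x - h i x) 2 π := (hc.Lh _).sub (hc.Lh _)
  have hda : MemLp (fun x => a (i + 1) x - a i x) 2 π := (hc.La _).sub (hc.La _)
  have hdb : MemLp (fun x => b (i + 1) x - b i x) 2 π := (hc.Lb _).sub (hc.Lb _)
  have bqg := sq_sub_le (hc.Lg (i + 1)) (hc.Lg i)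
  have bqh := sq_sub_le (hc.Lh (i + 1)) (hc.Lh i)
  have bda := sq_sub_le (hc.La (i + 1)) (hc.La i)
  have bdb := sq_sub_le (hc.Lb (i + 1)) (hc.Lb i)
  have idG : ∀ Φ : X → ℝ, MemLp Φ 2 π →
      ∫ p, Φ p.1 * ((g (i + 1) p.2 - g i p.2) - (g (i + 1) p.1 - g i p.1)) ∂μ =
        ∫ x, Φ x * (a (i + 1) x - a i x) ∂π := by
    intro Φ hΦ
    have e1 := hc.da (i + 1) Φ hΦ
    have e2 := hc.da i Φ hΦ
    have mΦ := mem_fst hc.fst hΦ
    have k1 : ∀ j, MemLp (fun p : X × X => f p.1 - g j p.1 + g j p.2) 2 μ := fun j =>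
      ((mem_fst hc.fst hc.Lf).sub (mem_fst hc.fst (hc.Lg j))).add (mem_snd hc.snd (hc.Lg j))
    have e3 : ∫ x, Φ x * (a (i + 1) x - a i x) ∂π =
        ∫ x, Φ x * a (i + 1) x ∂π - ∫ x, Φ x * a i x ∂π := by
      rw [← integral_sub (int_mul hΦ (hc.La _)) (int_mul hΦ (hc.La _))]
      congr 1
      funext x
      ring
    rw [e3, ← e1, ← e2, ← integral_sub (int_mul mΦ (k1 _)) (int_mul mΦ (k1 _))]
    congr 1
    funext p
    ring
  have idH : ∀ Φ : X → ℝ, MemLp Φ 2 π →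
      ∫ p, Φ p.2 * ((h (i + 1) p.1 - h i p.1) - (h (i + 1) p.2 - h i p.2)) ∂μ =
        ∫ x, Φ x * (b (i + 1) x - b i x) ∂π := by
    intro Φ hΦ
    have e1 := hc.db (i + 1) Φ hΦ
    have e2 := hc.db i Φ hΦ
    have mΦ := mem_snd hc.snd hΦ
    have k1 : ∀ j, MemLp (fun p : X × X => f p.2 - h j p.2 + h j p.1) 2 μ := fun j =>
      ((mem_snd hc.snd hc.Lf).sub (mem_snd hc.snd (hc.Lh j))).add (mem_fst hc.fst (hc.Lh j))
    have e3 : ∫ x, Φ x * (b (i + 1) x - b i x) ∂π =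
        ∫ x, Φ x * b (i + 1) x ∂π - ∫ x, Φ x * b i x ∂π := by
      rw [← integral_sub (int_mul hΦ (hc.Lb _)) (int_mul hΦ (hc.Lb _))]
      congr 1
      funext x
      ring
    rw [e3, ← e1, ← e2, ← integral_sub (int_mul mΦ (k1 _)) (int_mul mΦ (k1 _))]
    congr 1
    funext p
    ring
  -- norm of the differences of the errors
  have bda' := mul_le_mul_of_nonneg_left bda hP0.le
  have bdb' := mul_le_mul_of_nonneg_left bdb hP0.le
  have sda : √(∫ x, (a (i + 1) x - a i x) ^ 2 ∂π) ≤ √(4 * gm γ i / 2 ^ i) := by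
    apply Real.sqrt_le_sqrt
    rw [le_div_iff₀ hP0]
    unfold gm
    linarith
  have sdb : √(∫ x, (b (i + 1) x - b i x) ^ 2 ∂π) ≤ √(4 * gm γ i / 2 ^ i) := by
    apply Real.sqrt_le_sqrt
    rw [le_div_iff₀ hP0]
    unfold gm
    linarith
  rw [← hi]
  refine ⟨?_, ?_, ?_, ?_, ?_, ?_, ?_⟩
  · -- zz
    unfold zz
    rw [← hi]
    refine (sq_three_le (hc.Lg _) (hc.Lh _) hc.Lf).trans ?_
    have h1 : ∫ x, g (m + (s + 1) / 2) x ^ 2 ∂π ≤ 2 * 2 ^ i * (γ i ^ 2 + γ (i + 1) ^ 2) := by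
      rcases hidx with h' | h' <;> rw [h'] <;> linarith
    unfold gm
    linarith
  · -- xx
    rcases Nat.mod_two_eq_zero_or_one s with h' | h'
    · simp only [xx, h', if_true]
      rw [← hi]
      refine bqg.trans ?_
      unfold gm
      linarith
    · simp only [xx, h', one_ne_zero, if_false]
      rw [← hi]
      refine bqh.trans ?_
      unfold gm
      linarith
  · rw [le_div_iff₀ hP0]
    unfold gm
    rcases hidx with h' | h' <;> rw [h'] <;> linarith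
  · rw [le_div_iff₀ hP0]
    unfold gm
    nlinarith
  · rcases Nat.mod_two_eq_zero_or_one s with h' | h'
    · simp only [xx, h', if_true]
      rw [← hi]
      rw [fwd hc.fst hc.snd (q := fun x => g (i + 1) x - g i x)
        (d := fun x => a (i + 1) x - a i x) hqg idG]
      refine (young hqg hda hP0).trans ?_
      have h1 : (∫ x, (g (i + 1) x - g i x) ^ 2 ∂π) / 2 ^ i ≤ 4 * γ (i + 1) ^ 2 + 2 * γ i ^ 2 := by
        rw [div_le_iff₀ hP0]
        linarith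
      have h2 : 2 ^ i * ∫ x, (a (i + 1) x - a i x) ^ 2 ∂π ≤ γ (i + 1) ^ 2 + 2 * γ i ^ 2 := by
        linarith
      unfold gm
      linarith
    · simp only [xx, h', one_ne_zero, if_false]
      rw [← hi]
      rw [bwd hc.fst hc.snd (q := fun x => h (i + 1) x - h i x)
        (d := fun x => b (i + 1) x - b i x) hqh idH]
      refine (young hqh hdb hP0).trans ?_
      have h1 : (∫ x, (h (i + 1) x - h i x) ^ 2 ∂π) / 2 ^ i ≤ 4 * γ (i + 1) ^ 2 + 2 * γ i ^ 2 := by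
        rw [div_le_iff₀ hP0]
        linarith
      have h2 : 2 ^ i * ∫ x, (b (i + 1) x - b i x) ^ 2 ∂π ≤ γ (i + 1) ^ 2 + 2 * γ i ^ 2 := by
        linarith
      unfold gm
      linarith
  · intro h' Φ hΦ
    simp only [xx, h', if_true]
    rw [← hi, idG Φ hΦ]
    exact (cs hΦ hda).trans (mul_le_mul_of_nonneg_left sda (Real.sqrt_nonneg _))
  · intro h' Φ hΦ
    simp only [xx, h', one_ne_zero, if_false]
    rw [← hi, idH Φ hΦ]
    exact (cs hΦ hdb).trans (mul_le_mul_of_nonneg_left sdb (Real.sqrt_nonneg _))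

end Pool.Agent.K1H85.CL
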