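import Pool.Agent.K1H85.CL.Stm

/-! CL-5: discrete Gronwall and Abel summation. -/

set_option autoImplicit false

open Filter
open scoped Topology BigOperators

namespace Pool.Agent.K1H85.CL

private theorem cfa_abel (n : ℕ) (ε : ℝ) (w : ℕ → ℝ) (η : ℕ → ℂ) (hε : 0 ≤ ε)
    (hw0 : ∀ t, 0 ≤ w t) (hw1 : ∀ t, t < n → w t ≤ 1)
    (hmono : ∀ t, t + 1 < n → w t ≤ w (t + 1))
    (hη : ∀ n' ≤ n, ‖∑ t ∈ Finset.range n', η t‖ ≤ ε) :
    ‖∑ t ∈ Finset.range n, (w t : ℂ) * η t‖ ≤ 2 * ε := by
  -- prove for every `k ≤ n`: sum over `range k` plus correction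
  have key : ∀ k, k + 1 ≤ n →
      ‖∑ t ∈ Finset.range (k + 1), (w t : ℂ) * η t - (w k : ℂ) * ∑ t ∈ Finset.range (k + 1), η t‖
        ≤ ε * (w k - w 0) := by
    intro k
    induction k with
    | zero =>
      intro _
      simp
    | succ k ih =>
      intro hk
      have h1 := ih (by omega)
      have h2 : ∑ t ∈ Finset.range (k + 1 + 1), (w t : ℂ) * η t
            - (w (k + 1) : ℂ) * ∑ t ∈ Finset.range (k + 1 + 1), η t =
          (∑ t ∈ Finset.range (k + 1), (w t : ℂ) * η t
            - (w k : ℂ) * ∑ t ∈ Finset.range (k + 1), η t) +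
            ((w k - w (k + 1) : ℝ) : ℂ) * ∑ t ∈ Finset.range (k + 1), η t := by
        rw [Finset.sum_range_succ _ (k + 1), Finset.sum_range_succ _ (k + 1)]
        push_cast
        ring
      rw [h2]
      refine (norm_add_le _ _).trans ?_
      rw [norm_mul, Complex.norm_real, Real.norm_eq_abs, abs_of_nonpos (by
        have := hmono k (by omega); linarith)]
      have h3 := hη (k + 1) (by omega)
      have h4 := hmono k (by omega)
      nlinarith
  rcases Nat.eq_zero_or_pos n with h0 | hpos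
  · subst h0
    simp
    exact hε
  · obtain ⟨k, rfl⟩ : ∃ k, n = k + 1 := ⟨n - 1, by omega⟩
    have h1 := key k le_rfl
    have h2 := hη (k + 1) le_rfl
    have h3 := hw1 k (by omega)
    have h5 := hw0 k
    have h6 := hw0 0
    have h4 : ‖(w k : ℂ) * ∑ t ∈ Finset.range (k + 1), η t‖ ≤ ε := by
      rw [norm_mul, Complex.norm_real, Real.norm_eq_abs, abs_of_nonneg h5]
      nlinarith [norm_nonneg (∑ t ∈ Finset.range (k + 1), η t)]
    have h7 : ∑ t ∈ Finset.range (k + 1), (w t : ℂ) * η t =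
        (∑ t ∈ Finset.range (k + 1), (w t : ℂ) * η t
          - (w k : ℂ) * ∑ t ∈ Finset.range (k + 1), η t) +
          (w k : ℂ) * ∑ t ∈ Finset.range (k + 1), η t := by ring
    rw [h7]
    refine (norm_add_le _ _).trans ?_
    nlinarith

theorem t_CFA : S_CFA := by
  intro n c ε x η hn hc hcn hε hx0 hx hη
  have hn' : (0 : ℝ) < n := by exact_mod_cast hn
  set ρ : ℝ := 1 - c / n with hρ
  have hcn1 : c / n ≤ 1 := (div_le_one hn').2 hcn
  have hcn0 : 0 ≤ c / n := by positivity
  have hρ0 : 0 ≤ ρ := by rw [hρ]; linarith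
  have hρ1 : ρ ≤ 1 := by rw [hρ]; linarith
  have hsol : ∀ k ≤ n, x k = (ρ : ℂ) ^ k + ∑ t ∈ Finset.range k, ((ρ ^ (k - 1 - t) : ℝ) : ℂ) * η t := by
    intro k
    induction k with
    | zero =>
      intro _
      simp [hx0]
    | succ k ih =>
      intro hk
      have h1 := ih (by omega)
      have h2 := hx k (by omega)
      have h3 : x (k + 1) = (ρ : ℂ) * x k + η k := by
        have : x (k + 1) = x k + (x (k + 1) - x k) := by ring
        rw [this, h2, hρ]
        push_cast
        ring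
      rw [h3, h1, Finset.sum_range_succ, mul_add, Finset.mul_sum]
      have h4 : ∀ t ∈ Finset.range k, (ρ : ℂ) * (((ρ ^ (k - 1 - t) : ℝ) : ℂ) * η t) =
          ((ρ ^ (k + 1 - 1 - t) : ℝ) : ℂ) * η t := by
        intro t ht
        have ht' := Finset.mem_range.1 ht
        have : k + 1 - 1 - t = (k - 1 - t) + 1 := by omega
        rw [this, pow_succ]
        push_cast
        ring
      rw [Finset.sum_congr rfl h4]
      have h5 : k + 1 - 1 - k = 0 := by omega
      rw [h5]
      push_cast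
      ring
  have hxn := hsol n le_rfl
  have hab := cfa_abel n ε (fun t => ρ ^ (n - 1 - t)) η hε (fun t => by positivity)
    (fun t _ => pow_le_one₀ hρ0 hρ1) (fun t ht => pow_le_pow_of_le_one hρ0 hρ1 (by omega)) hη
  -- the main term
  have hexp : |ρ ^ n - Real.exp (-c)| ≤ c ^ 2 / n := by
    set e := Real.exp (-(c / n)) with he
    have he0 : 0 ≤ e := (Real.exp_pos _).le
    have he1 : e ≤ 1 := Real.exp_le_one_iff.2 (by linarith)
    have hen : Real.exp (-c) = e ^ n := by
      rw [he, ← Real.exp_nat_mul]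
      congr 1
      field_simp
    have hle : ρ ≤ e := by
      have := Real.add_one_le_exp (-(c / n))
      rw [hρ, he]; linarith
    have hup : e ≤ ρ + (c / n) ^ 2 := by
      have := Real.abs_exp_sub_one_sub_id_le (x := -(c / n)) (by rw [abs_neg, abs_of_nonneg hcn0]; exact hcn1)
      rw [abs_le] at this
      rw [hρ, he]
      nlinarith [this.2]
    have hpow : ∀ k : ℕ, e ^ k - ρ ^ k ≤ k * (e - ρ) := by
      intro k
      induction k with
      | zero => simp
      | succ k ih =>
        have h1 : e ^ (k + 1) - ρ ^ (k + 1) = e * (e ^ k - ρ ^ k) + ρ ^ k * (e - ρ) := by ring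
        have h2 : ρ ^ k ≤ 1 := pow_le_one₀ hρ0 hρ1
        have h3 : 0 ≤ e - ρ := by linarith
        have h4 : 0 ≤ e ^ k - ρ ^ k := by
          have := pow_le_pow_left₀ hρ0 hle k
          linarith
        rw [h1]
        push_cast
        nlinarith
    have h5 := hpow n
    have h6 : ρ ^ n ≤ e ^ n := pow_le_pow_left₀ hρ0 hle n
    rw [hen, abs_sub_comm, abs_of_nonneg (by linarith)]
    have h7 : (n : ℝ) * (e - ρ) ≤ n * (c / n) ^ 2 := by
      apply mul_le_mul_of_nonneg_left _ hn'.le
      linarith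
    have h8 : (n : ℝ) * (c / n) ^ 2 = c ^ 2 / n := by
      field_simp
    linarith
  rw [hxn]
  have h9 : (ρ : ℂ) ^ n + ∑ t ∈ Finset.range n, ((ρ ^ (n - 1 - t) : ℝ) : ℂ) * η t
      - ((Real.exp (-c) : ℝ) : ℂ) = ∑ t ∈ Finset.range n, ((ρ ^ (n - 1 - t) : ℝ) : ℂ) * η t +
        ((ρ ^ n - Real.exp (-c) : ℝ) : ℂ) := by
    push_cast
    ring
  rw [h9]
  refine (norm_add_le _ _).trans ?_
  rw [Complex.norm_real, Real.norm_eq_abs]
  linarith

end Pool.Agent.K1H85.CL
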