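import Pool.Agent.K1H85.CL.Stm

/-!
CL-CLT: the theorem for a chain with correctors.
-/

open MeasureTheory ProbabilityTheory Filter
open scoped Topology BigOperators ENNReal

namespace Pool.Agent.K1H85.CL

universe u v

noncomputable section

private theorem DD_meas {X : Type u} [MeasurableSpace X] {π : Measure X} {μ : Measure (X × X)}
    {f : X → ℝ} {g h a b : ℕ → X → ℝ} {γ : ℕ → ℝ} (H : Cor π μ f g h a b γ) (k : ℕ) :
    Measurable (DD f g a k) := by
  unfold DD
  exact ((((H.mg k).comp measurable_snd).sub ((H.mg k).comp measurable_fst)).add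
    (H.mf.comp measurable_fst)).sub ((H.ma k).comp measurable_fst)

private theorem DD_memLp {X : Type u} [MeasurableSpace X] {π : Measure X} {μ : Measure (X × X)}
    {f : X → ℝ} {g h a b : ℕ → X → ℝ} {γ : ℕ → ℝ} (H : Cor π μ f g h a b γ) (k : ℕ) :
    MemLp (DD f g a k) 2 μ := by
  have h1 : MeasurePreserving Prod.fst μ π := ⟨measurable_fst, H.fst⟩
  have h2 : MeasurePreserving Prod.snd μ π := ⟨measurable_snd, H.snd⟩
  exact ((((H.Lg k).comp_measurePreserving h2).sub ((H.Lg k).comp_measurePreserving h1)).add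
    (H.Lf.comp_measurePreserving h1)).sub ((H.La k).comp_measurePreserving h1)

private theorem DD_zero {X : Type u} [MeasurableSpace X] (hV : S_VAR X) {κ : Kernel X X}
    [IsMarkovKernel κ] {π : Measure X} {f : X → ℝ} {g h a b : ℕ → X → ℝ} {γ : ℕ → ℝ}
    (H : Cor π (π ⊗ₘ κ) f g h a b γ) (k : ℕ) :
    ∀ᵐ x ∂π, ∫ y, DD f g a k (x, y) ∂(κ x) = 0 := by
  have := H.pp
  have hD := DD_memLp H k
  have hI : Integrable (DD f g a k) (π ⊗ₘ κ) := hD.integrable one_le_two
  have hI2 : Integrable (fun x => ∫ y, DD f g a k (x, y) ∂(κ x)) π := by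
    have h1 := ((Measure.integrable_compProd_iff hI.1).1 hI).2
    refine h1.mono ?_ (Eventually.of_forall fun x => ?_)
    · exact ((DD_meas H k).stronglyMeasurable.integral_kernel_prod_right').aestronglyMeasurable
    · refine (norm_integral_le_integral_norm _).trans (le_abs_self _)
  refine hI2.ae_eq_zero_of_forall_setIntegral_eq_zero fun s hs _ => ?_
  have h1 := (hV π _ f g h a b γ H).2.2 k (s.indicator fun _ => 1)
    (memLp_indicator_const 2 hs 1 (Or.inr (measure_ne_top π s)))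
  have h2 : Integrable (fun p : X × X => (s.indicator (fun _ => (1 : ℝ)) p.1) * DD f g a k p)
      (π ⊗ₘ κ) := by
    refine hI.bdd_mul (c := 1) ?_ (Eventually.of_forall fun p => ?_)
    · exact (((measurable_const.indicator hs).comp measurable_fst)).aestronglyMeasurable
    · by_cases hp : p.1 ∈ s <;> simp [hp]
  rw [Measure.integral_compProd h2] at h1
  rw [← integral_indicator hs, ← h1]
  refine integral_congr_ae (Eventually.of_forall fun x => ?_)
  by_cases hx : x ∈ s <;> simp [hx]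

/-- the scale of `n` -/
private theorem scale {K l n : ℕ} (hn : 2 ^ (K + 4 * l) ≤ n) :
    ∃ k, K ≤ k ∧ 2 ^ (k + 4 * l) ≤ n ∧ n < 2 ^ (k + 4 * l + 1) := by
  have hn0 : n ≠ 0 := by
    have : 0 < 2 ^ (K + 4 * l) := by positivity
    omega
  have h1 : K + 4 * l ≤ Nat.log 2 n := Nat.le_log_of_pow_le one_lt_two hn
  refine ⟨Nat.log 2 n - 4 * l, by omega, ?_, ?_⟩
  · rw [Nat.sub_add_cancel (by omega)]
    exact Nat.pow_log_le_self 2 hn0
  · rw [Nat.sub_add_cancel (by omega)]
    exact Nat.lt_pow_succ_log_self one_lt_two n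

private theorem norm_exp_sub (u v : ℝ) : ‖Complex.exp (Complex.I * (u : ℝ)) -
    Complex.exp (Complex.I * (v : ℝ))‖ ≤ |u - v| := by
  have h1 : Complex.exp (Complex.I * (u : ℝ)) - Complex.exp (Complex.I * (v : ℝ)) =
      Complex.exp (Complex.I * (v : ℝ)) * (Complex.exp (Complex.I * ((u - v : ℝ) : ℂ)) - 1) := by
    rw [mul_sub, ← Complex.exp_add, mul_one]
    congr 2
    push_cast
    ring
  rw [h1, norm_mul, mul_comm Complex.I, Complex.norm_exp_ofReal_mul_I, one_mul]
  exact Real.norm_exp_I_mul_ofReal_sub_one_le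

theorem t_CLT (X : Type u) [MeasurableSpace X] (Ω : Type v) [MeasurableSpace Ω]
    (hK : S_KEY X Ω) (hA : S_APX X Ω) (hV : S_VAR X) (hU : S_UPD X Ω) : S_CLT X Ω := by
  intro κ _ π f g h a b γ P ξ hinv herg H hC
  have := H.pp
  have := hC.pr
  obtain ⟨⟨σ, hσ0, hσ⟩, -, -⟩ := hV π _ f g h a b γ H
  set V : ℕ → ℝ := fun j => ∫ p, DD f g a j p ^ 2 ∂(π ⊗ₘ κ) with hVd
  set S : ℕ → Ω → ℝ := fun n ω => ∑ i ∈ Finset.range n, f (ξ (i + 1) ω) with hS
  set M : ℕ → ℕ → Ω → ℝ := fun k n => Mt ξ (DD f g a k) n with hM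
  have hSm : ∀ n, Measurable (S n) := fun n =>
    Finset.measurable_fun_sum _ fun i _ => H.mf.comp (hC.meas (i + 1))
  have hD2 : ∀ k, Integrable (fun p => DD f g a k p ^ 2) (π ⊗ₘ κ) := fun k =>
    (DD_memLp H k).integrable_sq
  have hMt : ∀ k n, MemLp (M k n) 2 P ∧ ∫ ω, M k n ω ^ 2 ∂P = n * V k := by
    intro k n
    obtain ⟨-, -, h3, h4, -⟩ := hU κ π P ξ hC (DD f g a k) (DD_meas H k) (hD2 k)
      (DD_zero hV H k) 1 Set.univ one_pos MeasurableSet.univ
    exact ⟨h3 n, h4 n⟩
  have hV0 : ∀ k, 0 ≤ V k := fun k => integral_nonneg fun p => sq_nonneg _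
  have hσ' : (σ.toNNReal : ℝ) = σ := Real.coe_toNNReal σ hσ0
  refine ⟨σ.toNNReal, ?_, ?_⟩
  · -- the variance
    rw [hσ', Metric.tendsto_atTop]
    intro η hη
    set W : ℝ := σ + 1 with hW
    have hWp : 0 < W := by linarith
    set θ : ℝ := η / (4 * W) with hθ
    have hθp : 0 < θ := by positivity
    set ε' : ℝ := η / (4 * (1 + 1 / θ)) with hε'
    have hε'p : 0 < ε' := by positivity
    obtain ⟨k1, hk1⟩ := (Metric.tendsto_atTop.1 hσ) (min (η / 2) 1) (by positivity)
    obtain ⟨k0, hk0⟩ := hA κ π f g h a b γ P ξ H hC 0 ε' hε'p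
    refine ⟨2 ^ (max k0 k1 + 4 * 0), fun n hn => ?_⟩
    obtain ⟨k, hk, hn1, hn2⟩ := scale hn
    obtain ⟨hSL, hSM⟩ := hk0 k ((le_max_left _ _).trans hk) n hn1 hn2
    have hVk := hk1 k ((le_max_right _ _).trans hk)
    rw [Real.dist_eq] at hVk
    have hVk1 : |V k - σ| < η / 2 := hVk.trans_le (min_le_left _ _)
    have hVk2 : V k ≤ W := by
      have := (abs_lt.1 (hVk.trans_le (min_le_right _ _))).2
      linarith
    obtain ⟨hML, hM2⟩ := hMt k n
    have hn0 : (0 : ℝ) < n := by
      have : 0 < 2 ^ (k + 4 * 0) := by positivity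
      have h2 : 0 < n := lt_of_lt_of_le this hn1
      exact_mod_cast h2
    have hi1 : Integrable (fun ω => S n ω ^ 2) P := hSL.integrable_sq
    have hi2 : Integrable (fun ω => M k n ω ^ 2) P := hML.integrable_sq
    have hi3 : Integrable (fun ω => (S n ω - M k n ω) ^ 2) P := (hSL.sub hML).integrable_sq
    have h1 : |∫ ω, S n ω ^ 2 ∂P - ∫ ω, M k n ω ^ 2 ∂P| ≤
        (1 + 1 / θ) * ∫ ω, (S n ω - M k n ω) ^ 2 ∂P + θ * ∫ ω, M k n ω ^ 2 ∂P := by
      rw [← integral_sub hi1 hi2, ← integral_const_mul, ← integral_const_mul,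
        ← integral_add (hi3.const_mul _) (hi2.const_mul _)]
      refine (abs_integral_le_integral_abs).trans ?_
      refine integral_mono (hi1.sub hi2).abs ((hi3.const_mul _).add (hi2.const_mul _)) fun ω => ?_
      show |S n ω ^ 2 - M k n ω ^ 2| ≤
        (1 + 1 / θ) * (S n ω - M k n ω) ^ 2 + θ * M k n ω ^ 2
      set δ := S n ω - M k n ω with hδ
      set m := M k n ω with hm
      have e1 : S n ω ^ 2 - m ^ 2 = δ ^ 2 + 2 * δ * m := by rw [hδ]; ring
      rw [e1]
      have e2 : 0 ≤ (δ - θ * m) ^ 2 / θ := by positivity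
      have e3 : 0 ≤ (δ + θ * m) ^ 2 / θ := by positivity
      have e4 : (δ - θ * m) ^ 2 / θ = 1 / θ * δ ^ 2 - 2 * δ * m + θ * m ^ 2 := by
        field_simp; ring
      have e5 : (δ + θ * m) ^ 2 / θ = 1 / θ * δ ^ 2 + 2 * δ * m + θ * m ^ 2 := by
        field_simp; ring
      rw [abs_le]
      constructor <;> nlinarith [sq_nonneg δ]
    have h2 : |(∫ ω, S n ω ^ 2 ∂P) / n - V k| ≤ η / 2 := by
      have e1 : (∫ ω, S n ω ^ 2 ∂P) / n - V k = (∫ ω, S n ω ^ 2 ∂P - ∫ ω, M k n ω ^ 2 ∂P) / n := by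
        rw [hM2]; field_simp
      rw [e1, abs_div, abs_of_pos hn0, div_le_iff₀ hn0]
      refine h1.trans ?_
      rw [hM2]
      have e2 : (1 + 1 / θ) * ∫ ω, (S n ω - M k n ω) ^ 2 ∂P ≤ (1 + 1 / θ) * (ε' * n) :=
        mul_le_mul_of_nonneg_left hSM (by positivity)
      have e3 : (1 + 1 / θ) * (ε' * n) = η / 4 * n := by
        rw [hε']; field_simp
      have e4 : θ * (n * V k) ≤ θ * (n * W) :=
        mul_le_mul_of_nonneg_left (mul_le_mul_of_nonneg_left hVk2 hn0.le) hθp.le
      have e5 : θ * (n * W) = η / 4 * n := by rw [hθ]; field_simp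
      linarith
    rw [Real.dist_eq]
    calc |(∫ ω, S n ω ^ 2 ∂P) / n - σ| = |((∫ ω, S n ω ^ 2 ∂P) / n - V k) + (V k - σ)| := by
          ring_nf
      _ ≤ _ := abs_add_le _ _
      _ < η := by linarith
  · -- the characteristic functions
    have hchar : ∀ s : ℝ, Tendsto (fun n : ℕ => ∫ ω, Complex.exp (Complex.I *
        (s / √n * S n ω : ℝ)) ∂P) atTop (𝓝 ((Real.exp (-(s ^ 2 * σ / 2)) : ℝ) : ℂ)) := by
      intro s
      rw [Metric.tendsto_atTop]
      intro η hη
      obtain ⟨l, k1, hk1⟩ := hK κ π f g h a b γ P ξ hinv herg H hC σ hσ0 hσ s (η / 4)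
        (by positivity)
      set ε' : ℝ := η ^ 2 / (4 * (s ^ 2 + 1)) with hε'
      have hs1 : 0 < s ^ 2 + 1 := by positivity
      have hε'p : 0 < ε' := by positivity
      obtain ⟨k0, hk0⟩ := hA κ π f g h a b γ P ξ H hC l ε' hε'p
      refine ⟨2 ^ (max k0 k1 + 4 * l), fun n hn => ?_⟩
      obtain ⟨k, hk, hn1, hn2⟩ := scale hn
      obtain ⟨hSL, hSM⟩ := hk0 k ((le_max_left _ _).trans hk) n hn1 hn2
      have h1 := hk1 k ((le_max_right _ _).trans hk) n hn1 hn2
      obtain ⟨hML, hM2⟩ := hMt k n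
      have hn0 : (0 : ℝ) < n := by
        have : 0 < 2 ^ (k + 4 * l) := by positivity
        have h2 : 0 < n := lt_of_lt_of_le this hn1
        exact_mod_cast h2
      have hi3 : Integrable (fun ω => (S n ω - M k n ω) ^ 2) P := (hSL.sub hML).integrable_sq
      have hb : ∀ Y : Ω → ℝ, AEStronglyMeasurable Y P → Integrable (fun ω =>
          Complex.exp (Complex.I * (s / √n * Y ω : ℝ))) P := by
        intro Y hY
        refine Integrable.of_bound ?_ 1 (Eventually.of_forall fun ω => ?_)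
        · have hc : Continuous fun y : ℝ => Complex.exp (Complex.I * (s / √n * y : ℝ)) := by
            fun_prop
          exact hc.comp_aestronglyMeasurable hY
        · rw [mul_comm Complex.I, Complex.norm_exp_ofReal_mul_I]
      have hbS := hb (S n) (hSm n).aestronglyMeasurable
      have hbM := hb (M k n) hML.1
      have h2 : ‖(∫ ω, Complex.exp (Complex.I * (s / √n * S n ω : ℝ)) ∂P) -
          ∫ ω, Complex.exp (Complex.I * (s / √n * M k n ω : ℝ)) ∂P‖ ≤ η / 2 := by
        rw [← integral_sub hbS hbM]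
        refine (norm_integral_le_integral_norm _).trans ?_
        have e1 : ∫ ω, ‖Complex.exp (Complex.I * (s / √n * S n ω : ℝ)) -
            Complex.exp (Complex.I * (s / √n * M k n ω : ℝ))‖ ∂P ≤
            ∫ ω, (η / 4 + s ^ 2 / (η * n) * (S n ω - M k n ω) ^ 2) ∂P := by
          refine integral_mono (hbS.sub hbM).norm ((integrable_const _).add (hi3.const_mul _))
            fun ω => ?_
          refine (norm_exp_sub _ _).trans ?_
          rw [← mul_sub, abs_mul]
          set y := |s / √n| * |S n ω - M k n ω| with hy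
          have e2 : y ^ 2 = s ^ 2 / n * (S n ω - M k n ω) ^ 2 := by
            rw [hy, mul_pow, sq_abs, sq_abs, div_pow, Real.sq_sqrt hn0.le]
          have e3 : s ^ 2 / (η * n) * (S n ω - M k n ω) ^ 2 = y ^ 2 / η := by
            rw [e2]; field_simp
          show y ≤ η / 4 + s ^ 2 / (η * n) * (S n ω - M k n ω) ^ 2
          rw [e3]
          have e4 : 0 ≤ (y - η / 2) ^ 2 / η := by positivity
          have e5 : (y - η / 2) ^ 2 / η = y ^ 2 / η - y + η / 4 := by field_simp; ring
          linarith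
        refine e1.trans ?_
        rw [integral_add (integrable_const _) (hi3.const_mul _), integral_const_mul]
        simp only [integral_const, probReal_univ, one_smul]
        have e6 : s ^ 2 / (η * n) * ∫ ω, (S n ω - M k n ω) ^ 2 ∂P ≤
            s ^ 2 / (η * n) * (ε' * n) := mul_le_mul_of_nonneg_left hSM (by positivity)
        have e7 : s ^ 2 / (η * n) * (ε' * n) = η / 4 * (s ^ 2 / (s ^ 2 + 1)) := by
          rw [hε']; field_simp
        have e8 : s ^ 2 / (s ^ 2 + 1) ≤ 1 := by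
          rw [div_le_one hs1]; linarith
        have e9 : η / 4 * (s ^ 2 / (s ^ 2 + 1)) ≤ η / 4 * 1 :=
          mul_le_mul_of_nonneg_left e8 (by positivity)
        linarith
      rw [dist_eq_norm]
      have h3 := norm_add_le ((∫ ω, Complex.exp (Complex.I * (s / √n * S n ω : ℝ)) ∂P) -
          ∫ ω, Complex.exp (Complex.I * (s / √n * M k n ω : ℝ)) ∂P)
        ((∫ ω, Complex.exp (Complex.I * (s / √n * M k n ω : ℝ)) ∂P) -
          ((Real.exp (-(s ^ 2 * σ / 2)) : ℝ) : ℂ))
      rw [sub_add_sub_cancel] at h3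
      have h4 : ‖(∫ ω, Complex.exp (Complex.I * (s / √n * M k n ω : ℝ)) ∂P) -
          ((Real.exp (-(s ^ 2 * σ / 2)) : ℝ) : ℂ)‖ ≤ η / 4 := h1
      linarith
    -- Levy
    have hSn : ∀ n : ℕ, Measurable fun ω => S n ω / √n := fun n => (hSm n).div_const _
    let μn : ℕ → ProbabilityMeasure ℝ := fun n =>
      ⟨P.map (fun ω => S n ω / √n), Measure.isProbabilityMeasure_map (hSn n).aemeasurable⟩
    let μ₀ : ProbabilityMeasure ℝ := ⟨gaussianReal 0 σ.toNNReal, inferInstance⟩
    have hL : Tendsto μn atTop (𝓝 μ₀) := by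
      refine ProbabilityMeasure.tendsto_iff_tendsto_charFun.2 fun s => ?_
      have h1 : charFun (μ₀ : Measure ℝ) s = ((Real.exp (-(s ^ 2 * σ / 2)) : ℝ) : ℂ) := by
        show charFun (gaussianReal 0 σ.toNNReal) s = _
        have h0 : ((σ.toNNReal : ℝ) : ℂ) = (σ : ℂ) := by rw [hσ']
        rw [charFun_gaussianReal, Complex.ofReal_exp]
        congr 1
        push_cast
        rw [h0]
        ring
      have h2 : ∀ n, charFun (μn n : Measure ℝ) s =
          ∫ ω, Complex.exp (Complex.I * (s / √n * S n ω : ℝ)) ∂P := by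
        intro n
        show charFun (P.map (fun ω => S n ω / √n)) s = _
        rw [charFun_apply_real, integral_map (hSn n).aemeasurable (by fun_prop)]
        refine integral_congr_ae (Eventually.of_forall fun ω => ?_)
        show Complex.exp (s * ((S n ω / √n : ℝ) : ℂ) * Complex.I) = _
        congr 1
        push_cast
        ring
      rw [h1]
      simp_rw [h2]
      exact hchar s
    intro φ
    have h1 := (ProbabilityMeasure.tendsto_iff_forall_integral_tendsto.1 hL) φ
    have h2 : ∀ n, ∫ x, φ x ∂(μn n : Measure ℝ) = ∫ ω, φ (S n ω / √n) ∂P := by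
      intro n
      show ∫ x, φ x ∂(P.map (fun ω => S n ω / √n)) = _
      rw [integral_map (hSn n).aemeasurable φ.continuous.aestronglyMeasurable]
    simp_rw [h2] at h1
    exact h1

end

end Pool.Agent.K1H85.CL
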