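import Pool.Agent.K1H85.CL.SE

/-!
The end.
-/

open MeasureTheory ProbabilityTheory Filter
open scoped Topology BigOperators ENNReal

namespace Pool.Agent.K1H85.CL

universe u

theorem t_END (X : Type u) [MeasurableSpace X] (hG : S_GF) (hB : S_BND X) (hV : S_VAR X) :
    S_END X := by
  intro π μ f g h a b γ C m k r hmk hr
  have hs : (2 * (k - m)) % 2 = 0 := by omega
  have hk : m + 2 * (k - m) / 2 = k := by omega
  set N := 2 * (k - m) with hN
  have hpm : IsProbabilityMeasure μ := C.pm
  have her := C.er_le m N N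
  have hgm := C.gm_le_tl hmk
  have htl := C.tl_nonneg m
  have ha := C.a_sq_le hmk
  have hnP := C.int_nP_le hB m N N
  have inn := C.igr_nn m N N
  have inP := C.igr_nP m N N
  have ivE : Integrable (fun p => vE f g h m N p ^ 2) μ := (C.L_vE m N).integrable_sq
  have iDD : Integrable (fun p => DD f g a k p ^ 2) μ := (C.L_DD k).integrable_sq
  have ia : Integrable (fun x => a k x ^ 2) π := (C.La k).integrable_sq
  -- the comparison of Gs with the second order remainder
  have hsplit : ∀ ψ : X → ℝ, Measurable ψ → (∀ x, 0 ≤ ψ x) → (∀ x, ψ x ≤ 1) →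
      Integrable (fun p : X × X => ψ p.1 * Gr f g h m N N r p) μ ∧
      |Gs μ f g h m N N r ψ - ∫ p, ψ p.1 * Gr f g h m N N r p ∂μ| ≤ 320014 * tl γ m := by
    intro ψ hψ h0 h1
    obtain ⟨e1, e2⟩ := C.igr_ψGr hB m N hs hr hψ h0 h1
    refine ⟨e1, e2.trans ?_⟩
    rw [hk]
    linarith
  have hvE : ∀ ψ : X → ℝ, Measurable ψ → (∀ x, 0 ≤ ψ x) → (∀ x, ψ x ≤ 1) →
      ∫ p, ψ p.1 * vE f g h m N p ^ 2 ∂μ =
        ∫ p, ψ p.1 * DD f g a k p ^ 2 ∂μ + ∫ x, ψ x * a k x ^ 2 ∂π := by
    intro ψ hψ h0 h1
    have := C.int_vE_sq hV m hs hψ h0 h1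
    rwa [hk] at this
  refine ⟨?_, ?_⟩
  · intro ψ hψ h0 h1
    obtain ⟨e1, e2⟩ := hsplit ψ hψ h0 h1
    have e3 : ∫ p, ψ p.1 * Gr f g h m N N r p ∂μ ≤ ∫ p, ψ p.1 * vE f g h m N p ^ 2 ∂μ
        + ∫ p, nP g h m N N p ∂μ := by
      rw [← integral_add (C.igr_ψ ivE hψ h0 h1) inP]
      refine integral_mono e1 ((C.igr_ψ ivE hψ h0 h1).add inP) fun p => ?_
      obtain ⟨-, -, -, g4, -⟩ := Gr_spec hG f g h m N N hr p
      have g5 := nP_nonneg g h m N N p
      have g6 : ψ p.1 * Gr f g h m N N r p ≤ ψ p.1 * nn f g h m N N p :=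
        mul_le_mul_of_nonneg_left g4 (h0 p.1)
      have g7 : ψ p.1 * nP g h m N N p ≤ 1 * nP g h m N N p :=
        mul_le_mul_of_nonneg_right (h1 p.1) g5
      show ψ p.1 * Gr f g h m N N r p ≤ ψ p.1 * vE f g h m N p ^ 2 + nP g h m N N p
      unfold nn at g6
      linarith
    have e4 : ∫ x, ψ x * a k x ^ 2 ∂π ≤ ∫ x, a k x ^ 2 ∂π := by
      have i3' : Integrable (fun x : X => ψ x * a k x ^ 2) π := by
        refine Integrable.bdd_mul (c := 1) ia hψ.aestronglyMeasurable
          (Eventually.of_forall fun x => ?_)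
        rw [Real.norm_eq_abs, abs_of_nonneg (h0 x)]
        exact h1 x
      refine integral_mono i3' ia fun x => ?_
      show ψ x * a k x ^ 2 ≤ a k x ^ 2
      nlinarith [sq_nonneg (a k x), h1 x]
    have e5 := hvE ψ hψ h0 h1
    have e6 := abs_le.mp e2
    linarith
  · -- the defect
    obtain ⟨e1, e2⟩ := hsplit (fun _ => 1) measurable_const (fun _ => zero_le_one) (fun _ => le_rfl)
    have e5 := hvE (fun _ => 1) measurable_const (fun _ => zero_le_one) (fun _ => le_rfl)
    simp only [one_mul] at e1 e2 e5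
    have iG : Integrable (Gr f g h m N N r) μ := e1
    have hDef : ∫ p, (nn f g h m N N p - Gr f g h m N N r p) ∂μ ≤
        ∫ p, DD f g a k p ^ 2 ∂μ - Gs μ f g h m N N r (fun _ => 1) + 560015 * tl γ m := by
      rw [integral_sub inn iG]
      have : ∫ p, nn f g h m N N p ∂μ = ∫ p, vE f g h m N p ^ 2 ∂μ + ∫ p, nP g h m N N p ∂μ :=
        integral_add ivE inP
      rw [this, e5]
      have e6 := abs_le.mp e2
      linarith
    have iDf : Integrable (fun p => nn f g h m N N p - Gr f g h m N N r p) μ := inn.sub iG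
    have ia1 : Integrable (fun p : X × X => a k p.1 ^ 2) μ := C.igr_fst ia
    have ea1 : ∫ p, a k p.1 ^ 2 ∂μ = ∫ x, a k x ^ 2 ∂π :=
      C.int_fst (F := fun x => a k x ^ 2) ia.1
    -- integral over a set where the remainder is small
    have key : ∀ A : Set (X × X), MeasurableSet A → (∀ p ∈ A,
        DD f g a k p ^ 2 ≤ 4 * (nn f g h m N N p - Gr f g h m N N r p) + 4 * a k p.1 ^ 2) →
        ∫ p in A, DD f g a k p ^ 2 ∂μ ≤
          4 * (∫ p, DD f g a k p ^ 2 ∂μ - Gs μ f g h m N N r (fun _ => 1))
            + 10000000 * tl γ m := by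
      intro A hA hAp
      have iR : Integrable (fun p : X × X => 4 * (nn f g h m N N p - Gr f g h m N N r p)
          + 4 * a k p.1 ^ 2) μ := (iDf.const_mul 4).add (ia1.const_mul 4)
      calc ∫ p in A, DD f g a k p ^ 2 ∂μ
          ≤ ∫ p in A, (4 * (nn f g h m N N p - Gr f g h m N N r p) + 4 * a k p.1 ^ 2) ∂μ :=
            setIntegral_mono_on iDD.integrableOn iR.integrableOn hA hAp
        _ ≤ ∫ p, (4 * (nn f g h m N N p - Gr f g h m N N r p) + 4 * a k p.1 ^ 2) ∂μ := by
            refine setIntegral_le_integral iR (Eventually.of_forall fun p => ?_)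
            obtain ⟨-, -, -, g4, -⟩ := Gr_spec hG f g h m N N hr p
            show 0 ≤ 4 * (nn f g h m N N p - Gr f g h m N N r p) + 4 * a k p.1 ^ 2
            have := sq_nonneg (a k p.1)
            linarith
        _ = 4 * ∫ p, (nn f g h m N N p - Gr f g h m N N r p) ∂μ + 4 * ∫ x, a k x ^ 2 ∂π := by
            rw [integral_add (iDf.const_mul 4) (ia1.const_mul 4), integral_const_mul,
              integral_const_mul, ea1]
        _ ≤ _ := by linarith
    have hvd : ∀ p : X × X, vE f g h m N p = DD f g a k p + a k p.1 := by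
      intro p
      have := vE_DD f g h a m hs p
      rwa [hk] at this
    have hhalf : ∀ p : X × X, Gr f g h m N N r p ≤ nn f g h m N N p / 2 →
        DD f g a k p ^ 2 ≤ 4 * (nn f g h m N N p - Gr f g h m N N r p) + 4 * a k p.1 ^ 2 := by
      intro p hp
      have h1 : vE f g h m N p ^ 2 ≤ nn f g h m N N p := by
        unfold nn
        linarith [nP_nonneg g h m N N p]
      have h2 := hvd p
      have h3 : DD f g a k p = vE f g h m N p - a k p.1 := by linarith
      have h4 : DD f g a k p ^ 2 ≤ 2 * vE f g h m N p ^ 2 + 2 * a k p.1 ^ 2 := by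
        rw [h3]
        nlinarith [sq_nonneg (vE f g h m N p + a k p.1)]
      nlinarith [sq_nonneg (a k p.1)]
    have mDD : Measurable (DD f g a k) := by
      unfold DD
      exact (((C.mg k).comp measurable_snd).sub ((C.mg k).comp measurable_fst)).add
        (C.mf.comp measurable_fst) |>.sub ((C.ma k).comp measurable_fst)
    refine ⟨?_, ?_⟩
    · refine key _ ?_ ?_
      · exact measurableSet_lt measurable_const
          ((meas_nv C.mg C.mh C.mf m N N).comp measurable_fst)
      · intro p hp
        obtain ⟨-, -, -, -, g5⟩ := Gr_spec hG f g h m N N hr p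
        exact hhalf p (g5 (Or.inl (le_of_lt hp)))
    · refine key _ ?_ ?_
      · exact measurableSet_le measurable_const mDD.abs
      · intro p hp
        have hp' : 32 * r ≤ |DD f g a k p| := hp
        obtain ⟨-, -, -, g4, g5⟩ := Gr_spec hG f g h m N N hr p
        by_cases hc : |a k p.1| ≤ |DD f g a k p| / 2
        · refine hhalf p (g5 (Or.inr ?_))
          have h1 : 16 * r ≤ |vE f g h m N p| := by
            rw [hvd p]
            have := abs_sub_abs_le_abs_sub (DD f g a k p) (-(a k p.1))
            rw [abs_neg, sub_neg_eq_add] at this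
            linarith
          have h2 : (16 * r) ^ 2 ≤ vE f g h m N p ^ 2 := by
            rw [← sq_abs (vE f g h m N p)]
            exact pow_le_pow_left₀ (by positivity) h1 2
          have h3 : vE f g h m N p ^ 2 ≤ nn f g h m N N p := by
            unfold nn
            linarith [nP_nonneg g h m N N p]
          nlinarith
        · push Not at hc
          have h1 : |DD f g a k p| ≤ 2 * |a k p.1| := by linarith
          have h2 : DD f g a k p ^ 2 ≤ (2 * |a k p.1|) ^ 2 := by
            rw [← sq_abs (DD f g a k p)]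
            exact pow_le_pow_left₀ (abs_nonneg _) h1 2
          rw [mul_pow, sq_abs] at h2
          linarith

end Pool.Agent.K1H85.CL
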