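import Pool.Agent.K1H85.CL.StepAux

/-!
Project CL: the even steps.
-/

open MeasureTheory ProbabilityTheory Filter
open scoped Topology BigOperators ENNReal

namespace Pool.Agent.K1H85.CL

universe u

/-- Cauchy-Schwarz for the weighted inner product of `ℝ × ℝ^N`. -/
lemma wcs (N : ℕ) (w x d : ℕ → ℝ) (hw : ∀ t, 0 ≤ w t) (e δ c : ℝ) (hc : 0 ≤ c) :
    (e * δ + c * ∑ t ∈ Finset.range N, w t * x t * d t) ^ 2 ≤
      (e ^ 2 + c * ∑ t ∈ Finset.range N, w t * x t ^ 2) *
        (δ ^ 2 + c * ∑ t ∈ Finset.range N, w t * d t ^ 2) := by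
  have key : ∀ u : ℝ, 0 ≤ (e ^ 2 + c * ∑ t ∈ Finset.range N, w t * x t ^ 2) * (u * u) +
      (2 * (e * δ + c * ∑ t ∈ Finset.range N, w t * x t * d t)) * u +
        (δ ^ 2 + c * ∑ t ∈ Finset.range N, w t * d t ^ 2) := by
    intro u
    have h1 : (e ^ 2 + c * ∑ t ∈ Finset.range N, w t * x t ^ 2) * (u * u) +
      (2 * (e * δ + c * ∑ t ∈ Finset.range N, w t * x t * d t)) * u +
        (δ ^ 2 + c * ∑ t ∈ Finset.range N, w t * d t ^ 2) =
        (e * u + δ) ^ 2 + c * ∑ t ∈ Finset.range N, w t * (x t * u + d t) ^ 2 := by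
      have : ∑ t ∈ Finset.range N, w t * (x t * u + d t) ^ 2 =
          (∑ t ∈ Finset.range N, w t * x t ^ 2) * (u * u) +
            2 * (∑ t ∈ Finset.range N, w t * x t * d t) * u +
              ∑ t ∈ Finset.range N, w t * d t ^ 2 := by
        rw [Finset.sum_mul, Finset.mul_sum, Finset.sum_mul, ← Finset.sum_add_distrib,
          ← Finset.sum_add_distrib]
        exact Finset.sum_congr rfl fun t _ => by ring
      rw [this]; ring
    rw [h1]
    have : 0 ≤ ∑ t ∈ Finset.range N, w t * (x t * u + d t) ^ 2 :=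
      Finset.sum_nonneg fun t _ => mul_nonneg (hw t) (sq_nonneg _)
    positivity
  have hd := discrim_le_zero key
  unfold discrim at hd
  nlinarith

/-- the linear part is at most `5 r |v|`. -/
lemma lin_bd (N s : ℕ) (r z y δ : ℝ) (x d : ℕ → ℝ) (hr : 0 < r) :
    (2 * (9 / 8 * r) / √((9 / 8 * r) ^ 2 + nrm2 N (s + 1) (z + y) x) * (z + y)
          - 2 * r / √(r ^ 2 + nrm2 N s z x) * z) * δ
      + 10000 * ∑ t ∈ Finset.range N,
          (2 * (9 / 8 * r) / √((9 / 8 * r) ^ 2 + nrm2 N (s + 1) (z + y) x) * cw (s + 1) t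
            - 2 * r / √(r ^ 2 + nrm2 N s z x) * cw s t) * x t * d t =
    2 * (9 / 8 * r) / √((9 / 8 * r) ^ 2 + nrm2 N (s + 1) (z + y) x) *
        ((z + y) * δ + 10000 * ∑ t ∈ Finset.range N, cw (s + 1) t * x t * d t)
      - 2 * r / √(r ^ 2 + nrm2 N s z x) *
        (z * δ + 10000 * ∑ t ∈ Finset.range N, cw s t * x t * d t) ∧
    ((2 * (9 / 8 * r) / √((9 / 8 * r) ^ 2 + nrm2 N (s + 1) (z + y) x) * (z + y)
          - 2 * r / √(r ^ 2 + nrm2 N s z x) * z) * δ
      + 10000 * ∑ t ∈ Finset.range N,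
          (2 * (9 / 8 * r) / √((9 / 8 * r) ^ 2 + nrm2 N (s + 1) (z + y) x) * cw (s + 1) t
            - 2 * r / √(r ^ 2 + nrm2 N s z x) * cw s t) * x t * d t) ^ 2 ≤
      25 * r ^ 2 * (δ ^ 2 + 10000 * ∑ t ∈ Finset.range N, cw s t * d t ^ 2) := by
  have hq0 := nrm2_nonneg N s z x
  have hq1 := nrm2_nonneg N (s + 1) (z + y) x
  set q0 := nrm2 N s z x with hq0d
  set q1 := nrm2 N (s + 1) (z + y) x with hq1d
  set A := 2 * (9 / 8 * r) / √((9 / 8 * r) ^ 2 + q1) with hA
  set B := 2 * r / √(r ^ 2 + q0) with hB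
  have hid : (A * (z + y) - B * z) * δ + 10000 * ∑ t ∈ Finset.range N,
      (A * cw (s + 1) t - B * cw s t) * x t * d t =
      A * ((z + y) * δ + 10000 * ∑ t ∈ Finset.range N, cw (s + 1) t * x t * d t)
      - B * (z * δ + 10000 * ∑ t ∈ Finset.range N, cw s t * x t * d t) := by
    have : ∑ t ∈ Finset.range N, (A * cw (s + 1) t - B * cw s t) * x t * d t =
        A * ∑ t ∈ Finset.range N, cw (s + 1) t * x t * d t -
          B * ∑ t ∈ Finset.range N, cw s t * x t * d t := by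
      rw [Finset.mul_sum, Finset.mul_sum, ← Finset.sum_sub_distrib]
      exact Finset.sum_congr rfl fun t _ => by ring
    rw [this]; ring
  refine ⟨hid, ?_⟩
  rw [hid]
  set P := (z + y) * δ + 10000 * ∑ t ∈ Finset.range N, cw (s + 1) t * x t * d t with hP
  set Q := z * δ + 10000 * ∑ t ∈ Finset.range N, cw s t * x t * d t with hQ
  set V := δ ^ 2 + 10000 * ∑ t ∈ Finset.range N, cw s t * d t ^ 2 with hV
  have hV0 : 0 ≤ V := by
    have : 0 ≤ ∑ t ∈ Finset.range N, cw s t * d t ^ 2 :=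
      Finset.sum_nonneg fun t _ => mul_nonneg (cw_pos s t).le (sq_nonneg _)
    positivity
  have hPle : P ^ 2 ≤ q1 * (81 / 64 * V) := by
    have h1 := wcs N (cw (s + 1)) x d (fun t => (cw_pos _ _).le) (z + y) δ 10000 (by norm_num)
    refine h1.trans ?_
    have h2 : δ ^ 2 + 10000 * ∑ t ∈ Finset.range N, cw (s + 1) t * d t ^ 2 ≤ 81 / 64 * V := by
      have h3 : ∑ t ∈ Finset.range N, cw (s + 1) t * d t ^ 2 ≤
          81 / 64 * ∑ t ∈ Finset.range N, cw s t * d t ^ 2 := by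
        rw [Finset.mul_sum]
        refine Finset.sum_le_sum fun t _ => ?_
        have := mul_le_mul_of_nonneg_right (cw_succ_le s t) (sq_nonneg (d t))
        linarith
      rw [hV]
      nlinarith [sq_nonneg δ]
    exact mul_le_mul_of_nonneg_left h2 hq1
  have hQle : Q ^ 2 ≤ q0 * V := wcs N (cw s) x d (fun t => (cw_pos _ _).le) z δ 10000 (by norm_num)
  have hM1 : √((9 / 8 * r) ^ 2 + q1) ^ 2 = (9 / 8 * r) ^ 2 + q1 := Real.sq_sqrt (by positivity)
  have hM0 : √(r ^ 2 + q0) ^ 2 = r ^ 2 + q0 := Real.sq_sqrt (by positivity)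
  have hAP : (A * P) ^ 2 ≤ 4 * (81 / 64) ^ 2 * r ^ 2 * V := by
    rw [hA, mul_pow, div_pow, hM1]
    rw [div_mul_eq_mul_div, div_le_iff₀ (by positivity)]
    have h2 : (2 * (9 / 8 * r)) ^ 2 * P ^ 2 ≤ (2 * (9 / 8 * r)) ^ 2 * (q1 * (81 / 64 * V)) :=
      mul_le_mul_of_nonneg_left hPle (sq_nonneg _)
    have h3 : 0 ≤ 4 * (81 / 64) ^ 2 * r ^ 2 * V * (9 / 8 * r) ^ 2 := by positivity
    nlinarith
  have hBQ : (B * Q) ^ 2 ≤ 4 * r ^ 2 * V := by
    rw [hB, mul_pow, div_pow, hM0]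
    rw [div_mul_eq_mul_div, div_le_iff₀ (by positivity)]
    have h2 : (2 * r) ^ 2 * Q ^ 2 ≤ (2 * r) ^ 2 * (q0 * V) :=
      mul_le_mul_of_nonneg_left hQle (sq_nonneg _)
    have h3 : 0 ≤ 4 * r ^ 2 * V * r ^ 2 := by positivity
    nlinarith
  have hfin : (A * P - B * Q) ^ 2 ≤ 9 / 4 * (A * P) ^ 2 + 9 / 5 * (B * Q) ^ 2 := by
    nlinarith [sq_nonneg (5 / 4 * (A * P) + (B * Q)), sq_nonneg (A * P), sq_nonneg (B * Q)]
  have h8 : 0 ≤ r ^ 2 * V := by positivity
  nlinarith

theorem t_EVEN (X : Type u) [MeasurableSpace X] (hSC : S_SC) (hB : S_BND X) : S_EVEN X := by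
  intro π μ f g h a b γ C m N s r ψ ψs hs heven hr hψ hψs h0 h1 hs0 hs1 hdual
  have hpm := C.pm
  have hpp := C.pp
  -- the pieces
  set Φ1 : X → ℝ := fun x => ψs x * (cA f g h m N s r x * (zz f g h m s x + xx g h m s x)
          - cB f g h m N s r x * zz f g h m s x) with hΦ1
  set Φ2 : ℕ → X → ℝ := fun t x => ψs x * (cA f g h m N s r x * (cw (s + 1) t / cw s t)
      - cB f g h m N s r x) * xx g h m t x with hΦ2
  set dd : ℕ → X × X → ℝ := fun t p => xe g h m t p - xx g h m t p.2 with hdd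
  set LL : X × X → ℝ := fun p =>
    (cA f g h m N s r p.2 * (zz f g h m s p.2 + xx g h m s p.2)
          - cB f g h m N s r p.2 * zz f g h m s p.2) * (ee g h m s p - zz f g h m s p.2)
      + 10000 * ∑ t ∈ Finset.range N,
          (cA f g h m N s r p.2 * cw (s + 1) t - cB f g h m N s r p.2 * cw s t)
            * xx g h m t p.2 * (xe g h m t p - xx g h m t p.2) with hLL
  set VV : X × X → ℝ := fun p => (ee g h m s p - zz f g h m s p.2) ^ 2
      + 10000 * ∑ t ∈ Finset.range N, cw s t * dd t p ^ 2 with hVV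
  have hΦ1L : MemLp Φ1 2 π := (C.Phi1_int hB m N s hr hψs hs0 hs1).1
  have hΦ1I : ∫ x, Φ1 x ^ 2 ∂π ≤ 416 * (2 ^ (m + s / 2) * gm γ (m + s / 2)) :=
    (C.Phi1_int hB m N s hr hψs hs0 hs1).2
  have hΦ2L : ∀ t, MemLp (Φ2 t) 2 π := fun t => (C.Phi2_int hB m N s t hr hψs hs0 hs1).1
  have hΦ2I : ∀ t, ∫ x, Φ2 t x ^ 2 ∂π ≤ 36 * (2 ^ (m + t / 2) * gm γ (m + t / 2)) :=
    fun t => (C.Phi2_int hB m N s t hr hψs hs0 hs1).2
  have hddL : ∀ t, MemLp (dd t) 2 μ := fun t => (C.L_xe m t).sub (C.mem_snd (C.L_xx m t))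
  have hδ : ∀ p : X × X, ee g h m s p - zz f g h m s p.2 =
      h (m + s / 2) p.1 - h (m + s / 2) p.2 + f p.2 := by
    intro p; unfold ee zz; ring
  have hδL : MemLp (fun p : X × X => ee g h m s p - zz f g h m s p.2) 2 μ :=
    (C.L_ee m s).sub (C.mem_snd (C.L_zz m s))
  have iVV : Integrable VV μ := by
    refine (hδL.integrable_sq).add (Integrable.const_mul ?_ _)
    exact integrable_finsetSum _ fun t _ => ((hddL t).integrable_sq).const_mul _
  -- LL
  have hLLsq : ∀ p, LL p ^ 2 ≤ 25 * r ^ 2 * VV p := by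
    intro p
    have h2 := (lin_bd N s r (zz f g h m s p.2) (xx g h m s p.2)
      (ee g h m s p - zz f g h m s p.2) (fun t => xx g h m t p.2) (fun t => dd t p) hr).2
    have e3 : nrm2 N (s + 1) (zz f g h m s p.2 + xx g h m s p.2) (fun t => xx g h m t p.2)
      = nv f g h m N (s + 1) p.2 := by unfold nv; rw [zz_succ]
    rw [e3] at h2
    exact h2
  have hLLm : Measurable LL := by
    have m1 := meas_cA C.mg C.mh C.mf m N s r
    have m2 := meas_cB C.mg C.mh C.mf m N s r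
    have m3 := meas_zz C.mg C.mh C.mf m s
    have m4 := fun t => meas_xx C.mg C.mh m t
    have m5 := meas_ee C.mg C.mh m s
    have m6 := fun t => meas_xe C.mg C.mh m t
    have hsn : Measurable (Prod.snd : X × X → X) := measurable_snd
    have n1 := m1.comp hsn
    have n2 := m2.comp hsn
    have n3 := m3.comp hsn
    have n4 := fun t => (m4 t).comp hsn
    refine Measurable.add ?_ (Measurable.const_mul ?_ _)
    · exact ((n1.mul (n3.add (n4 s))).sub (n2.mul n3)).mul (m5.sub n3)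
    · refine Finset.measurable_fun_sum _ fun t _ => ?_
      exact (((n1.mul_const _).sub (n2.mul_const _)).mul (n4 t)).mul ((m6 t).sub (n4 t))
  have hLLi : Integrable (fun p => LL p ^ 2) μ := by
    refine (iVV.const_mul (25 * r ^ 2)).mono' (hLLm.pow_const 2).aestronglyMeasurable
      (Eventually.of_forall fun p => ?_)
    rw [Real.norm_eq_abs, abs_of_nonneg (sq_nonneg _)]
    exact hLLsq p
  have hLLL : MemLp LL 2 μ := (memLp_two_iff_integrable_sq hLLm.aestronglyMeasurable).2 hLLi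
  -- the lower bound
  set L1 : X × X → ℝ := fun p => Φ1 p.2 * (ee g h m s p - zz f g h m s p.2) with hL1
  set L2 : ℕ → X × X → ℝ := fun t p => cw s t * (Φ2 t p.2 * dd t p) with hL2
  set L3 : ℕ → X × X → ℝ := fun t p => cw s t * (ψ p.1 * dd t p ^ 2) with hL3
  have iL1 : Integrable L1 μ := (C.mem_snd hΦ1L).integrable_mul hδL
  have iL2 : ∀ t, Integrable (L2 t) μ := fun t =>
    ((C.mem_snd (hΦ2L t)).integrable_mul (hddL t)).const_mul _
  have iψ : ∀ F : X × X → ℝ, Integrable F μ → Integrable (fun p => ψ p.1 * F p) μ := by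
    intro F hF
    refine hF.bdd_mul (c := 1) (hψ.comp measurable_fst).aestronglyMeasurable
      (Eventually.of_forall fun p => ?_)
    rw [Real.norm_eq_abs, abs_of_nonneg (h0 _)]; exact h1 _
  have iL3 : ∀ t, Integrable (L3 t) μ := fun t =>
    (iψ _ ((hddL t).integrable_sq)).const_mul _
  have iPE : Integrable (fun p : X × X => ψ p.1 * PsE g h m N s r p) μ :=
    iψ _ (C.igr_PsE m N s hr)
  have iPV : Integrable (fun p : X × X => ψ p.1 * PsV f g h m N s r p.2) μ :=
    iψ _ (C.igr_snd (C.igr_PsV m N s hr))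
  have hψ2 : MemLp ψ 2 π := by
    refine MemLp.of_bound hψ.aestronglyMeasurable 1 (Eventually.of_forall fun x => ?_)
    rw [Real.norm_eq_abs, abs_of_nonneg (h0 _)]; exact h1 _
  have hψs2 : MemLp ψs 2 π := by
    refine MemLp.of_bound hψs.aestronglyMeasurable 1 (Eventually.of_forall fun x => ?_)
    rw [Real.norm_eq_abs, abs_of_nonneg (hs0 _)]; exact hs1 _
  have hdiffL : MemLp (fun p : X × X => ψ p.1 - ψs p.2) 2 μ := (C.mem_fst hψ2).sub (C.mem_snd hψs2)
  have iD : Integrable (fun p : X × X => (ψ p.1 - ψs p.2) * LL p) μ := hdiffL.integrable_mul hLLL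
  have iS2 : Integrable (fun p => 10000 * ∑ t ∈ Finset.range N, L2 t p) μ :=
    (integrable_finsetSum _ fun t _ => iL2 t).const_mul _
  have iS3 : Integrable (fun p => 5000000 * ∑ t ∈ Finset.range N, L3 t p) μ :=
    (integrable_finsetSum _ fun t _ => iL3 t).const_mul _
  have hweight : ∀ p : X × X, ψs p.2 * LL p = L1 p + 10000 * ∑ t ∈ Finset.range N, L2 t p := by
    intro p
    have e2 : ∑ t ∈ Finset.range N, L2 t p = ψs p.2 * ∑ t ∈ Finset.range N,
          (cA f g h m N s r p.2 * cw (s + 1) t - cB f g h m N s r p.2 * cw s t)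
            * xx g h m t p.2 * (xe g h m t p - xx g h m t p.2) := by
      rw [Finset.mul_sum]
      refine Finset.sum_congr rfl fun t _ => ?_
      simp only [hL2, hΦ2, hdd]
      have : cw s t ≠ 0 := (cw_pos s t).ne'
      field_simp
    rw [e2]
    simp only [hL1, hΦ1, hLL]
    ring
  have hpoint : ∀ p : X × X, ψ p.1 * PsV f g h m N s r p.2 + ((ψ p.1 - ψs p.2) * LL p
      + (L1 p + 10000 * ∑ t ∈ Finset.range N, L2 t p))
      - 5000000 * ∑ t ∈ Finset.range N, L3 t p ≤ ψ p.1 * PsE g h m N s r p := by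
    intro p
    have hxe : xe g h m s p = xx g h m s p.2 := by
      unfold xe; rw [if_pos heven]
    have h2 := pw hSC f g h m N s r hs hr p.2 p hxe
    have h3 := mul_le_mul_of_nonneg_left h2 (h0 p.1)
    have e3 : ∑ t ∈ Finset.range N, L3 t p = ψ p.1 * ∑ t ∈ Finset.range N,
        cw s t * (xe g h m t p - xx g h m t p.2) ^ 2 := by
      rw [Finset.mul_sum]
      refine Finset.sum_congr rfl fun t _ => ?_
      simp only [hL3, hdd]; ring
    rw [← hweight p, e3]
    have e4 : (ψ p.1 - ψs p.2) * LL p + ψs p.2 * LL p = ψ p.1 * LL p := by ring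
    rw [e4]
    have e5 : PsV f g h m N s r p.2
      + (cA f g h m N s r p.2 * (zz f g h m s p.2 + xx g h m s p.2)
          - cB f g h m N s r p.2 * zz f g h m s p.2) * (ee g h m s p - zz f g h m s p.2)
      + 10000 * ∑ t ∈ Finset.range N,
          (cA f g h m N s r p.2 * cw (s + 1) t - cB f g h m N s r p.2 * cw s t)
            * xx g h m t p.2 * (xe g h m t p - xx g h m t p.2) =
        PsV f g h m N s r p.2 + LL p := by simp only [hLL]; ring
    rw [e5] at h3
    nlinarith [h3]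
  have iT1 : Integrable (fun p => L1 p + 10000 * ∑ t ∈ Finset.range N, L2 t p) μ := iL1.add iS2
  have iT2 : Integrable (fun p : X × X => (ψ p.1 - ψs p.2) * LL p
      + (L1 p + 10000 * ∑ t ∈ Finset.range N, L2 t p)) μ := iD.add iT1
  have iT3 : Integrable (fun p : X × X => ψ p.1 * PsV f g h m N s r p.2
      + ((ψ p.1 - ψs p.2) * LL p + (L1 p + 10000 * ∑ t ∈ Finset.range N, L2 t p))) μ :=
    iPV.add iT2
  have hint := integral_mono (iT3.sub iS3) iPE hpoint
  have hsplit : ∫ p : X × X, (ψ p.1 * PsV f g h m N s r p.2 + ((ψ p.1 - ψs p.2) * LL p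
      + (L1 p + 10000 * ∑ t ∈ Finset.range N, L2 t p))
      - 5000000 * ∑ t ∈ Finset.range N, L3 t p) ∂μ =
      ∫ x, ψs x * PsV f g h m N s r x ∂π + (∫ p : X × X, (ψ p.1 - ψs p.2) * LL p ∂μ
        + (∫ p, L1 p ∂μ + 10000 * ∑ t ∈ Finset.range N, ∫ p, L2 t p ∂μ))
        - 5000000 * ∑ t ∈ Finset.range N, ∫ p, L3 t p ∂μ := by
    rw [integral_sub iT3 iS3, integral_add iPV iT2, integral_add iD iT1, integral_add iL1 iS2,
      integral_const_mul, integral_const_mul, integral_finsetSum _ fun t _ => iL2 t,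
      integral_finsetSum _ fun t _ => iL3 t, hdual _ (C.igr_PsV m N s hr)]
  have hint2 : ∫ p : X × X, (ψ p.1 * PsV f g h m N s r p.2 + ((ψ p.1 - ψs p.2) * LL p
      + (L1 p + 10000 * ∑ t ∈ Finset.range N, L2 t p))
      - 5000000 * ∑ t ∈ Finset.range N, L3 t p) ∂μ ≤ ∫ p, ψ p.1 * PsE g h m N s r p ∂μ := hint
  rw [hsplit] at hint2
  -- bounds
  have hgm : ∀ j, 0 ≤ gm γ j := fun j => C.gm_nonneg j
  have hb1 : |∫ p, L1 p ∂μ| ≤ 209 * gm γ (m + s / 2) := by
    have e : ∫ p, L1 p ∂μ = ∫ x, Φ1 x * b (m + s / 2) x ∂π := by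
      rw [← C.db (m + s / 2) Φ1 hΦ1L]
      refine integral_congr_ae (Eventually.of_forall fun p => ?_)
      simp only [hL1]
      rw [hδ p]; ring
    rw [e]
    refine (cs_abs hΦ1L (C.Lb _)).trans ?_
    have hbn := (hB π μ f g h a b γ C m s).2.2.2.1
    have hu : (0 : ℝ) < 2 ^ (m + s / 2) := by positivity
    refine (sqrt_mul_sqrt_le (integral_nonneg fun x => sq_nonneg _)
      (integral_nonneg fun x => sq_nonneg _) hu).trans ?_
    have h2 : (∫ x, Φ1 x ^ 2 ∂π) / 2 ^ (m + s / 2) ≤ 416 * gm γ (m + s / 2) := by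
      rw [div_le_iff₀ hu]; linarith
    have h3 : (∫ x, b (m + s / 2) x ^ 2 ∂π) * 2 ^ (m + s / 2) ≤ gm γ (m + s / 2) := by
      rw [le_div_iff₀ hu] at hbn; exact hbn
    nlinarith [hgm (m + s / 2)]
  have hb2 : ∀ t, |∫ p, L2 t p ∂μ| ≤ cw s t * (20 * gm γ (m + t / 2)) := by
    intro t
    have e : ∫ p, L2 t p ∂μ = cw s t * ∫ p, Φ2 t p.2 * dd t p ∂μ := integral_const_mul _ _
    rw [e, abs_mul, abs_of_pos (cw_pos s t)]
    apply mul_le_mul_of_nonneg_left _ (cw_pos s t).le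
    rcases Nat.mod_two_eq_zero_or_one t with ht | ht
    · have e2 : ∫ p, Φ2 t p.2 * dd t p ∂μ = 0 := by
        have : ∀ p : X × X, Φ2 t p.2 * dd t p = 0 := by
          intro p
          simp only [hdd]
          unfold xe; rw [if_pos ht]; ring
        simp only [this, integral_zero]
      rw [e2, abs_zero]
      exact mul_nonneg (by norm_num) (hgm _)
    · have e2 : ∫ p, Φ2 t p.2 * dd t p ∂μ =
          ∫ p, Φ2 t p.2 * (xx g h m t p.1 - xx g h m t p.2) ∂μ := by
        refine integral_congr_ae (Eventually.of_forall fun p => ?_)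
        simp only [hdd]
        unfold xe; rw [if_neg (by omega)]
      rw [e2]
      have hbn := (hB π μ f g h a b γ C m t).2.2.2.2.2.2 ht (Φ2 t) (hΦ2L t)
      refine hbn.trans ?_
      have hu : (0 : ℝ) < 2 ^ (m + t / 2) := by positivity
      refine (sqrt_mul_sqrt_le (integral_nonneg fun x => sq_nonneg _)
        (div_nonneg (mul_nonneg (by norm_num) (hgm _)) hu.le) hu).trans ?_
      have h2 : (∫ x, Φ2 t x ^ 2 ∂π) / 2 ^ (m + t / 2) ≤ 36 * gm γ (m + t / 2) := by
        rw [div_le_iff₀ hu]; linarith [hΦ2I t]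
      have h3 : 4 * gm γ (m + t / 2) / 2 ^ (m + t / 2) * 2 ^ (m + t / 2) =
          4 * gm γ (m + t / 2) := by field_simp
      rw [h3]
      linarith [hgm (m + t / 2)]
  have hddI : ∀ t, ∫ p, dd t p ^ 2 ∂μ ≤ 6 * gm γ (m + t / 2) := by
    intro t
    rcases Nat.mod_two_eq_zero_or_one t with ht | ht
    · have : ∀ p : X × X, dd t p ^ 2 = 0 := by
        intro p
        simp only [hdd]
        unfold xe; rw [if_pos ht]; ring
      simp only [this, integral_zero]
      exact mul_nonneg (by norm_num) (hgm _)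
    · have hbn := (hB π μ f g h a b γ C m t).2.2.2.2.1
      refine le_trans (le_of_eq ?_) hbn
      refine integral_congr_ae (Eventually.of_forall fun p => ?_)
      simp only [hdd]
      unfold xe; rw [if_neg (by omega)]; ring
  have hb3 : ∀ t, ∫ p, L3 t p ∂μ ≤ cw s t * (6 * gm γ (m + t / 2)) := by
    intro t
    have e : ∫ p, L3 t p ∂μ = cw s t * ∫ p, ψ p.1 * dd t p ^ 2 ∂μ := integral_const_mul _ _
    rw [e]
    apply mul_le_mul_of_nonneg_left _ (cw_pos s t).le
    refine le_trans ?_ (hddI t)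
    refine integral_mono (iψ _ ((hddL t).integrable_sq)) ((hddL t).integrable_sq) fun p => ?_
    exact mul_le_of_le_one_left (sq_nonneg _) (h1 _)
  have hs2 : |∑ t ∈ Finset.range N, ∫ p, L2 t p ∂μ| ≤ 20 * er γ m N s := by
    refine (Finset.abs_sum_le_sum_abs _ _).trans ?_
    unfold er
    rw [Finset.mul_sum]
    refine Finset.sum_le_sum fun t _ => (hb2 t).trans (le_of_eq ?_)
    ring
  have hs3 : ∑ t ∈ Finset.range N, ∫ p, L3 t p ∂μ ≤ 6 * er γ m N s := by
    unfold er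
    rw [Finset.mul_sum]
    refine Finset.sum_le_sum fun t _ => (hb3 t).trans (le_of_eq ?_)
    ring
  have hge := C.gm_le_er (m := m) (N := N) (s := s) hs
  have her := C.er_nonneg m N s
  -- the cross term
  have hcross : |∫ p : X × X, (ψ p.1 - ψs p.2) * LL p ∂μ| ≤
      √(∫ x, ψ x ^ 2 ∂π - ∫ x, ψs x ^ 2 ∂π) * (5 * r *
        √(∫ p, (h (m + s / 2) p.1 - h (m + s / 2) p.2 + f p.2) ^ 2 ∂μ
          + 1000000 * er γ m N s)) := by
    refine (cs_abs hdiffL hLLL).trans ?_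
    have e1 : ∫ p : X × X, (ψ p.1 - ψs p.2) ^ 2 ∂μ = ∫ x, ψ x ^ 2 ∂π - ∫ x, ψs x ^ 2 ∂π := by
      have j1 : Integrable (fun p : X × X => ψ p.1 ^ 2) μ := C.igr_fst hψ2.integrable_sq
      have j2 : Integrable (fun p : X × X => ψs p.2 ^ 2) μ := C.igr_snd hψs2.integrable_sq
      have j3 : Integrable (fun p : X × X => ψ p.1 * ψs p.2) μ :=
        (C.mem_fst hψ2).integrable_mul (C.mem_snd hψs2)
      have e2 : ∀ p : X × X, (ψ p.1 - ψs p.2) ^ 2 =
          ψ p.1 ^ 2 - 2 * (ψ p.1 * ψs p.2) + ψs p.2 ^ 2 := fun p => by ring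
      simp_rw [e2]
      have j4 : Integrable (fun p : X × X => 2 * (ψ p.1 * ψs p.2)) μ := j3.const_mul 2
      have j5 : Integrable (fun p : X × X => ψ p.1 ^ 2 - 2 * (ψ p.1 * ψs p.2)) μ := j1.sub j4
      rw [integral_add j5 j2, integral_sub j1 j4, integral_const_mul,
        hdual ψs (hψs2.integrable (by norm_num)),
        C.int_fst (F := fun x => ψ x ^ 2) (hψ.pow_const 2).aestronglyMeasurable,
        C.int_snd (F := fun x => ψs x ^ 2) (hψs.pow_const 2).aestronglyMeasurable]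
      have e3 : ∫ x, ψs x * ψs x ∂π = ∫ x, ψs x ^ 2 ∂π :=
        integral_congr_ae (Eventually.of_forall fun x => by simp only []; ring)
      rw [e3]; ring
    rw [e1]
    apply mul_le_mul_of_nonneg_left _ (Real.sqrt_nonneg _)
    have e4 : ∫ p, VV p ∂μ ≤ ∫ p, (h (m + s / 2) p.1 - h (m + s / 2) p.2 + f p.2) ^ 2 ∂μ
        + 1000000 * er γ m N s := by
      have j1 := hδL.integrable_sq
      have j2 : Integrable (fun p => 10000 * ∑ t ∈ Finset.range N, cw s t * dd t p ^ 2) μ :=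
        (integrable_finsetSum _ fun t _ => ((hddL t).integrable_sq).const_mul _).const_mul _
      have e5 : ∫ p, VV p ∂μ = ∫ p, (ee g h m s p - zz f g h m s p.2) ^ 2 ∂μ
          + 10000 * ∑ t ∈ Finset.range N, cw s t * ∫ p, dd t p ^ 2 ∂μ := by
        simp only [hVV]
        rw [integral_add j1 j2, integral_const_mul,
          integral_finsetSum _ fun t _ => ((hddL t).integrable_sq).const_mul _]
        simp_rw [integral_const_mul]
      rw [e5]
      have e6 : ∫ p, (ee g h m s p - zz f g h m s p.2) ^ 2 ∂μ =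
          ∫ p, (h (m + s / 2) p.1 - h (m + s / 2) p.2 + f p.2) ^ 2 ∂μ := by
        refine integral_congr_ae (Eventually.of_forall fun p => ?_)
        simp only []
        rw [hδ p]
      rw [e6]
      have e7 : ∑ t ∈ Finset.range N, cw s t * ∫ p, dd t p ^ 2 ∂μ ≤ 6 * er γ m N s := by
        unfold er
        rw [Finset.mul_sum]
        refine Finset.sum_le_sum fun t _ => ?_
        have := mul_le_mul_of_nonneg_left (hddI t) (cw_pos s t).le
        linarith
      linarith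
    have e8 : ∫ p, LL p ^ 2 ∂μ ≤ (5 * r) ^ 2 *
        (∫ p, (h (m + s / 2) p.1 - h (m + s / 2) p.2 + f p.2) ^ 2 ∂μ
          + 1000000 * er γ m N s) := by
      calc ∫ p, LL p ^ 2 ∂μ ≤ ∫ p, 25 * r ^ 2 * VV p ∂μ :=
            integral_mono hLLi (iVV.const_mul _) hLLsq
        _ = 25 * r ^ 2 * ∫ p, VV p ∂μ := integral_const_mul _ _
        _ ≤ 25 * r ^ 2 * _ := mul_le_mul_of_nonneg_left e4 (by positivity)
        _ = _ := by ring
    calc √(∫ p, LL p ^ 2 ∂μ) ≤ √((5 * r) ^ 2 *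
        (∫ p, (h (m + s / 2) p.1 - h (m + s / 2) p.2 + f p.2) ^ 2 ∂μ
          + 1000000 * er γ m N s)) := Real.sqrt_le_sqrt e8
      _ = 5 * r * √(∫ p, (h (m + s / 2) p.1 - h (m + s / 2) p.2 + f p.2) ^ 2 ∂μ
          + 1000000 * er γ m N s) := by
        rw [Real.sqrt_mul (by positivity), Real.sqrt_sq (by positivity)]
  have h5 := abs_le.1 hb1
  have h6 := abs_le.1 hs2
  have h7 := abs_le.1 hcross
  have h8 : 5 * r * √(∫ x, ψ x ^ 2 ∂π - ∫ x, ψs x ^ 2 ∂π) *
        √(∫ p, (h (m + s / 2) p.1 - h (m + s / 2) p.2 + f p.2) ^ 2 ∂μ + 1000000 * er γ m N s)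
      = √(∫ x, ψ x ^ 2 ∂π - ∫ x, ψs x ^ 2 ∂π) * (5 * r *
        √(∫ p, (h (m + s / 2) p.1 - h (m + s / 2) p.2 + f p.2) ^ 2 ∂μ
          + 1000000 * er γ m N s)) := by ring
  rw [h8]
  linarith [h5.1, h6.1, h7.1]

end Pool.Agent.K1H85.CL
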