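import Pool.Agent.K1H85.CL.Stm

/-! CL-3 and CL-4: the second order remainder of the potential, and the bound of all increments. -/

set_option autoImplicit false

open Filter
open scoped Topology BigOperators

namespace Pool.Agent.K1H85.CL

theorem t_GF : S_GF := by
  intro r q q' c n hr hq hq' hn hqq hc
  unfold Fp
  set M := √(r ^ 2 + q) with hM
  set M' := √(r ^ 2 + q') with hM'
  have hM2 : M ^ 2 = r ^ 2 + q := Real.sq_sqrt (by positivity)
  have hM'2 : M' ^ 2 = r ^ 2 + q' := Real.sq_sqrt (by positivity)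
  have hMp : 0 < M := Real.sqrt_pos.2 (by positivity)
  have hM'0 : 0 ≤ M' := Real.sqrt_nonneg _
  have hrM : r ≤ M := Real.le_sqrt_of_sq_le (by linarith)
  have h1 : 2 * r * (M' - r) - 2 * r * (M - r) - 2 * r * c / M =
      r / M * (n - (M' - M) ^ 2) := by
    have h : M' ^ 2 = M ^ 2 + 2 * c + n := by rw [hM2, hM'2, hqq]; ring
    have h' : n = M' ^ 2 - M ^ 2 - 2 * c := by linarith
    rw [h']
    field_simp
    ring
  have h2 : (M' - M) ^ 2 ≤ n := by
    have h3 : r ^ 2 + q + c ≤ M * M' := by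
      have h4 : (r ^ 2 + q + c) ^ 2 ≤ (M * M') ^ 2 := by
        rw [mul_pow, hM2, hM'2, hqq]
        nlinarith [mul_nonneg (sq_nonneg r) hn]
      exact le_of_sq_le_sq' h4 (by positivity)
    nlinarith
  have hr1 : r / M ≤ 1 := (div_le_one hMp).2 hrM
  have hr0 : 0 ≤ r / M := by positivity
  have h5 : 0 ≤ n - (M' - M) ^ 2 := by linarith
  have h6 : n - (M' - M) ^ 2 ≤ n := by nlinarith [sq_nonneg (M' - M)]
  refine ⟨h1, h2, ?_, ?_, ?_⟩
  · rw [h1]
    positivity
  · rw [h1]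
    nlinarith
  · intro h
    rw [h1]
    by_cases hb : 2 * r ≤ M
    · have : r / M ≤ 1 / 2 := by
        rw [div_le_iff₀ hMp]
        linarith
      nlinarith
    · rcases h with h | h
      · exfalso
        apply hb
        exact Real.le_sqrt_of_sq_le (by nlinarith)
      · have hb' : M < 2 * r := not_le.1 hb
        set a := √n with ha
        set b := √q with hb
        have ha2 : a ^ 2 = n := Real.sq_sqrt hn
        have hb2 : b ^ 2 = q := Real.sq_sqrt hq
        have ha0 : 0 ≤ a := Real.sqrt_nonneg _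
        have hb0 : 0 ≤ b := Real.sqrt_nonneg _
        have hbM : b ≤ 174 / 100 * r := by
          have h7 : b ^ 2 ≤ (174 / 100 * r) ^ 2 := by
            rw [hb2]
            nlinarith
          exact le_of_sq_le_sq' h7 (by positivity)
        have ha16 : 16 * r ≤ a := Real.le_sqrt_of_sq_le (by nlinarith)
        have hcab : -c ≤ a * b := by
          have h8 : (-c) ^ 2 ≤ (a * b) ^ 2 := by
            rw [mul_pow, ha2, hb2]
            nlinarith
          exact le_of_sq_le_sq' h8 (by positivity)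
        have hM'a : a - b ≤ M' := by
          refine Real.le_sqrt_of_sq_le ?_
          have : (a - b) ^ 2 = n + q - 2 * (a * b) := by rw [← ha2, ← hb2]; ring
          rw [this, hqq]
          nlinarith [sq_nonneg r]
        have h9 : 3 / 4 * a ≤ M' - M := by linarith
        have h10 : (3 / 4 * a) ^ 2 ≤ (M' - M) ^ 2 := pow_le_pow_left₀ (by positivity) h9 2
        have h11 : n - (M' - M) ^ 2 ≤ n / 2 := by
          have : (3 / 4 * a) ^ 2 = 9 / 16 * n := by rw [← ha2]; ring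
          nlinarith
        nlinarith
where
  le_of_sq_le_sq' {x y : ℝ} (h : x ^ 2 ≤ y ^ 2) (hy : 0 ≤ y) : x ≤ y :=
    (le_abs_self x).trans ((sq_le_sq₀ (abs_nonneg x) hy).1 (by rw [sq_abs]; exact h))

private theorem cw_le (N s t : ℕ) (hs : s ≤ N) (ht : t < N) :
    cw s t ≤ ((40 / 39 : ℝ) ^ (N - s)) ^ 2 * cw N t := by
  have hNt : ¬ N ≤ t := by omega
  unfold cw
  rw [if_neg hNt]
  have e1 : (1521 / 1600 : ℝ) = (39 / 40) ^ 2 := by norm_num
  rw [e1]
  by_cases h : s ≤ t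
  · rw [if_pos h]
    have h1 : (64 / 81 : ℝ) ^ (t - s) ≤ 1 := pow_le_one₀ (by norm_num) (by norm_num)
    have h2 : ((40 / 39 : ℝ) ^ (N - s)) ^ 2 * ((39 / 40) ^ 2) ^ (N - t) =
        ((40 / 39 : ℝ) ^ 2) ^ (t - s) := by
      have h3 : N - s = (N - t) + (t - s) := by omega
      rw [← pow_mul, mul_comm (N - s) 2, pow_mul, h3, pow_add, mul_right_comm, ← mul_pow]
      norm_num
    rw [h2]
    exact h1.trans (one_le_pow₀ (by norm_num))
  · rw [if_neg h]
    have h2 : ((40 / 39 : ℝ) ^ (N - s)) ^ 2 * ((39 / 40) ^ 2) ^ (N - t) =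
        ((39 / 40 : ℝ) ^ 2) ^ (s - t) := by
      have h3 : N - t = (N - s) + (s - t) := by omega
      rw [← pow_mul, mul_comm (N - s) 2, pow_mul, h3, pow_add, ← mul_assoc, ← mul_pow]
      norm_num
    rw [h2]

private theorem Fp_nonneg (r q : ℝ) (hr : 0 < r) (hq : 0 ≤ q) : 0 ≤ Fp r q := by
  unfold Fp
  have : r ≤ √(r ^ 2 + q) := Real.le_sqrt_of_sq_le (by linarith)
  have h2 : 0 ≤ √(r ^ 2 + q) - r := by linarith
  positivity

private theorem Fp_le (r q B : ℝ) (hr : 0 < r) (hB : 0 ≤ B) (hq : q ≤ B ^ 2) :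
    Fp r q ≤ 2 * r * B := by
  unfold Fp
  have h1 : √(r ^ 2 + q) ≤ r + B := by
    refine Real.sqrt_le_iff.2 ⟨by positivity, ?_⟩
    nlinarith
  have : √(r ^ 2 + q) - r ≤ B := by linarith
  exact mul_le_mul_of_nonneg_left this (by positivity)

theorem t_GOOD : S_GOOD := by
  intro N r0 z x hr0 hz hN
  set R := r0 * (9 / 8) ^ N with hR
  have hRp : 0 < R := by positivity
  have hcw0 : ∀ s t, 0 ≤ cw s t := by
    intro s t
    unfold cw
    split_ifs <;> positivity
  have hsum0 : ∀ s, 0 ≤ ∑ t ∈ Finset.range N, cw s t * x t ^ 2 := fun s =>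
    Finset.sum_nonneg fun t _ => mul_nonneg (hcw0 s t) (sq_nonneg _)
  have hnn : ∀ s e, 0 ≤ nrm2 N s e x := by
    intro s e
    unfold nrm2
    have := hsum0 s
    positivity
  unfold nrm2 at hN
  have hzN : |z N| ≤ 2 * R := by
    have h1 := hsum0 N
    have h2 : z N ^ 2 ≤ (2 * R) ^ 2 := by nlinarith
    exact abs_le_of_sq_le_sq h2 (by positivity)
  have hxt : ∀ t, t < N → |x t| ≤ 2 / 100 * R * (40 / 39) ^ (N - t) := by
    intro t ht
    have h1 : cw N t * x t ^ 2 ≤ ∑ t ∈ Finset.range N, cw N t * x t ^ 2 :=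
      Finset.single_le_sum (f := fun t => cw N t * x t ^ 2)
        (fun t _ => mul_nonneg (hcw0 N t) (sq_nonneg _)) (Finset.mem_range.2 ht)
    have h2 : cw N t * x t ^ 2 ≤ 4 * R ^ 2 / 10000 := by nlinarith [sq_nonneg (z N)]
    have h3 : cw N t = ((39 / 40 : ℝ) ^ (N - t)) ^ 2 := by
      unfold cw
      rw [if_neg (by omega), ← pow_mul, mul_comm, pow_mul]
      norm_num
    refine abs_le_of_sq_le_sq ?_ (by positivity)
    have h4 : ((40 / 39 : ℝ) ^ (N - t)) * ((39 / 40 : ℝ) ^ (N - t)) = 1 := by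
      rw [← mul_pow]
      norm_num
    have h5 : x t ^ 2 = (((40 / 39 : ℝ) ^ (N - t)) * ((39 / 40 : ℝ) ^ (N - t))) ^ 2 * x t ^ 2 := by
      rw [h4]; ring
    rw [h5]
    rw [h3] at h2
    calc _ = ((40 / 39 : ℝ) ^ (N - t)) ^ 2 * (((39 / 40 : ℝ) ^ (N - t)) ^ 2 * x t ^ 2) := by ring
      _ ≤ ((40 / 39 : ℝ) ^ (N - t)) ^ 2 * (4 * R ^ 2 / 10000) :=
        mul_le_mul_of_nonneg_left h2 (by positivity)
      _ = _ := by ring
  have hzs : ∀ k s, s + k = N → |z s| ≤ 12 / 10 * R + 8 / 10 * R * (40 / 39) ^ k := by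
    intro k
    induction k with
    | zero =>
      intro s hs
      have : s = N := by omega
      subst this
      simp only [pow_zero, mul_one]
      linarith
    | succ k ih =>
      intro s hs
      have h1 := ih (s + 1) (by omega)
      have h2 := hxt s (by omega)
      have h3 : N - s = k + 1 := by omega
      rw [h3] at h2
      have h4 : z s = z (s + 1) - x s := by rw [hz s]; ring
      rw [h4]
      refine (abs_sub _ _).trans ?_
      have h5 : 12 / 10 * R + 8 / 10 * R * (40 / 39) ^ k + 2 / 100 * R * (40 / 39) ^ (k + 1) =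
          12 / 10 * R + 8 / 10 * R * (40 / 39) ^ (k + 1) := by
        rw [pow_succ]
        ring
      linarith
  have hzs2 : ∀ s ≤ N, |z s| ≤ 2 * R * (40 / 39) ^ (N - s) := by
    intro s hs
    have h1 := hzs (N - s) s (by omega)
    have h2 : (1 : ℝ) ≤ (40 / 39) ^ (N - s) := one_le_pow₀ (by norm_num)
    nlinarith
  have hnrm : ∀ s ≤ N, nrm2 N s (z s) x ≤ (3 * R * (40 / 39) ^ (N - s)) ^ 2 := by
    intro s hs
    unfold nrm2
    have h1 : ∑ t ∈ Finset.range N, cw s t * x t ^ 2 ≤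
        ((40 / 39 : ℝ) ^ (N - s)) ^ 2 * ∑ t ∈ Finset.range N, cw N t * x t ^ 2 := by
      rw [Finset.mul_sum]
      refine Finset.sum_le_sum fun t ht => ?_
      rw [← mul_assoc]
      exact mul_le_mul_of_nonneg_right (cw_le N s t hs (Finset.mem_range.1 ht)) (sq_nonneg _)
    have h2 : z s ^ 2 ≤ (2 * R * (40 / 39) ^ (N - s)) ^ 2 := by
      rw [← sq_abs]
      exact pow_le_pow_left₀ (abs_nonneg _) (hzs2 s hs) 2
    have h3 : 10000 * ∑ t ∈ Finset.range N, cw N t * x t ^ 2 ≤ 4 * R ^ 2 := by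
      nlinarith [sq_nonneg (z N)]
    have h4 : 0 ≤ ((40 / 39 : ℝ) ^ (N - s)) ^ 2 := by positivity
    have h5 : 10000 * ∑ t ∈ Finset.range N, cw s t * x t ^ 2 ≤
        ((40 / 39 : ℝ) ^ (N - s)) ^ 2 * (4 * R ^ 2) := by
      calc _ ≤ 10000 * (((40 / 39 : ℝ) ^ (N - s)) ^ 2 * ∑ t ∈ Finset.range N, cw N t * x t ^ 2) :=
            mul_le_mul_of_nonneg_left h1 (by norm_num)
        _ = ((40 / 39 : ℝ) ^ (N - s)) ^ 2 * (10000 * ∑ t ∈ Finset.range N, cw N t * x t ^ 2) := by
            ring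
        _ ≤ _ := mul_le_mul_of_nonneg_left h3 h4
    nlinarith [mul_nonneg h4 (sq_nonneg R)]
  set A : ℕ → ℝ := fun s => Fp (r0 * (9 / 8) ^ s) (nrm2 N s (z s) x) with hA
  have hA0 : ∀ s, 0 ≤ A s := fun s => Fp_nonneg _ _ (by positivity) (hnn _ _)
  have hA1 : ∀ s ≤ N, A s ≤ 6 * R ^ 2 * (320 / 351) ^ (N - s) := by
    intro s hs
    have h1 := Fp_le (r0 * (9 / 8) ^ s) _ (3 * R * (40 / 39) ^ (N - s)) (by positivity)
      (by positivity) (hnrm s hs)
    refine h1.trans (le_of_eq ?_)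
    have h2 : r0 * (9 / 8) ^ s = R * (8 / 9) ^ (N - s) := by
      rw [hR]
      have h3 : (9 / 8 : ℝ) ^ N = (9 / 8) ^ s * (9 / 8) ^ (N - s) := by
        rw [← pow_add]
        congr 1
        omega
      rw [h3, mul_assoc, mul_assoc, ← mul_pow]
      norm_num
    rw [h2]
    have h4 : (320 / 351 : ℝ) ^ (N - s) = (8 / 9) ^ (N - s) * (40 / 39) ^ (N - s) := by
      rw [← mul_pow]
      norm_num
    rw [h4]
    ring
  have hPsi : ∀ s ∈ Finset.range N, |Psi N s (r0 * (9 / 8) ^ s) (z s) x| ≤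
      12 * R ^ 2 * (320 / 351) ^ (N - 1 - s) := by
    intro s hs
    have hs' := Finset.mem_range.1 hs
    have h1 : Psi N s (r0 * (9 / 8) ^ s) (z s) x = A (s + 1) - A s := by
      unfold Psi
      simp only [hA]
      rw [← hz s]
      congr 2
      rw [pow_succ]
      ring
    rw [h1]
    have h2 := hA0 (s + 1)
    have h3 := hA0 s
    have h4 := hA1 (s + 1) (by omega)
    have h5 := hA1 s (by omega)
    have h6 : N - (s + 1) = N - 1 - s := by omega
    have h7 : N - s = (N - 1 - s) + 1 := by omega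
    rw [h6] at h4
    rw [h7, pow_succ (320 / 351 : ℝ)] at h5
    have h8 : (0 : ℝ) ≤ R ^ 2 * (320 / 351) ^ (N - 1 - s) := by positivity
    rw [abs_le]
    constructor <;> nlinarith
  refine (Finset.sum_le_sum hPsi).trans ?_
  rw [← Finset.mul_sum, Finset.sum_range_reflect (fun k => (320 / 351 : ℝ) ^ k) N]
  have hgeom : (1 - 320 / 351 : ℝ) * ∑ k ∈ Finset.range N, (320 / 351 : ℝ) ^ k =
      1 - (320 / 351) ^ N := by
    have := geom_sum_mul_neg (320 / 351 : ℝ) N
    linarith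
  have hpN : (0 : ℝ) ≤ (320 / 351) ^ N := by positivity
  have hg : ∑ k ∈ Finset.range N, (320 / 351 : ℝ) ^ k ≤ 351 / 31 := by
    linarith
  have hR2 : 0 ≤ R ^ 2 := by positivity
  nlinarith

end Pool.Agent.K1H85.CL
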