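import Pool.Agent.K1H85.CL.Base

/-!
Project CL, piece CL-INT : total size of the increments of the potential at the vertices.
-/

open MeasureTheory ProbabilityTheory Filter
open scoped Topology BigOperators ENNReal

namespace Pool.Agent.K1H85.CL

universe u

private lemma int_pow_sum (m N : ℕ) :
    ∑ s ∈ Finset.range (N + 1), (2 : ℝ) ^ (m + s / 2) ≤ 4 * 2 ^ (m + N / 2) := by
  have h1 : ∀ k : ℕ, ∑ s ∈ Finset.range (2 * k), (2 : ℝ) ^ (m + s / 2)
      = 2 * 2 ^ (m + k) - 2 * 2 ^ m := by
    intro k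
    induction k with
    | zero => simp
    | succ k ih =>
      have : 2 * (k + 1) = 2 * k + 1 + 1 := by ring
      rw [this, Finset.sum_range_succ, Finset.sum_range_succ, ih]
      have e1 : 2 * k / 2 = k := by omega
      have e2 : (2 * k + 1) / 2 = k := by omega
      rw [e1, e2, ← add_assoc, pow_succ]
      ring
  have h2 : N + 1 ≤ 2 * (N / 2 + 1) := by omega
  calc ∑ s ∈ Finset.range (N + 1), (2 : ℝ) ^ (m + s / 2)
      ≤ ∑ s ∈ Finset.range (2 * (N / 2 + 1)), (2 : ℝ) ^ (m + s / 2) := by
        apply Finset.sum_le_sum_of_subset_of_nonneg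
        · exact Finset.range_subset_range.2 h2
        · intro t _ _; positivity
    _ = 2 * 2 ^ (m + (N / 2 + 1)) - 2 * 2 ^ m := h1 _
    _ ≤ 4 * 2 ^ (m + N / 2) := by
        rw [← add_assoc, pow_succ]
        have : (0 : ℝ) < 2 ^ m := by positivity
        linarith

theorem t_INT (X : Type u) [MeasurableSpace X] (hB : S_BND X) : S_INT X := by
  intro π μ f g h a b γ C m N r0 hr0
  refine ⟨fun s r hr => C.igr_PsV m N s hr, ?_⟩
  have hT : 0 ≤ tl γ 0 := C.tl_nonneg 0
  set T := tl γ 0 with hTdef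
  set I : ℕ → ℝ := fun s => ∫ x, nv f g h m N s x ∂π with hI
  -- bound of one integral
  have hIle : ∀ s, I s ≤ 24 * T * 2 ^ (m + s / 2)
      + 80000 * T * ∑ t ∈ Finset.range N, cw s t * 2 ^ (m + t / 2) := by
    intro s
    have e1 : I s = ∫ x, zz f g h m s x ^ 2 ∂π
        + 10000 * ∑ t ∈ Finset.range N, cw s t * ∫ x, xx g h m t x ^ 2 ∂π := by
      have i1 : Integrable (fun x => zz f g h m s x ^ 2) π := (C.L_zz m s).integrable_sq
      have i3 : ∀ t ∈ Finset.range N, Integrable (fun x => cw s t * xx g h m t x ^ 2) π :=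
        fun t _ => ((C.L_xx m t).integrable_sq).const_mul _
      have i2 : Integrable (fun x => 10000 * ∑ t ∈ Finset.range N,
          cw s t * xx g h m t x ^ 2) π := (integrable_finsetSum _ i3).const_mul _
      show ∫ x, (zz f g h m s x ^ 2 + 10000 * ∑ t ∈ Finset.range N,
          cw s t * xx g h m t x ^ 2) ∂π = _
      rw [integral_add i1 i2, integral_const_mul, integral_finsetSum _ i3]
      congr 2
      exact Finset.sum_congr rfl fun t _ => integral_const_mul _ _
    rw [e1]
    have b1 : ∫ x, zz f g h m s x ^ 2 ∂π ≤ 24 * T * 2 ^ (m + s / 2) := by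
      have h1 := (hB π μ f g h a b γ C m s).1
      have h2 : gm γ (m + s / 2) ≤ 2 * T := C.gm_le_tl (Nat.zero_le _)
      calc _ ≤ 12 * 2 ^ (m + s / 2) * gm γ (m + s / 2) := h1
        _ ≤ 12 * 2 ^ (m + s / 2) * (2 * T) := by
          exact mul_le_mul_of_nonneg_left h2 (by positivity)
        _ = _ := by ring
    have b2 : ∀ t, ∫ x, xx g h m t x ^ 2 ∂π ≤ 8 * T * 2 ^ (m + t / 2) := by
      intro t
      have h1 := (hB π μ f g h a b γ C m t).2.1
      have h2 : gm γ (m + t / 2) ≤ 2 * T := C.gm_le_tl (Nat.zero_le _)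
      calc _ ≤ 4 * 2 ^ (m + t / 2) * gm γ (m + t / 2) := h1
        _ ≤ 4 * 2 ^ (m + t / 2) * (2 * T) := by
          exact mul_le_mul_of_nonneg_left h2 (by positivity)
        _ = _ := by ring
    have b3 : ∑ t ∈ Finset.range N, cw s t * ∫ x, xx g h m t x ^ 2 ∂π
        ≤ 8 * T * ∑ t ∈ Finset.range N, cw s t * 2 ^ (m + t / 2) := by
      rw [Finset.mul_sum]
      apply Finset.sum_le_sum
      intro t _
      have := mul_le_mul_of_nonneg_left (b2 t) (cw_pos s t).le
      calc _ ≤ cw s t * (8 * T * 2 ^ (m + t / 2)) := this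
        _ = _ := by ring
    linarith
  have hInn : ∀ s, 0 ≤ I s := fun s => integral_nonneg fun x => nv_nonneg f g h m N s x
  -- one increment
  have hone : ∀ s, ∫ x, |PsV f g h m N s (r0 * (9 / 8) ^ s) x| ∂π ≤ I (s + 1) + I s := by
    intro s
    have hr : 0 < r0 * (9 / 8 : ℝ) ^ s := by positivity
    have i1 := C.igr_nv m N (s + 1)
    have i2 := C.igr_nv m N s
    have : I (s + 1) + I s = ∫ x, (nv f g h m N (s + 1) x + nv f g h m N s x) ∂π :=
      (integral_add i1 i2).symm
    rw [this]
    refine integral_mono (C.igr_PsV m N s hr).abs (i1.add i2) fun x => ?_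
    show |PsV f g h m N s (r0 * (9 / 8) ^ s) x| ≤ nv f g h m N (s + 1) x + nv f g h m N s x
    rw [PsV_eq]
    have n1 := nv_nonneg f g h m N (s + 1) x
    have n2 := nv_nonneg f g h m N s x
    have hr' : 0 < 9 / 8 * (r0 * (9 / 8 : ℝ) ^ s) := by positivity
    have p1 := Fp_nonneg hr' n1
    have p2 := Fp_nonneg hr n2
    have p3 := Fp_le hr' n1
    have p4 := Fp_le hr n2
    rw [abs_le]
    constructor <;> linarith
  -- summation
  have hsum1 : ∑ s ∈ Finset.range N, ∫ x, |PsV f g h m N s (r0 * (9 / 8) ^ s) x| ∂π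
      ≤ 2 * ∑ s ∈ Finset.range (N + 1), I s := by
    calc _ ≤ ∑ s ∈ Finset.range N, (I (s + 1) + I s) := Finset.sum_le_sum fun s _ => hone s
      _ = ∑ s ∈ Finset.range N, I (s + 1) + ∑ s ∈ Finset.range N, I s := Finset.sum_add_distrib
      _ ≤ 2 * ∑ s ∈ Finset.range (N + 1), I s := by
        have e1 := Finset.sum_range_succ' I N
        have e2 := Finset.sum_range_succ I N
        have := hInn 0
        have := hInn N
        linarith
  have hsum2 : ∑ s ∈ Finset.range (N + 1), I s ≤
      24 * T * (4 * 2 ^ (m + N / 2)) + 80000 * T * (25 * (4 * 2 ^ (m + N / 2))) := by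
    calc _ ≤ ∑ s ∈ Finset.range (N + 1), (24 * T * 2 ^ (m + s / 2)
      + 80000 * T * ∑ t ∈ Finset.range N, cw s t * 2 ^ (m + t / 2)) :=
          Finset.sum_le_sum fun s _ => hIle s
      _ = 24 * T * ∑ s ∈ Finset.range (N + 1), 2 ^ (m + s / 2)
        + 80000 * T * ∑ t ∈ Finset.range N,
          (∑ s ∈ Finset.range (N + 1), cw s t) * 2 ^ (m + t / 2) := by
          rw [Finset.sum_add_distrib, ← Finset.mul_sum, ← Finset.mul_sum, Finset.sum_comm]
          congr 2
          exact Finset.sum_congr rfl fun t _ => by rw [Finset.sum_mul]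
      _ ≤ _ := by
          apply add_le_add
          · exact mul_le_mul_of_nonneg_left (int_pow_sum m N) (by positivity)
          · apply mul_le_mul_of_nonneg_left _ (by positivity)
            calc _ ≤ ∑ t ∈ Finset.range N, 25 * (2 : ℝ) ^ (m + t / 2) :=
                  Finset.sum_le_sum fun t _ =>
                    mul_le_mul_of_nonneg_right (sum_cw_le (N + 1) t) (by positivity)
              _ = 25 * ∑ t ∈ Finset.range N, (2 : ℝ) ^ (m + t / 2) := by rw [Finset.mul_sum]
              _ ≤ 25 * (4 * 2 ^ (m + N / 2)) := by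
                apply mul_le_mul_of_nonneg_left _ (by norm_num)
                refine le_trans ?_ (int_pow_sum m N)
                apply Finset.sum_le_sum_of_subset_of_nonneg
                · exact Finset.range_subset_range.2 (by omega)
                · intro t _ _; positivity
  have hp : 0 ≤ T * 2 ^ (m + N / 2) := by positivity
  calc _ ≤ 2 * ∑ s ∈ Finset.range (N + 1), I s := hsum1
    _ ≤ 2 * (24 * T * (4 * 2 ^ (m + N / 2)) + 80000 * T * (25 * (4 * 2 ^ (m + N / 2)))) := by
      linarith
    _ ≤ 20000000 * T * 2 ^ (m + N / 2) := by nlinarith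

end Pool.Agent.K1H85.CL
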