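import Pool.Agent.K1H85.CL.Stm

/-!
# CL-KEY : convergence of the characteristic functions
-/

open MeasureTheory ProbabilityTheory Filter
open scoped Topology BigOperators ENNReal

namespace Pool.Agent.K1H85.CL

universe u v

namespace Key

variable {X : Type u} [MeasurableSpace X] {Ω : Type v} [MeasurableSpace Ω]

lemma fil_le {κ : Kernel X X} {π : Measure X} {P : Measure Ω} {ξ : ℕ → Ω → X}
    (hCh : Chain κ π P ξ) (t : ℕ) : Fil ξ t ≤ ‹MeasurableSpace Ω› :=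
  iSup_le fun i => (hCh.meas i).comap_le

lemma cm_zero {κ : Kernel X X} [IsMarkovKernel κ] {π : Measure X} [IsProbabilityMeasure π]
    {D : X × X → ℝ} (hD : Measurable D) (hI : Integrable D (π ⊗ₘ κ))
    (h : ∀ Φ : X → ℝ, MemLp Φ 2 π → ∫ p, Φ p.1 * D p ∂(π ⊗ₘ κ) = 0) :
    ∀ᵐ x ∂π, ∫ y, D (x, y) ∂(κ x) = 0 := by
  have h1 : Integrable (fun x => ∫ y, D (x, y) ∂(κ x)) π := by
    have h2 := ((Measure.integrable_compProd_iff hI.aestronglyMeasurable).mp hI).2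
    refine h2.mono ?_ ?_
    · exact (hD.stronglyMeasurable.integral_kernel_prod_right').aestronglyMeasurable
    · refine Eventually.of_forall fun x => ?_
      rw [Real.norm_of_nonneg (integral_nonneg fun y => norm_nonneg _)]
      exact norm_integral_le_integral_norm _
  refine h1.ae_eq_zero_of_forall_setIntegral_eq_zero ?_
  intro A hA _
  have h3 : MemLp (A.indicator (fun _ => (1 : ℝ))) 2 π :=
    memLp_indicator_const 2 hA 1 (Or.inr (measure_ne_top _ _))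
  have h4 := h _ h3
  have h5 : Integrable (fun p : X × X => A.indicator (fun _ => (1 : ℝ)) p.1 * D p) (π ⊗ₘ κ) := by
    refine hI.mono ?_ ?_
    · exact (((measurable_const.indicator hA).comp measurable_fst).mul hD).aestronglyMeasurable
    · refine Eventually.of_forall fun p => ?_
      rw [norm_mul]
      by_cases hp : p.1 ∈ A
      · simp [hp]
      · simp [hp]
  rw [Measure.integral_compProd h5] at h4
  rw [← integral_indicator hA, ← h4]
  apply integral_congr_ae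
  refine Eventually.of_forall fun x => ?_
  by_cases hx : x ∈ A
  · simp [hx]
  · simp [hx]

lemma memLp_DD {π : Measure X} {μ : Measure (X × X)} {f : X → ℝ} {g h a b : ℕ → X → ℝ}
    {γ : ℕ → ℝ} (hc : Cor π μ f g h a b γ) (j : ℕ) : MemLp (DD f g a j) 2 μ := by
  have h1 : MeasurePreserving (Prod.fst : X × X → X) μ π := ⟨measurable_fst, hc.fst⟩
  have h2 : MeasurePreserving (Prod.snd : X × X → X) μ π := ⟨measurable_snd, hc.snd⟩
  have e1 := (hc.Lg j).comp_measurePreserving h2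
  have e2 := (hc.Lg j).comp_measurePreserving h1
  have e3 := hc.Lf.comp_measurePreserving h1
  have e4 := (hc.La j).comp_measurePreserving h1
  exact ((e1.sub e2).add e3).sub e4

lemma meas_DD {π : Measure X} {μ : Measure (X × X)} {f : X → ℝ} {g h a b : ℕ → X → ℝ}
    {γ : ℕ → ℝ} (hc : Cor π μ f g h a b γ) (j : ℕ) : Measurable (DD f g a j) := by
  unfold DD
  exact ((((hc.mg j).comp measurable_snd).sub ((hc.mg j).comp measurable_fst)).add
    (hc.mf.comp measurable_fst)).sub ((hc.ma j).comp measurable_fst)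

/-- One weight. -/
lemma one_weight (hS : S_WSEQ X Ω) (hU : S_UPD X Ω) {κ : Kernel X X} [IsMarkovKernel κ]
    {π : Measure X} {P : Measure Ω} {ξ : ℕ → Ω → X} (hCh : Chain κ π P ξ)
    {D : X × X → ℝ} (hDm : Measurable D) (hD2 : Integrable (fun p => D p ^ 2) (π ⊗ₘ κ))
    (hD0 : ∀ᵐ x ∂π, ∫ y, D (x, y) ∂(κ x) = 0) {c : ℝ} (hc : 0 < c) {Gd : Set X}
    (hGd : MeasurableSet Gd) {n : ℕ} {C1 σ2 ε : ℝ}
    (hC1 : n * (∫ p, D p ^ 2 ∂(π ⊗ₘ κ)) / c ^ 2 ≤ C1)
    (hW : ∀ n' ≤ n, ∀ ψ ψs : ℕ → X → ℝ, Wt π (π ⊗ₘ κ) n' Gd C1 ψ ψs →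
        σ2 * ∑ t ∈ Finset.range n', ∫ x, ψ t x ∂π - ε * n ≤
          ∑ t ∈ Finset.range n', ∫ p, ψ t p.1 * D p ^ 2 ∂(π ⊗ₘ κ))
    {F : ℝ → ℝ} (hF : Measurable F) (hF0 : ∀ y, 0 ≤ F y) (hF1 : ∀ y, F y ≤ 1) {n' : ℕ}
    (hn' : n' ≤ n) :
    -(ε * n) ≤ ∑ t ∈ Finset.range n',
      ∫ ω, F (mt ξ D c Gd t ω) * (D (ξ t ω, ξ (t + 1) ω) ^ 2 - σ2) ∂P := by
  have := hCh.pr
  obtain ⟨hUM, hUm, -, -, -, hUf, hUs⟩ := hU κ π P ξ hCh D hDm hD2 hD0 c Gd hc hGd
  obtain ⟨hS1, -, hS3⟩ := hS κ π P ξ hCh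
  set w : ℕ → Ω → ℝ := fun t ω => F (mt ξ D c Gd t ω) with hw
  have hwm : ∀ t, Measurable[Fil ξ t] (w t) := fun t => hF.comp (hUm t)
  have hwm' : ∀ t, Measurable (w t) := fun t => (hwm t).mono (fil_le hCh t) le_rfl
  have hmm' : ∀ t, Measurable (mt ξ D c Gd t) := fun t => (hUm t).mono (fil_le hCh t) le_rfl
  have hvar : ∑ t ∈ Finset.range n', ∫ ω, |w (t + 1) ω - w t ω| ∂P ≤ C1 := by
    have h1 : ∀ t ∈ Finset.range n', ∫ ω, |w (t + 1) ω - w t ω| ∂P ≤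
        (P {ω | mt ξ D c Gd (t + 1) ω ≠ mt ξ D c Gd t ω}).toReal := by
      intro t _
      have hset : MeasurableSet {ω | mt ξ D c Gd (t + 1) ω ≠ mt ξ D c Gd t ω} :=
        (measurableSet_eq_fun (hmm' (t + 1)) (hmm' t)).compl
      have h2 : ∫ ω, |w (t + 1) ω - w t ω| ∂P ≤
          ∫ ω, ({ω | mt ξ D c Gd (t + 1) ω ≠ mt ξ D c Gd t ω}).indicator (fun _ => (1 : ℝ)) ω ∂P := by
        apply integral_mono
        · refine Integrable.of_bound (((hwm' (t + 1)).sub (hwm' t)).abs).aestronglyMeasurable 1 ?_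
          refine Eventually.of_forall fun ω => ?_
          rw [Real.norm_eq_abs, abs_abs]
          have a1 := hF0 (mt ξ D c Gd (t + 1) ω)
          have a2 := hF1 (mt ξ D c Gd (t + 1) ω)
          have a3 := hF0 (mt ξ D c Gd t ω)
          have a4 := hF1 (mt ξ D c Gd t ω)
          rw [abs_le]
          constructor <;> simp only [hw] <;> linarith
        · exact (integrable_const (1 : ℝ)).indicator hset
        · intro ω
          by_cases hω : mt ξ D c Gd (t + 1) ω ≠ mt ξ D c Gd t ω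
          · rw [Set.indicator_of_mem (by exact hω)]
            have a1 := hF0 (mt ξ D c Gd (t + 1) ω)
            have a2 := hF1 (mt ξ D c Gd (t + 1) ω)
            have a3 := hF0 (mt ξ D c Gd t ω)
            have a4 := hF1 (mt ξ D c Gd t ω)
            show |w (t + 1) ω - w t ω| ≤ 1
            rw [abs_le]
            constructor <;> simp only [hw] <;> linarith
          · rw [Set.indicator_of_notMem (by exact hω)]
            push Not at hω
            show |w (t + 1) ω - w t ω| ≤ 0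
            simp only [hw, hω, sub_self, abs_zero, le_refl]
      refine h2.trans (le_of_eq ?_)
      rw [integral_indicator hset, setIntegral_const, smul_eq_mul, mul_one]
      rfl
    refine (Finset.sum_le_sum h1).trans ((hUs n').trans (le_trans ?_ hC1))
    have h3 : (0 : ℝ) ≤ ∫ p, D p ^ 2 ∂(π ⊗ₘ κ) := integral_nonneg fun p => sq_nonneg _
    have h4 : (n' : ℝ) ≤ n := by exact_mod_cast hn'
    gcongr
  obtain ⟨ψ, ψs, hWt, hE, hΦ⟩ := hS3 w n' Gd C1 hwm (fun t ω => hF0 _) (fun t ω => hF1 _) hGd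
    (fun t ω hω => by
      show F (mt ξ D c Gd (t + 1) ω) = F (mt ξ D c Gd t ω)
      rw [hUf t ω hω]) hvar
  have h5 := hW n' hn' ψ ψs hWt
  have hint : ∀ t, Integrable (fun ω => D (ξ t ω, ξ (t + 1) ω) ^ 2) P := fun t =>
    (hS1 t (fun p => D p ^ 2) hD2).1
  have h6 : ∀ t ∈ Finset.range n', ∫ ω, F (mt ξ D c Gd t ω) * (D (ξ t ω, ξ (t + 1) ω) ^ 2 - σ2) ∂P
      = ∫ p, ψ t p.1 * D p ^ 2 ∂(π ⊗ₘ κ) - σ2 * ∫ x, ψ t x ∂π := by
    intro t _
    have hb : ∀ ω, ‖w t ω‖ ≤ 1 := fun ω => by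
      rw [Real.norm_of_nonneg (hF0 _)]
      exact hF1 _
    have hi1 : Integrable (fun ω => w t ω * D (ξ t ω, ξ (t + 1) ω) ^ 2) P :=
      (hint t).bdd_mul (hwm' t).aestronglyMeasurable (c := 1) (Eventually.of_forall hb)
    have hi2 : Integrable (fun ω => w t ω * σ2) P :=
      (Integrable.of_bound (hwm' t).aestronglyMeasurable 1 (Eventually.of_forall hb)).mul_const _
    calc ∫ ω, F (mt ξ D c Gd t ω) * (D (ξ t ω, ξ (t + 1) ω) ^ 2 - σ2) ∂P
        = ∫ ω, (w t ω * D (ξ t ω, ξ (t + 1) ω) ^ 2 - w t ω * σ2) ∂P := by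
          congr 1; ext ω; simp only [hw]; ring
      _ = ∫ ω, w t ω * D (ξ t ω, ξ (t + 1) ω) ^ 2 ∂P - ∫ ω, w t ω * σ2 ∂P := integral_sub hi1 hi2
      _ = _ := by
          rw [integral_mul_const, hE t, mul_comm (∫ x, ψ t x ∂π) σ2,
            hΦ t (fun p => D p ^ 2) hD2]
  rw [Finset.sum_congr rfl h6, Finset.sum_sub_distrib, ← Finset.mul_sum]
  linarith

lemma norm_exp_sub (x y : ℝ) :
    ‖Complex.exp (Complex.I * (x : ℂ)) - Complex.exp (Complex.I * (y : ℂ))‖ ≤ |x - y| := by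
  have h1 : Complex.exp (Complex.I * (x : ℂ)) - Complex.exp (Complex.I * (y : ℂ))
      = Complex.exp (Complex.I * (y : ℂ)) * (Complex.exp (Complex.I * ((x - y : ℝ) : ℂ)) - 1) := by
    rw [mul_sub, mul_one, ← Complex.exp_add]
    congr 2
    push_cast
    ring
  rw [h1, norm_mul, Complex.norm_exp_I_mul_ofReal, one_mul]
  exact Real.norm_exp_I_mul_ofReal_sub_one_le

lemma two_weights {P : Measure Ω} [IsProbabilityMeasure P] {m Y : ℕ → Ω → ℝ}
    (hm : ∀ t, Measurable (m t)) (hY : ∀ t, Integrable (Y t) P) {v : ℝ}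
    (hv : ∀ t, ∫ ω, Y t ω ∂P = v) {n : ℕ} {ε : ℝ}
    (how : ∀ F : ℝ → ℝ, Measurable F → (∀ y, 0 ≤ F y) → (∀ y, F y ≤ 1) → ∀ n' ≤ n,
      -(ε * n) ≤ ∑ t ∈ Finset.range n', ∫ ω, F (m t ω) * Y t ω ∂P)
    {F : ℝ → ℝ} (hF : Measurable F) (h0 : ∀ y, -1 ≤ F y) (h1 : ∀ y, F y ≤ 1) {n' : ℕ}
    (hn' : n' ≤ n) :
    |∑ t ∈ Finset.range n', ∫ ω, F (m t ω) * Y t ω ∂P| ≤ 2 * (ε * n) + n * |v| := by
  have hp := how (fun y => (1 + F y) / 2) ((measurable_const.add hF).div_const 2)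
    (fun y => by have := h0 y; linarith) (fun y => by have := h1 y; linarith) n' hn'
  have hq := how (fun y => (1 - F y) / 2) ((measurable_const.sub hF).div_const 2)
    (fun y => by have := h1 y; linarith) (fun y => by have := h0 y; linarith) n' hn'
  have hi : ∀ t, Integrable (fun ω => F (m t ω) * Y t ω) P := fun t =>
    (hY t).bdd_mul (hF.comp (hm t)).aestronglyMeasurable (c := 1)
      (Eventually.of_forall fun ω => by
        rw [Real.norm_eq_abs, abs_le]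
        exact ⟨h0 _, h1 _⟩)
  have ep : ∀ t ∈ Finset.range n', ∫ ω, (1 + F (m t ω)) / 2 * Y t ω ∂P
      = v / 2 + (∫ ω, F (m t ω) * Y t ω ∂P) / 2 := by
    intro t _
    calc ∫ ω, (1 + F (m t ω)) / 2 * Y t ω ∂P
        = ∫ ω, (Y t ω / 2 + F (m t ω) * Y t ω / 2) ∂P := by
          congr 1; ext ω; ring
      _ = _ := by
          rw [integral_add ((hY t).div_const 2) ((hi t).div_const 2), integral_div, integral_div,
            hv t]
  have eq : ∀ t ∈ Finset.range n', ∫ ω, (1 - F (m t ω)) / 2 * Y t ω ∂P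
      = v / 2 - (∫ ω, F (m t ω) * Y t ω ∂P) / 2 := by
    intro t _
    calc ∫ ω, (1 - F (m t ω)) / 2 * Y t ω ∂P
        = ∫ ω, (Y t ω / 2 - F (m t ω) * Y t ω / 2) ∂P := by
          congr 1; ext ω; ring
      _ = _ := by
          rw [integral_sub ((hY t).div_const 2) ((hi t).div_const 2), integral_div, integral_div,
            hv t]
  rw [Finset.sum_congr rfl ep, Finset.sum_add_distrib, ← Finset.sum_div, Finset.sum_const,
    Finset.card_range, nsmul_eq_mul] at hp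
  rw [Finset.sum_congr rfl eq, Finset.sum_sub_distrib, ← Finset.sum_div, Finset.sum_const,
    Finset.card_range, nsmul_eq_mul] at hq
  rw [← Finset.sum_div] at hp hq
  have h3 : (n' : ℝ) ≤ n := by exact_mod_cast hn'
  have h4 : |(n' : ℝ) * v| ≤ n * |v| := by
    rw [abs_mul, abs_of_nonneg (Nat.cast_nonneg n' : (0 : ℝ) ≤ n')]
    exact mul_le_mul_of_nonneg_right h3 (abs_nonneg v)
  have h5 := abs_le.mp h4
  rw [abs_le]
  constructor
  · linarith [h5.1, h5.2]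
  · linarith [h5.1, h5.2]

lemma cplx {P : Measure Ω} [IsProbabilityMeasure P] {m Y : ℕ → Ω → ℝ}
    (hm : ∀ t, Measurable (m t)) (hY : ∀ t, Integrable (Y t) P) {v : ℝ}
    (hv : ∀ t, ∫ ω, Y t ω ∂P = v) {n : ℕ} {ε : ℝ}
    (how : ∀ F : ℝ → ℝ, Measurable F → (∀ y, 0 ≤ F y) → (∀ y, F y ≤ 1) → ∀ n' ≤ n,
      -(ε * n) ≤ ∑ t ∈ Finset.range n', ∫ ω, F (m t ω) * Y t ω ∂P)
    (s : ℝ) {n' : ℕ} (hn' : n' ≤ n) :
    ‖∑ t ∈ Finset.range n', ∫ ω, Complex.exp (Complex.I * (s * m t ω : ℝ)) * ((Y t ω : ℝ) : ℂ) ∂P‖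
      ≤ 2 * (2 * (ε * n) + n * |v|) := by
  have hc := two_weights hm hY hv how (F := fun y => Real.cos (s * y)) (by fun_prop)
    (fun y => Real.neg_one_le_cos _) (fun y => Real.cos_le_one _) hn'
  have hs := two_weights hm hY hv how (F := fun y => Real.sin (s * y)) (by fun_prop)
    (fun y => Real.neg_one_le_sin _) (fun y => Real.sin_le_one _) hn'
  have hic : ∀ t, Integrable (fun ω => Real.cos (s * m t ω) * Y t ω) P := fun t =>
    (hY t).bdd_mul (by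
      have := hm t
      exact (Measurable.aestronglyMeasurable (by fun_prop))) (c := 1)
      (Eventually.of_forall fun ω => Real.abs_cos_le_one _)
  have his : ∀ t, Integrable (fun ω => Real.sin (s * m t ω) * Y t ω) P := fun t =>
    (hY t).bdd_mul (by
      have := hm t
      exact (Measurable.aestronglyMeasurable (by fun_prop))) (c := 1)
      (Eventually.of_forall fun ω => Real.abs_sin_le_one _)
  have he : ∀ t ∈ Finset.range n',
      ∫ ω, Complex.exp (Complex.I * (s * m t ω : ℝ)) * ((Y t ω : ℝ) : ℂ) ∂P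
      = ((∫ ω, Real.cos (s * m t ω) * Y t ω ∂P : ℝ) : ℂ)
        + ((∫ ω, Real.sin (s * m t ω) * Y t ω ∂P : ℝ) : ℂ) * Complex.I := by
    intro t _
    rw [← integral_complex_ofReal, ← integral_complex_ofReal, ← integral_mul_const,
      ← integral_add (hic t).ofReal ((his t).ofReal.mul_const _)]
    congr 1
    ext ω
    rw [mul_comm Complex.I, Complex.exp_mul_I]
    push_cast
    ring
  rw [Finset.sum_congr rfl he, Finset.sum_add_distrib, ← Finset.sum_mul, ← Complex.ofReal_sum,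
    ← Complex.ofReal_sum]
  refine (norm_add_le _ _).trans ?_
  rw [norm_mul, Complex.norm_I, mul_one, Complex.norm_real, Complex.norm_real, Real.norm_eq_abs,
    Real.norm_eq_abs]
  linarith

/-- Comparison of the two exponentials. -/
lemma compare {κ : Kernel X X} [IsMarkovKernel κ] {π : Measure X} [IsProbabilityMeasure π]
    {P : Measure Ω} [IsProbabilityMeasure P] {D : X × X → ℝ} (hDm : Measurable D)
    (hD2 : Integrable (fun p => D p ^ 2) (π ⊗ₘ κ)) {ξ : ℕ → Ω → X}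
    (t : ℕ) (hξ : Measurable (fun ω => (ξ t ω, ξ (t + 1) ω)))
    (hS1 : ∀ Φ : X × X → ℝ, Integrable Φ (π ⊗ₘ κ) →
      Integrable (fun ω => Φ (ξ t ω, ξ (t + 1) ω)) P ∧
      ∫ ω, Φ (ξ t ω, ξ (t + 1) ω) ∂P = ∫ p, Φ p ∂(π ⊗ₘ κ))
    {M m : Ω → ℝ} (hM : Measurable M) (hm : Measurable m) {c : ℝ} {Gd : Set X}
    (hGd : MeasurableSet Gd) (hMm : ∀ ω, |M ω - m ω| ≤ c ∨ ξ t ω ∉ Gd) (hc : 0 ≤ c)
    {σ2 : ℝ} (hσ : 0 ≤ σ2) (s : ℝ) :
    ‖(∫ ω, Complex.exp (Complex.I * (s * M ω : ℝ)) *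
          ((D (ξ t ω, ξ (t + 1) ω) ^ 2 - σ2 : ℝ) : ℂ) ∂P)
      - ∫ ω, Complex.exp (Complex.I * (s * m ω : ℝ)) *
          ((D (ξ t ω, ξ (t + 1) ω) ^ 2 - σ2 : ℝ) : ℂ) ∂P‖ ≤
      |s| * c * (∫ p, D p ^ 2 ∂(π ⊗ₘ κ) + σ2)
        + 2 * (∫ p in {p : X × X | p.1 ∉ Gd}, D p ^ 2 ∂(π ⊗ₘ κ) + σ2 * (π Gdᶜ).toReal) := by
  have hset : MeasurableSet {p : X × X | p.1 ∉ Gd} := measurable_fst hGd.compl
  have hdi : Integrable (fun p => D p ^ 2 + σ2) (π ⊗ₘ κ) := hD2.add (integrable_const σ2)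
  have hΦ : Integrable (fun p : X × X => |s| * c * (D p ^ 2 + σ2)
      + 2 * ({p : X × X | p.1 ∉ Gd}.indicator (fun p => D p ^ 2 + σ2) p)) (π ⊗ₘ κ) :=
    (hdi.const_mul _).add ((hdi.indicator hset).const_mul _)
  obtain ⟨h1, h2⟩ := hS1 _ hΦ
  have hY : Integrable (fun ω => D (ξ t ω, ξ (t + 1) ω) ^ 2 - σ2) P :=
    (hS1 _ hD2).1.sub (integrable_const σ2)
  have hYc : Integrable (fun ω => ((D (ξ t ω, ξ (t + 1) ω) ^ 2 - σ2 : ℝ) : ℂ)) P := hY.ofReal
  have hiM : Integrable (fun ω => Complex.exp (Complex.I * (s * M ω : ℝ)) *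
          ((D (ξ t ω, ξ (t + 1) ω) ^ 2 - σ2 : ℝ) : ℂ)) P :=
    hYc.bdd_mul (Measurable.aestronglyMeasurable (by fun_prop)) (c := 1)
      (Eventually.of_forall fun ω => (Complex.norm_exp_I_mul_ofReal _).le)
  have him : Integrable (fun ω => Complex.exp (Complex.I * (s * m ω : ℝ)) *
          ((D (ξ t ω, ξ (t + 1) ω) ^ 2 - σ2 : ℝ) : ℂ)) P :=
    hYc.bdd_mul (Measurable.aestronglyMeasurable (by fun_prop)) (c := 1)
      (Eventually.of_forall fun ω => (Complex.norm_exp_I_mul_ofReal _).le)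
  rw [← integral_sub hiM him]
  refine (norm_integral_le_of_norm_le h1 (Eventually.of_forall fun ω => ?_)).trans (le_of_eq ?_)
  · rw [← sub_mul, norm_mul, Complex.norm_real, Real.norm_eq_abs]
    have hd : |D (ξ t ω, ξ (t + 1) ω) ^ 2 - σ2| ≤ D (ξ t ω, ξ (t + 1) ω) ^ 2 + σ2 := by
      rw [abs_le]
      constructor <;> nlinarith [sq_nonneg (D (ξ t ω, ξ (t + 1) ω))]
    have hd0 : 0 ≤ D (ξ t ω, ξ (t + 1) ω) ^ 2 + σ2 := by positivity
    have he := norm_exp_sub (s * M ω) (s * m ω)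
    by_cases hg : ξ t ω ∈ Gd
    · have h3 : |M ω - m ω| ≤ c := (hMm ω).resolve_right (fun h => h hg)
      have h4 : |s * M ω - s * m ω| ≤ |s| * c := by
        rw [← mul_sub, abs_mul]
        exact mul_le_mul_of_nonneg_left h3 (abs_nonneg s)
      have h5 : ((ξ t ω, ξ (t + 1) ω) : X × X) ∉ {p : X × X | p.1 ∉ Gd} := fun h => h hg
      rw [Set.indicator_of_notMem h5, mul_zero, add_zero]
      exact mul_le_mul (he.trans h4) hd (abs_nonneg _) (by positivity)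
    · have h5 : ((ξ t ω, ξ (t + 1) ω) : X × X) ∈ {p : X × X | p.1 ∉ Gd} := hg
      rw [Set.indicator_of_mem h5]
      have h6 : ‖Complex.exp (Complex.I * (s * M ω : ℝ))
          - Complex.exp (Complex.I * (s * m ω : ℝ))‖ ≤ 2 := by
        refine (norm_sub_le _ _).trans ?_
        rw [Complex.norm_exp_I_mul_ofReal, Complex.norm_exp_I_mul_ofReal]
        norm_num
      have h7 := mul_le_mul h6 hd (abs_nonneg _) (by norm_num)
      have h8 : 0 ≤ |s| * c * (D (ξ t ω, ξ (t + 1) ω) ^ 2 + σ2) := by positivity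
      linarith
  · rw [h2, integral_add (hdi.const_mul _) ((hdi.indicator hset).const_mul _),
      integral_const_mul, integral_const_mul, integral_add hD2 (integrable_const σ2),
      integral_indicator hset, integral_add hD2.integrableOn (integrable_const σ2)]
    have hπ : (π ⊗ₘ κ).real {p : X × X | p.1 ∉ Gd} = (π Gdᶜ).toReal := by
      have h9 : π = (π ⊗ₘ κ).map Prod.fst := by
        rw [← Measure.fst, Measure.fst_compProd]
      have h10 : π Gdᶜ = (π ⊗ₘ κ) (Prod.fst ⁻¹' Gdᶜ) := by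
        conv_lhs => rw [h9]
        rw [Measure.map_apply measurable_fst hGd.compl]
      rw [h10]
      rfl
    rw [integral_const, integral_const]
    simp only [smul_eq_mul, probReal_univ, one_mul, measureReal_restrict_apply_univ]
    rw [hπ]
    ring

/-- Arithmetic of the error terms. -/
lemma arith {s ε σ2 V e' η : ℝ} (hε : 0 < ε) (hσ : 0 ≤ σ2) (he0 : 0 < e')
    (he1 : e' ≤ 1) (he2 : e' ≤ ε / (64 * (1 + |s|) ^ 3 * (2 * σ2 + 2)))
    (hη : η = ε / (8 * (1 + |s|) ^ 3 * (2 * σ2 + 2))) (hV : |V - σ2| ≤ e') :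
    (s ^ 2 / 2) * (2 * (2 * e' + |V - σ2|) + |s| * η * (V + σ2) + 2 * (e' + σ2 * e'))
      + (|s| ^ 3 * e' * V + s ^ 2 * e') ≤ ε / 4 := by
  set A : ℝ := |s| with hA
  have hA0 : 0 ≤ A := abs_nonneg s
  have hs2 : s ^ 2 = A ^ 2 := (sq_abs s).symm
  rw [hs2]
  set q : ℝ := (1 + A) ^ 3 with hq
  set B : ℝ := 2 * σ2 + 2 with hB
  have hq0 : 0 < q := by positivity
  have hB2 : 2 ≤ B := by linarith
  have hq2 : A ^ 2 ≤ q := by rw [hq]; nlinarith [pow_nonneg hA0 3, pow_nonneg hA0 2]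
  have hq3 : A ^ 3 ≤ q := by rw [hq]; nlinarith [pow_nonneg hA0 3, pow_nonneg hA0 2]
  have h1 := abs_le.mp hV
  have hV1 : V + σ2 ≤ B := by linarith
  have hV0 : V ≤ B := by linarith
  have hη0 : 0 < η := by rw [hη]; positivity
  have e1 : 64 * (q * B * e') ≤ ε := by
    rw [le_div_iff₀ (by positivity)] at he2
    linarith
  have e2 : 8 * (q * B * η) = ε := by
    rw [hη]
    field_simp
  have hx : 2 * (2 * e' + |V - σ2|) + A * η * (V + σ2) + 2 * (e' + σ2 * e')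
      ≤ 4 * (B * e') + A * η * B := by
    have a1 : A * η * (V + σ2) ≤ A * η * B := mul_le_mul_of_nonneg_left hV1 (by positivity)
    have a2 : 2 * (e' + σ2 * e') = B * e' := by rw [hB]; ring
    have a3 : 2 * e' ≤ B * e' := mul_le_mul_of_nonneg_right hB2 he0.le
    rw [a2]
    linarith
  have hy := mul_le_mul_of_nonneg_left hx (by positivity : (0 : ℝ) ≤ A ^ 2 / 2)
  have c1 : A ^ 2 * (B * e') ≤ q * (B * e') := mul_le_mul_of_nonneg_right hq2 (by positivity)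
  have c2 : A ^ 3 * (B * η) ≤ q * (B * η) := mul_le_mul_of_nonneg_right hq3 (by positivity)
  have c3 : A ^ 3 * (e' * V) ≤ A ^ 3 * (e' * B) :=
    mul_le_mul_of_nonneg_left (mul_le_mul_of_nonneg_left hV0 he0.le) (by positivity)
  have c4 : A ^ 3 * (e' * B) ≤ q * (e' * B) := mul_le_mul_of_nonneg_right hq3 (by positivity)
  have c5 : A ^ 2 * e' ≤ q * e' := mul_le_mul_of_nonneg_right hq2 he0.le
  have c6 : 2 * (q * e') ≤ B * (q * e') := mul_le_mul_of_nonneg_right hB2 (by positivity)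
  nlinarith [hy, c1, c2, c3, c4, c5, c6, e1, e2]

end Key

open Key in
theorem t_KEY (X : Type u) [MeasurableSpace X] (Ω : Type v) [MeasurableSpace Ω]
    (hW : S_W X) (hVAR : S_VAR X) (hS : S_WSEQ X Ω) (hU : S_UPD X Ω) (hT : S_STEP X Ω)
    (hC : S_CFA) : S_KEY X Ω := by
  intro κ hκ π f g h a b γ P ξ hinv herg hcor hCh σ2 hσ hlim s ε hε
  have i1 := hcor.pp
  have i2 := hcor.pm
  have i3 := hCh.pr
  obtain ⟨-, -, hV3⟩ := hVAR π (π ⊗ₘ κ) f g h a b γ hcor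
  set η : ℝ := ε / (8 * (1 + |s|) ^ 3 * (2 * σ2 + 2)) with hη
  have hη0 : 0 < η := by rw [hη]; positivity
  set e' : ℝ := min 1 (ε / (64 * (1 + |s|) ^ 3 * (2 * σ2 + 2))) with he'
  have he0 : 0 < e' := lt_min one_pos (by positivity)
  have he1 : e' ≤ 1 := min_le_left _ _
  have he2 : e' ≤ ε / (64 * (1 + |s|) ^ 3 * (2 * σ2 + 2)) := min_le_right _ _
  set C1 : ℝ := (σ2 + 1) / η ^ 2 with hC1
  have hC10 : 0 ≤ C1 := by rw [hC1]; positivity
  obtain ⟨l, k0, hk⟩ := hW κ π f g h a b γ hinv herg hcor σ2 hlim e' C1 he0 hC10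
  obtain ⟨k1, hk1⟩ := (Metric.tendsto_atTop.mp hlim) e' he0
  set c0 : ℝ := s ^ 2 * σ2 / 2 with hc0
  have hc00 : 0 ≤ c0 := by rw [hc0]; positivity
  obtain ⟨k2, hk2⟩ := exists_nat_ge (2 * c0 ^ 2 / ε + c0 + 1)
  refine ⟨l, max k0 (max k1 k2), fun k hkk n hn1 hn2 => ?_⟩
  have hkk0 : k0 ≤ k := le_trans (le_max_left _ _) hkk
  have hkk1 : k1 ≤ k := le_trans (le_trans (le_max_left _ _) (le_max_right _ _)) hkk
  have hkk2 : k2 ≤ k := le_trans (le_trans (le_max_right _ _) (le_max_right _ _)) hkk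
  have hkn : k ≤ n := by
    calc k ≤ 2 ^ k := Nat.lt_two_pow_self.le
      _ ≤ 2 ^ (k + 4 * l) := Nat.pow_le_pow_right (by norm_num) (by omega)
      _ ≤ n := hn1
  have hnR : 2 * c0 ^ 2 / ε + c0 + 1 ≤ n :=
    hk2.trans (by exact_mod_cast hkk2.trans hkn)
  have hz : 0 ≤ 2 * c0 ^ 2 / ε := by positivity
  have hnpos : (0 : ℝ) < n := by linarith
  have hn0 : 0 < n := by exact_mod_cast hnpos
  have hsq : 0 < √(n : ℝ) := Real.sqrt_pos.mpr hnpos
  obtain ⟨Gd, hGd, hg1, hg2, hg3, hg4⟩ := hk k hkk0 n hn1 hn2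
  set D : X × X → ℝ := DD f g a k with hD
  set V : ℝ := ∫ p, D p ^ 2 ∂(π ⊗ₘ κ) with hV
  have hVσ : |V - σ2| ≤ e' := by
    have := hk1 k hkk1
    rw [Real.dist_eq] at this
    exact this.le
  have hDm : Measurable D := meas_DD hcor k
  have hDL : MemLp D 2 (π ⊗ₘ κ) := memLp_DD hcor k
  have hD2 : Integrable (fun p => D p ^ 2) (π ⊗ₘ κ) := hDL.integrable_sq
  have hD0 : ∀ᵐ x ∂π, ∫ y, D (x, y) ∂(κ x) = 0 :=
    cm_zero hDm (hDL.integrable one_le_two) (hV3 k)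
  have hV0 : 0 ≤ V := integral_nonneg fun p => sq_nonneg _
  have hVle : V ≤ σ2 + 1 := by
    have := abs_le.mp hVσ
    linarith
  set c : ℝ := η * √(n : ℝ) with hc
  have hcpos : 0 < c := by positivity
  have hnc : n * V / c ^ 2 ≤ C1 := by
    have h1 : c ^ 2 = η ^ 2 * n := by rw [hc, mul_pow, Real.sq_sqrt hnpos.le]
    rw [h1, hC1]
    have h2 : n * V / (η ^ 2 * n) = V / η ^ 2 := by field_simp
    rw [h2]
    gcongr
  obtain ⟨hUM, hUm, -, -, hUg, -, -⟩ := hU κ π P ξ hCh D hDm hD2 hD0 c Gd hcpos hGd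
  obtain ⟨hS1, -, -⟩ := hS κ π P ξ hCh
  have hMm : ∀ t, Measurable (Mt ξ D t) := fun t => (hUM t).mono (fil_le hCh t) le_rfl
  have hmm : ∀ t, Measurable (mt ξ D c Gd t) := fun t => (hUm t).mono (fil_le hCh t) le_rfl
  have hY2 : ∀ t, Integrable (fun ω => D (ξ t ω, ξ (t + 1) ω) ^ 2) P := fun t => (hS1 t _ hD2).1
  have hYv : ∀ t, ∫ ω, D (ξ t ω, ξ (t + 1) ω) ^ 2 ∂P = V := fun t => (hS1 t _ hD2).2
  have hY : ∀ t, Integrable (fun ω => D (ξ t ω, ξ (t + 1) ω) ^ 2 - σ2) P := fun t =>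
    (hY2 t).sub (integrable_const σ2)
  have hv : ∀ t, ∫ ω, (D (ξ t ω, ξ (t + 1) ω) ^ 2 - σ2) ∂P = V - σ2 := by
    intro t
    rw [integral_sub (hY2 t) (integrable_const σ2), hYv t, integral_const]
    simp
  have hcp : ∀ n' ≤ n, ‖∑ t ∈ Finset.range n',
      ∫ ω, Complex.exp (Complex.I * (s / √n * mt ξ D c Gd t ω : ℝ)) *
        ((D (ξ t ω, ξ (t + 1) ω) ^ 2 - σ2 : ℝ) : ℂ) ∂P‖ ≤ 2 * (2 * (e' * n) + n * |V - σ2|) := by
    intro n' hn'
    exact cplx (m := mt ξ D c Gd) (Y := fun t ω => D (ξ t ω, ξ (t + 1) ω) ^ 2 - σ2) hmm hY hv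
      (fun F hF hF0 hF1 n'' hn'' => one_weight hS hU hCh hDm hD2 hD0 hcpos hGd hnc hg4 hF hF0 hF1
        hn'') (s / √n) hn'
  have hsc : |s / √(n : ℝ)| * c = |s| * η := by
    rw [abs_div, abs_of_pos hsq, hc]
    field_simp
  have hcmp : ∀ t, ‖(∫ ω, Complex.exp (Complex.I * (s / √n * Mt ξ D t ω : ℝ)) *
          ((D (ξ t ω, ξ (t + 1) ω) ^ 2 - σ2 : ℝ) : ℂ) ∂P)
      - ∫ ω, Complex.exp (Complex.I * (s / √n * mt ξ D c Gd t ω : ℝ)) *
          ((D (ξ t ω, ξ (t + 1) ω) ^ 2 - σ2 : ℝ) : ℂ) ∂P‖ ≤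
      |s| * η * (V + σ2) + 2 * (e' + σ2 * e') := by
    intro t
    have h1 := compare hDm hD2 t ((hCh.meas t).prodMk (hCh.meas (t + 1))) (hS1 t) (hMm t) (hmm t)
      hGd (hUg t) hcpos.le hσ (s / √n)
    rw [hsc] at h1
    refine h1.trans ?_
    have h2 : σ2 * (π Gdᶜ).toReal ≤ σ2 * e' := mul_le_mul_of_nonneg_left hg1 hσ
    linarith
  set E1 : ℝ := 2 * (2 * e' + |V - σ2|) + |s| * η * (V + σ2) + 2 * (e' + σ2 * e') with hE1
  have hbr0 : 0 ≤ |s| * η * (V + σ2) + 2 * (e' + σ2 * e') := by positivity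
  have hpart : ∀ n' ≤ n, ‖∑ t ∈ Finset.range n',
      ∫ ω, Complex.exp (Complex.I * (s / √n * Mt ξ D t ω : ℝ)) *
        ((D (ξ t ω, ξ (t + 1) ω) ^ 2 - σ2 : ℝ) : ℂ) ∂P‖ ≤ n * E1 := by
    intro n' hn'
    have h1 : ∑ t ∈ Finset.range n', ∫ ω, Complex.exp (Complex.I * (s / √n * Mt ξ D t ω : ℝ)) *
        ((D (ξ t ω, ξ (t + 1) ω) ^ 2 - σ2 : ℝ) : ℂ) ∂P
        = ∑ t ∈ Finset.range n', ((∫ ω, Complex.exp (Complex.I * (s / √n * Mt ξ D t ω : ℝ)) *
          ((D (ξ t ω, ξ (t + 1) ω) ^ 2 - σ2 : ℝ) : ℂ) ∂P)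
      - ∫ ω, Complex.exp (Complex.I * (s / √n * mt ξ D c Gd t ω : ℝ)) *
          ((D (ξ t ω, ξ (t + 1) ω) ^ 2 - σ2 : ℝ) : ℂ) ∂P)
        + ∑ t ∈ Finset.range n', ∫ ω, Complex.exp (Complex.I * (s / √n * mt ξ D c Gd t ω : ℝ)) *
          ((D (ξ t ω, ξ (t + 1) ω) ^ 2 - σ2 : ℝ) : ℂ) ∂P := by
      rw [Finset.sum_sub_distrib]
      ring
    rw [h1]
    refine (norm_add_le _ _).trans ?_
    have h2 := (norm_sum_le (Finset.range n') (fun t =>
      (∫ ω, Complex.exp (Complex.I * (s / √n * Mt ξ D t ω : ℝ)) *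
          ((D (ξ t ω, ξ (t + 1) ω) ^ 2 - σ2 : ℝ) : ℂ) ∂P)
      - ∫ ω, Complex.exp (Complex.I * (s / √n * mt ξ D c Gd t ω : ℝ)) *
          ((D (ξ t ω, ξ (t + 1) ω) ^ 2 - σ2 : ℝ) : ℂ) ∂P)).trans
      (Finset.sum_le_sum (fun t _ => hcmp t))
    rw [Finset.sum_const, Finset.card_range, nsmul_eq_mul] at h2
    have h3 : (n' : ℝ) ≤ n := by exact_mod_cast hn'
    have h4 := mul_le_mul_of_nonneg_right h3 hbr0
    have h5 := hcp n' hn'
    rw [hE1]
    linarith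
  set x : ℕ → ℂ := fun t => ∫ ω, Complex.exp (Complex.I * (s / √n * Mt ξ D t ω : ℝ)) ∂P with hx
  have hZi : ∀ t, Integrable (fun ω => Complex.exp (Complex.I * (s / √n * Mt ξ D t ω : ℝ))) P := by
    intro t
    have := hMm t
    refine Integrable.of_bound (Measurable.aestronglyMeasurable (by fun_prop)) 1 ?_
    exact Eventually.of_forall fun ω => (Complex.norm_exp_I_mul_ofReal _).le
  have hZY : ∀ t, ∫ ω, Complex.exp (Complex.I * (s / √n * Mt ξ D t ω : ℝ)) *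
        ((D (ξ t ω, ξ (t + 1) ω) ^ 2 - σ2 : ℝ) : ℂ) ∂P
      = (∫ ω, Complex.exp (Complex.I * (s / √n * Mt ξ D t ω : ℝ)) *
        ((D (ξ t ω, ξ (t + 1) ω) ^ 2 : ℝ) : ℂ) ∂P) - x t * (σ2 : ℂ) := by
    intro t
    have hmt := hMm t
    have h1 : Integrable (fun ω => Complex.exp (Complex.I * (s / √n * Mt ξ D t ω : ℝ)) *
        ((D (ξ t ω, ξ (t + 1) ω) ^ 2 : ℝ) : ℂ)) P :=
      (hY2 t).ofReal.bdd_mul (Measurable.aestronglyMeasurable (by fun_prop)) (c := 1)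
        (Eventually.of_forall fun ω => (Complex.norm_exp_I_mul_ofReal _).le)
    rw [hx]
    simp only
    rw [← integral_mul_const, ← integral_sub h1 ((hZi t).mul_const _)]
    congr 1
    ext ω
    push_cast
    ring
  set ρ : ℕ → ℂ := fun t => x (t + 1) - x t + ((s ^ 2 / (2 * n) : ℝ) : ℂ) *
    ∫ ω, Complex.exp (Complex.I * (s / √n * Mt ξ D t ω : ℝ)) *
            ((D (ξ t ω, ξ (t + 1) ω) ^ 2 : ℝ) : ℂ) ∂P with hρ
  have hρb : ∀ t, ‖ρ t‖ ≤ 1 / n * (|s| ^ 3 * e' * V + s ^ 2 * e') := by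
    intro t
    refine (hT κ π P ξ hCh D hDm hD2 hD0 n s e' t hn0 he0).trans ?_
    gcongr
  set et : ℕ → ℂ := fun t => x (t + 1) - x t + ((c0 / n : ℝ) : ℂ) * x t with het
  have hete : ∀ t, et t = ρ t - ((s ^ 2 / (2 * n) : ℝ) : ℂ) *
      ∫ ω, Complex.exp (Complex.I * (s / √n * Mt ξ D t ω : ℝ)) *
        ((D (ξ t ω, ξ (t + 1) ω) ^ 2 - σ2 : ℝ) : ℂ) ∂P := by
    intro t
    rw [hZY t]
    simp only [het, hρ, hc0]
    push_cast
    have hnc' : (n : ℂ) ≠ 0 := by exact_mod_cast hn0.ne'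
    field_simp
    ring
  have hfin := hC n c0 (ε / 4) x et hn0 hc00 (by linarith) (by linarith) (by
      simp only [hx]
      simp [Mt]) (fun t _ => by simp only [het]; ring) (by
      intro n' hn'
      have h1 : ∑ t ∈ Finset.range n', et t = ∑ t ∈ Finset.range n', ρ t
          - ((s ^ 2 / (2 * n) : ℝ) : ℂ) * ∑ t ∈ Finset.range n',
            ∫ ω, Complex.exp (Complex.I * (s / √n * Mt ξ D t ω : ℝ)) *
              ((D (ξ t ω, ξ (t + 1) ω) ^ 2 - σ2 : ℝ) : ℂ) ∂P := by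
        rw [Finset.mul_sum, ← Finset.sum_sub_distrib]
        exact Finset.sum_congr rfl fun t _ => hete t
      rw [h1]
      refine (norm_sub_le _ _).trans ?_
      have h2 := (norm_sum_le (Finset.range n') ρ).trans (Finset.sum_le_sum (fun t _ => hρb t))
      rw [Finset.sum_const, Finset.card_range, nsmul_eq_mul] at h2
      have h3 : (n' : ℝ) ≤ n := by exact_mod_cast hn'
      have h4 : 0 ≤ |s| ^ 3 * e' * V + s ^ 2 * e' := by positivity
      have h5 : (n' : ℝ) * (1 / n * (|s| ^ 3 * e' * V + s ^ 2 * e'))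
          ≤ |s| ^ 3 * e' * V + s ^ 2 * e' := by
        calc (n' : ℝ) * (1 / n * (|s| ^ 3 * e' * V + s ^ 2 * e'))
            ≤ n * (1 / n * (|s| ^ 3 * e' * V + s ^ 2 * e')) :=
              mul_le_mul_of_nonneg_right h3 (by positivity)
          _ = |s| ^ 3 * e' * V + s ^ 2 * e' := by field_simp
      have h6 : ‖((s ^ 2 / (2 * n) : ℝ) : ℂ) * ∑ t ∈ Finset.range n',
            ∫ ω, Complex.exp (Complex.I * (s / √n * Mt ξ D t ω : ℝ)) *
              ((D (ξ t ω, ξ (t + 1) ω) ^ 2 - σ2 : ℝ) : ℂ) ∂P‖ ≤ s ^ 2 / 2 * E1 := by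
        rw [norm_mul, Complex.norm_real, Real.norm_of_nonneg (by positivity)]
        calc s ^ 2 / (2 * n) * _ ≤ s ^ 2 / (2 * n) * (n * E1) :=
              mul_le_mul_of_nonneg_left (hpart n' hn') (by positivity)
          _ = s ^ 2 / 2 * E1 := by field_simp
      have h7 := arith hε hσ he0 he1 he2 hη hVσ
      rw [← hE1] at h7
      linarith)
  have hlast : c0 ^ 2 / n ≤ ε / 2 := by
    rw [div_le_iff₀ hnpos]
    have h1 : 2 * c0 ^ 2 / ε ≤ n := by linarith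
    rw [div_le_iff₀ hε] at h1
    linarith
  refine hfin.trans ?_
  linarith

end Pool.Agent.K1H85.CL
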