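import Pool.Agent.K1H85.CL.Stm

/-!
Project CL (helper61), piece `S_LOW`: the lower bound at a fixed scale, by the mean ergodic theorem.
-/

open MeasureTheory ProbabilityTheory Filter
open scoped Topology BigOperators ENNReal RealInnerProductSpace

namespace Pool.Agent.K1H85.CL

universe u

noncomputable section

variable {X : Type u} [MeasurableSpace X]

private lemma mpf (κ : Kernel X X) [IsMarkovKernel κ] (π : Measure X) [IsProbabilityMeasure π] :
    MeasurePreserving Prod.fst (π ⊗ₘ κ) π := ⟨measurable_fst, Measure.fst_compProd π κ⟩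

private lemma mps {κ : Kernel X X} [IsMarkovKernel κ] {π : Measure X} [IsProbabilityMeasure π]
    (hi : κ.Invariant π) : MeasurePreserving Prod.snd (π ⊗ₘ κ) π :=
  ⟨measurable_snd, (Measure.snd_compProd π κ).trans hi⟩

private lemma int_snd {κ : Kernel X X} [IsMarkovKernel κ] {π : Measure X} [IsProbabilityMeasure π]
    (hi : κ.Invariant π) {φ : X → ℝ} (hφ : Integrable φ π) :
    Integrable (fun p : X × X => φ p.2) (π ⊗ₘ κ) :=
  (mps hi).integrable_comp_of_integrable hφ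

private lemma exQ {κ : Kernel X X} [IsMarkovKernel κ] {π : Measure X} [IsProbabilityMeasure π]
    (hi : κ.Invariant π) : ∃ Q : Lp ℝ 2 π →L[ℝ] Lp ℝ 2 π, ‖Q‖ ≤ 1 ∧
      ∀ φ : Lp ℝ 2 π, ∀ᵐ x ∂π, (Q φ : X → ℝ) x = ∫ y, (φ : X → ℝ) y ∂(κ x) := by
  set A1 : Lp ℝ 2 π →L[ℝ] Lp ℝ 2 (π ⊗ₘ κ) :=
    (Lp.compMeasurePreservingₗᵢ (E := ℝ) (p := 2) ℝ Prod.fst (mpf κ π)).toContinuousLinearMap
    with hA1
  set A2 : Lp ℝ 2 π →L[ℝ] Lp ℝ 2 (π ⊗ₘ κ) :=
    (Lp.compMeasurePreservingₗᵢ (E := ℝ) (p := 2) ℝ Prod.snd (mps hi)).toContinuousLinearMap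
    with hA2
  have n1 : ‖A1‖ ≤ 1 := LinearIsometry.norm_toContinuousLinearMap_le _
  have n2 : ‖A2‖ ≤ 1 := LinearIsometry.norm_toContinuousLinearMap_le _
  refine ⟨(ContinuousLinearMap.adjoint A1).comp A2, ?_, ?_⟩
  · refine (ContinuousLinearMap.opNorm_comp_le _ _).trans ?_
    have : ‖ContinuousLinearMap.adjoint A1‖ = ‖A1‖ :=
      LinearIsometryEquiv.norm_map _ _
    rw [this]
    exact mul_le_one₀ n1 (norm_nonneg _) n2
  · intro φ
    have hφ : Integrable (φ : X → ℝ) π := (Lp.memLp φ).integrable (by norm_num)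
    have hφ2 := int_snd hi hφ
    have i1 : Integrable (fun x => ∫ y, (φ : X → ℝ) y ∂(κ x)) π := by
      have h := hφ2
      rw [Measure.compProd] at h
      have h' := h.integral_compProd
      simpa using h'
    refine Integrable.ae_eq_of_forall_setIntegral_eq _ _
      ((Lp.memLp _).integrable (by norm_num)) i1 ?_
    intro s hs _
    have hμs : π s ≠ ∞ := measure_ne_top _ _
    rw [← L2.inner_indicatorConstLp_one (𝕜 := ℝ) hs hμs, ContinuousLinearMap.comp_apply,
      ContinuousLinearMap.adjoint_inner_right]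
    have e1 : A1 (indicatorConstLp 2 hs hμs (1 : ℝ)) =
        indicatorConstLp 2 (hs.preimage measurable_fst) (measure_ne_top _ _) (1 : ℝ) := rfl
    rw [e1, L2.inner_indicatorConstLp_one (𝕜 := ℝ)]
    have e2 : (A2 φ : X × X → ℝ) =ᵐ[π ⊗ₘ κ] (φ : X → ℝ) ∘ Prod.snd :=
      Lp.coeFn_compMeasurePreserving φ (mps hi)
    rw [setIntegral_congr_ae (g := fun p => (φ : X → ℝ) p.2) (hs.preimage measurable_fst)
      (e2.mono fun p hp _ => hp)]
    have e3 : (Prod.fst ⁻¹' s : Set (X × X)) = s ×ˢ Set.univ := by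
      ext p; simp
    rw [e3, Measure.setIntegral_compProd hs MeasurableSet.univ hφ2.integrableOn]
    simp

/-- iterates of the Markov operator -/
private def qi (κ : Kernel X X) (v : X → ℝ) : ℕ → X → ℝ
  | 0 => v
  | l + 1 => fun x => ∫ y, qi κ v l y ∂(κ x)

private lemma qi_meas (κ : Kernel X X) [IsMarkovKernel κ] {v : X → ℝ} (hv : Measurable v) :
    ∀ l, Measurable (qi κ v l) := by
  intro l
  induction l with
  | zero => exact hv
  | succ l ih => exact (ih.stronglyMeasurable.integral_kernel (κ := κ)).measurable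

private lemma bdi (π : Measure X) [IsProbabilityMeasure π] {φ : X → ℝ} {K : ℝ}
    (hm : Measurable φ) (h : ∀ x, 0 ≤ φ x ∧ φ x ≤ K) : Integrable φ π := by
  refine Integrable.of_bound hm.aestronglyMeasurable K (Eventually.of_forall fun x => ?_)
  rw [Real.norm_eq_abs, abs_of_nonneg (h x).1]
  exact (h x).2

private lemma qi_bd (κ : Kernel X X) [IsMarkovKernel κ] {v : X → ℝ} {K : ℝ} (hv : Measurable v)
    (h : ∀ x, 0 ≤ v x ∧ v x ≤ K) : ∀ l x, 0 ≤ qi κ v l x ∧ qi κ v l x ≤ K := by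
  intro l
  induction l with
  | zero => exact h
  | succ l ih =>
    intro x
    have hi : Integrable (qi κ v l) (κ x) := bdi (κ x) (qi_meas κ hv l) ih
    refine ⟨integral_nonneg fun y => (ih y).1, ?_⟩
    calc ∫ y, qi κ v l y ∂(κ x) ≤ ∫ _y, K ∂(κ x) :=
          integral_mono hi (integrable_const K) fun y => (ih y).2
      _ = K := by simp

private lemma int_Q {κ : Kernel X X} [IsMarkovKernel κ] {π : Measure X} [IsProbabilityMeasure π]
    (hi : κ.Invariant π) {φ : X → ℝ} (hφ : Integrable φ π) :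
    ∫ x, ∫ y, φ y ∂(κ x) ∂π = ∫ x, φ x ∂π := by
  rw [← Measure.integral_compProd (f := fun p : X × X => φ p.2) (int_snd hi hφ)]
  have := integral_map (μ := π ⊗ₘ κ) measurable_snd.aemeasurable
    (f := φ) (by rw [(mps hi).map_eq]; exact hφ.aestronglyMeasurable)
  rw [(mps hi).map_eq] at this
  exact this.symm

private lemma l1_le (π : Measure X) [IsProbabilityMeasure π] (g : Lp ℝ 2 π) {δ : ℝ} (hδ : 0 < δ)
    (hg : ‖g‖ ≤ δ) : ∫ x, |(g : X → ℝ) x| ∂π ≤ δ := by
  have h1 : ⟪g, g⟫ = ∫ x, (g : X → ℝ) x ^ 2 ∂π := by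
    rw [L2.inner_def]
    refine integral_congr_ae (Eventually.of_forall fun x => ?_)
    simp [sq]
  have h2 : ∫ x, (g : X → ℝ) x ^ 2 ∂π = ‖g‖ ^ 2 := by
    rw [← h1, real_inner_self_eq_norm_sq]
  have hi2 : Integrable (fun x => (g : X → ℝ) x ^ 2) π := (Lp.memLp g).integrable_sq
  have hi1 : Integrable (g : X → ℝ) π := (Lp.memLp g).integrable (by norm_num)
  calc ∫ x, |(g : X → ℝ) x| ∂π ≤ ∫ x, (δ / 2 + (1 / (2 * δ)) * (g : X → ℝ) x ^ 2) ∂π := by
        refine integral_mono hi1.abs ((integrable_const _).add (hi2.const_mul _)) fun x => ?_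
        simp only
        have h3 := sq_nonneg (|(g : X → ℝ) x| - δ)
        rw [sub_sq, sq_abs] at h3
        have h4 : (g : X → ℝ) x ^ 2 = 2 * δ * ((1 / (2 * δ)) * (g : X → ℝ) x ^ 2) := by
          field_simp
        nlinarith
    _ = δ / 2 + (1 / (2 * δ)) * ‖g‖ ^ 2 := by
        rw [integral_add (integrable_const _) (hi2.const_mul _), integral_const_mul, h2]
        simp
    _ ≤ δ / 2 + (1 / (2 * δ)) * δ ^ 2 := by
        have := pow_le_pow_left₀ (norm_nonneg g) hg 2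
        have h5 : 0 < 1 / (2 * δ) := by positivity
        nlinarith
    _ = δ := by field_simp; ring

private lemma conv {κ : Kernel X X} [IsMarkovKernel κ] {π : Measure X} [IsProbabilityMeasure π]
    (hi : κ.Invariant π) (he : Erg κ π) {v : X → ℝ} {K : ℝ} (hv : Measurable v)
    (hK : ∀ x, 0 ≤ v x ∧ v x ≤ K) {δ : ℝ} (hδ : 0 < δ) :
    ∃ L : ℕ, 0 < L ∧ ∫ x, |(1 / (L : ℝ)) * ∑ l ∈ Finset.range L, qi κ v l x - ∫ y, v y ∂π| ∂π ≤ δ := by
  obtain ⟨Q, hQ1, hQ⟩ := exQ hi
  have hvL : MemLp v 2 π := by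
    refine MemLp.of_bound hv.aestronglyMeasurable K (Eventually.of_forall fun x => ?_)
    rw [Real.norm_eq_abs, abs_of_nonneg (hK x).1]
    exact (hK x).2
  set V : Lp ℝ 2 π := hvL.toLp v with hV
  have hit : ∀ l : ℕ, (Q^[l] V : X → ℝ) =ᵐ[π] qi κ v l := by
    intro l
    induction l with
    | zero => exact hvL.coeFn_toLp
    | succ l ih =>
      rw [Function.iterate_succ_apply']
      have ih' : ∀ᵐ x ∂π, ∀ᵐ y ∂(κ x), (Q^[l] V : X → ℝ) y = qi κ v l y := by
        apply Measure.ae_ae_of_ae_comp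
        have : κ ∘ₘ π = π := hi
        rw [this]
        exact ih
      filter_upwards [hQ (Q^[l] V), ih'] with x hx hx'
      rw [hx]
      exact integral_congr_ae hx'
  have hsum : ∀ L : ℕ, ((birkhoffSum Q _root_.id L V : Lp ℝ 2 π) : X → ℝ) =ᵐ[π]
      fun x => ∑ l ∈ Finset.range L, qi κ v l x := by
    intro L
    induction L with
    | zero => exact Lp.coeFn_zero ℝ 2 π
    | succ L ih =>
      have h1 : birkhoffSum Q _root_.id (L + 1) V = birkhoffSum Q _root_.id L V + Q^[L] V := by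
        simp [birkhoffSum, Finset.sum_range_succ]
      rw [h1]
      filter_upwards [Lp.coeFn_add (birkhoffSum Q _root_.id L V) (Q^[L] V), ih, hit L]
        with x h2 h3 h4
      rw [h2, Pi.add_apply, h3, h4, Finset.sum_range_succ]
  have hlim := Q.tendsto_birkhoffAverage_orthogonalProjection hQ1 V
  obtain ⟨P, hPm, hlim⟩ : ∃ P : Lp ℝ 2 π, Q P = P ∧
      Tendsto (birkhoffAverage ℝ Q _root_.id · V) atTop (𝓝 P) :=
    ⟨_, ((Q.eqLocus (1 : Lp ℝ 2 π →L[ℝ] Lp ℝ 2 π)).orthogonalProjectionOnto V).2, hlim⟩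
  obtain ⟨c, hc⟩ := he P (Lp.memLp P) (by
    have := hQ P
    rw [hPm] at this
    filter_upwards [this] with x hx
    exact hx.symm)
  have hev : ∀ᶠ n : ℕ in atTop, ‖birkhoffAverage ℝ Q _root_.id n V - P‖ ≤ δ / 2 := by
    have := (tendsto_iff_norm_sub_tendsto_zero.1 hlim)
    exact (this.eventually (gt_mem_nhds (half_pos hδ))).mono fun n hn => hn.le
  obtain ⟨L, hL, hL0⟩ := (hev.and (eventually_gt_atTop 0)).exists
  refine ⟨L, hL0, ?_⟩
  have h1 := l1_le π _ (half_pos hδ) hL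
  set A : X → ℝ := fun x => (1 / (L : ℝ)) * ∑ l ∈ Finset.range L, qi κ v l x with hA
  have h2 : ∀ᵐ x ∂π, (birkhoffAverage ℝ Q _root_.id L V - P : Lp ℝ 2 π) x = A x - c := by
    filter_upwards [Lp.coeFn_sub (birkhoffAverage ℝ Q _root_.id L V) P, hsum L, hc,
      Lp.coeFn_smul (L : ℝ)⁻¹ (birkhoffSum Q _root_.id L V)] with x k1 k2 k3 k4
    rw [k1, Pi.sub_apply, k3]
    unfold birkhoffAverage
    rw [k4, Pi.smul_apply, k2, smul_eq_mul, hA]
    simp only [one_div]
  have h3 : ∫ x, |A x - c| ∂π ≤ δ / 2 := by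
    refine le_trans (le_of_eq (integral_congr_ae ?_)) h1
    filter_upwards [h2] with x hx
    rw [hx]
  have hqi : ∀ l, Integrable (qi κ v l) π := fun l => bdi π (qi_meas κ hv l) (qi_bd κ hv hK l)
  have hAi : Integrable A π := (integrable_finsetSum _ fun l _ => hqi l).const_mul _
  have hqint : ∀ l, ∫ x, qi κ v l x ∂π = ∫ x, v x ∂π := by
    intro l
    induction l with
    | zero => rfl
    | succ l ih => rw [← ih]; exact int_Q hi (hqi l)
  have hAint : ∫ x, A x ∂π = ∫ x, v x ∂π := by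
    rw [hA, integral_const_mul, integral_finsetSum _ fun l _ => hqi l]
    simp only [hqint, Finset.sum_const, Finset.card_range, nsmul_eq_mul]
    have : (L : ℝ) ≠ 0 := by positivity
    field_simp
  have h4 : |∫ x, v x ∂π - c| ≤ δ / 2 := by
    have h5 : ∫ x, v x ∂π - c = ∫ x, (A x - c) ∂π := by
      rw [integral_sub hAi (integrable_const _), hAint]; simp
    rw [h5]
    exact (abs_integral_le_integral_abs).trans h3
  have hint : Integrable (fun x => |A x - c|) π := (hAi.sub (integrable_const _)).abs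
  calc ∫ x, |A x - ∫ y, v y ∂π| ∂π ≤ ∫ x, (|A x - c| + δ / 2) ∂π := by
        refine integral_mono (hAi.sub (integrable_const _)).abs
          (hint.add (integrable_const _)) fun x => ?_
        simp only
        have h6 := abs_sub_le (A x) c (∫ y, v y ∂π)
        rw [abs_sub_comm] at h4
        linarith
    _ = ∫ x, |A x - c| ∂π + δ / 2 := by
        rw [integral_add hint (integrable_const _)]; simp
    _ ≤ δ := by linarith

private lemma step {κ : Kernel X X} [IsMarkovKernel κ] {π : Measure X} [IsProbabilityMeasure π]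
    (hi : κ.Invariant π) {n' : ℕ} {Gd : Set X} {C1 : ℝ} {ψ ψs : ℕ → X → ℝ}
    (hW : Wt π (π ⊗ₘ κ) n' Gd C1 ψ ψs) {φ : X → ℝ} {K : ℝ} (hK : 0 ≤ K) (hC : 0 ≤ C1)
    (hm : Measurable φ) (hφ : ∀ x, 0 ≤ φ x ∧ φ x ≤ K) :
    ∑ t ∈ Finset.range n', ∫ x, ψ t x * (∫ y, φ y ∂(κ x)) ∂π - K * (1 + C1) ≤
      ∑ t ∈ Finset.range n', ∫ x, ψ t x * φ x ∂π := by
  have hφi : Integrable φ π := bdi π hm hφ
  have hφs := int_snd hi hφi
  have hpi : ∀ t (θ : X → ℝ), Measurable θ → (∀ x, 0 ≤ θ x ∧ θ x ≤ K) →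
      Integrable (fun x => ψ t x * θ x) π := by
    intro t θ hθ hb
    refine bdi (K := K) π ((hW.mψ t).mul hθ) fun x => ⟨mul_nonneg (hW.h0 t x) (hb x).1, ?_⟩
    calc ψ t x * θ x ≤ 1 * θ x := mul_le_mul_of_nonneg_right (hW.h1 t x) (hb x).1
      _ ≤ K := by rw [one_mul]; exact (hb x).2
  have hsi : ∀ t, Integrable (fun x => ψs t x * φ x) π := by
    intro t
    refine bdi (K := K) π ((hW.mψs t).mul hm) fun x => ⟨mul_nonneg (hW.hs0 t x) (hφ x).1, ?_⟩
    calc ψs t x * φ x ≤ 1 * φ x := mul_le_mul_of_nonneg_right (hW.hs1 t x) (hφ x).1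
      _ ≤ K := by rw [one_mul]; exact (hφ x).2
  have hpm : ∀ t, Integrable (fun p : X × X => ψ t p.1 * φ p.2) (π ⊗ₘ κ) := by
    intro t
    have hb : ∀ x, 0 ≤ φ x ∧ φ x ≤ K := hφ
    refine bdi (K := K) (π ⊗ₘ κ) (((hW.mψ t).comp measurable_fst).mul (hm.comp measurable_snd))
      fun p => ⟨mul_nonneg (hW.h0 t _) (hb _).1, ?_⟩
    calc ψ t p.1 * φ p.2 ≤ 1 * φ p.2 := mul_le_mul_of_nonneg_right (hW.h1 t _) (hb _).1
      _ ≤ K := by rw [one_mul]; exact (hb _).2
  have hd : ∀ t, ∫ x, ψ t x * (∫ y, φ y ∂(κ x)) ∂π = ∫ x, ψs t x * φ x ∂π := by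
    intro t
    rw [← hW.dual t φ hφi, Measure.integral_compProd (hpm t)]
    refine integral_congr_ae (Eventually.of_forall fun x => ?_)
    simp only
    rw [integral_const_mul]
  have hle : ∀ t, ∫ x, ψ t x * (∫ y, φ y ∂(κ x)) ∂π ≤
      ∫ x, ψ (t + 1) x * φ x ∂π + K * ∫ x, |ψ (t + 1) x - ψs t x| ∂π := by
    intro t
    have hab : Integrable (fun x => |ψ (t + 1) x - ψs t x|) π := by
      refine bdi (K := 1) π ((hW.mψ (t + 1)).sub (hW.mψs t)).abs fun x => ⟨abs_nonneg _, ?_⟩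
      rw [abs_le]
      constructor <;> linarith [hW.h0 (t + 1) x, hW.h1 (t + 1) x, hW.hs0 t x, hW.hs1 t x]
    rw [hd, ← integral_const_mul, ← integral_add (hpi _ φ hm hφ) (hab.const_mul K)]
    refine integral_mono (hsi t) ((hpi _ φ hm hφ).add (hab.const_mul K)) fun x => ?_
    simp only
    have h1 : (ψs t x - ψ (t + 1) x) * φ x ≤ |ψ (t + 1) x - ψs t x| * K := by
      calc (ψs t x - ψ (t + 1) x) * φ x ≤ |ψ (t + 1) x - ψs t x| * φ x := by
            refine mul_le_mul_of_nonneg_right ?_ (hφ x).1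
            rw [abs_sub_comm]
            exact le_abs_self _
        _ ≤ _ := mul_le_mul_of_nonneg_left (hφ x).2 (abs_nonneg _)
    nlinarith
  have hvar := hW.var
  rcases n' with _ | m
  · simp only [Finset.range_zero, Finset.sum_empty]
    have := mul_nonneg hK (by linarith : (0 : ℝ) ≤ 1 + C1)
    linarith
  · rw [Finset.sum_range_succ, Finset.sum_range_succ' (fun t => ∫ x, ψ t x * φ x ∂π)]
    have h0 : 0 ≤ ∫ x, ψ 0 x * φ x ∂π :=
      integral_nonneg fun x => mul_nonneg (hW.h0 0 x) (hφ x).1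
    have hQb : ∀ x, 0 ≤ ∫ y, φ y ∂(κ x) ∧ ∫ y, φ y ∂(κ x) ≤ K := qi_bd κ hm hφ 1
    have hm1 : ∫ x, ψ m x * (∫ y, φ y ∂(κ x)) ∂π ≤ K := by
      calc _ ≤ ∫ _x, K ∂π := by
            refine integral_mono (hpi m _ (qi_meas κ hm 1) hQb) (integrable_const K) fun x => ?_
            calc ψ m x * (∫ y, φ y ∂(κ x)) ≤ 1 * (∫ y, φ y ∂(κ x)) :=
                  mul_le_mul_of_nonneg_right (hW.h1 m x) (hQb x).1
              _ ≤ K := by rw [one_mul]; exact (hQb x).2
        _ = K := by simp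
    have hs := Finset.sum_le_sum fun t (_ : t ∈ Finset.range m) => hle t
    rw [Finset.sum_add_distrib, ← Finset.mul_sum] at hs
    rw [Finset.sum_range_succ] at hvar
    have hlast : 0 ≤ ∫ x, |ψ (m + 1) x - ψs m x| ∂π := integral_nonneg fun x => abs_nonneg _
    have h3 : K * ∑ t ∈ Finset.range m, ∫ x, |ψ (t + 1) x - ψs t x| ∂π ≤ K * C1 :=
      mul_le_mul_of_nonneg_left (by linarith) hK
    nlinarith

theorem t_LOW (X : Type u) [MeasurableSpace X] : S_LOW X := by
  intro κ _ π _ hi he W hWm hW0 hWi ε C1 hε hC1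
  have htr : Tendsto (fun K : ℕ => ∫ p, min (W p) (K : ℝ) ∂(π ⊗ₘ κ)) atTop
      (𝓝 (∫ p, W p ∂(π ⊗ₘ κ))) := by
    refine tendsto_integral_of_dominated_convergence W
      (fun K => (hWm.min measurable_const).aestronglyMeasurable) hWi
      (fun K => Eventually.of_forall fun p => ?_) (Eventually.of_forall fun p => ?_)
    · rw [Real.norm_eq_abs, abs_of_nonneg (le_min (hW0 p) (Nat.cast_nonneg K))]
      exact min_le_left _ _
    · obtain ⟨M, hM⟩ := exists_nat_ge (W p)
      refine tendsto_const_nhds.congr' ?_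
      filter_upwards [eventually_ge_atTop M] with K hK
      have : W p ≤ K := hM.trans (by exact_mod_cast hK)
      rw [min_eq_left this]
  have hev : ∀ᶠ K : ℕ in atTop, ∫ p, W p ∂(π ⊗ₘ κ) - ε / 4 <
      ∫ p, min (W p) (K : ℝ) ∂(π ⊗ₘ κ) :=
    htr.eventually (lt_mem_nhds (by linarith))
  obtain ⟨K, hK⟩ := hev.exists
  set w : X × X → ℝ := fun p => min (W p) (K : ℝ) with hw
  have hK0 : (0 : ℝ) ≤ K := Nat.cast_nonneg K
  have hwm : Measurable w := hWm.min measurable_const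
  have hwb : ∀ p, 0 ≤ w p ∧ w p ≤ K := fun p => ⟨le_min (hW0 p) hK0, min_le_right _ _⟩
  set v : X → ℝ := fun x => ∫ y, w (x, y) ∂(κ x) with hv
  have hvm : Measurable v :=
    (hwm.stronglyMeasurable.integral_kernel_prod_right' (κ := κ)).measurable
  have hvb : ∀ x, 0 ≤ v x ∧ v x ≤ K := by
    intro x
    refine ⟨integral_nonneg fun y => (hwb _).1, ?_⟩
    calc ∫ y, w (x, y) ∂(κ x) ≤ ∫ _y, (K : ℝ) ∂(κ x) :=
          integral_mono (bdi (κ x) (hwm.comp measurable_prodMk_left) fun y => hwb _)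
            (integrable_const _) fun y => (hwb _).2
      _ = K := by simp
  have hwv : ∫ p, w p ∂(π ⊗ₘ κ) = ∫ x, v x ∂π :=
    Measure.integral_compProd (bdi (π ⊗ₘ κ) hwm hwb)
  obtain ⟨L, hL0, hL⟩ := conv hi he hvm hvb (δ := ε / 4) (by linarith)
  set c : ℝ := ∫ y, v y ∂π with hc
  set A : X → ℝ := fun x => (1 / (L : ℝ)) * ∑ l ∈ Finset.range L, qi κ v l x with hA
  refine ⟨⌈2 * (L * K * (1 + C1)) / ε⌉₊, ?_⟩
  intro n hn n' hn' Gd ψ ψs hW
  have hn1 : L * K * (1 + C1) ≤ ε / 2 * n := by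
    have h1 := (Nat.le_ceil _).trans (by exact_mod_cast hn :
      ((⌈2 * (L * K * (1 + C1)) / ε⌉₊ : ℕ) : ℝ) ≤ n)
    rw [div_le_iff₀ hε] at h1
    linarith
  have hLp : (0 : ℝ) < L := by exact_mod_cast hL0
  have hpi : ∀ t (θ : X → ℝ), Measurable θ → (∀ x, 0 ≤ θ x ∧ θ x ≤ K) →
      Integrable (fun x => ψ t x * θ x) π := by
    intro t θ hθ hb
    refine bdi (K := K) π ((hW.mψ t).mul hθ) fun x => ⟨mul_nonneg (hW.h0 t x) (hb x).1, ?_⟩
    calc ψ t x * θ x ≤ 1 * θ x := mul_le_mul_of_nonneg_right (hW.h1 t x) (hb x).1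
      _ ≤ K := by rw [one_mul]; exact (hb x).2
  have hqm := qi_meas κ hvm
  have hqb := qi_bd κ hvm hvb
  -- iterate
  have hF : ∀ l : ℕ, ∑ t ∈ Finset.range n', ∫ x, ψ t x * qi κ v l x ∂π - l * (K * (1 + C1)) ≤
      ∑ t ∈ Finset.range n', ∫ x, ψ t x * v x ∂π := by
    intro l
    induction l with
    | zero => simp [qi]
    | succ l ih =>
      have h1 := step hi hW hK0 hC1 (hqm l) (hqb l)
      have h2 : ∑ t ∈ Finset.range n', ∫ x, ψ t x * qi κ v (l + 1) x ∂π =
        ∑ t ∈ Finset.range n', ∫ x, ψ t x * (∫ y, qi κ v l y ∂(κ x)) ∂π := rfl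
      rw [h2]
      push_cast
      linarith
  have hFL : ∀ l ∈ Finset.range L, ∑ t ∈ Finset.range n', ∫ x, ψ t x * qi κ v l x ∂π -
      L * (K * (1 + C1)) ≤ ∑ t ∈ Finset.range n', ∫ x, ψ t x * v x ∂π := by
    intro l hl
    have h1 := hF l
    have h2 : (l : ℝ) ≤ L := by exact_mod_cast (Finset.mem_range.1 hl).le
    have h3 : 0 ≤ K * (1 + C1) := mul_nonneg hK0 (by linarith)
    nlinarith
  have hsum := Finset.sum_le_sum hFL
  rw [Finset.sum_sub_distrib, Finset.sum_comm] at hsum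
  simp only [Finset.sum_const, Finset.card_range, nsmul_eq_mul] at hsum
  -- averages
  have hAt : ∀ t, L * (c * ∫ x, ψ t x ∂π - ε / 4) ≤
      ∑ l ∈ Finset.range L, ∫ x, ψ t x * qi κ v l x ∂π := by
    intro t
    have e1 : ∑ l ∈ Finset.range L, ∫ x, ψ t x * qi κ v l x ∂π = L * ∫ x, ψ t x * A x ∂π := by
      rw [← integral_finsetSum _ fun l _ => hpi t _ (hqm l) (hqb l), ← integral_const_mul]
      refine integral_congr_ae (Eventually.of_forall fun x => ?_)
      simp only [hA]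
      rw [← Finset.mul_sum]
      field_simp
    rw [e1]
    refine mul_le_mul_of_nonneg_left ?_ hLp.le
    have hAi : Integrable A π :=
      (integrable_finsetSum _ fun l _ => bdi π (hqm l) (hqb l)).const_mul _
    have hψi : Integrable (ψ t) π := bdi (K := 1) π (hW.mψ t) fun x => ⟨hW.h0 t x, hW.h1 t x⟩
    have hAc : Integrable (fun x => |A x - c|) π := (hAi.sub (integrable_const _)).abs
    have hψA : Integrable (fun x => ψ t x * A x) π := by
      have : Integrable (fun x => (1 / (L : ℝ)) * ∑ l ∈ Finset.range L, ψ t x * qi κ v l x) π :=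
        (integrable_finsetSum _ fun l _ => hpi t _ (hqm l) (hqb l)).const_mul _
      refine this.congr (Eventually.of_forall fun x => ?_)
      simp only [hA]
      rw [← Finset.mul_sum]
      ring
    have h1 : ∫ x, c * ψ t x ∂π - ∫ x, |A x - c| ∂π ≤ ∫ x, ψ t x * A x ∂π := by
      rw [← integral_sub (hψi.const_mul c) hAc]
      refine integral_mono ((hψi.const_mul c).sub hAc) hψA fun x => ?_
      simp only
      have h2 : ψ t x * (c - A x) ≤ |A x - c| := by
        calc ψ t x * (c - A x) ≤ ψ t x * |A x - c| := by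
              refine mul_le_mul_of_nonneg_left ?_ (hW.h0 t x)
              rw [abs_sub_comm]
              exact le_abs_self _
          _ ≤ 1 * |A x - c| := mul_le_mul_of_nonneg_right (hW.h1 t x) (abs_nonneg _)
          _ = _ := one_mul _
      nlinarith
    rw [integral_const_mul] at h1
    linarith
  have hAs := Finset.sum_le_sum fun t (_ : t ∈ Finset.range n') => hAt t
  rw [← Finset.mul_sum, Finset.sum_sub_distrib, ← Finset.mul_sum] at hAs
  simp only [Finset.sum_const, Finset.card_range, nsmul_eq_mul] at hAs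
  set S : ℝ := ∑ t ∈ Finset.range n', ∫ x, ψ t x ∂π with hS
  set F0 : ℝ := ∑ t ∈ Finset.range n', ∫ x, ψ t x * v x ∂π with hF0
  have hF0' : c * S - n' * (ε / 4) - L * (K * (1 + C1)) ≤ F0 := by
    have h1 : L * (c * S - n' * (ε / 4) - L * (K * (1 + C1))) ≤ L * F0 := by
      nlinarith
    exact le_of_mul_le_mul_left h1 hLp
  have hS1 : S ≤ n' := by
    calc S ≤ ∑ _t ∈ Finset.range n', (1 : ℝ) := by
          refine Finset.sum_le_sum fun t _ => ?_
          calc ∫ x, ψ t x ∂π ≤ ∫ _x, (1 : ℝ) ∂π := by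
                refine integral_mono (bdi (K := 1) π (hW.mψ t) fun x => ⟨hW.h0 t x, hW.h1 t x⟩)
                  (integrable_const _) fun x => hW.h1 t x
            _ = 1 := by simp
      _ = n' := by simp
  have hS0 : 0 ≤ S := Finset.sum_nonneg fun t _ => integral_nonneg fun x => hW.h0 t x
  have hfin : F0 ≤ ∑ t ∈ Finset.range n', ∫ p, ψ t p.1 * W p ∂(π ⊗ₘ κ) := by
    refine Finset.sum_le_sum fun t _ => ?_
    have hi1 : Integrable (fun p : X × X => ψ t p.1 * w p) (π ⊗ₘ κ) := by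
      refine bdi (K := K) (π ⊗ₘ κ) (((hW.mψ t).comp measurable_fst).mul hwm)
        fun p => ⟨mul_nonneg (hW.h0 t _) (hwb p).1, ?_⟩
      calc ψ t p.1 * w p ≤ 1 * w p := mul_le_mul_of_nonneg_right (hW.h1 t _) (hwb p).1
        _ ≤ K := by rw [one_mul]; exact (hwb p).2
    have hi2 : Integrable (fun p : X × X => ψ t p.1 * W p) (π ⊗ₘ κ) := by
      refine hWi.mono' (((hW.mψ t).comp measurable_fst).mul hWm).aestronglyMeasurable
        (Eventually.of_forall fun p => ?_)
      rw [Real.norm_eq_abs, abs_of_nonneg (mul_nonneg (hW.h0 t _) (hW0 p))]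
      calc ψ t p.1 * W p ≤ 1 * W p := mul_le_mul_of_nonneg_right (hW.h1 t _) (hW0 p)
        _ = W p := one_mul _
    have e1 : ∫ x, ψ t x * v x ∂π = ∫ p, ψ t p.1 * w p ∂(π ⊗ₘ κ) := by
      rw [Measure.integral_compProd hi1]
      refine integral_congr_ae (Eventually.of_forall fun x => ?_)
      simp only [hv]
      rw [integral_const_mul]
    rw [e1]
    exact integral_mono hi1 hi2 fun p => mul_le_mul_of_nonneg_left (min_le_left _ _) (hW.h0 t _)
  refine le_trans ?_ hfin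
  refine le_trans ?_ hF0'
  have hn'r : (n' : ℝ) ≤ n := by exact_mod_cast hn'
  have h7 : (∫ p, W p ∂(π ⊗ₘ κ)) * S ≤ (c + ε / 4) * S := by
    refine mul_le_mul_of_nonneg_right ?_ hS0
    rw [hwv] at hK
    linarith
  nlinarith

end

end Pool.Agent.K1H85.CL
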