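import Pool.Agent.K1H85.CL.StepAux

/-!
Project CL: the odd steps.
-/

open MeasureTheory ProbabilityTheory Filter
open scoped Topology BigOperators ENNReal

namespace Pool.Agent.K1H85.CL

universe u

theorem t_ODD (X : Type u) [MeasurableSpace X] (hSC : S_SC) (hB : S_BND X) : S_ODD X := by
  intro π μ f g h a b γ C m N s r ψ hs hodd hr hψ h0 h1
  have hpm := C.pm
  -- the pieces
  set Φ1 : X → ℝ := fun x => ψ x * (cA f g h m N s r x * (zz f g h m s x + xx g h m s x)
          - cB f g h m N s r x * zz f g h m s x) with hΦ1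
  set Φ2 : ℕ → X → ℝ := fun t x => ψ x * (cA f g h m N s r x * (cw (s + 1) t / cw s t)
      - cB f g h m N s r x) * xx g h m t x with hΦ2
  set dd : ℕ → X × X → ℝ := fun t p => xe g h m t p - xx g h m t p.1 with hdd
  have hΦ1L : MemLp Φ1 2 π := (C.Phi1_int hB m N s hr hψ h0 h1).1
  have hΦ1I : ∫ x, Φ1 x ^ 2 ∂π ≤ 416 * (2 ^ (m + s / 2) * gm γ (m + s / 2)) :=
    (C.Phi1_int hB m N s hr hψ h0 h1).2
  have hΦ2L : ∀ t, MemLp (Φ2 t) 2 π := fun t => (C.Phi2_int hB m N s t hr hψ h0 h1).1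
  have hΦ2I : ∀ t, ∫ x, Φ2 t x ^ 2 ∂π ≤ 36 * (2 ^ (m + t / 2) * gm γ (m + t / 2)) :=
    fun t => (C.Phi2_int hB m N s t hr hψ h0 h1).2
  have hddL : ∀ t, MemLp (dd t) 2 μ := fun t => (C.L_xe m t).sub (C.mem_fst (C.L_xx m t))
  -- delta
  have hδ : ∀ p : X × X, ee g h m s p - zz f g h m s p.1 =
      f p.1 - g (m + (s + 1) / 2) p.1 + g (m + (s + 1) / 2) p.2 := by
    intro p; unfold ee zz; ring
  have hδL : MemLp (fun p : X × X => ee g h m s p - zz f g h m s p.1) 2 μ :=
    (C.L_ee m s).sub (C.mem_fst (C.L_zz m s))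
  -- the lower bound
  set L1 : X × X → ℝ := fun p => Φ1 p.1 * (ee g h m s p - zz f g h m s p.1) with hL1
  set L2 : ℕ → X × X → ℝ := fun t p => cw s t * (Φ2 t p.1 * dd t p) with hL2
  set L3 : ℕ → X × X → ℝ := fun t p => cw s t * (ψ p.1 * dd t p ^ 2) with hL3
  have iL1 : Integrable L1 μ := (C.mem_fst hΦ1L).integrable_mul hδL
  have iL2 : ∀ t, Integrable (L2 t) μ := fun t =>
    ((C.mem_fst (hΦ2L t)).integrable_mul (hddL t)).const_mul _
  have iψ : ∀ F : X × X → ℝ, Integrable F μ → Integrable (fun p => ψ p.1 * F p) μ := by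
    intro F hF
    refine hF.bdd_mul (c := 1) (hψ.comp measurable_fst).aestronglyMeasurable
      (Eventually.of_forall fun p => ?_)
    rw [Real.norm_eq_abs, abs_of_nonneg (h0 _)]; exact h1 _
  have iL3 : ∀ t, Integrable (L3 t) μ := fun t =>
    (iψ _ ((hddL t).integrable_sq)).const_mul _
  have iR : Integrable (fun p : X × X => ψ p.1 * (PsE g h m N s r p - PsV f g h m N s r p.1)) μ :=
    iψ _ ((C.igr_PsE m N s hr).sub (C.igr_fst (C.igr_PsV m N s hr)))
  have iS2 : Integrable (fun p => 10000 * ∑ t ∈ Finset.range N, L2 t p) μ :=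
    (integrable_finsetSum _ fun t _ => iL2 t).const_mul _
  have iS3 : Integrable (fun p => 5000000 * ∑ t ∈ Finset.range N, L3 t p) μ :=
    (integrable_finsetSum _ fun t _ => iL3 t).const_mul _
  have hpoint : ∀ p : X × X, L1 p + 10000 * ∑ t ∈ Finset.range N, L2 t p
      - 5000000 * ∑ t ∈ Finset.range N, L3 t p ≤
      ψ p.1 * (PsE g h m N s r p - PsV f g h m N s r p.1) := by
    intro p
    have hxe : xe g h m s p = xx g h m s p.1 := by
      unfold xe; rw [if_neg (by omega)]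
    have h2 := pw hSC f g h m N s r hs hr p.1 p hxe
    have h3 := mul_le_mul_of_nonneg_left h2 (h0 p.1)
    have e2 : ∑ t ∈ Finset.range N, L2 t p = ψ p.1 * ∑ t ∈ Finset.range N,
          (cA f g h m N s r p.1 * cw (s + 1) t - cB f g h m N s r p.1 * cw s t)
            * xx g h m t p.1 * (xe g h m t p - xx g h m t p.1) := by
      rw [Finset.mul_sum]
      refine Finset.sum_congr rfl fun t _ => ?_
      simp only [hL2, hΦ2, hdd]
      have : cw s t ≠ 0 := (cw_pos s t).ne'
      field_simp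
    have e3 : ∑ t ∈ Finset.range N, L3 t p = ψ p.1 * ∑ t ∈ Finset.range N,
        cw s t * (xe g h m t p - xx g h m t p.1) ^ 2 := by
      rw [Finset.mul_sum]
      refine Finset.sum_congr rfl fun t _ => ?_
      simp only [hL3, hdd]; ring
    rw [e2, e3]
    simp only [hL1, hΦ1]
    nlinarith [h3]
  have hint : ∫ p, (L1 p + 10000 * ∑ t ∈ Finset.range N, L2 t p
      - 5000000 * ∑ t ∈ Finset.range N, L3 t p) ∂μ ≤
      ∫ p, ψ p.1 * (PsE g h m N s r p - PsV f g h m N s r p.1) ∂μ :=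
    integral_mono ((iL1.add iS2).sub iS3) iR hpoint
  have hsplit : ∫ p, (L1 p + 10000 * ∑ t ∈ Finset.range N, L2 t p
      - 5000000 * ∑ t ∈ Finset.range N, L3 t p) ∂μ =
      ∫ p, L1 p ∂μ + 10000 * ∑ t ∈ Finset.range N, ∫ p, L2 t p ∂μ
        - 5000000 * ∑ t ∈ Finset.range N, ∫ p, L3 t p ∂μ := by
    have iS12 : Integrable (fun p => L1 p + 10000 * ∑ t ∈ Finset.range N, L2 t p) μ :=
      iL1.add iS2
    rw [integral_sub iS12 iS3, integral_add iL1 iS2, integral_const_mul,
      integral_const_mul, integral_finsetSum _ fun t _ => iL2 t,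
      integral_finsetSum _ fun t _ => iL3 t]
  -- bound of the first term
  have hgm : ∀ j, 0 ≤ gm γ j := fun j => C.gm_nonneg j
  have hb1 : |∫ p, L1 p ∂μ| ≤ 209 * gm γ (m + s / 2) := by
    have e : ∫ p, L1 p ∂μ = ∫ x, Φ1 x * a (m + (s + 1) / 2) x ∂π := by
      rw [← C.da (m + (s + 1) / 2) Φ1 hΦ1L]
      refine integral_congr_ae (Eventually.of_forall fun p => ?_)
      simp only [hL1]
      rw [hδ p]
    rw [e]
    refine (cs_abs hΦ1L (C.La _)).trans ?_
    have hbn := (hB π μ f g h a b γ C m s).2.2.1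
    have hu : (0 : ℝ) < 2 ^ (m + s / 2) := by positivity
    refine (sqrt_mul_sqrt_le (integral_nonneg fun x => sq_nonneg _)
      (integral_nonneg fun x => sq_nonneg _) hu).trans ?_
    have h2 : (∫ x, Φ1 x ^ 2 ∂π) / 2 ^ (m + s / 2) ≤ 416 * gm γ (m + s / 2) := by
      rw [div_le_iff₀ hu]; linarith
    have h3 : (∫ x, a (m + (s + 1) / 2) x ^ 2 ∂π) * 2 ^ (m + s / 2) ≤ gm γ (m + s / 2) := by
      rw [le_div_iff₀ hu] at hbn; exact hbn
    nlinarith [hgm (m + s / 2)]
  have hb2 : ∀ t, |∫ p, L2 t p ∂μ| ≤ cw s t * (20 * gm γ (m + t / 2)) := by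
    intro t
    have e : ∫ p, L2 t p ∂μ = cw s t * ∫ p, Φ2 t p.1 * dd t p ∂μ := integral_const_mul _ _
    rw [e, abs_mul, abs_of_pos (cw_pos s t)]
    apply mul_le_mul_of_nonneg_left _ (cw_pos s t).le
    rcases Nat.mod_two_eq_zero_or_one t with ht | ht
    · have e2 : ∫ p, Φ2 t p.1 * dd t p ∂μ =
          ∫ p, Φ2 t p.1 * (xx g h m t p.2 - xx g h m t p.1) ∂μ := by
        refine integral_congr_ae (Eventually.of_forall fun p => ?_)
        simp only [hdd]
        unfold xe; rw [if_pos ht]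
      rw [e2]
      have hbn := (hB π μ f g h a b γ C m t).2.2.2.2.2.1 ht (Φ2 t) (hΦ2L t)
      refine hbn.trans ?_
      have hu : (0 : ℝ) < 2 ^ (m + t / 2) := by positivity
      refine (sqrt_mul_sqrt_le (integral_nonneg fun x => sq_nonneg _)
        (div_nonneg (mul_nonneg (by norm_num) (hgm _)) hu.le) hu).trans ?_
      have h2 : (∫ x, Φ2 t x ^ 2 ∂π) / 2 ^ (m + t / 2) ≤ 36 * gm γ (m + t / 2) := by
        rw [div_le_iff₀ hu]; linarith [hΦ2I t]
      have h3 : 4 * gm γ (m + t / 2) / 2 ^ (m + t / 2) * 2 ^ (m + t / 2) =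
          4 * gm γ (m + t / 2) := by field_simp
      rw [h3]
      linarith [hgm (m + t / 2)]
    · have e2 : ∫ p, Φ2 t p.1 * dd t p ∂μ = 0 := by
        have : ∀ p : X × X, Φ2 t p.1 * dd t p = 0 := by
          intro p
          simp only [hdd]
          unfold xe; rw [if_neg (by omega)]; ring
        simp only [this, integral_zero]
      rw [e2, abs_zero]
      exact mul_nonneg (by norm_num) (hgm _)
  have hb3 : ∀ t, ∫ p, L3 t p ∂μ ≤ cw s t * (6 * gm γ (m + t / 2)) := by
    intro t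
    have e : ∫ p, L3 t p ∂μ = cw s t * ∫ p, ψ p.1 * dd t p ^ 2 ∂μ := integral_const_mul _ _
    rw [e]
    apply mul_le_mul_of_nonneg_left _ (cw_pos s t).le
    rcases Nat.mod_two_eq_zero_or_one t with ht | ht
    · have hbn := (hB π μ f g h a b γ C m t).2.2.2.2.1
      have e2 : ∫ p, dd t p ^ 2 ∂μ = ∫ p, (xx g h m t p.2 - xx g h m t p.1) ^ 2 ∂μ := by
        refine integral_congr_ae (Eventually.of_forall fun p => ?_)
        simp only [hdd]
        unfold xe; rw [if_pos ht]
      refine le_trans ?_ (e2.le.trans hbn)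
      refine integral_mono (iψ _ ((hddL t).integrable_sq)) ((hddL t).integrable_sq) fun p => ?_
      exact mul_le_of_le_one_left (sq_nonneg _) (h1 _)
    · have : ∀ p : X × X, ψ p.1 * dd t p ^ 2 = 0 := by
        intro p
        simp only [hdd]
        unfold xe; rw [if_neg (by omega)]; ring
      simp only [this, integral_zero]
      exact mul_nonneg (by norm_num) (hgm _)
  have hs2 : |∑ t ∈ Finset.range N, ∫ p, L2 t p ∂μ| ≤ 20 * er γ m N s := by
    refine (Finset.abs_sum_le_sum_abs _ _).trans ?_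
    unfold er
    rw [Finset.mul_sum]
    refine Finset.sum_le_sum fun t _ => (hb2 t).trans (le_of_eq ?_)
    ring
  have hs3 : ∑ t ∈ Finset.range N, ∫ p, L3 t p ∂μ ≤ 6 * er γ m N s := by
    unfold er
    rw [Finset.mul_sum]
    refine Finset.sum_le_sum fun t _ => (hb3 t).trans (le_of_eq ?_)
    ring
  have hge := C.gm_le_er (m := m) (N := N) (s := s) hs
  have her := C.er_nonneg m N s
  rw [hsplit] at hint
  have h5 := abs_le.1 hb1
  have h6 := abs_le.1 hs2
  linarith [h5.1, h6.1]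

end Pool.Agent.K1H85.CL
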