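import Pool.Agent.K1H85.CL.Stm

/-!
Project CL, piece CL-24 (`S_OP`): the Markov operator on `L²` and the correctors.
-/

open MeasureTheory ProbabilityTheory Filter
open scoped Topology BigOperators ENNReal

namespace Pool.Agent.K1H85.CL

universe u

section OPaux

variable {X : Type u} [MeasurableSpace X]

private lemma op_fst (κ : Kernel X X) [IsMarkovKernel κ] (π : Measure X)
    [IsProbabilityMeasure π] : MeasurePreserving Prod.fst (π ⊗ₘ κ) π :=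
  ⟨measurable_fst, by have := Measure.fst_compProd π κ; rwa [Measure.fst] at this⟩

private lemma op_snd (κ : Kernel X X) [IsMarkovKernel κ] (π : Measure X)
    [IsProbabilityMeasure π] (hinv : κ.Invariant π) :
    MeasurePreserving Prod.snd (π ⊗ₘ κ) π :=
  ⟨measurable_snd, by
    have := Measure.snd_compProd π κ
    rw [Measure.snd] at this
    rw [this]; exact hinv⟩

private lemma op_jensen (ν : Measure X) [IsProbabilityMeasure ν] (φ : X → ℝ)
    (h1 : Integrable φ ν) (h2 : Integrable (fun x => φ x ^ 2) ν) :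
    (∫ x, φ x ∂ν) ^ 2 ≤ ∫ x, φ x ^ 2 ∂ν := by
  have h : 0 ≤ ∫ x, (φ x - ∫ y, φ y ∂ν) ^ 2 ∂ν := integral_nonneg fun x => sq_nonneg _
  have e : ∫ x, (φ x - ∫ y, φ y ∂ν) ^ 2 ∂ν =
      ∫ x, φ x ^ 2 ∂ν - (∫ y, φ y ∂ν) ^ 2 := by
    have : ∀ x, (φ x - ∫ y, φ y ∂ν) ^ 2 =
        φ x ^ 2 - (2 * (∫ y, φ y ∂ν)) * φ x + (∫ y, φ y ∂ν) ^ 2 := fun x => by ring
    simp_rw [this]
    have i3 : Integrable (fun x => (2 * (∫ y, φ y ∂ν)) * φ x) ν := h1.const_mul _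
    have i4 : Integrable (fun x => φ x ^ 2 - (2 * (∫ y, φ y ∂ν)) * φ x) ν := h2.sub i3
    rw [integral_add i4 (integrable_const _), integral_sub h2 i3, integral_const_mul,
      integral_const]
    simp
    ring
  linarith

private lemma op_l2 (π : Measure X) (φ : Lp ℝ 2 π) :
    ‖φ‖ ^ 2 = ∫ x, (φ : X → ℝ) x ^ 2 ∂π := by
  rw [← real_inner_self_eq_norm_sq, L2.inner_def]
  refine integral_congr_ae (Eventually.of_forall fun x => ?_)
  simp

private lemma op_inner (π : Measure X) (φ ψ : Lp ℝ 2 π) :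
    inner ℝ φ ψ = ∫ x, (φ : X → ℝ) x * (ψ : X → ℝ) x ∂π := by
  rw [L2.inner_def]
  refine integral_congr_ae (Eventually.of_forall fun x => ?_)
  simp [mul_comm]

private lemma op_ae (κ : Kernel X X) [IsMarkovKernel κ] (π : Measure X)
    [IsProbabilityMeasure π] (hinv : κ.Invariant π) {p : X → Prop} (h : ∀ᵐ x ∂π, p x) :
    ∀ᵐ x ∂π, ∀ᵐ y ∂(κ x), p y := by
  have h1 : ∀ᵐ q ∂(π ⊗ₘ κ), p q.2 := (op_snd κ π hinv).quasiMeasurePreserving.ae h
  exact Measure.ae_ae_of_ae_compProd h1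

private lemma op_integrable (κ : Kernel X X) [IsMarkovKernel κ] (π : Measure X)
    [IsProbabilityMeasure π] (hinv : κ.Invariant π) {φ : X → ℝ} (h : Integrable φ π) :
    (∀ᵐ x ∂π, Integrable φ (κ x)) ∧ Integrable (fun x => ∫ y, φ y ∂(κ x)) π ∧
      ∫ x, ∫ y, φ y ∂(κ x) ∂π = ∫ x, φ x ∂π := by
  have h1 : Integrable (fun q : X × X => φ q.2) (π ⊗ₘ κ) :=
    (op_snd κ π hinv).integrable_comp_of_integrable h
  have h2 := (Measure.integrable_compProd_iff h1.aestronglyMeasurable).1 h1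
  refine ⟨h2.1, ?_, ?_⟩
  · have h5 : Integrable (fun q : X × X => φ q.2)
        ((Kernel.const Unit π ⊗ₖ Kernel.prodMkLeft Unit κ) ()) := h1
    have := h5.integral_compProd
    simpa using this
  · have h3 := Measure.integral_compProd h1
    rw [← h3]
    have h4 := (op_snd κ π hinv).map_eq
    conv_rhs => rw [← h4]
    rw [integral_map measurable_snd.aemeasurable]
    rw [h4]; exact h.aestronglyMeasurable

private lemma op_memLp (κ : Kernel X X) [IsMarkovKernel κ] (π : Measure X)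
    [IsProbabilityMeasure π] (hinv : κ.Invariant π) {φ : X → ℝ} (h : MemLp φ 2 π) :
    MemLp (fun x => ∫ y, φ y ∂(κ x)) 2 π ∧
      ∫ x, (∫ y, φ y ∂(κ x)) ^ 2 ∂π ≤ ∫ x, φ x ^ 2 ∂π := by
  have h1 : Integrable φ π := h.integrable (by norm_num)
  have h2 : Integrable (fun x => φ x ^ 2) π := h.integrable_sq
  obtain ⟨a1, a2, a3⟩ := op_integrable κ π hinv h1
  obtain ⟨b1, b2, b3⟩ := op_integrable κ π hinv h2
  have hj : ∀ᵐ x ∂π, (∫ y, φ y ∂(κ x)) ^ 2 ≤ ∫ y, φ y ^ 2 ∂(κ x) := by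
    filter_upwards [a1, b1] with x hx hx2
    exact op_jensen (κ x) φ hx hx2
  have hm : MemLp (fun x => ∫ y, φ y ∂(κ x)) 2 π := by
    rw [memLp_two_iff_integrable_sq a2.aestronglyMeasurable]
    refine b2.mono' (a2.aestronglyMeasurable.pow 2) ?_
    filter_upwards [hj] with x hx
    rw [Real.norm_of_nonneg (sq_nonneg _)]
    exact hx
  refine ⟨hm, ?_⟩
  rw [← b3]
  exact integral_mono_ae hm.integrable_sq b2 hj

private noncomputable def opQ0 (κ : Kernel X X) [IsMarkovKernel κ] (π : Measure X)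
    [IsProbabilityMeasure π] (hinv : κ.Invariant π) (φ : Lp ℝ 2 π) : Lp ℝ 2 π :=
  (op_memLp κ π hinv (Lp.memLp φ)).1.toLp _

private lemma opQ0_ae (κ : Kernel X X) [IsMarkovKernel κ] (π : Measure X)
    [IsProbabilityMeasure π] (hinv : κ.Invariant π) (φ : Lp ℝ 2 π) :
    ∀ᵐ x ∂π, (opQ0 κ π hinv φ : X → ℝ) x = ∫ y, (φ : X → ℝ) y ∂(κ x) :=
  MemLp.coeFn_toLp _

private noncomputable def opQl (κ : Kernel X X) [IsMarkovKernel κ] (π : Measure X)
    [IsProbabilityMeasure π] (hinv : κ.Invariant π) : Lp ℝ 2 π →ₗ[ℝ] Lp ℝ 2 π where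
  toFun := opQ0 κ π hinv
  map_add' φ ψ := by
    apply Lp.ext
    filter_upwards [opQ0_ae κ π hinv (φ + ψ), opQ0_ae κ π hinv φ, opQ0_ae κ π hinv ψ,
      Lp.coeFn_add (opQ0 κ π hinv φ) (opQ0 κ π hinv ψ), op_ae κ π hinv (Lp.coeFn_add φ ψ),
      (op_integrable κ π hinv ((Lp.memLp φ).integrable (by norm_num))).1,
      (op_integrable κ π hinv ((Lp.memLp ψ).integrable (by norm_num))).1]
      with x h1 h2 h3 h4 h5 h6 h7
    rw [h1, h4, Pi.add_apply, h2, h3, ← integral_add h6 h7]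
    exact integral_congr_ae h5
  map_smul' c φ := by
    apply Lp.ext
    filter_upwards [opQ0_ae κ π hinv (c • φ), opQ0_ae κ π hinv φ,
      Lp.coeFn_smul c (opQ0 κ π hinv φ), op_ae κ π hinv (Lp.coeFn_smul c φ)]
      with x h1 h2 h3 h4
    rw [h1, RingHom.id_apply, h3, Pi.smul_apply, h2, smul_eq_mul, ← integral_const_mul]
    exact integral_congr_ae h4

private lemma opQl_norm (κ : Kernel X X) [IsMarkovKernel κ] (π : Measure X)
    [IsProbabilityMeasure π] (hinv : κ.Invariant π) (φ : Lp ℝ 2 π) :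
    ‖opQl κ π hinv φ‖ ≤ 1 * ‖φ‖ := by
  rw [one_mul]
  refine le_of_sq_le_sq ?_ (norm_nonneg _)
  rw [op_l2, op_l2]
  have h1 : ∫ x, (opQl κ π hinv φ : X → ℝ) x ^ 2 ∂π
      = ∫ x, (∫ y, (φ : X → ℝ) y ∂(κ x)) ^ 2 ∂π := by
    refine integral_congr_ae ?_
    filter_upwards [opQ0_ae κ π hinv φ] with x hx
    show (opQ0 κ π hinv φ : X → ℝ) x ^ 2 = _
    rw [hx]
  rw [h1]
  exact (op_memLp κ π hinv (Lp.memLp φ)).2

private noncomputable def opQ (κ : Kernel X X) [IsMarkovKernel κ] (π : Measure X)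
    [IsProbabilityMeasure π] (hinv : κ.Invariant π) : Lp ℝ 2 π →L[ℝ] Lp ℝ 2 π :=
  (opQl κ π hinv).mkContinuous 1 (opQl_norm κ π hinv)

private lemma opQ_ae (κ : Kernel X X) [IsMarkovKernel κ] (π : Measure X)
    [IsProbabilityMeasure π] (hinv : κ.Invariant π) (φ : Lp ℝ 2 π) :
    ∀ᵐ x ∂π, (opQ κ π hinv φ : X → ℝ) x = ∫ y, (φ : X → ℝ) y ∂(κ x) :=
  opQ0_ae κ π hinv φ

private lemma opQ_norm (κ : Kernel X X) [IsMarkovKernel κ] (π : Measure X)
    [IsProbabilityMeasure π] (hinv : κ.Invariant π) : ‖opQ κ π hinv‖ ≤ 1 :=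
  LinearMap.mkContinuous_norm_le _ zero_le_one _

/-- products of square integrable functions of the two coordinates -/
private lemma op_prod (κ : Kernel X X) [IsMarkovKernel κ] (π : Measure X)
    [IsProbabilityMeasure π] (hinv : κ.Invariant π) {Φ G : X → ℝ} (hΦ : MemLp Φ 2 π)
    (hG : MemLp G 2 π) :
    Integrable (fun p : X × X => Φ p.1 * G p.2) (π ⊗ₘ κ) ∧
    ∫ p, Φ p.1 * G p.2 ∂(π ⊗ₘ κ) = ∫ x, Φ x * ∫ y, G y ∂(κ x) ∂π := by
  have h1 : MemLp (fun p : X × X => Φ p.1) 2 (π ⊗ₘ κ) :=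
    hΦ.comp_measurePreserving (op_fst κ π)
  have h2 : MemLp (fun p : X × X => G p.2) 2 (π ⊗ₘ κ) :=
    hG.comp_measurePreserving (op_snd κ π hinv)
  have h3 : Integrable (fun p : X × X => Φ p.1 * G p.2) (π ⊗ₘ κ) := h1.integrable_mul h2
  refine ⟨h3, ?_⟩
  rw [Measure.integral_compProd h3]
  refine integral_congr_ae (Eventually.of_forall fun x => ?_)
  show ∫ y, Φ x * G y ∂(κ x) = Φ x * ∫ y, G y ∂(κ x)
  rw [integral_const_mul]

private lemma op_fst_int (κ : Kernel X X) [IsMarkovKernel κ] (π : Measure X)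
    [IsProbabilityMeasure π] {G : X → ℝ} (hG : Integrable G π) :
    Integrable (fun p : X × X => G p.1) (π ⊗ₘ κ) ∧
      ∫ p, G p.1 ∂(π ⊗ₘ κ) = ∫ x, G x ∂π := by
  have h1 : Integrable (fun p : X × X => G p.1) (π ⊗ₘ κ) :=
    (op_fst κ π).integrable_comp_of_integrable hG
  refine ⟨h1, ?_⟩
  rw [Measure.integral_compProd h1]
  refine integral_congr_ae (Eventually.of_forall fun x => ?_)
  simp

private lemma op_snd_int (κ : Kernel X X) [IsMarkovKernel κ] (π : Measure X)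
    [IsProbabilityMeasure π] (hinv : κ.Invariant π) {G : X → ℝ} (hG : Integrable G π) :
    Integrable (fun p : X × X => G p.2) (π ⊗ₘ κ) ∧
      ∫ p, G p.2 ∂(π ⊗ₘ κ) = ∫ x, G x ∂π := by
  have h1 : Integrable (fun p : X × X => G p.2) (π ⊗ₘ κ) :=
    (op_snd κ π hinv).integrable_comp_of_integrable hG
  refine ⟨h1, ?_⟩
  rw [Measure.integral_compProd h1]
  exact (op_integrable κ π hinv hG).2.2

private lemma op_cor (κ : Kernel X X) [IsMarkovKernel κ] (π : Measure X)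
    [IsProbabilityMeasure π] (hinv : κ.Invariant π) (hqe : S_QE.{u}) (f : X → ℝ)
    (w w' : Lp ℝ 2 π) (mf : Measurable f) (Lf : MemLp f 2 π)
    (hw : ∀ᵐ x ∂π, f x =
      ((1 - ∑' n, dl n • (opQ κ π hinv) ^ (n + 1)) w : Lp ℝ 2 π) x)
    (hw' : ∀ᵐ x ∂π, f x =
      ((1 - ∑' n, dl n • (ContinuousLinearMap.adjoint (opQ κ π hinv)) ^ (n + 1)) w'
        : Lp ℝ 2 π) x) :
    ∃ (g h a b : ℕ → X → ℝ) (γ : ℕ → ℝ), Cor π (π ⊗ₘ κ) f g h a b γ := by
  have hQ1 : ‖opQ κ π hinv‖ ≤ 1 := opQ_norm κ π hinv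
  have hQae := opQ_ae κ π hinv
  generalize opQ κ π hinv = Q at *
  have hA1 : ‖ContinuousLinearMap.adjoint Q‖ ≤ 1 := by
    rw [LinearIsometryEquiv.norm_map]; exact hQ1
  obtain ⟨g, g1, g2⟩ := hqe (Lp ℝ 2 π) Q hQ1 w
  obtain ⟨h, h1, h2⟩ := hqe (Lp ℝ 2 π) (ContinuousLinearMap.adjoint Q) hA1 w'
  obtain ⟨F, hFdef⟩ : ∃ F : Lp ℝ 2 π, F = Lf.toLp f := ⟨_, rfl⟩
  have hFf : ∀ᵐ x ∂π, (F : X → ℝ) x = f x := by rw [hFdef]; exact Lf.coeFn_toLp
  have hF : (1 - ∑' n, dl n • Q ^ (n + 1)) w = F := by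
    apply Lp.ext
    filter_upwards [hw, hFf] with x e1 e2
    rw [← e1, e2]
  have hF' : (1 - ∑' n, dl n • (ContinuousLinearMap.adjoint Q) ^ (n + 1)) w' = F := by
    apply Lp.ext
    filter_upwards [hw', hFf] with x e1 e2
    rw [← e1, e2]
  rw [hF] at g1
  rw [hF'] at h1
  have nF : ∫ x, f x ^ 2 ∂π = ‖F‖ ^ 2 := by
    rw [op_l2]
    refine integral_congr_ae ?_
    filter_upwards [hFf] with x e1
    rw [e1]
  have hsq : ∀ j, (√((1 / 2 : ℝ) ^ j) * (‖g j‖ + ‖h j‖ + ‖F‖)) ^ 2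
      = (1 / 2 : ℝ) ^ j * (‖g j‖ + ‖h j‖ + ‖F‖) ^ 2 := fun j => by
    rw [mul_pow, Real.sq_sqrt (by positivity)]
  have h2j : ∀ j : ℕ, (2 : ℝ) ^ j * (1 / 2 : ℝ) ^ j = 1 := fun j => by
    rw [← mul_pow]; norm_num
  have hsq2 : ∀ j, (2 : ℝ) ^ j * (√((1 / 2 : ℝ) ^ j) * (‖g j‖ + ‖h j‖ + ‖F‖)) ^ 2
      = (‖g j‖ + ‖h j‖ + ‖F‖) ^ 2 := fun j => by
    rw [hsq, ← mul_assoc, h2j, one_mul]
  have hsq3 : ∀ j, (√((1 / 2 : ℝ) ^ j) * (‖g j‖ + ‖h j‖ + ‖F‖)) ^ 2 / 2 ^ j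
      = (1 / 2 : ℝ) ^ j * (1 / 2 : ℝ) ^ j * (‖g j‖ + ‖h j‖ + ‖F‖) ^ 2 := fun j => by
    rw [hsq, div_eq_mul_inv, ← one_div, ← one_div_pow]; ring
  refine ⟨fun j => g j, fun j => h j, fun j x => (1 / 2 : ℝ) ^ j * (g j : X → ℝ) x,
    fun j x => (1 / 2 : ℝ) ^ j * (h j : X → ℝ) x,
    fun j => √((1 / 2 : ℝ) ^ j) * (‖g j‖ + ‖h j‖ + ‖F‖), ?_⟩
  have mg : ∀ j, Measurable (g j : X → ℝ) := fun j => (Lp.stronglyMeasurable (g j)).measurable
  have mh : ∀ j, Measurable (h j : X → ℝ) := fun j => (Lp.stronglyMeasurable (h j)).measurable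
  have Lg : ∀ j, MemLp (g j : X → ℝ) 2 π := fun j => Lp.memLp (g j)
  have Lh : ∀ j, MemLp (h j : X → ℝ) 2 π := fun j => Lp.memLp (h j)
  constructor
  · infer_instance
  · infer_instance
  · exact (op_fst κ π).map_eq
  · exact (op_snd κ π hinv).map_eq
  · exact mf
  · exact mg
  · exact mh
  · exact fun j => (mg j).const_mul _
  · exact fun j => (mh j).const_mul _
  · exact Lf
  · exact Lg
  · exact Lh
  · exact fun j => (Lg j).const_mul _
  · exact fun j => (Lh j).const_mul _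
  · intro j Φ hΦ
    have i1 : Integrable (fun x => Φ x * (f x - (g j : X → ℝ) x)) π :=
      hΦ.integrable_mul (Lf.sub (Lg j))
    obtain ⟨i2, i3⟩ := op_fst_int κ π i1
    obtain ⟨i4, i5⟩ := op_prod κ π hinv hΦ (Lg j)
    have e1 : ∀ p : X × X, Φ p.1 * (f p.1 - (g j : X → ℝ) p.1 + (g j : X → ℝ) p.2)
        = Φ p.1 * (f p.1 - (g j : X → ℝ) p.1) + Φ p.1 * (g j : X → ℝ) p.2 := fun p => by ring
    simp_rw [e1]
    rw [integral_add i2 i4, i3, i5, ← integral_add i1]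
    · refine integral_congr_ae ?_
      have e2 := congrArg (fun φ : Lp ℝ 2 π => (φ : X → ℝ)) (g1 j)
      filter_upwards [hFf, hQae (g j), Lp.coeFn_add ((1 / 2 : ℝ) ^ j • g j) (g j - Q (g j)),
        Lp.coeFn_smul ((1 / 2 : ℝ) ^ j) (g j), Lp.coeFn_sub (g j) (Q (g j))] with x k1 k2 k3 k4 k5
      have k6 := congrFun e2 x
      rw [k3, Pi.add_apply, k4, k5, Pi.smul_apply, Pi.sub_apply, smul_eq_mul, k1] at k6
      rw [← k2]
      linear_combination (-Φ x) * k6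
    · exact hΦ.integrable_mul (op_memLp κ π hinv (Lg j)).1
  · intro j Φ hΦ
    have i1 : Integrable (fun x => Φ x * (f x - (h j : X → ℝ) x)) π :=
      hΦ.integrable_mul (Lf.sub (Lh j))
    obtain ⟨i2, i3⟩ := op_snd_int κ π hinv i1
    obtain ⟨i4, i5⟩ := op_prod κ π hinv (Lh j) hΦ
    have e1 : ∀ p : X × X, Φ p.2 * (f p.2 - (h j : X → ℝ) p.2 + (h j : X → ℝ) p.1)
        = Φ p.2 * (f p.2 - (h j : X → ℝ) p.2) + (h j : X → ℝ) p.1 * Φ p.2 := fun p => by ring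
    have e3 : ∫ x, (h j : X → ℝ) x * ∫ y, Φ y ∂(κ x) ∂π
        = ∫ x, Φ x * (ContinuousLinearMap.adjoint Q (h j) : Lp ℝ 2 π) x ∂π := by
      have e4 : inner ℝ (ContinuousLinearMap.adjoint Q (h j)) (hΦ.toLp Φ)
          = inner ℝ (h j) (Q (hΦ.toLp Φ)) := ContinuousLinearMap.adjoint_inner_left _ _ _
      rw [op_inner, op_inner] at e4
      calc ∫ x, (h j : X → ℝ) x * ∫ y, Φ y ∂(κ x) ∂π
          = ∫ x, (h j : X → ℝ) x * (Q (hΦ.toLp Φ) : Lp ℝ 2 π) x ∂π := by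
            refine integral_congr_ae ?_
            filter_upwards [hQae (hΦ.toLp Φ), op_ae κ π hinv hΦ.coeFn_toLp] with x k1 k2
            rw [k1]
            congr 1
            exact (integral_congr_ae k2).symm
        _ = _ := e4.symm
        _ = _ := by
            refine integral_congr_ae ?_
            filter_upwards [hΦ.coeFn_toLp] with x k1
            rw [k1]; ring
    simp_rw [e1]
    rw [integral_add i2 i4, i3, i5, e3, ← integral_add i1]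
    · refine integral_congr_ae ?_
      have e2 := congrArg (fun φ : Lp ℝ 2 π => (φ : X → ℝ)) (h1 j)
      filter_upwards [hFf, Lp.coeFn_add ((1 / 2 : ℝ) ^ j • h j)
          (h j - (ContinuousLinearMap.adjoint Q) (h j)),
        Lp.coeFn_smul ((1 / 2 : ℝ) ^ j) (h j),
        Lp.coeFn_sub (h j) ((ContinuousLinearMap.adjoint Q) (h j))] with x k1 k3 k4 k5
      have k6 := congrFun e2 x
      rw [k3, Pi.add_apply, k4, k5, Pi.smul_apply, Pi.sub_apply, smul_eq_mul, k1] at k6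
      linear_combination (-Φ x) * k6
    · exact hΦ.integrable_mul (Lp.memLp _)
  · intro j
    rw [nF]; rw [hsq2]
    exact pow_le_pow_left₀ (norm_nonneg _) (by linarith [norm_nonneg (g j), norm_nonneg (h j)]) 2
  · intro j
    rw [← op_l2]; rw [hsq2]
    exact pow_le_pow_left₀ (norm_nonneg _) (by linarith [norm_nonneg F, norm_nonneg (h j)]) 2
  · intro j
    rw [← op_l2]; rw [hsq2]
    exact pow_le_pow_left₀ (norm_nonneg _) (by linarith [norm_nonneg F, norm_nonneg (g j)]) 2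
  · intro j
    rw [hsq3]
    simp_rw [mul_pow]
    rw [integral_const_mul, ← op_l2, sq ((1 / 2 : ℝ) ^ j)]
    refine mul_le_mul_of_nonneg_left ?_ (by positivity)
    exact pow_le_pow_left₀ (norm_nonneg _) (by linarith [norm_nonneg F, norm_nonneg (h j)]) 2
  · intro j
    rw [hsq3]
    simp_rw [mul_pow]
    rw [integral_const_mul, ← op_l2, sq ((1 / 2 : ℝ) ^ j)]
    refine mul_le_mul_of_nonneg_left ?_ (by positivity)
    exact pow_le_pow_left₀ (norm_nonneg _) (by linarith [norm_nonneg F, norm_nonneg (g j)]) 2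
  · intro j; positivity
  · have s1 : Summable (fun j => 3 * ((1 / 2 : ℝ) ^ j * ‖g j‖ ^ 2 + (1 / 2 : ℝ) ^ j * ‖h j‖ ^ 2
        + (1 / 2 : ℝ) ^ j * ‖F‖ ^ 2)) := by
      refine Summable.mul_left _ ((g2.add h2).add ?_)
      exact (summable_geometric_of_lt_one (by norm_num) (by norm_num)).mul_right _
    refine Summable.of_nonneg_of_le (fun j => sq_nonneg _) (fun j => ?_) s1
    rw [hsq]
    have hp : 0 < (1 / 2 : ℝ) ^ j := by positivity
    have : (‖g j‖ + ‖h j‖ + ‖F‖) ^ 2 ≤ 3 * (‖g j‖ ^ 2 + ‖h j‖ ^ 2 + ‖F‖ ^ 2) := by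
      nlinarith [sq_nonneg (‖g j‖ - ‖h j‖), sq_nonneg (‖g j‖ - ‖F‖), sq_nonneg (‖h j‖ - ‖F‖)]
    calc (1 / 2 : ℝ) ^ j * (‖g j‖ + ‖h j‖ + ‖F‖) ^ 2
        ≤ (1 / 2 : ℝ) ^ j * (3 * (‖g j‖ ^ 2 + ‖h j‖ ^ 2 + ‖F‖ ^ 2)) :=
          mul_le_mul_of_nonneg_left this hp.le
      _ = _ := by ring

end OPaux

theorem t_OP (X : Type u) [MeasurableSpace X] (h : S_QE.{u}) : S_OP X := by
  intro κ _ π _ hinv
  refine ⟨opQ κ π hinv, opQ_norm κ π hinv, opQ_ae κ π hinv, ?_⟩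
  intro f w w' mf Lf hw hw'
  exact op_cor κ π hinv h f w w' mf Lf hw hw'

end Pool.Agent.K1H85.CL
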