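import Pool.Agent.K1H85.CL.Stm

/-! The quadratic estimate. -/

set_option autoImplicit false

open Filter
open scoped Topology BigOperators RealInnerProductSpace

namespace Pool.Agent.K1H85.CL

universe u

section

variable {H : Type u} [NormedAddCommGroup H] [InnerProductSpace ℝ H]

private theorem pow_le_one_op {T : H →L[ℝ] H} (hT : ‖T‖ ≤ 1) (n : ℕ) : ‖T ^ n‖ ≤ 1 := by
  induction n with
  | zero => rw [pow_zero]; exact ContinuousLinearMap.norm_id_le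
  | succ n ih =>
    rw [pow_succ]
    exact (norm_mul_le _ _).trans (mul_le_one₀ ih (norm_nonneg _) hT)

private theorem unit_of [CompleteSpace H] {K : H →L[ℝ] H} (hK : ‖K‖ ≤ 1) {l : ℝ} (hl : 0 < l) :
    ∃ u : (H →L[ℝ] H)ˣ, (u : H →L[ℝ] H) = l • 1 + (1 - K) := by
  have h1 : (1 + l) ∈ resolventSet ℝ K := by
    apply spectrum.mem_resolventSet_of_norm_lt_mul
    have h2 : ‖(1 : H →L[ℝ] H)‖ ≤ 1 := ContinuousLinearMap.norm_id_le
    rw [Real.norm_eq_abs, abs_of_pos (by linarith)]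
    have h3 := mul_le_one₀ hK (norm_nonneg _) h2
    linarith
  obtain ⟨u, hu⟩ := h1
  refine ⟨u, ?_⟩
  rw [hu, Algebra.algebraMap_eq_smul_one, add_smul, one_smul]
  abel

private theorem inv_le {K : H →L[ℝ] H} (hK : ‖K‖ ≤ 1) {l : ℝ} (hl : 0 < l)
    {u : (H →L[ℝ] H)ˣ} (hu : (u : H →L[ℝ] H) = l • 1 + (1 - K)) (x : H) :
    ‖((u⁻¹ : (H →L[ℝ] H)ˣ) : H →L[ℝ] H) x‖ ≤ ‖x‖ / l := by
  set y := ((u⁻¹ : (H →L[ℝ] H)ˣ) : H →L[ℝ] H) x with hy
  have h1 : (u : H →L[ℝ] H) y = x := by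
    rw [hy]
    have := congrArg (fun A : H →L[ℝ] H => A x) u.mul_inv
    exact this
  rw [hu] at h1
  have h2 : l • y + (y - K y) = x := h1
  rw [le_div_iff₀ hl]
  have h3 : ‖K y‖ ≤ ‖y‖ := (K.le_opNorm y).trans (by
    have := mul_le_mul_of_nonneg_right hK (norm_nonneg y)
    linarith)
  have h4 : (1 + l) • y = x + K y := by
    rw [← h2, add_smul, one_smul]
    abel
  have h5 : ‖(1 + l) • y‖ = (1 + l) * ‖y‖ := by
    rw [norm_smul, Real.norm_eq_abs, abs_of_pos (by linarith)]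
  have h6 := norm_add_le x (K y)
  rw [← h4, h5] at h6
  linarith

private theorem pos_of {K : H →L[ℝ] H} (hK : ‖K‖ ≤ 1) (x : H) :
    0 ≤ ⟪(1 - K) x, x⟫ := by
  have h1 : (1 - K) x = x - K x := rfl
  rw [h1, inner_sub_left, real_inner_self_eq_norm_sq]
  have h2 := real_inner_le_norm (K x) x
  have h3 : ‖K x‖ ≤ ‖x‖ := (K.le_opNorm x).trans (by
    have := mul_le_mul_of_nonneg_right hK (norm_nonneg x)
    linarith)
  have h4 := mul_le_mul_of_nonneg_right h3 (norm_nonneg x)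
  nlinarith

end

theorem t_QE (h : S_SQ.{u}) : S_QE.{u} := by
  intro H _ _ _ T hT w
  obtain ⟨hd0, hd1, hmin, -, hsq⟩ := h
  obtain ⟨hKs, hCC⟩ := hsq H T hT
  set K : H →L[ℝ] H := ∑' n, dl n • T ^ (n + 1) with hK
  set C : H →L[ℝ] H := 1 - K with hC
  have hterm : ∀ n, ‖dl n • T ^ (n + 1)‖ ≤ dl n := by
    intro n
    rw [norm_smul, Real.norm_eq_abs, abs_of_pos (hd0 n)]
    have := mul_le_mul_of_nonneg_left (pow_le_one_op hT (n + 1)) (hd0 n).le
    linarith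
  have hK1 : ‖K‖ ≤ 1 := tsum_of_norm_bounded hd1 hterm
  have hCT : Commute C T := by
    have h1 : Commute T K := Commute.tsum_right _ fun n =>
      ((Commute.refl T).pow_right (n + 1)).smul_right _
    exact ((Commute.one_left T).sub_left h1.symm)
  -- parameters
  set s : ℕ → ℝ := fun j => √((1 / 2 : ℝ) ^ j) with hs
  have hs0 : ∀ j, 0 < s j := fun j => Real.sqrt_pos.2 (by positivity)
  have hs2 : ∀ j, s j ^ 2 = (1 / 2 : ℝ) ^ j := fun j => Real.sq_sqrt (by positivity)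
  have hs3 : ∀ j, s (j + 1) ^ 2 = s j ^ 2 / 2 := fun j => by rw [hs2, hs2, pow_succ]; ring
  have hs4 : ∀ j, s (j + 1) ≤ s j := by
    intro j
    have h1 : s (j + 1) ^ 2 ≤ s j ^ 2 := by
      rw [hs3]; have := sq_nonneg (s j); linarith
    exact (sq_le_sq₀ (hs0 _).le (hs0 _).le).1 h1
  have hl0 : ∀ j : ℕ, (0 : ℝ) < (1 / 2) ^ j := fun j => by positivity
  choose a ha using fun j => unit_of hK1 (hs0 j)
  choose r hr using fun j : ℕ => unit_of hT (hl0 j)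
  -- commutation
  have hBC : (1 : H →L[ℝ] H) - T = C * C := hCC.symm
  have caC : ∀ j, Commute C (a j : H →L[ℝ] H) := by
    intro j
    rw [ha]
    exact ((Commute.one_right C).smul_right _).add_right (Commute.refl C)
  have crC : ∀ j, Commute C (r j : H →L[ℝ] H) := by
    intro j
    rw [hr]
    exact ((Commute.one_right C).smul_right _).add_right
      ((Commute.one_right C).sub_right hCT)
  have caC' : ∀ j, Commute C ((a j)⁻¹ : (H →L[ℝ] H)ˣ) := fun j => (caC j).units_inv_right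
  have crC' : ∀ j, Commute C ((r j)⁻¹ : (H →L[ℝ] H)ˣ) := fun j => (crC j).units_inv_right
  have caa : ∀ i j, Commute (a i : H →L[ℝ] H) ((a j)⁻¹ : (H →L[ℝ] H)ˣ) := by
    intro i j
    rw [ha]
    exact ((Commute.one_left _).smul_left _).add_left (caC' j)
  have car : ∀ i j, Commute (a i : H →L[ℝ] H) ((r j)⁻¹ : (H →L[ℝ] H)ˣ) := by
    intro i j
    rw [ha]
    exact ((Commute.one_left _).smul_left _).add_left (crC' j)
  -- the vectors
  set q : ℕ → H := fun j => ((a j)⁻¹ : (H →L[ℝ] H)ˣ).val (((a (j + 1))⁻¹ : (H →L[ℝ] H)ˣ).val w)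
    with hq
  set y : ℕ → H := fun j => s j • (((a j)⁻¹ : (H →L[ℝ] H)ˣ).val w) with hy
  set v : ℕ → H := fun j => s j • C (q j) with hv
  have e1 : ∀ j, ((a j)⁻¹ : (H →L[ℝ] H)ˣ).val w = s (j + 1) • q j + C (q j) := by
    intro j
    have h1 : (a (j + 1) : H →L[ℝ] H) * (((a j)⁻¹ : (H →L[ℝ] H)ˣ).val *
        ((a (j + 1))⁻¹ : (H →L[ℝ] H)ˣ).val) = ((a j)⁻¹ : (H →L[ℝ] H)ˣ).val := by
      rw [← mul_assoc, (caa (j + 1) j).eq, mul_assoc, Units.mul_inv, mul_one]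
    have h2 := congrArg (fun A : H →L[ℝ] H => A w) h1
    rw [ha] at h2
    exact h2.symm
  have e2 : ∀ j, ((a (j + 1))⁻¹ : (H →L[ℝ] H)ˣ).val w = s j • q j + C (q j) := by
    intro j
    have h1 : (a j : H →L[ℝ] H) * (((a j)⁻¹ : (H →L[ℝ] H)ˣ).val *
        ((a (j + 1))⁻¹ : (H →L[ℝ] H)ˣ).val) = ((a (j + 1))⁻¹ : (H →L[ℝ] H)ˣ).val := by
      rw [← mul_assoc, Units.mul_inv, one_mul]
    have h2 := congrArg (fun A : H →L[ℝ] H => A w) h1
    rw [ha] at h2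
    exact h2.symm
  have hstep : ∀ j, ‖v j‖ ^ 2 ≤ 2 * (‖y j‖ ^ 2 - ‖y (j + 1)‖ ^ 2) := by
    intro j
    have hp := pos_of hK1 (q j)
    have n1 : ‖y j‖ ^ 2 = s j ^ 2 * (s (j + 1) ^ 2 * ‖q j‖ ^ 2 +
        2 * (s (j + 1) * ⟪C (q j), q j⟫) + ‖C (q j)‖ ^ 2) := by
      rw [hy]
      simp only
      rw [e1 j, norm_smul, mul_pow, Real.norm_eq_abs, sq_abs, norm_add_sq_real, norm_smul,
        mul_pow, Real.norm_eq_abs, sq_abs, real_inner_smul_left, real_inner_comm]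
    have n2 : ‖y (j + 1)‖ ^ 2 = s (j + 1) ^ 2 * (s j ^ 2 * ‖q j‖ ^ 2 +
        2 * (s j * ⟪C (q j), q j⟫) + ‖C (q j)‖ ^ 2) := by
      rw [hy]
      simp only
      rw [e2 j, norm_smul, mul_pow, Real.norm_eq_abs, sq_abs, norm_add_sq_real, norm_smul,
        mul_pow, Real.norm_eq_abs, sq_abs, real_inner_smul_left, real_inner_comm]
    have n3 : ‖v j‖ ^ 2 = s j ^ 2 * ‖C (q j)‖ ^ 2 := by
      rw [hv]
      simp only
      rw [norm_smul, mul_pow, Real.norm_eq_abs, sq_abs]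
    have hp' : 0 ≤ s j * s (j + 1) * (s j - s (j + 1)) * ⟪C (q j), q j⟫ :=
      mul_nonneg (mul_nonneg (mul_nonneg (hs0 _).le (hs0 _).le) (sub_nonneg.2 (hs4 j))) hp
    have h3 := hs3 j
    rw [n1, n2, n3]
    have e : 2 * (s j ^ 2 * (s (j + 1) ^ 2 * ‖q j‖ ^ 2 +
        2 * (s (j + 1) * ⟪C (q j), q j⟫) + ‖C (q j)‖ ^ 2) - s (j + 1) ^ 2 * (s j ^ 2 * ‖q j‖ ^ 2 +
        2 * (s j * ⟪C (q j), q j⟫) + ‖C (q j)‖ ^ 2)) =
        4 * (s j * s (j + 1) * (s j - s (j + 1)) * ⟪C (q j), q j⟫) +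
        2 * (s j ^ 2 - s (j + 1) ^ 2) * ‖C (q j)‖ ^ 2 := by ring
    rw [e, h3]
    nlinarith
  have hsumv : Summable fun j => ‖v j‖ ^ 2 := by
    apply summable_of_sum_range_le (c := 2 * ‖y 0‖ ^ 2) (fun j => by positivity)
    intro n
    calc ∑ j ∈ Finset.range n, ‖v j‖ ^ 2 ≤
        ∑ j ∈ Finset.range n, 2 * (‖y j‖ ^ 2 - ‖y (j + 1)‖ ^ 2) :=
          Finset.sum_le_sum fun j _ => hstep j
      _ = 2 * (‖y 0‖ ^ 2 - ‖y n‖ ^ 2) := by
          rw [← Finset.mul_sum, Finset.sum_range_sub' (fun j => ‖y j‖ ^ 2)]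
      _ ≤ 2 * ‖y 0‖ ^ 2 := by nlinarith [sq_nonneg ‖y n‖]
  -- the bound of `C R`
  have hCR : ∀ j, ‖C * ((r j)⁻¹ : (H →L[ℝ] H)ˣ).val‖ ≤ 4 / s j := by
    intro j
    set R := ((r j)⁻¹ : (H →L[ℝ] H)ˣ).val with hR
    have hRle : ‖R‖ ≤ 2 ^ j := by
      apply ContinuousLinearMap.opNorm_le_bound _ (by positivity)
      intro x
      refine (inv_le hT (hl0 j) (hr j) x).trans (le_of_eq ?_)
      rw [one_div, inv_pow, div_inv_eq_mul, mul_comm]
    have hBR : (1 - T) * R = 1 - ((1 / 2 : ℝ) ^ j) • R := by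
      have h1 : (r j : H →L[ℝ] H) * R = 1 := Units.mul_inv _
      rw [hr, add_mul, smul_mul_assoc, one_mul] at h1
      exact eq_sub_of_add_eq' h1
    have hBRn : ‖(1 - T) * R‖ ≤ 2 := by
      rw [hBR]
      have h2 : ‖(1 : H →L[ℝ] H)‖ ≤ 1 := ContinuousLinearMap.norm_id_le
      have h3 : ‖((1 / 2 : ℝ) ^ j) • R‖ ≤ 1 := by
        rw [norm_smul, Real.norm_eq_abs, abs_of_pos (hl0 j)]
        calc (1 / 2 : ℝ) ^ j * ‖R‖ ≤ (1 / 2 : ℝ) ^ j * 2 ^ j :=
              mul_le_mul_of_nonneg_left hRle (hl0 j).le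
          _ = 1 := by rw [← mul_pow]; norm_num
      have := norm_sub_le (1 : H →L[ℝ] H) (((1 / 2 : ℝ) ^ j) • R)
      linarith
    have hn : ∀ n : ℕ, ‖(1 - T ^ (n + 1)) * R‖ ≤ 2 * min ((n : ℝ) + 1) ((2 ^ j : ℕ) : ℝ) := by
      intro n
      have b1 : ‖(1 - T ^ (n + 1)) * R‖ ≤ 2 * ((n : ℝ) + 1) := by
        have h1 : (1 - T ^ (n + 1)) * R = (∑ i ∈ Finset.range (n + 1), T ^ i) * ((1 - T) * R) := by
          rw [← mul_assoc, geom_sum_mul_neg]
        rw [h1]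
        have h2 : ‖∑ i ∈ Finset.range (n + 1), T ^ i‖ ≤ (n : ℝ) + 1 := by
          calc _ ≤ ∑ i ∈ Finset.range (n + 1), ‖T ^ i‖ := norm_sum_le _ _
            _ ≤ ∑ _i ∈ Finset.range (n + 1), (1 : ℝ) :=
                Finset.sum_le_sum fun i _ => pow_le_one_op hT i
            _ = (n : ℝ) + 1 := by simp
        calc _ ≤ ‖∑ i ∈ Finset.range (n + 1), T ^ i‖ * ‖(1 - T) * R‖ := norm_mul_le _ _
          _ ≤ ((n : ℝ) + 1) * 2 := mul_le_mul h2 hBRn (norm_nonneg _) (by positivity)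
          _ = 2 * ((n : ℝ) + 1) := by ring
      have b2 : ‖(1 - T ^ (n + 1)) * R‖ ≤ 2 * ((2 ^ j : ℕ) : ℝ) := by
        have h2 : ‖(1 : H →L[ℝ] H) - T ^ (n + 1)‖ ≤ 2 := by
          have h3 : ‖(1 : H →L[ℝ] H)‖ ≤ 1 := ContinuousLinearMap.norm_id_le
          have := norm_sub_le (1 : H →L[ℝ] H) (T ^ (n + 1))
          linarith [pow_le_one_op hT (n + 1)]
        push_cast
        calc _ ≤ ‖(1 : H →L[ℝ] H) - T ^ (n + 1)‖ * ‖R‖ := norm_mul_le _ _
          _ ≤ 2 * 2 ^ j := mul_le_mul h2 hRle (norm_nonneg _) (by norm_num)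
      rw [mul_min_of_nonneg _ _ (by norm_num : (0 : ℝ) ≤ 2)]
      exact le_min b1 b2
    have hsum : HasSum (fun n => dl n • ((1 - T ^ (n + 1)) * R)) (C * R) := by
      have h1 : HasSum (fun n => dl n • (1 : H →L[ℝ] H)) 1 := by
        have := hd1.smul_const (1 : H →L[ℝ] H)
        rwa [one_smul] at this
      have h2 := (h1.sub hKs.hasSum).mul_right R
      refine h2.congr_fun ?_
      intro n
      simp only [sub_mul, smul_mul_assoc, smul_sub]
    have hmin' := hmin (2 ^ j) (by positivity)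
    have h1 : ‖C * R‖ ≤ 2 * ∑' n, dl n * min ((n : ℝ) + 1) ((2 ^ j : ℕ) : ℝ) := by
      rw [← hsum.tsum_eq]
      apply tsum_of_norm_bounded (hmin'.1.hasSum.mul_left 2)
      intro n
      rw [norm_smul, Real.norm_eq_abs, abs_of_pos (hd0 n)]
      calc dl n * ‖(1 - T ^ (n + 1)) * R‖ ≤
          dl n * (2 * min ((n : ℝ) + 1) ((2 ^ j : ℕ) : ℝ)) :=
            mul_le_mul_of_nonneg_left (hn n) (hd0 n).le
        _ = _ := by ring
    have h2 : √((2 ^ j : ℕ) : ℝ) = 1 / s j := by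
      rw [hs]
      simp only
      rw [one_div_pow, Real.sqrt_div zero_le_one, Real.sqrt_one, one_div_one_div]
      push_cast
      rfl
    calc ‖C * R‖ ≤ 2 * (2 * √((2 ^ j : ℕ) : ℝ)) :=
          h1.trans (mul_le_mul_of_nonneg_left hmin'.2 (by norm_num))
      _ = 4 / s j := by rw [h2]; ring
  -- the correctors
  refine ⟨fun j => ((r j)⁻¹ : (H →L[ℝ] H)ˣ).val (C w), ?_, ?_⟩
  · intro j
    have h1 : (r j : H →L[ℝ] H) (((r j)⁻¹ : (H →L[ℝ] H)ˣ).val (C w)) = C w := by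
      have := congrArg (fun A : H →L[ℝ] H => A (C w)) (r j).mul_inv
      exact this
    rw [hr] at h1
    exact h1
  · have hkey : ∀ j, ‖s j • ((r j)⁻¹ : (H →L[ℝ] H)ˣ).val (C w)‖ ≤ 10 * ‖v j‖ := by
      intro j
      set R := ((r j)⁻¹ : (H →L[ℝ] H)ˣ).val with hR
      have k1 : (a j : H →L[ℝ] H) * (a (j + 1) : H →L[ℝ] H) * R =
          1 + (s j + s (j + 1)) • (C * R) + (s j * s (j + 1) - (1 / 2 : ℝ) ^ j) • R := by
        have h1 : (a j : H →L[ℝ] H) * (a (j + 1) : H →L[ℝ] H) =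
            (r j : H →L[ℝ] H) + (s j + s (j + 1)) • C +
              (s j * s (j + 1) - (1 / 2 : ℝ) ^ j) • 1 := by
          rw [ha, ha, hr, hBC]
          have hCK : (1 : H →L[ℝ] H) - K = C := rfl
          rw [hCK, add_mul, mul_add, mul_add, smul_mul_assoc, smul_mul_assoc, one_mul, one_mul,
            mul_smul_comm, mul_one, smul_smul, add_smul, sub_smul]
          abel
        rw [h1, add_mul, add_mul, Units.mul_inv, smul_mul_assoc, smul_mul_assoc, one_mul]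
      have k2 : ((a j : H →L[ℝ] H) * (a (j + 1) : H →L[ℝ] H) * R) (v j) = s j • R (C w) := by
        have h1 : (a j : H →L[ℝ] H) * (a (j + 1) : H →L[ℝ] H) * R * (C *
            (((a j)⁻¹ : (H →L[ℝ] H)ˣ).val * ((a (j + 1))⁻¹ : (H →L[ℝ] H)ˣ).val)) = R * C := by
          have c1 : Commute (a j : H →L[ℝ] H) R := car j j
          have c2 : Commute (a (j + 1) : H →L[ℝ] H) R := car (j + 1) j
          calc _ = (a j : H →L[ℝ] H) * ((a (j + 1) : H →L[ℝ] H) * R) * (C *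
            (((a j)⁻¹ : (H →L[ℝ] H)ˣ).val * ((a (j + 1))⁻¹ : (H →L[ℝ] H)ˣ).val)) := by
                rw [mul_assoc (a j : H →L[ℝ] H)]
            _ = (a j : H →L[ℝ] H) * (R * (a (j + 1) : H →L[ℝ] H)) * (C *
            (((a j)⁻¹ : (H →L[ℝ] H)ˣ).val * ((a (j + 1))⁻¹ : (H →L[ℝ] H)ˣ).val)) := by
                rw [c2.eq]
            _ = R * ((a j : H →L[ℝ] H) * ((a (j + 1) : H →L[ℝ] H) * C) *
            (((a j)⁻¹ : (H →L[ℝ] H)ˣ).val * ((a (j + 1))⁻¹ : (H →L[ℝ] H)ˣ).val)) := by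
                rw [← mul_assoc (a j : H →L[ℝ] H) R, c1.eq]
                simp only [mul_assoc]
            _ = R * (C * ((a j : H →L[ℝ] H) * ((a (j + 1) : H →L[ℝ] H) *
            (((a j)⁻¹ : (H →L[ℝ] H)ˣ).val * ((a (j + 1))⁻¹ : (H →L[ℝ] H)ˣ).val)))) := by
                rw [← (caC (j + 1)).eq, ← mul_assoc (a j : H →L[ℝ] H) C, ← (caC j).eq]
                simp only [mul_assoc]
            _ = R * C := by
                rw [← mul_assoc (a (j + 1) : H →L[ℝ] H), (caa (j + 1) j).eq, mul_assoc,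
                  Units.mul_inv, mul_one, Units.mul_inv, mul_one]
        have h2 := congrArg (fun A : H →L[ℝ] H => A w) h1
        have h3 : ((a j : H →L[ℝ] H) * (a (j + 1) : H →L[ℝ] H) * R) (C (q j)) = R (C w) := h2
        rw [hv]
        simp only
        rw [map_smul, h3]
      rw [← k2, k1]
      have e3 : (1 + (s j + s (j + 1)) • (C * R) + (s j * s (j + 1) - (1 / 2 : ℝ) ^ j) • R) (v j) =
          v j + (s j + s (j + 1)) • (C * R) (v j) +
            (s j * s (j + 1) - (1 / 2 : ℝ) ^ j) • R (v j) := rfl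
      rw [e3]
      have b1 : ‖(s j + s (j + 1)) • (C * R) (v j)‖ ≤ 8 * ‖v j‖ := by
        rw [norm_smul, Real.norm_eq_abs, abs_of_pos (add_pos (hs0 _) (hs0 _))]
        have h1 : ‖(C * R) (v j)‖ ≤ 4 / s j * ‖v j‖ :=
          ((C * R).le_opNorm _).trans (mul_le_mul_of_nonneg_right (hCR j) (norm_nonneg _))
        calc (s j + s (j + 1)) * ‖(C * R) (v j)‖ ≤ (2 * s j) * (4 / s j * ‖v j‖) := by
              apply mul_le_mul _ h1 (norm_nonneg _) (by have := hs0 j; linarith)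
              linarith [hs4 j]
          _ = 8 * ‖v j‖ := by
              have := (hs0 j).ne'
              field_simp
              ring
      have b2 : ‖(s j * s (j + 1) - (1 / 2 : ℝ) ^ j) • R (v j)‖ ≤ ‖v j‖ := by
        rw [norm_smul, Real.norm_eq_abs]
        have h1 := inv_le hT (hl0 j) (hr j) (v j)
        have h2 : |s j * s (j + 1) - (1 / 2 : ℝ) ^ j| ≤ (1 / 2 : ℝ) ^ j := by
          rw [← hs2 j, abs_le]
          constructor
          · have := mul_pos (hs0 j) (hs0 (j + 1)); linarith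
          · nlinarith [hs4 j, hs0 j, hs0 (j + 1)]
        calc |s j * s (j + 1) - (1 / 2 : ℝ) ^ j| * ‖R (v j)‖ ≤
            (1 / 2 : ℝ) ^ j * (‖v j‖ / (1 / 2 : ℝ) ^ j) :=
              mul_le_mul h2 h1 (norm_nonneg _) (hl0 j).le
          _ = ‖v j‖ := mul_div_cancel₀ _ (hl0 j).ne'
      calc _ ≤ ‖v j + (s j + s (j + 1)) • (C * R) (v j)‖ +
            ‖(s j * s (j + 1) - (1 / 2 : ℝ) ^ j) • R (v j)‖ := norm_add_le _ _
        _ ≤ ‖v j‖ + ‖(s j + s (j + 1)) • (C * R) (v j)‖ +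
            ‖(s j * s (j + 1) - (1 / 2 : ℝ) ^ j) • R (v j)‖ := by gcongr; exact norm_add_le _ _
        _ ≤ 10 * ‖v j‖ := by linarith
    refine Summable.of_nonneg_of_le (fun j => by positivity) (fun j => ?_) (hsumv.mul_left 100)
    have h1 := hkey j
    rw [norm_smul, Real.norm_eq_abs, abs_of_pos (hs0 j)] at h1
    rw [← hs2 j, ← mul_pow]
    calc (s j * ‖((r j)⁻¹ : (H →L[ℝ] H)ˣ).val (C w)‖) ^ 2 ≤ (10 * ‖v j‖) ^ 2 :=
          pow_le_pow_left₀ (mul_nonneg (hs0 j).le (norm_nonneg _)) h1 2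
      _ = 100 * ‖v j‖ ^ 2 := by ring

end Pool.Agent.K1H85.CL
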