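import Pool.Agent.K1H85.CL.Stm

/-!
# The scalar inequality
-/

namespace Pool.Agent.K1H85.CL

namespace S1

/-- the polynomial inequality -/
theorem poly {u o : ℝ} (hu0 : 0 ≤ u) (hu1 : u ≤ 1) (ho0 : 0 ≤ o) (ho1 : o ≤ 1) {v z : ℝ}
    (hz : z = 1 / 5 * u + 6 / 25 * (o * (1 - u)))
    (hv : v ≤ 11 / 10 * u + 11 / 1000 * (o * (1 - u))) :
    (1 - 3 / 2 * z + 21 / 50 * z ^ 2) * (1 + 1 / 100 * u) ≤
      (1 - 56 / 225 * o) * (1 - 1 / 100 * v) := by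
  have h1 : 0 ≤ 1 - u := by linarith
  have h2 : 0 ≤ 1 - o := by linarith
  have h3 : 0 ≤ o * (1 - o) := mul_nonneg ho0 h2
  -- remove `v`
  have h4 : (1 - 56 / 225 * o) * (1 - 1 / 100 * (11 / 10 * u + 11 / 1000 * (o * (1 - u)))) ≤
      (1 - 56 / 225 * o) * (1 - 1 / 100 * v) := by
    apply mul_le_mul_of_nonneg_left _ (by linarith)
    linarith
  refine le_trans ?_ h4
  have h5 : (1 - 56 / 225 * o) * (1 - 11 / 1000 * u) - 11 / 100000 * (o * (1 - u)) ≤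
      (1 - 56 / 225 * o) * (1 - 1 / 100 * (11 / 10 * u + 11 / 1000 * (o * (1 - u)))) := by
    have h6 : 0 ≤ o * (o * (1 - u)) := mul_nonneg ho0 (mul_nonneg ho0 h1)
    nlinarith
  refine le_trans ?_ h5
  -- concavity in `o`
  have hD0 : 0 ≤ (1 - 11 / 1000 * u) -
      (1 - 3 / 2 * (1 / 5 * u) + 21 / 50 * (1 / 5 * u) ^ 2) * (1 + 1 / 100 * u) := by
    have e : (1 - 11 / 1000 * u) -
      (1 - 3 / 2 * (1 / 5 * u) + 21 / 50 * (1 / 5 * u) ^ 2) * (1 + 1 / 100 * u) =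
        u * (279 / 1000 - 69 / 5000 * u - 21 / 125000 * u ^ 2) := by ring
    rw [e]
    apply mul_nonneg hu0
    nlinarith
  have hD1 : 0 ≤ (1 - 56 / 225) * (1 - 11 / 1000 * u) - 11 / 100000 * (1 - u) -
      (1 - 3 / 2 * (6 / 25 - 1 / 25 * u) + 21 / 50 * (6 / 25 - 1 / 25 * u) ^ 2) *
        (1 + 1 / 100 * u) := by
    nlinarith [mul_nonneg hu0 h1, mul_nonneg (mul_nonneg hu0 hu0) h1, mul_nonneg hu0 hu0]
  have hC : 0 ≤ 21 / 50 * (6 / 25 * (1 - u)) ^ 2 * (1 + 1 / 100 * u) * (o * (1 - o)) := by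
    have : 0 ≤ 1 + 1 / 100 * u := by linarith
    positivity
  have hA := mul_nonneg h2 hD0
  have hB := mul_nonneg ho0 hD1
  have key : (1 - 56 / 225 * o) * (1 - 11 / 1000 * u) - 11 / 100000 * (o * (1 - u)) -
      (1 - 3 / 2 * z + 21 / 50 * z ^ 2) * (1 + 1 / 100 * u) =
      (1 - o) * ((1 - 11 / 1000 * u) -
        (1 - 3 / 2 * (1 / 5 * u) + 21 / 50 * (1 / 5 * u) ^ 2) * (1 + 1 / 100 * u)) +
      o * ((1 - 56 / 225) * (1 - 11 / 1000 * u) - 11 / 100000 * (1 - u) -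
        (1 - 3 / 2 * (6 / 25 - 1 / 25 * u) + 21 / 50 * (6 / 25 - 1 / 25 * u) ^ 2) *
          (1 + 1 / 100 * u)) +
      21 / 50 * (6 / 25 * (1 - u)) ^ 2 * (1 + 1 / 100 * u) * (o * (1 - o)) := by
    rw [hz]
    ring
  linarith

/-- the bound for the power `3 / 2` -/
theorem pow_bound {s z : ℝ} (hs : 0 ≤ s) (_ : 0 ≤ z) (hz1 : z ≤ 1 / 4) (h : s ≤ 1 - z) :
    s * √s ≤ 1 - 3 / 2 * z + 21 / 50 * z ^ 2 := by
  have h1 : 0 ≤ 1 - 3 / 2 * z + 21 / 50 * z ^ 2 := by nlinarith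
  refine abs_le_of_sq_le_sq' ?_ h1 |>.2
  rw [mul_pow, Real.sq_sqrt hs]
  have h2 : s ^ 2 * s ≤ (1 - z) ^ 3 := by
    have : s ^ 3 ≤ (1 - z) ^ 3 := pow_le_pow_left₀ hs h 3
    calc s ^ 2 * s = s ^ 3 := by ring
      _ ≤ _ := this
  refine h2.trans ?_
  have e : (1 - 3 / 2 * z + 21 / 50 * z ^ 2) ^ 2 - (1 - z) ^ 3 =
      z ^ 2 * (9 / 100 - 13 / 50 * z + 441 / 2500 * z ^ 2) := by ring
  have h3 : 0 ≤ z ^ 2 * (9 / 100 - 13 / 50 * z + 441 / 2500 * z ^ 2) := by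
    apply mul_nonneg (sq_nonneg z)
    nlinarith [sq_nonneg z]
  linarith

end S1

theorem t_S1 : S_S1 := by
  intro R W e x hR hW hx
  have hA : 0 < R + W := by linarith
  have he2 : 0 ≤ e ^ 2 := sq_nonneg e
  have hex : 0 ≤ (e + x) ^ 2 := sq_nonneg _
  obtain ⟨S, hS⟩ : ∃ S, S = R + W + e ^ 2 := ⟨_, rfl⟩
  obtain ⟨S', hS'⟩ : ∃ S', S' = 81 / 64 * R + 1521 / 1600 * W + (e + x) ^ 2 := ⟨_, rfl⟩
  rw [← hS, ← hS']
  have hS0 : 0 < S := by rw [hS]; positivity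
  have hS'0 : 0 < S' := by rw [hS']; positivity
  obtain ⟨u, hu⟩ : ∃ u, u = e ^ 2 / S := ⟨_, rfl⟩
  obtain ⟨v, hv⟩ : ∃ v, v = (e + x) ^ 2 / S' := ⟨_, rfl⟩
  obtain ⟨o, ho⟩ : ∃ o, o = W / (R + W) := ⟨_, rfl⟩
  obtain ⟨s, hs⟩ : ∃ s, s = S' / (81 / 64 * S) := ⟨_, rfl⟩
  rw [← hu, ← hv]
  have hs0 : 0 < s := by rw [hs]; positivity
  have hu0 : 0 ≤ u := by rw [hu]; positivity
  have hu1 : u ≤ 1 := by
    rw [hu, div_le_one hS0, hS]
    linarith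
  have ho0 : 0 ≤ o := by rw [ho]; positivity
  have ho1 : o ≤ 1 := by
    rw [ho, div_le_one hA]
    linarith
  have huS : u * S = e ^ 2 := by rw [hu]; field_simp
  have hoA : o * (R + W) = W := by rw [ho]; field_simp
  have h1uS : (1 - u) * S = R + W := by
    rw [sub_mul, one_mul, huS, hS]
    ring
  have hoS : o * (1 - u) * S = W := by rw [mul_assoc, h1uS, hoA]
  -- the bound for `(e + x) ^ 2`
  have hE : (e + x) ^ 2 ≤ 101 / 100 * e ^ 2 + 101 / 10000 * W := by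
    have h1 : (e + x) ^ 2 ≤ 101 / 100 * e ^ 2 + 101 * x ^ 2 := by
      nlinarith [sq_nonneg (1 / 10 * e - 10 * x)]
    nlinarith
  have hsS : s * (81 / 64 * S) = S' := by rw [hs]; field_simp
  obtain ⟨z, hz⟩ : ∃ z, z = 1 / 5 * u + 6 / 25 * (o * (1 - u)) := ⟨_, rfl⟩
  have h1u : 0 ≤ 1 - u := by linarith
  have ho1u : 0 ≤ o * (1 - u) := mul_nonneg ho0 h1u
  have ho1u' : o * (1 - u) ≤ 1 - u := by
    calc o * (1 - u) ≤ 1 * (1 - u) := mul_le_mul_of_nonneg_right ho1 h1u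
      _ = 1 - u := one_mul _
  have hz0 : 0 ≤ z := by rw [hz]; linarith
  have hz1 : z ≤ 1 / 4 := by rw [hz]; linarith
  have hsz : s ≤ 1 - z := by
    have h1 : s * (81 / 64 * S) ≤ (1 - z) * (81 / 64 * S) := by
      rw [hsS, hS', hz]
      have e1 : (1 - (1 / 5 * u + 6 / 25 * (o * (1 - u)))) * (81 / 64 * S) =
          81 / 64 * (S - 1 / 5 * (u * S) - 6 / 25 * (o * (1 - u) * S)) := by ring
      rw [e1, huS, hoS, hS]
      nlinarith
    exact le_of_mul_le_mul_right h1 (by positivity)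
  have hvb : v ≤ 11 / 10 * u + 11 / 1000 * (o * (1 - u)) := by
    rw [hv, div_le_iff₀ hS'0]
    -- `(e+x)^2 ≤ (11/10 u + 11/1000 w) S'`
    obtain ⟨E, hEd⟩ : ∃ E, E = 101 / 100 * e ^ 2 + 101 / 10000 * W := ⟨_, rfl⟩
    obtain ⟨c, hc⟩ : ∃ c, c = 11 / 10 * u + 11 / 1000 * (o * (1 - u)) := ⟨_, rfl⟩
    rw [← hc]
    rw [← hEd] at hE
    have hcS : c * S = 11 / 10 * e ^ 2 + 11 / 1000 * W := by
      rw [hc, add_mul, mul_assoc, huS, mul_assoc (11 / 1000 : ℝ), hoS]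
    have hc0 : 0 ≤ c := by rw [hc]; linarith
    by_cases hc1 : 1 ≤ c
    · have h1 : (e + x) ^ 2 ≤ S' := by rw [hS']; linarith
      calc (e + x) ^ 2 ≤ 1 * S' := by linarith
        _ ≤ c * S' := mul_le_mul_of_nonneg_right hc1 hS'0.le
    · push Not at hc1
      -- `(1 - c) (e+x)^2 ≤ (1 - c) E ≤ c (S' - (e+x)^2)`
      have h1 : (1 - c) * (e + x) ^ 2 ≤ (1 - c) * E :=
        mul_le_mul_of_nonneg_left hE (by linarith)
      have h2 : c * (1521 / 1600 * (R + W)) ≤ c * (81 / 64 * R + 1521 / 1600 * W) :=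
        mul_le_mul_of_nonneg_left (by linarith) hc0
      have h3 : (1 - c) * E ≤ c * (1521 / 1600 * (R + W)) := by
        have h4 : R + W = S - e ^ 2 := by rw [hS]; ring
        have h5 : 0 ≤ c * e ^ 2 := mul_nonneg hc0 he2
        have h6 : 0 ≤ c * W := mul_nonneg hc0 hW
        have h7 : c * (1521 / 1600 * (R + W)) = 1521 / 1600 * (c * S) - 1521 / 1600 * (c * e ^ 2) := by
          rw [h4]; ring
        rw [h7, hcS, hEd]
        linarith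
      have h8 : c * S' = c * (81 / 64 * R + 1521 / 1600 * W) + c * (e + x) ^ 2 := by
        rw [hS']; ring
      have h9 : (1 - c) * (e + x) ^ 2 = (e + x) ^ 2 - c * (e + x) ^ 2 := by ring
      linarith
  have hfin := (mul_le_mul_of_nonneg_right (S1.pow_bound hs0.le hz0 hz1 hsz)
    (by linarith : (0 : ℝ) ≤ 1 + 1 / 100 * u)).trans (S1.poly hu0 hu1 ho0 ho1 hz hvb)
  -- the final computation
  have hsq : √S' = 9 / 8 * (√S * √s) := by
    have h1 : S' = (9 / 8) ^ 2 * (S * s) := by rw [← hsS]; ring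
    rw [h1, Real.sqrt_mul (by norm_num), Real.sqrt_sq (by norm_num), Real.sqrt_mul hS0.le]
  have hA' : 81 / 64 * R + 1521 / 1600 * W = 81 / 64 * (R + W) * (1 - 56 / 225 * o) := by
    have h1 : 81 / 64 * (R + W) * (1 - 56 / 225 * o) =
        81 / 64 * (R + W) - 63 / 200 * (o * (R + W)) := by ring
    rw [h1, hoA]
    ring
  have hm : 0 < √S := Real.sqrt_pos.2 hS0
  have hms : 0 < √s := Real.sqrt_pos.2 hs0
  rw [hA', hsq, ← hsS]
  have e1 : 9 / 8 * (81 / 64 * (R + W) * (1 - 56 / 225 * o)) * (1 - 1 / 100 * v) /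
      (s * (81 / 64 * S) * (9 / 8 * (√S * √s))) =
      (R + W) * ((1 - 56 / 225 * o) * (1 - 1 / 100 * v)) / (S * √S * (s * √s)) := by
    field_simp
  have e2 : (R + W) * (1 + 1 / 100 * u) / (S * √S) =
      (R + W) * (s * √s * (1 + 1 / 100 * u)) / (S * √S * (s * √s)) := by
    field_simp
  rw [e1, e2]
  apply div_le_div_of_nonneg_right _ (by positivity)
  exact mul_le_mul_of_nonneg_left hfin hA.le

end Pool.Agent.K1H85.CL

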