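import Pool.Agent.K1H85.CL.Stm

/-!
# CL-2: semiconvexity of the increment of the potential along segments
-/

set_option autoImplicit false

open Finset

namespace Pool.Agent.K1H85.CL

private theorem taylor_ge (f f' f'' : ℝ → ℝ) (h1 : ∀ t, HasDerivAt f (f' t) t)
    (h2 : ∀ t, HasDerivAt f' (f'' t) t) (h3 : ∀ t, 0 ≤ f'' t) : f 0 + f' 0 ≤ f 1 := by
  have hm : Monotone f' := by
    refine monotone_of_deriv_nonneg (fun t => (h2 t).differentiableAt) (fun t => ?_)
    rw [(h2 t).deriv]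
    exact h3 t
  obtain ⟨c, hc, h⟩ := exists_hasDerivAt_eq_slope f f' (zero_lt_one' ℝ)
    (fun t _ => (h1 t).continuousAt.continuousWithinAt) (fun t _ => h1 t)
  have h4 := hm hc.1.le
  rw [sub_zero, div_one] at h
  linarith

private theorem sqrt_deriv {a b c t : ℝ} (h : 0 < a + 2 * b * t + c * t ^ 2) :
    HasDerivAt (fun t => √(a + 2 * b * t + c * t ^ 2)) ((b + c * t) / √(a + 2 * b * t + c * t ^ 2))
      t := by
  have h1 : HasDerivAt (fun t : ℝ => a + 2 * b * t + c * t ^ 2) (2 * b + c * (2 * t)) t := by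
    have h2 : HasDerivAt (fun t : ℝ => a + 2 * b * t) (2 * b) t := by
      simpa using ((hasDerivAt_id t).const_mul (2 * b)).const_add a
    have h3 : HasDerivAt (fun t : ℝ => c * t ^ 2) (c * (2 * t)) t := by
      simpa using (hasDerivAt_pow 2 t).const_mul c
    exact h2.add h3
  have h4 := h1.sqrt h.ne'
  refine h4.congr_deriv ?_
  have : √(a + 2 * b * t + c * t ^ 2) ≠ 0 := (Real.sqrt_pos.2 h).ne'
  field_simp

private theorem quot_deriv {a b c t : ℝ} (h : 0 < a + 2 * b * t + c * t ^ 2) :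
    HasDerivAt (fun t => (b + c * t) / √(a + 2 * b * t + c * t ^ 2))
      ((a * c - b ^ 2) / ((a + 2 * b * t + c * t ^ 2) * √(a + 2 * b * t + c * t ^ 2))) t := by
  have hs : √(a + 2 * b * t + c * t ^ 2) ≠ 0 := (Real.sqrt_pos.2 h).ne'
  have h1 : HasDerivAt (fun t : ℝ => b + c * t) c t := by
    simpa using ((hasDerivAt_id t).const_mul c).const_add b
  have h4 := h1.div (sqrt_deriv h) hs
  refine h4.congr_deriv ?_
  have h5 : √(a + 2 * b * t + c * t ^ 2) ^ 2 = a + 2 * b * t + c * t ^ 2 := Real.sq_sqrt h.le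
  set q := √(a + 2 * b * t + c * t ^ 2) with hq
  rw [← h5]
  field_simp
  rw [h5]
  ring

/-- the pointwise inequality -/
private theorem key (hS : S_S1) {R W e x δ B B' p p' r : ℝ} (hr : 0 < r) (hR : r ^ 2 ≤ R)
    (hW : 10000 * x ^ 2 ≤ W) (hB : 0 ≤ B) (hB' : 0 ≤ B') (hBB : B' ≤ 81 / 64 * B)
    (hp : p ^ 2 ≤ (R + W) * B) (hp' : p' ^ 2 ≤ (81 / 64 * R + 1521 / 1600 * W) * B') :
    0 ≤ 2 * (9 / 8 * r) * (((81 / 64 * R + 1521 / 1600 * W + (e + x) ^ 2) * (δ ^ 2 + B') -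
        ((e + x) * δ + p') ^ 2) / ((81 / 64 * R + 1521 / 1600 * W + (e + x) ^ 2) *
          √(81 / 64 * R + 1521 / 1600 * W + (e + x) ^ 2))) -
      2 * r * (((R + W + e ^ 2) * (δ ^ 2 + B) - (e * δ + p) ^ 2) /
        ((R + W + e ^ 2) * √(R + W + e ^ 2))) + 1000 * B := by
  have hR0 : 0 < R := lt_of_lt_of_le (by positivity) hR
  have hW0 : 0 ≤ W := le_trans (by positivity) hW
  have hs1 := hS R W e x hR0 hW0 hW
  set A := R + W with hA
  set A' := 81 / 64 * R + 1521 / 1600 * W with hA'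
  set e' := e + x with he'
  have hA0 : 0 < A := by positivity
  have hA'0 : 0 < A' := by positivity
  have hM0 : 0 < A + e ^ 2 := by positivity
  have hM'0 : 0 < A' + e' ^ 2 := by positivity
  set M := √(A + e ^ 2) with hM
  set M' := √(A' + e' ^ 2) with hM'
  have hMp : 0 < M := Real.sqrt_pos.2 hM0
  have hM'p : 0 < M' := Real.sqrt_pos.2 hM'0
  have hrM : r ≤ M := by
    apply Real.le_sqrt_of_sq_le
    nlinarith [sq_nonneg e]
  have hrM' : 9 / 8 * r ≤ M' := by
    apply Real.le_sqrt_of_sq_le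
    have : (9 / 8 * r) ^ 2 = 81 / 64 * r ^ 2 := by ring
    rw [this]
    nlinarith [sq_nonneg e']
  -- upper bound of Δ
  have hp1 : p ^ 2 / A ≤ B := by
    rw [div_le_iff₀ hA0]
    linarith
  have hp1' : p' ^ 2 / A' ≤ B' := by
    rw [div_le_iff₀ hA'0]
    linarith
  have h1 : (A + e ^ 2) * (δ ^ 2 + B) - (e * δ + p) ^ 2 ≤
      A * (1 + 1 / 100 * (e ^ 2 / (A + e ^ 2))) * δ ^ 2 + 101 * (A + e ^ 2) * B := by
    have h2 : 0 ≤ 1 / 100 * A * δ ^ 2 * (e ^ 2 / (A + e ^ 2)) + 100 * (A + e ^ 2) * (p ^ 2 / A) +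
        2 * (e * δ * p) := by
      have : 1 / 100 * A * δ ^ 2 * (e ^ 2 / (A + e ^ 2)) + 100 * (A + e ^ 2) * (p ^ 2 / A) +
        2 * (e * δ * p) = (A * δ * e / 10 + 10 * (A + e ^ 2) * p) ^ 2 / (A * (A + e ^ 2)) := by
        field_simp
        ring
      rw [this]
      positivity
    have h3 : 100 * (A + e ^ 2) * (p ^ 2 / A) ≤ 100 * (A + e ^ 2) * B :=
      mul_le_mul_of_nonneg_left hp1 (by positivity)
    nlinarith [sq_nonneg p]
  have h1' : A' * (1 - 1 / 100 * (e' ^ 2 / (A' + e' ^ 2))) * δ ^ 2 - 100 * (A' + e' ^ 2) * B' ≤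
      (A' + e' ^ 2) * (δ ^ 2 + B') - (e' * δ + p') ^ 2 := by
    have h2 : 0 ≤ 1 / 100 * A' * δ ^ 2 * (e' ^ 2 / (A' + e' ^ 2)) +
        100 * (A' + e' ^ 2) * (p' ^ 2 / A') - 2 * (e' * δ * p') := by
      have : 1 / 100 * A' * δ ^ 2 * (e' ^ 2 / (A' + e' ^ 2)) +
          100 * (A' + e' ^ 2) * (p' ^ 2 / A') - 2 * (e' * δ * p') =
          (A' * δ * e' / 10 - 10 * (A' + e' ^ 2) * p') ^ 2 / (A' * (A' + e' ^ 2)) := by
        field_simp
        ring
      rw [this]
      positivity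
    have h3 : 100 * (A' + e' ^ 2) * (p' ^ 2 / A') ≤ 100 * (A' + e' ^ 2) * B' :=
      mul_le_mul_of_nonneg_left hp1' (by positivity)
    have h4 : 0 ≤ e' ^ 2 * B' := by positivity
    nlinarith [hp']
  have h5 : ((A + e ^ 2) * (δ ^ 2 + B) - (e * δ + p) ^ 2) / ((A + e ^ 2) * M) ≤
      A * (1 + 1 / 100 * (e ^ 2 / (A + e ^ 2))) / ((A + e ^ 2) * M) * δ ^ 2 + 101 * (B / M) := by
    rw [div_le_iff₀ (by positivity)]
    refine h1.trans (le_of_eq ?_)
    field_simp
  have h5' : A' * (1 - 1 / 100 * (e' ^ 2 / (A' + e' ^ 2))) / ((A' + e' ^ 2) * M') * δ ^ 2 -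
      100 * (B' / M') ≤ ((A' + e' ^ 2) * (δ ^ 2 + B') - (e' * δ + p') ^ 2) / ((A' + e' ^ 2) * M') := by
    rw [le_div_iff₀ (by positivity)]
    refine (le_of_eq ?_).trans h1'
    field_simp
  have h6 : r * (B / M) ≤ B := by
    rw [mul_div_assoc', div_le_iff₀ hMp]
    nlinarith
  have h6' : 9 / 8 * r * (B' / M') ≤ B' := by
    rw [mul_div_assoc', div_le_iff₀ hM'p]
    nlinarith
  have h7 := mul_le_mul_of_nonneg_left h5 (by positivity : (0:ℝ) ≤ 2 * r)
  have h7' := mul_le_mul_of_nonneg_left h5' (by positivity : (0:ℝ) ≤ 2 * (9 / 8 * r))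
  have h8 := mul_le_mul_of_nonneg_left hs1 (by positivity : (0:ℝ) ≤ 2 * r * δ ^ 2)
  have h9 : 2 * r * δ ^ 2 * (9 / 8 * A' * (1 - 1 / 100 * (e' ^ 2 / (A' + e' ^ 2))) /
      ((A' + e' ^ 2) * M')) = 2 * (9 / 8 * r) * (A' * (1 - 1 / 100 * (e' ^ 2 / (A' + e' ^ 2))) /
        ((A' + e' ^ 2) * M') * δ ^ 2) := by ring
  have h10 : 2 * r * δ ^ 2 * (A * (1 + 1 / 100 * (e ^ 2 / (A + e ^ 2))) / ((A + e ^ 2) * M)) =
      2 * r * (A * (1 + 1 / 100 * (e ^ 2 / (A + e ^ 2))) / ((A + e ^ 2) * M) * δ ^ 2) := by ring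
  rw [h9, h10] at h8
  linarith

private theorem cw_pos (s t : ℕ) : 0 < cw s t := by
  unfold cw
  split_ifs <;> positivity

private theorem cw_succ_lt {s t : ℕ} (h : s < t) : cw (s + 1) t = 81 / 64 * cw s t := by
  unfold cw
  rw [if_pos (by omega : s + 1 ≤ t), if_pos h.le]
  obtain ⟨k, rfl⟩ : ∃ k, t = s + 1 + k := ⟨t - (s + 1), by omega⟩
  rw [show s + 1 + k - (s + 1) = k by omega, show s + 1 + k - s = k + 1 by omega, pow_succ]
  ring

private theorem cw_succ_ge {s t : ℕ} (h : ¬ s < t) : cw (s + 1) t = 1521 / 1600 * cw s t := by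
  unfold cw
  rw [if_neg (by omega : ¬ s + 1 ≤ t)]
  by_cases h2 : s ≤ t
  · obtain rfl : s = t := by omega
    rw [if_pos le_rfl]
    simp
  · rw [if_neg h2]
    obtain ⟨k, rfl⟩ : ∃ k, s = t + k := ⟨s - t, by omega⟩
    rw [show t + k + 1 - t = k + 1 by omega, show t + k - t = k by omega, pow_succ]
    ring

private theorem cw_succ_le (s t : ℕ) : cw (s + 1) t ≤ 81 / 64 * cw s t := by
  have h := cw_pos s t
  by_cases h2 : s < t
  · rw [cw_succ_lt h2]
  · rw [cw_succ_ge h2]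
    linarith

private noncomputable def S2 (N s : ℕ) (u : ℕ → ℝ) : ℝ := 10000 * ∑ t ∈ range N, cw s t * u t ^ 2

private noncomputable def P2 (N s : ℕ) (u v : ℕ → ℝ) : ℝ :=
  10000 * ∑ t ∈ range N, cw s t * u t * v t

private theorem S2_nonneg (N s : ℕ) (u : ℕ → ℝ) : 0 ≤ S2 N s u :=
  mul_nonneg (by norm_num) (sum_nonneg fun t _ => mul_nonneg (cw_pos s t).le (sq_nonneg _))

private theorem P2_sq (N s : ℕ) (u v : ℕ → ℝ) : P2 N s u v ^ 2 ≤ S2 N s u * S2 N s v := by
  have h := sum_mul_sq_le_sq_mul_sq (range N) (fun t => √(cw s t) * u t) (fun t => √(cw s t) * v t)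
  have e1 : ∑ t ∈ range N, √(cw s t) * u t * (√(cw s t) * v t) =
      ∑ t ∈ range N, cw s t * u t * v t := by
    refine sum_congr rfl fun t _ => ?_
    have := Real.mul_self_sqrt (cw_pos s t).le
    calc √(cw s t) * u t * (√(cw s t) * v t) = (√(cw s t) * √(cw s t)) * u t * v t := by ring
      _ = _ := by rw [this]
  have e2 : ∀ w : ℕ → ℝ, ∑ t ∈ range N, (√(cw s t) * w t) ^ 2 = ∑ t ∈ range N, cw s t * w t ^ 2 := by
    intro w
    refine sum_congr rfl fun t _ => ?_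
    rw [mul_pow, Real.sq_sqrt (cw_pos s t).le]
  rw [e1, e2, e2] at h
  unfold P2 S2
  nlinarith

private theorem S2_add (N s : ℕ) (u v : ℕ → ℝ) (l : ℝ) :
    S2 N s (fun t => u t + l * v t) = S2 N s u + 2 * P2 N s u v * l + S2 N s v * l ^ 2 := by
  unfold S2 P2
  have : ∑ t ∈ range N, cw s t * (u t + l * v t) ^ 2 = ∑ t ∈ range N, cw s t * u t ^ 2 +
      2 * l * (∑ t ∈ range N, cw s t * u t * v t) + l ^ 2 * ∑ t ∈ range N, cw s t * v t ^ 2 := by
    rw [mul_sum, mul_sum, ← sum_add_distrib, ← sum_add_distrib]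
    refine sum_congr rfl fun t _ => ?_
    ring
  rw [this]
  ring

private theorem P2_add (N s : ℕ) (u v : ℕ → ℝ) (l : ℝ) :
    P2 N s (fun t => u t + l * v t) v = P2 N s u v + S2 N s v * l := by
  unfold S2 P2
  have : ∑ t ∈ range N, cw s t * (u t + l * v t) * v t = ∑ t ∈ range N, cw s t * u t * v t +
      l * ∑ t ∈ range N, cw s t * v t ^ 2 := by
    rw [mul_sum, ← sum_add_distrib]
    refine sum_congr rfl fun t _ => ?_
    ring
  rw [this]
  ring

/-- decomposition of the two quadratic forms -/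
private theorem split (N s : ℕ) (hs : s < N) (x : ℕ → ℝ) : ∃ R0 W : ℝ, 0 ≤ R0 ∧
    10000 * x s ^ 2 ≤ W ∧ S2 N s x = R0 + W ∧ S2 N (s + 1) x = 81 / 64 * R0 + 1521 / 1600 * W := by
  refine ⟨10000 * ∑ t ∈ (range N).filter (fun t => s < t), cw s t * x t ^ 2,
    10000 * ∑ t ∈ (range N).filter (fun t => ¬ s < t), cw s t * x t ^ 2, ?_, ?_, ?_, ?_⟩
  · exact mul_nonneg (by norm_num) (sum_nonneg fun t _ => mul_nonneg (cw_pos s t).le (sq_nonneg _))
  · have h1 : s ∈ (range N).filter (fun t => ¬ s < t) := by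
      simp [hs]
    have h2 := single_le_sum (f := fun t => cw s t * x t ^ 2)
      (fun t _ => mul_nonneg (cw_pos s t).le (sq_nonneg _)) h1
    have h3 : cw s s = 1 := by simp [cw]
    simp only [h3, one_mul] at h2
    linarith
  · unfold S2
    rw [← mul_add, sum_filter_add_sum_filter_not]
  · unfold S2
    rw [← sum_filter_add_sum_filter_not (range N) (fun t => s < t)]
    have e1 : ∑ t ∈ (range N).filter (fun t => s < t), cw (s + 1) t * x t ^ 2 =
        81 / 64 * ∑ t ∈ (range N).filter (fun t => s < t), cw s t * x t ^ 2 := by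
      rw [mul_sum]
      refine sum_congr rfl fun t ht => ?_
      rw [cw_succ_lt (mem_filter.1 ht).2]
      ring
    have e2 : ∑ t ∈ (range N).filter (fun t => ¬ s < t), cw (s + 1) t * x t ^ 2 =
        1521 / 1600 * ∑ t ∈ (range N).filter (fun t => ¬ s < t), cw s t * x t ^ 2 := by
      rw [mul_sum]
      refine sum_congr rfl fun t ht => ?_
      rw [cw_succ_ge (mem_filter.1 ht).2]
      ring
    rw [e1, e2]
    ring

private theorem S2_succ_le (N s : ℕ) (u : ℕ → ℝ) : S2 N (s + 1) u ≤ 81 / 64 * S2 N s u := by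
  unfold S2
  have : ∑ t ∈ range N, cw (s + 1) t * u t ^ 2 ≤ 81 / 64 * ∑ t ∈ range N, cw s t * u t ^ 2 := by
    rw [mul_sum]
    refine sum_le_sum fun t _ => ?_
    have h1 := cw_succ_le s t
    have h2 := sq_nonneg (u t)
    nlinarith
  linarith

theorem t_SC (h : S_S1) : S_SC := by
  intro N s r e δ x d hs hr hd
  have hP : ∀ (r e : ℝ) (x : ℕ → ℝ), Psi N s r e x =
      2 * (9 / 8 * r) * (√((9 / 8 * r) ^ 2 + ((e + x s) ^ 2 + S2 N (s + 1) x)) - 9 / 8 * r) -
        2 * r * (√(r ^ 2 + (e ^ 2 + S2 N s x)) - r) := fun r e x => rfl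
  obtain ⟨a, ha⟩ : ∃ a, a = r ^ 2 + (e ^ 2 + S2 N s x) := ⟨_, rfl⟩
  obtain ⟨b, hb⟩ : ∃ b, b = e * δ + P2 N s x d := ⟨_, rfl⟩
  obtain ⟨c, hc⟩ : ∃ c, c = δ ^ 2 + S2 N s d := ⟨_, rfl⟩
  obtain ⟨a', ha'⟩ : ∃ a, a = (9 / 8 * r) ^ 2 + ((e + x s) ^ 2 + S2 N (s + 1) x) := ⟨_, rfl⟩
  obtain ⟨b', hb'⟩ : ∃ b, b = (e + x s) * δ + P2 N (s + 1) x d := ⟨_, rfl⟩
  obtain ⟨c', hc'⟩ : ∃ c, c = δ ^ 2 + S2 N (s + 1) d := ⟨_, rfl⟩
  have hq : ∀ t : ℝ, a + 2 * b * t + c * t ^ 2 =
      r ^ 2 + ((e + t * δ) ^ 2 + S2 N s (fun i => x i + t * d i)) := by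
    intro t
    rw [S2_add, ha, hb, hc]
    ring
  have hq' : ∀ t : ℝ, a' + 2 * b' * t + c' * t ^ 2 =
      (9 / 8 * r) ^ 2 + ((e + t * δ + x s) ^ 2 + S2 N (s + 1) (fun i => x i + t * d i)) := by
    intro t
    rw [S2_add, ha', hb', hc']
    ring
  have hpos : ∀ t : ℝ, 0 < a + 2 * b * t + c * t ^ 2 := by
    intro t
    rw [hq]
    have := S2_nonneg N s (fun i => x i + t * d i)
    positivity
  have hpos' : ∀ t : ℝ, 0 < a' + 2 * b' * t + c' * t ^ 2 := by
    intro t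
    rw [hq']
    have := S2_nonneg N (s + 1) (fun i => x i + t * d i)
    positivity
  have hmain := taylor_ge
    (fun t => 2 * (9 / 8 * r) * √(a' + 2 * b' * t + c' * t ^ 2) -
      2 * r * √(a + 2 * b * t + c * t ^ 2) + 500 * S2 N s d * t ^ 2)
    (fun t => 2 * (9 / 8 * r) * ((b' + c' * t) / √(a' + 2 * b' * t + c' * t ^ 2)) -
      2 * r * ((b + c * t) / √(a + 2 * b * t + c * t ^ 2)) + 1000 * S2 N s d * t)
    (fun t => 2 * (9 / 8 * r) * ((a' * c' - b' ^ 2) /
        ((a' + 2 * b' * t + c' * t ^ 2) * √(a' + 2 * b' * t + c' * t ^ 2))) -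
      2 * r * ((a * c - b ^ 2) / ((a + 2 * b * t + c * t ^ 2) * √(a + 2 * b * t + c * t ^ 2))) +
        1000 * S2 N s d) ?_ ?_ ?_
  · have e1 := hq 1
    have e1' := hq' 1
    simp only [mul_one, one_pow, one_mul, mul_zero, add_zero, zero_pow, ne_eq, OfNat.ofNat_ne_zero,
      not_false_eq_true] at hmain e1 e1'
    rw [e1, e1'] at hmain
    rw [hP, hP]
    have e2 : nrm2 N (s + 1) (e + x s) x = (e + x s) ^ 2 + S2 N (s + 1) x := rfl
    have e3 : nrm2 N s e x = e ^ 2 + S2 N s x := rfl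
    rw [e2, e3, ← ha, ← ha']
    have e4 : 10000 * ∑ t ∈ range N, (2 * (9 / 8 * r) / √a' * cw (s + 1) t -
        2 * r / √a * cw s t) * x t * d t =
        2 * (9 / 8 * r) / √a' * P2 N (s + 1) x d - 2 * r / √a * P2 N s x d := by
      unfold P2
      have : ∑ t ∈ range N, (2 * (9 / 8 * r) / √a' * cw (s + 1) t -
        2 * r / √a * cw s t) * x t * d t = 2 * (9 / 8 * r) / √a' *
          ∑ t ∈ range N, cw (s + 1) t * x t * d t - 2 * r / √a *
          ∑ t ∈ range N, cw s t * x t * d t := by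
        rw [mul_sum, mul_sum, ← sum_sub_distrib]
        refine sum_congr rfl fun t _ => ?_
        ring
      rw [this]
      ring
    have e5 : 10000 * ∑ t ∈ range N, cw s t * d t ^ 2 = S2 N s d := rfl
    rw [e4, e5]
    have e6 : (fun t => x t + d t) s = x s := by simp [hd]
    have e7 : (fun t => x t + d t) s = x s := e6
    simp only [hd, add_zero]
    have e8 : 2 * (9 / 8 * r) * (b' / √a') = 2 * (9 / 8 * r) / √a' * b' := by ring
    have e9 : 2 * r * (b / √a) = 2 * r / √a * b := by ring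
    rw [e8, e9, hb, hb'] at hmain
    linarith
  · intro t
    have h1 := ((sqrt_deriv (hpos' t)).const_mul (2 * (9 / 8 * r))).sub
      ((sqrt_deriv (hpos t)).const_mul (2 * r))
    have h2 : HasDerivAt (fun t : ℝ => 500 * S2 N s d * t ^ 2) (1000 * S2 N s d * t) t := by
      refine ((hasDerivAt_pow 2 t).const_mul (500 * S2 N s d)).congr_deriv ?_
      norm_num
      ring
    exact h1.add h2
  · intro t
    have h1 := ((quot_deriv (hpos' t)).const_mul (2 * (9 / 8 * r))).sub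
      ((quot_deriv (hpos t)).const_mul (2 * r))
    have h2 : HasDerivAt (fun t : ℝ => 1000 * S2 N s d * t) (1000 * S2 N s d) t := by
      simpa using (hasDerivAt_id t).const_mul (1000 * S2 N s d)
    exact h1.add h2
  · intro t
    obtain ⟨R0, W, hR0, hW, hA, hA'⟩ := split N s hs (fun i => x i + t * d i)
    have hxs : (fun i => x i + t * d i) s = x s := by simp [hd]
    simp only [hd, mul_zero, add_zero] at hW
    have hk := key h (R := r ^ 2 + R0) (W := W) (e := e + t * δ) (x := x s) (δ := δ)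
      (B := S2 N s d) (B' := S2 N (s + 1) d) (p := P2 N s (fun i => x i + t * d i) d)
      (p' := P2 N (s + 1) (fun i => x i + t * d i) d) hr (by linarith) hW (S2_nonneg N s d)
      (S2_nonneg N (s + 1) d) (S2_succ_le N s d) ?_ ?_
    · have e1 : r ^ 2 + R0 + W + (e + t * δ) ^ 2 = a + 2 * b * t + c * t ^ 2 := by
        rw [hq, hA]
        ring
      have e1' : 81 / 64 * (r ^ 2 + R0) + 1521 / 1600 * W + (e + t * δ + x s) ^ 2 =
          a' + 2 * b' * t + c' * t ^ 2 := by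
        rw [hq', hA']
        ring
      rw [e1, e1', P2_add, P2_add, ← hc, ← hc'] at hk
      have e2 : (a + 2 * b * t + c * t ^ 2) * c - ((e + t * δ) * δ + (P2 N s x d + S2 N s d * t)) ^ 2 =
          a * c - b ^ 2 := by
        have : (e + t * δ) * δ + (P2 N s x d + S2 N s d * t) = b + c * t := by
          rw [hb, hc]
          ring
        rw [this]
        ring
      have e2' : (a' + 2 * b' * t + c' * t ^ 2) * c' -
          ((e + t * δ + x s) * δ + (P2 N (s + 1) x d + S2 N (s + 1) d * t)) ^ 2 =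
          a' * c' - b' ^ 2 := by
        have : (e + t * δ + x s) * δ + (P2 N (s + 1) x d + S2 N (s + 1) d * t) = b' + c' * t := by
          rw [hb', hc']
          ring
        rw [this]
        ring
      rw [e2, e2'] at hk
      exact hk
    · have h1 := P2_sq N s (fun i => x i + t * d i) d
      rw [hA] at h1
      have h2 := S2_nonneg N s d
      nlinarith [sq_nonneg r]
    · have h1 := P2_sq N (s + 1) (fun i => x i + t * d i) d
      rw [hA'] at h1
      have h2 := S2_nonneg N (s + 1) d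
      nlinarith [sq_nonneg r]

end Pool.Agent.K1H85.CL
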