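import Pool.Agent.K1H85.CL.Stm

/-! Project CL of helper85: coefficients and square root of `1 - T`. -/

set_option autoImplicit false
set_option linter.unusedSectionVars false

open MeasureTheory ProbabilityTheory Filter
open scoped Topology BigOperators ENNReal

namespace Pool.Agent.K1H85.CL

universe u

noncomputable section

namespace SQ

/-- the tails -/
def bt (n : ℕ) : ℝ := (Nat.centralBinom n : ℝ) / 4 ^ n

theorem bt_pos (n : ℕ) : 0 < bt n := by
  unfold bt
  have := Nat.centralBinom_pos n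
  positivity

theorem bt_zero : bt 0 = 1 := by simp [bt]

theorem bt_succ (n : ℕ) : bt (n + 1) = bt n * (2 * n + 1) / (2 * n + 2) := by
  have h := Nat.succ_mul_centralBinom_succ n
  have h' : ((n : ℝ) + 1) * (Nat.centralBinom (n + 1) : ℝ) = 2 * (2 * n + 1) * Nat.centralBinom n := by
    exact_mod_cast h
  have h1 : (Nat.centralBinom (n + 1) : ℝ) = 2 * (2 * n + 1) * Nat.centralBinom n / (n + 1) := by
    rw [eq_div_iff (by positivity)]
    linarith
  unfold bt
  rw [h1, pow_succ]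
  field_simp
  ring

theorem dl_eq (n : ℕ) : dl n = bt n - bt (n + 1) := by
  have h := succ_mul_catalan_eq_centralBinom n
  have h' : ((n : ℝ) + 1) * (catalan n : ℝ) = (Nat.centralBinom n : ℝ) := by exact_mod_cast h
  rw [bt_succ]
  unfold dl bt
  rw [← h']
  field_simp
  ring

theorem dl_pos (n : ℕ) : 0 < dl n := by
  rw [dl_eq, bt_succ]
  have h := bt_pos n
  have h2 : (2 * (n : ℝ) + 1) / (2 * n + 2) < 1 := by
    rw [div_lt_one (by positivity)]
    linarith
  rw [mul_div_assoc]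
  nlinarith

theorem sum_dl (N : ℕ) : ∑ n ∈ Finset.range N, dl n = 1 - bt N := by
  induction N with
  | zero => simp [bt_zero]
  | succ N ih => rw [Finset.sum_range_succ, ih, dl_eq]; ring

theorem bt_sq (n : ℕ) : bt n ^ 2 * (2 * n + 1) ≤ 1 := by
  induction n with
  | zero => rw [bt_zero]; simp
  | succ n ih =>
    rw [bt_succ]
    have e : (bt n * (2 * n + 1) / (2 * n + 2)) ^ 2 * (2 * ((n + 1 : ℕ) : ℝ) + 1) =
        bt n ^ 2 * (2 * n + 1) * (((2 * n + 1) * (2 * n + 3)) / (2 * n + 2) ^ 2) := by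
      push_cast
      field_simp
      ring
    rw [e]
    have h1 : ((2 * (n : ℝ) + 1) * (2 * n + 3)) / (2 * n + 2) ^ 2 ≤ 1 := by
      rw [div_le_one (by positivity)]
      nlinarith
    have h2 : 0 ≤ ((2 * (n : ℝ) + 1) * (2 * n + 3)) / (2 * n + 2) ^ 2 := by positivity
    have h3 : 0 ≤ bt n ^ 2 * (2 * (n : ℝ) + 1) := by positivity
    calc bt n ^ 2 * (2 * (n : ℝ) + 1) * (((2 * n + 1) * (2 * n + 3)) / (2 * n + 2) ^ 2)
        ≤ 1 * 1 := mul_le_mul ih h1 h2 zero_le_one
      _ = 1 := one_mul 1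

theorem bt_le (n : ℕ) : bt n ≤ 1 / √(2 * n + 1) := by
  have h := bt_sq n
  have h0 : (0 : ℝ) < 2 * n + 1 := by positivity
  rw [le_div_iff₀ (Real.sqrt_pos.2 h0)]
  have h2 : (bt n * √(2 * n + 1)) ^ 2 ≤ 1 := by
    rw [mul_pow, Real.sq_sqrt h0.le]
    exact h
  have h3 : 0 ≤ bt n * √(2 * n + 1) := mul_nonneg (bt_pos n).le (Real.sqrt_nonneg _)
  nlinarith

theorem bt_lim : Tendsto bt atTop (𝓝 0) := by
  have h1 : Tendsto (fun n : ℕ => 1 / √(2 * (n : ℝ) + 1)) atTop (𝓝 0) := by
    have h2 : Tendsto (fun n : ℕ => √(2 * (n : ℝ) + 1)) atTop atTop := by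
      refine Real.tendsto_sqrt_atTop.comp ?_
      refine tendsto_atTop_add_const_right _ _ ?_
      exact Tendsto.const_mul_atTop (by norm_num) tendsto_natCast_atTop_atTop
    refine h2.inv_tendsto_atTop.congr fun n => ?_
    rw [one_div]
    rfl
  exact squeeze_zero (fun n => (bt_pos n).le) bt_le h1

theorem hasSum_dl : HasSum dl 1 := by
  rw [hasSum_iff_tendsto_nat_of_nonneg fun n => (dl_pos n).le]
  simp_rw [sum_dl]
  simpa using bt_lim.const_sub 1

theorem sum_bt (L : ℕ) : ∑ k ∈ Finset.range L, bt k ≤ 2 * √L := by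
  induction L with
  | zero => simp
  | succ L ih =>
    rw [Finset.sum_range_succ]
    have h1 : bt L ≤ 2 * (√((L + 1 : ℕ) : ℝ) - √L) := by
      refine (bt_le L).trans ?_
      have hp : (0 : ℝ) < 2 * L + 1 := by positivity
      have hs : 0 < √(2 * (L : ℝ) + 1) := Real.sqrt_pos.2 hp
      have ha : 0 < √((L + 1 : ℕ) : ℝ) := Real.sqrt_pos.2 (by positivity)
      have hb : 0 ≤ √(L : ℝ) := Real.sqrt_nonneg _
      have ha2 : √((L + 1 : ℕ) : ℝ) ^ 2 = L + 1 := by rw [Real.sq_sqrt (by positivity)]; push_cast; ring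
      have hb2 : √(L : ℝ) ^ 2 = L := Real.sq_sqrt (by positivity)
      have hs2 : √(2 * (L : ℝ) + 1) ^ 2 = 2 * L + 1 := Real.sq_sqrt hp.le
      set A := √((L + 1 : ℕ) : ℝ)
      set B := √(L : ℝ)
      set S := √(2 * (L : ℝ) + 1)
      have hAB : A + B ≤ 2 * S := by
        have h2 : (A + B) ^ 2 ≤ (2 * S) ^ 2 := by nlinarith [sq_nonneg (A - B)]
        exact (pow_le_pow_iff_left₀ (by positivity) (by positivity) two_ne_zero).1 h2
      have h3 : (A - B) * (A + B) = 1 := by nlinarith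
      rw [div_le_iff₀ hs]
      have h4 : 0 ≤ A - B := by
        by_contra hc
        rw [not_le] at hc
        nlinarith
      nlinarith
    linarith

/-- `min (n+1) L` as a count -/
theorem min_count (n L : ℕ) : min ((n : ℝ) + 1) L =
    ∑ k ∈ Finset.range L, if k ≤ n then (1 : ℝ) else 0 := by
  rw [← Finset.sum_filter, Finset.sum_const, nsmul_eq_mul, mul_one]
  have e : (Finset.range L).filter (fun k => k ≤ n) = Finset.range (min (n + 1) L) := by
    ext k
    simp only [Finset.mem_filter, Finset.mem_range, lt_min_iff]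
    omega
  rw [e, Finset.card_range]
  push_cast
  rfl

theorem ptail (N k : ℕ) :
    ∑ n ∈ Finset.range N, dl n * (if k ≤ n then (1 : ℝ) else 0) ≤ bt k := by
  rcases le_total k N with h | h
  · have e : ∑ n ∈ Finset.range N, dl n * (if k ≤ n then (1 : ℝ) else 0) = bt k - bt N := by
      have h1 : ∑ n ∈ Finset.range N, dl n * (if k ≤ n then (1 : ℝ) else 0) =
          ∑ n ∈ Finset.Ico k N, dl n := by
        have h2 : Finset.Ico k N = (Finset.range N).filter (fun n => k ≤ n) := by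
          ext n
          simp only [Finset.mem_Ico, Finset.mem_filter, Finset.mem_range]
          omega
        rw [h2, Finset.sum_filter]
        refine Finset.sum_congr rfl fun n _ => ?_
        split_ifs <;> simp
      rw [h1, Finset.sum_Ico_eq_sub _ h, sum_dl, sum_dl]
      ring
    rw [e]
    linarith [bt_pos N]
  · have e : ∑ n ∈ Finset.range N, dl n * (if k ≤ n then (1 : ℝ) else 0) = 0 := by
      refine Finset.sum_eq_zero fun n hn => ?_
      rw [Finset.mem_range] at hn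
      rw [if_neg (by omega), mul_zero]
    rw [e]
    exact (bt_pos k).le

theorem pmin (N L : ℕ) :
    ∑ n ∈ Finset.range N, dl n * min ((n : ℝ) + 1) L ≤ 2 * √L := by
  have e : ∑ n ∈ Finset.range N, dl n * min ((n : ℝ) + 1) L =
      ∑ k ∈ Finset.range L, ∑ n ∈ Finset.range N, dl n * (if k ≤ n then (1 : ℝ) else 0) := by
    rw [Finset.sum_comm]
    refine Finset.sum_congr rfl fun n _ => ?_
    rw [min_count, Finset.mul_sum]
  rw [e]
  exact (Finset.sum_le_sum fun k _ => ptail N k).trans (sum_bt L)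

theorem cnv (n : ℕ) : ∑ q ∈ Finset.HasAntidiagonal.antidiagonal n, dl q.1 * dl q.2 = 2 * dl (n + 1) := by
  have h := catalan_succ' n
  have h' : (catalan (n + 1) : ℝ) =
      ∑ q ∈ Finset.HasAntidiagonal.antidiagonal n, (catalan q.1 : ℝ) * (catalan q.2 : ℝ) := by
    rw [h]
    push_cast
    rfl
  unfold dl
  rw [h', Finset.sum_div, Finset.mul_sum]
  refine Finset.sum_congr rfl fun q hq => ?_
  rw [Finset.HasAntidiagonal.mem_antidiagonal] at hq
  rw [← hq, pow_succ, pow_add]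
  field_simp
  ring

section alg

variable {A : Type u} [NormedRing A] [NormedAlgebra ℝ A] [CompleteSpace A]

theorem norm_term (T : A) (hT : ‖T‖ ≤ 1) (n : ℕ) : ‖dl n • T ^ (n + 1)‖ ≤ dl n := by
  rw [norm_smul, Real.norm_of_nonneg (dl_pos n).le]
  have h1 : ‖T ^ (n + 1)‖ ≤ 1 :=
    (norm_pow_le' T (Nat.succ_pos n)).trans (pow_le_one₀ (norm_nonneg _) hT)
  have := mul_le_mul_of_nonneg_left h1 (dl_pos n).le
  rwa [mul_one] at this

theorem sum_norm (T : A) (hT : ‖T‖ ≤ 1) : Summable fun n => ‖dl n • T ^ (n + 1)‖ :=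
  Summable.of_nonneg_of_le (fun _ => norm_nonneg _) (norm_term T hT) hasSum_dl.summable

theorem sum_alg (T : A) (hT : ‖T‖ ≤ 1) : Summable fun n => dl n • T ^ (n + 1) :=
  (sum_norm T hT).of_norm

theorem square (T : A) (hT : ‖T‖ ≤ 1) :
    (1 - ∑' n, dl n • T ^ (n + 1)) * (1 - ∑' n, dl n • T ^ (n + 1)) = 1 - T := by
  set C := ∑' n, dl n • T ^ (n + 1) with hC
  have h1 : C * C = ∑' n, (2 * dl (n + 1)) • T ^ (n + 2) := by
    rw [hC, tsum_mul_tsum_eq_tsum_sum_antidiagonal_of_summable_norm (sum_norm T hT)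
      (sum_norm T hT)]
    refine tsum_congr fun n => ?_
    rw [← cnv, Finset.sum_smul]
    refine Finset.sum_congr rfl fun q hq => ?_
    rw [Finset.HasAntidiagonal.mem_antidiagonal] at hq
    rw [smul_mul_smul_comm, ← pow_add]
    congr 2
    omega
  have h2 : C = dl 0 • T ^ (0 + 1) + ∑' n, dl (n + 1) • T ^ (n + 2) := by
    rw [hC, (sum_alg T hT).tsum_eq_zero_add]
  have h3 : ∑' n, (2 * dl (n + 1)) • T ^ (n + 2) = (2 : ℝ) • ∑' n, dl (n + 1) • T ^ (n + 2) := by
    simp_rw [mul_smul]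
    have hs : Summable fun n => dl (n + 1) • T ^ (n + 2) :=
      (summable_nat_add_iff 1).2 (sum_alg T hT)
    exact hs.tsum_const_smul (2 : ℝ)
  have h4 : dl 0 = 1 / 2 := by
    unfold dl
    rw [catalan_zero]
    norm_num
  have h5 : ∑' n, dl (n + 1) • T ^ (n + 2) = C - (1 / 2 : ℝ) • T := by
    rw [h2, h4, zero_add, pow_one]
    abel
  rw [h3, h5] at h1
  have h6 : (2 : ℝ) • (C - (1 / 2 : ℝ) • T) = C + C - T := by
    rw [smul_sub, smul_smul, two_smul]
    norm_num
  rw [h6] at h1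
  rw [sub_mul, one_mul, mul_sub, mul_one, h1]
  abel

end alg

theorem real_sum (x : ℝ) (hx : x ∈ Set.Icc (0 : ℝ) 1) :
    HasSum (fun n => dl n * x ^ (n + 1)) (1 - √(1 - x)) := by
  have hn : ‖x‖ ≤ 1 := by rw [Real.norm_of_nonneg hx.1]; exact hx.2
  have h1 := sum_alg x hn
  have h2 := square x hn
  simp only [smul_eq_mul] at h1 h2
  have h3 : ∑' n, dl n * x ^ (n + 1) ≤ 1 := by
    rw [← hasSum_dl.tsum_eq]
    refine h1.tsum_le_tsum (fun n => ?_) hasSum_dl.summable
    have h4 : x ^ (n + 1) ≤ 1 := pow_le_one₀ hx.1 hx.2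
    have := mul_le_mul_of_nonneg_left h4 (dl_pos n).le
    rwa [mul_one] at this
  have h5 : √(1 - x) = 1 - ∑' n, dl n * x ^ (n + 1) := by
    rw [← h2, Real.sqrt_mul_self (by linarith)]
  rw [h5, sub_sub_cancel]
  exact h1.hasSum

end SQ

theorem t_SQ : S_SQ.{u} := by
  refine ⟨SQ.dl_pos, SQ.hasSum_dl, fun L hL => ?_, fun x hx => SQ.real_sum x hx,
    fun H _ _ _ T hT => ⟨SQ.sum_alg T hT, SQ.square T hT⟩⟩
  have h0 : ∀ n : ℕ, 0 ≤ dl n * min ((n : ℝ) + 1) L := fun n =>
    mul_nonneg (SQ.dl_pos n).le (le_min (by positivity) (by positivity))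
  have hs : Summable (fun n : ℕ => dl n * min ((n : ℝ) + 1) L) :=
    summable_of_sum_range_le h0 fun N => SQ.pmin N L
  exact ⟨hs, hs.tsum_le_of_sum_range_le fun N => SQ.pmin N L⟩

end

end Pool.Agent.K1H85.CL
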