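import Pool.Agent.K1H85.CL.SE

/-!
The start.
-/

open MeasureTheory ProbabilityTheory Filter
open scoped Topology BigOperators ENNReal

namespace Pool.Agent.K1H85.CL

universe u

set_option linter.unusedSectionVars false

/-- dominated convergence -/
lemma tendsto_min {Y : Type*} [MeasurableSpace Y] {ν : Measure Y} {F H : Y → ℝ}
    (hF : Integrable F ν) (hF0 : ∀ y, 0 ≤ F y) (hH : Measurable H) (hH0 : ∀ y, 0 ≤ H y) :
    Tendsto (fun r : ℝ => ∫ y, F y * min 1 (H y / r ^ 2) ∂ν) atTop (𝓝 0) := by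
  have h0 : ∫ _y : Y, (0 : ℝ) ∂ν = 0 := by simp
  rw [← h0]
  refine tendsto_integral_filter_of_dominated_convergence F ?_ ?_ hF ?_
  · refine Eventually.of_forall fun r => ?_
    exact hF.1.mul (measurable_const.min (hH.div_const _)).aestronglyMeasurable
  · refine Eventually.of_forall fun r => Eventually.of_forall fun y => ?_
    have h1 : 0 ≤ min 1 (H y / r ^ 2) := le_min zero_le_one (div_nonneg (hH0 y) (sq_nonneg r))
    rw [Real.norm_eq_abs, abs_of_nonneg (mul_nonneg (hF0 y) h1)]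
    exact mul_le_of_le_one_right (hF0 y) (min_le_left _ _)
  · refine Eventually.of_forall fun y => ?_
    have h1 : Tendsto (fun r : ℝ => H y / r ^ 2) atTop (𝓝 0) :=
      tendsto_const_nhds.div_atTop (tendsto_pow_atTop two_ne_zero)
    have h2 : Tendsto (fun r : ℝ => min 1 (H y / r ^ 2)) atTop (𝓝 (min 1 0)) :=
      tendsto_const_nhds.min h1
    have h3 := h2.const_mul (F y)
    simpa using h3

lemma r_sq (m l n : ℕ) :
    (rN (m + n) l * (8 / 9 : ℝ) ^ (2 * n)) ^ 2 = 2 ^ (m + 2 * l) * (8192 / 6561 : ℝ) ^ n := by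
  unfold rN
  rw [mul_pow, Real.sq_sqrt (by positivity), ← pow_mul]
  have h1 : ((8 : ℝ) / 9) ^ (2 * n * 2) = (4096 / 6561 : ℝ) ^ n := by
    have : 2 * n * 2 = 4 * n := by ring
    rw [this, pow_mul]
    norm_num
  have h2 : (2 : ℝ) ^ (m + n + 2 * l) = 2 ^ (m + 2 * l) * 2 ^ n := by
    rw [← pow_add]; congr 1; ring
  rw [h1, h2, mul_assoc, ← mul_pow]
  norm_num

lemma rN_pos (k l : ℕ) : 0 < rN k l := by
  unfold rN
  positivity

section pair

variable {X : Type u} [MeasurableSpace X] {π : Measure X} {μ : Measure (X × X)} {f : X → ℝ}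
  {g h a b : ℕ → X → ℝ} {γ : ℕ → ℝ}

/-- squared length of the other coordinates at the vertices -/
noncomputable def B0 (g h : ℕ → X → ℝ) (m N : ℕ) (x : X) : ℝ :=
  10000 * ∑ t ∈ Finset.range N, cw 0 t * xx g h m t x ^ 2

lemma B0_nonneg (g h : ℕ → X → ℝ) (m N : ℕ) (x : X) : 0 ≤ B0 g h m N x := by
  unfold B0
  have : 0 ≤ ∑ t ∈ Finset.range N, cw 0 t * xx g h m t x ^ 2 :=
    Finset.sum_nonneg fun t _ => mul_nonneg (cw_pos 0 t).le (sq_nonneg _)
  positivity

/-- the pointwise bound for real numbers -/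
lemma point_real (hG : S_GF) (r z v b b' c n G : ℝ) (hr : 0 < r) (hb0 : 0 ≤ b) (hb'0 : 0 ≤ b')
    (hn0 : 0 ≤ n) (hbb : b' = b + 2 * c + n) (hcs : c ^ 2 ≤ b * n)
    (g1 : G = r / √(r ^ 2 + (z ^ 2 + b)) * (v ^ 2 + n -
      (√(r ^ 2 + ((z + v) ^ 2 + b')) - √(r ^ 2 + (z ^ 2 + b))) ^ 2)) :
    v ^ 2 - G ≤ 3 * (v ^ 2 * min 1 ((|z| + |z + v|) ^ 2 / r ^ 2))
      + v ^ 2 * min 1 (b / r ^ 2) + n := by
  obtain ⟨H, hH⟩ : ∃ H, H = (|z| + |z + v|) ^ 2 := ⟨_, rfl⟩
  obtain ⟨M, hM⟩ : ∃ M, M = √(r ^ 2 + (z ^ 2 + b)) := ⟨_, rfl⟩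
  obtain ⟨M', hM'⟩ : ∃ M', M' = √(r ^ 2 + ((z + v) ^ 2 + b')) := ⟨_, rfl⟩
  obtain ⟨M1, hM1⟩ : ∃ M1, M1 = √(r ^ 2 + (z ^ 2 + b')) := ⟨_, rfl⟩
  rw [← hM, ← hM'] at g1
  rw [← hH]
  have hr' : 0 < r ^ 2 := by positivity
  have s0 : M ^ 2 = r ^ 2 + (z ^ 2 + b) := by rw [hM]; exact Real.sq_sqrt (by positivity)
  have s1 : M' ^ 2 = r ^ 2 + ((z + v) ^ 2 + b') := by
    rw [hM']; exact Real.sq_sqrt (by positivity)
  have s2 : M1 ^ 2 = r ^ 2 + (z ^ 2 + b') := by rw [hM1]; exact Real.sq_sqrt (by positivity)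
  have hMr : r ≤ M := by
    rw [hM]; exact Real.le_sqrt_of_sq_le (by nlinarith [sq_nonneg z])
  have hM'r : r ≤ M' := by
    rw [hM']; exact Real.le_sqrt_of_sq_le (by nlinarith [sq_nonneg (z + v)])
  have hM1r : r ≤ M1 := by
    rw [hM1]; exact Real.le_sqrt_of_sq_le (by nlinarith [sq_nonneg z])
  -- D2
  have hD2 : (M1 - M) ^ 2 ≤ n := by
    have hr1 : 0 < √(r ^ 2 + z ^ 2) := by positivity
    have := (hG (√(r ^ 2 + z ^ 2)) b b' c n hr1 hb0 hb'0 hn0 hbb hcs).2.1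
    rw [Real.sq_sqrt (by positivity)] at this
    have e1 : r ^ 2 + z ^ 2 + b' = r ^ 2 + (z ^ 2 + b') := by ring
    have e2 : r ^ 2 + z ^ 2 + b = r ^ 2 + (z ^ 2 + b) := by ring
    rw [e1, e2, ← hM, ← hM1] at this
    exact this
  -- D1
  have hD1a : (M' - M1) ^ 2 ≤ v ^ 2 := by
    have hr1 : 0 < √(r ^ 2 + b') := by positivity
    have := (hG (√(r ^ 2 + b')) (z ^ 2) ((z + v) ^ 2) (z * v) (v ^ 2) hr1 (sq_nonneg _)
      (sq_nonneg _) (sq_nonneg _) (by ring) (le_of_eq (by ring))).2.1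
    rw [Real.sq_sqrt (by positivity)] at this
    have e1 : r ^ 2 + b' + (z + v) ^ 2 = r ^ 2 + ((z + v) ^ 2 + b') := by ring
    have e2 : r ^ 2 + b' + z ^ 2 = r ^ 2 + (z ^ 2 + b') := by ring
    rw [e1, e2, ← hM', ← hM1] at this
    exact this
  have hD1b : (M' - M1) ^ 2 ≤ v ^ 2 * (H / r ^ 2) := by
    have h1 : (M' - M1) * (M' + M1) = v * (z + (z + v)) := by
      have : (M' - M1) * (M' + M1) = M' ^ 2 - M1 ^ 2 := by ring
      rw [this, s1, s2]; ring
    have h2 : (z + (z + v)) ^ 2 ≤ H := by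
      rw [hH, ← sq_abs]
      exact pow_le_pow_left₀ (abs_nonneg _) (abs_add_le _ _) 2
    have h3 : r ^ 2 ≤ (M' + M1) ^ 2 := by
      apply pow_le_pow_left₀ hr.le; linarith
    have h4 : (M' - M1) ^ 2 * (M' + M1) ^ 2 = v ^ 2 * (z + (z + v)) ^ 2 := by
      rw [← mul_pow, h1, mul_pow]
    rw [← mul_div_assoc, le_div_iff₀ hr']
    calc (M' - M1) ^ 2 * r ^ 2 ≤ (M' - M1) ^ 2 * (M' + M1) ^ 2 :=
          mul_le_mul_of_nonneg_left h3 (sq_nonneg _)
      _ = v ^ 2 * (z + (z + v)) ^ 2 := h4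
      _ ≤ v ^ 2 * H := mul_le_mul_of_nonneg_left h2 (sq_nonneg _)
  have hD1 : (M' - M1) ^ 2 ≤ v ^ 2 * min 1 (H / r ^ 2) := by
    rcases min_choice 1 (H / r ^ 2) with hm | hm
    · rw [hm, mul_one]; exact hD1a
    · rw [hm]; exact hD1b
  have hD : (M' - M) ^ 2 ≤ 2 * (M' - M1) ^ 2 + 2 * n := by
    nlinarith [sq_nonneg ((M' - M1) - (M1 - M))]
  -- the factor r / M
  have hM0 : 0 < M := hr.trans_le hMr
  have hrM1 : r / M ≤ 1 := by rw [div_le_one hM0]; exact hMr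
  have hrM0 : 0 ≤ r / M := by positivity
  have p1 : 0 ≤ z ^ 2 / r ^ 2 := by positivity
  have p2 : 0 ≤ b / r ^ 2 := by positivity
  have hfac : 1 - r / M ≤ min 1 (z ^ 2 / r ^ 2) + min 1 (b / r ^ 2) := by
    have h1 : 1 - r / M ≤ 1 := by linarith
    have h2 : 1 - r / M ≤ z ^ 2 / r ^ 2 + b / r ^ 2 := by
      rw [← add_div, le_div_iff₀ hr']
      have h3 : (1 - r / M) * r ^ 2 = (M - r) * r ^ 2 / M := by field_simp
      rw [h3, div_le_iff₀ hM0]
      have h4 : z ^ 2 + b = (M - r) * (M + r) := by linear_combination -s0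
      rw [h4]
      have h5 : 0 ≤ M - r := by linarith
      have h6 : r ^ 2 ≤ (M + r) * M := by nlinarith
      calc (M - r) * r ^ 2 ≤ (M - r) * ((M + r) * M) := mul_le_mul_of_nonneg_left h6 h5
        _ = (M - r) * (M + r) * M := by ring
    rcases min_choice 1 (z ^ 2 / r ^ 2) with hm | hm
    · have : 0 ≤ min 1 (b / r ^ 2) := le_min zero_le_one p2
      rw [hm]; linarith
    · rcases min_choice 1 (b / r ^ 2) with hm' | hm'
      · have : 0 ≤ min 1 (z ^ 2 / r ^ 2) := le_min zero_le_one p1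
        rw [hm']; linarith
      · rw [hm, hm']; exact h2
  have hzH : min 1 (z ^ 2 / r ^ 2) ≤ min 1 (H / r ^ 2) := by
    apply min_le_min_left
    apply div_le_div_of_nonneg_right _ hr'.le
    rw [hH, ← sq_abs z]
    exact pow_le_pow_left₀ (abs_nonneg _) (by linarith [abs_nonneg (z + v)]) 2
  have hv0 : 0 ≤ v ^ 2 := sq_nonneg v
  obtain ⟨D, hDd⟩ : ∃ D, D = (M' - M1) ^ 2 := ⟨_, rfl⟩
  rw [← hDd] at hD hD1
  have hD0 : 0 ≤ D := by rw [hDd]; exact sq_nonneg _
  have hG2 : r / M * v ^ 2 - n - 2 * D ≤ G := by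
    rw [g1]
    have h1 : r / M * (v ^ 2 - n - 2 * D) ≤ r / M * (v ^ 2 + n - (M' - M) ^ 2) :=
      mul_le_mul_of_nonneg_left (by linarith) hrM0
    have h2 : r / M * (n + 2 * D) ≤ 1 * (n + 2 * D) :=
      mul_le_mul_of_nonneg_right hrM1 (by positivity)
    have h3 : r / M * (v ^ 2 - n - 2 * D) = r / M * v ^ 2 - r / M * (n + 2 * D) := by ring
    rw [h3] at h1
    linarith
  have h7 : v ^ 2 * (1 - r / M) ≤ v ^ 2 * (min 1 (z ^ 2 / r ^ 2) + min 1 (b / r ^ 2)) :=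
    mul_le_mul_of_nonneg_left hfac hv0
  have h8 : v ^ 2 * min 1 (z ^ 2 / r ^ 2) ≤ v ^ 2 * min 1 (H / r ^ 2) :=
    mul_le_mul_of_nonneg_left hzH hv0
  have h9 : v ^ 2 * (1 - r / M) = v ^ 2 - r / M * v ^ 2 := by ring
  rw [h9, mul_add] at h7
  linarith

/-- the pointwise bound -/
lemma point (hG : S_GF) (f : X → ℝ) (g h : ℕ → X → ℝ) (m N : ℕ) {r : ℝ} (hr : 0 < r)
    (p : X × X) :
    vE f g h m 0 p ^ 2 - Gr f g h m N 0 r p ≤
      3 * (vE f g h m 0 p ^ 2 * min 1 ((|zz f g h m 0 p.1| +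
        |zz f g h m 0 p.1 + vE f g h m 0 p|) ^ 2 / r ^ 2))
      + vE f g h m 0 p ^ 2 * min 1 (B0 g h m N p.1 / r ^ 2) + nP g h m N 0 p := by
  -- the edge value of the other coordinates
  obtain ⟨b', hb'⟩ : ∃ b', b' = 10000 * ∑ t ∈ Finset.range N, cw 0 t * xe g h m t p ^ 2 :=
    ⟨_, rfl⟩
  have hb'0 : 0 ≤ b' := by
    rw [hb']
    have : 0 ≤ ∑ t ∈ Finset.range N, cw 0 t * xe g h m t p ^ 2 :=
      Finset.sum_nonneg fun t _ => mul_nonneg (cw_pos 0 t).le (sq_nonneg _)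
    positivity
  have hnv : nv f g h m N 0 p.1 = zz f g h m 0 p.1 ^ 2 + B0 g h m N p.1 := rfl
  have hne : ne g h m N 0 p = (zz f g h m 0 p.1 + vE f g h m 0 p) ^ 2 + b' := by
    have : zz f g h m 0 p.1 + vE f g h m 0 p = ee g h m 0 p := by unfold vE; ring
    rw [this, hb']
    rfl
  -- other coordinates: Cauchy-Schwarz
  obtain ⟨c, hc⟩ : ∃ c, c = 10000 * ∑ t ∈ Finset.range N,
      cw 0 t * (xx g h m t p.1 * dE g h m t p) := ⟨_, rfl⟩
  have hbb : b' = B0 g h m N p.1 + 2 * c + nP g h m N 0 p := by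
    have h1 := nrm2_add N 0 0 0 (fun t => xx g h m t p.1) (fun t => dE g h m t p)
    have e2 : (fun t => xx g h m t p.1 + dE g h m t p) = fun t => xe g h m t p := by
      funext t; unfold dE; ring
    rw [e2] at h1
    unfold nrm2 at h1
    rw [hb', hc]
    unfold B0 nP
    linarith
  have hcs : c ^ 2 ≤ B0 g h m N p.1 * nP g h m N 0 p := by
    have h1 := nrm2_cs N 0 0 0 (fun t => xx g h m t p.1) (fun t => dE g h m t p)
    unfold nrm2 at h1
    rw [hc]
    unfold B0 nP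
    rw [mul_zero, zero_add, zero_pow two_ne_zero, zero_add, zero_add] at h1
    exact h1
  obtain ⟨g1, -, -, -, -⟩ := Gr_spec hG f g h m N 0 hr p
  rw [hnv, hne] at g1
  have hnn : nn f g h m N 0 p = vE f g h m 0 p ^ 2 + nP g h m N 0 p := rfl
  rw [hnn] at g1
  exact point_real hG r _ _ _ b' c _ _ hr (B0_nonneg g h m N p.1) hb'0
    (nP_nonneg g h m N 0 p) hbb hcs g1

lemma meas_B0 (hg : ∀ j, Measurable (g j)) (hh : ∀ j, Measurable (h j)) (m N : ℕ) :
    Measurable (B0 g h m N) := by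
  unfold B0
  apply Measurable.const_mul
  exact Finset.measurable_fun_sum _ fun t _ => ((meas_xx hg hh m t).pow_const 2).const_mul _

namespace Cor

variable (C : Cor π μ f g h a b γ)
include C

lemma igr_B0 (m N : ℕ) : Integrable (B0 g h m N) π := by
  unfold B0
  apply Integrable.const_mul
  exact integrable_finsetSum _ fun t _ => ((C.L_xx m t).integrable_sq).const_mul _

lemma int_B0_le (hB : S_BND X) (m n : ℕ) : ∫ x, B0 g h m (2 * n) x ∂π ≤
    80000 * 2 ^ m * ∑ i ∈ Finset.range n, gm γ (m + i) * (8192 / 6561 : ℝ) ^ i := by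
  unfold B0
  rw [integral_const_mul, integral_finsetSum _ fun t _ => ((C.L_xx m t).integrable_sq).const_mul _]
  have h1 : ∀ t, ∫ x, cw 0 t * xx g h m t x ^ 2 ∂π ≤
      4 * (cw 0 t * (2 ^ (m + t / 2) * gm γ (m + t / 2))) := by
    intro t
    rw [integral_const_mul]
    have h2 := (hB π μ f g h a b γ C m t).2.1
    have h3 := cw_pos 0 t
    calc cw 0 t * ∫ x, xx g h m t x ^ 2 ∂π ≤ cw 0 t * (4 * 2 ^ (m + t / 2) * gm γ (m + t / 2)) :=
          mul_le_mul_of_nonneg_left h2 h3.le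
      _ = _ := by ring
  have h2 : ∀ i, cw 0 (2 * i) * (2 ^ (m + 2 * i / 2) * gm γ (m + 2 * i / 2)) =
      2 ^ m * (gm γ (m + i) * (8192 / 6561 : ℝ) ^ i) := by
    intro i
    have e1 : 2 * i / 2 = i := by omega
    have e2 : cw 0 (2 * i) = (4096 / 6561 : ℝ) ^ i := by
      unfold cw
      rw [if_pos (by omega), Nat.sub_zero, pow_mul]
      norm_num
    rw [e1, e2, pow_add]
    have e3 : (8192 / 6561 : ℝ) ^ i = (4096 / 6561 : ℝ) ^ i * 2 ^ i := by
      rw [← mul_pow]; norm_num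
    rw [e3]; ring
  have h3 : ∀ i, cw 0 (2 * i + 1) * (2 ^ (m + (2 * i + 1) / 2) * gm γ (m + (2 * i + 1) / 2)) ≤
      2 ^ m * (gm γ (m + i) * (8192 / 6561 : ℝ) ^ i) := by
    intro i
    have e1 : (2 * i + 1) / 2 = i := by omega
    have e2 : cw 0 (2 * i + 1) = 64 / 81 * (4096 / 6561 : ℝ) ^ i := by
      unfold cw
      rw [if_pos (by omega), Nat.sub_zero, pow_succ, pow_mul]
      norm_num
      ring
    rw [e1, e2, pow_add]
    have e3 : (8192 / 6561 : ℝ) ^ i = (4096 / 6561 : ℝ) ^ i * 2 ^ i := by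
      rw [← mul_pow]; norm_num
    rw [e3]
    have hg := C.gm_nonneg (m + i)
    have hP : 0 ≤ 2 ^ m * (gm γ (m + i) * ((4096 / 6561 : ℝ) ^ i * 2 ^ i)) := by positivity
    calc 64 / 81 * (4096 / 6561 : ℝ) ^ i * (2 ^ m * 2 ^ i * gm γ (m + i))
        = 64 / 81 * (2 ^ m * (gm γ (m + i) * ((4096 / 6561 : ℝ) ^ i * 2 ^ i))) := by ring
      _ ≤ _ := by linarith
  have h4 : ∀ n : ℕ, ∑ t ∈ Finset.range (2 * n), cw 0 t * (2 ^ (m + t / 2) * gm γ (m + t / 2)) ≤
      2 * 2 ^ m * ∑ i ∈ Finset.range n, gm γ (m + i) * (8192 / 6561 : ℝ) ^ i := by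
    intro n
    induction n with
    | zero => simp
    | succ n ih =>
      have : 2 * (n + 1) = 2 * n + 1 + 1 := by ring
      rw [this, Finset.sum_range_succ, Finset.sum_range_succ, Finset.sum_range_succ, mul_add, h2]
      have := h3 n
      linarith
  calc 10000 * ∑ t ∈ Finset.range (2 * n), ∫ x, cw 0 t * xx g h m t x ^ 2 ∂π
      ≤ 10000 * ∑ t ∈ Finset.range (2 * n),
          4 * (cw 0 t * (2 ^ (m + t / 2) * gm γ (m + t / 2))) := by
        apply mul_le_mul_of_nonneg_left _ (by norm_num)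
        exact Finset.sum_le_sum fun t _ => h1 t
    _ = 40000 * ∑ t ∈ Finset.range (2 * n),
          cw 0 t * (2 ^ (m + t / 2) * gm γ (m + t / 2)) := by
        rw [← Finset.mul_sum]; ring
    _ ≤ 40000 * (2 * 2 ^ m * ∑ i ∈ Finset.range n, gm γ (m + i) * (8192 / 6561 : ℝ) ^ i) :=
        mul_le_mul_of_nonneg_left (h4 n) (by norm_num)
    _ = _ := by ring

lemma summ_gm (m : ℕ) : Summable (fun i => gm γ (m + i)) := by
  unfold gm
  refine (C.summ_tl m).add ?_
  have := C.summ_tl (m + 1)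
  refine this.congr fun i => ?_
  have : m + 1 + i = m + i + 1 := by ring
  rw [this]

/-- the other coordinates are small compared with the radius -/
lemma tendsto_B0 (hB : S_BND X) (m l : ℕ) :
    Tendsto (fun n : ℕ => (∫ x, B0 g h m (2 * n) x ∂π) /
      (rN (m + n) l * (8 / 9 : ℝ) ^ (2 * n)) ^ 2) atTop (𝓝 0) := by
  have h1 : Summable fun n : ℕ => ‖∑ i ∈ Finset.range (n + 1),
      gm γ (m + i) * (6561 / 8192 : ℝ) ^ (n - i)‖ := by
    apply summable_norm_sum_mul_range_of_summable_norm (f := fun i => gm γ (m + i))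
      (g := fun i => (6561 / 8192 : ℝ) ^ i)
    · exact (C.summ_gm m).norm
    · exact (summable_geometric_of_lt_one (by norm_num) (by norm_num)).norm
  have h2 : Tendsto (fun n : ℕ => 80000 * ∑ i ∈ Finset.range (n + 1),
      gm γ (m + i) * (6561 / 8192 : ℝ) ^ (n - i)) atTop (𝓝 0) := by
    have := (tendsto_zero_iff_norm_tendsto_zero.mpr h1.tendsto_atTop_zero).const_mul 80000
    simpa using this
  refine squeeze_zero (fun n => ?_) (fun n => ?_) h2
  · exact div_nonneg (integral_nonneg fun x => B0_nonneg g h m _ x) (sq_nonneg _)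
  · rw [r_sq, div_le_iff₀ (by positivity)]
    refine (C.int_B0_le hB m n).trans ?_
    have e1 : ∀ i ∈ Finset.range n, gm γ (m + i) * (8192 / 6561 : ℝ) ^ i =
        gm γ (m + i) * (6561 / 8192 : ℝ) ^ (n - i) * (8192 / 6561 : ℝ) ^ n := by
      intro i hi
      have hi' : i ≤ n := (Finset.mem_range.1 hi).le
      have : (8192 / 6561 : ℝ) ^ n = (8192 / 6561 : ℝ) ^ i * (8192 / 6561 : ℝ) ^ (n - i) := by
        rw [← pow_add]; congr 1; omega
      rw [this, mul_assoc, mul_left_comm ((6561 / 8192 : ℝ) ^ (n - i)), ← mul_pow]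
      norm_num
    rw [Finset.sum_congr rfl e1, ← Finset.sum_mul]
    have e2 : ∑ i ∈ Finset.range n, gm γ (m + i) * (6561 / 8192 : ℝ) ^ (n - i) ≤
        ∑ i ∈ Finset.range (n + 1), gm γ (m + i) * (6561 / 8192 : ℝ) ^ (n - i) := by
      rw [Finset.sum_range_succ]
      have := C.gm_nonneg (m + n)
      have : 0 ≤ gm γ (m + n) * (6561 / 8192 : ℝ) ^ (n - n) := by positivity
      linarith
    have e3 : (2 : ℝ) ^ m ≤ 2 ^ (m + 2 * l) := pow_le_pow_right₀ (by norm_num) (by omega)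
    have e4 : 0 ≤ ∑ i ∈ Finset.range (n + 1), gm γ (m + i) * (6561 / 8192 : ℝ) ^ (n - i) :=
      Finset.sum_nonneg fun i _ => mul_nonneg (C.gm_nonneg _) (by positivity)
    calc 80000 * 2 ^ m * ((∑ i ∈ Finset.range n, gm γ (m + i) * (6561 / 8192 : ℝ) ^ (n - i)) *
          (8192 / 6561 : ℝ) ^ n)
        ≤ 80000 * 2 ^ (m + 2 * l) * ((∑ i ∈ Finset.range (n + 1),
            gm γ (m + i) * (6561 / 8192 : ℝ) ^ (n - i)) * (8192 / 6561 : ℝ) ^ n) := by
          have e5 : 0 ≤ ∑ i ∈ Finset.range n, gm γ (m + i) * (6561 / 8192 : ℝ) ^ (n - i) :=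
            Finset.sum_nonneg fun i _ => mul_nonneg (C.gm_nonneg _) (by positivity)
          have e6 : (0 : ℝ) ≤ (8192 / 6561 : ℝ) ^ n := by positivity
          exact mul_le_mul (mul_le_mul_of_nonneg_left e3 (by norm_num))
            (mul_le_mul_of_nonneg_right e2 e6) (mul_nonneg e5 e6) (by positivity)
      _ = _ := by ring

end Cor

end pair

theorem t_START (X : Type u) [MeasurableSpace X] (hG : S_GF) (hB : S_BND X) (hV : S_VAR X) :
    S_START X := by
  intro π μ f g h a b γ C m l ε hε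
  have hpm : IsProbabilityMeasure μ := C.pm
  set F : X × X → ℝ := fun p => vE f g h m 0 p ^ 2 with hF
  set H : X × X → ℝ := fun p => (|zz f g h m 0 p.1| +
    |zz f g h m 0 p.1 + vE f g h m 0 p|) ^ 2 with hH
  have iF : Integrable F μ := (C.L_vE m 0).integrable_sq
  have hF0 : ∀ p, 0 ≤ F p := fun p => sq_nonneg _
  have mz : Measurable fun p : X × X => zz f g h m 0 p.1 :=
    (meas_zz C.mg C.mh C.mf m 0).comp measurable_fst
  have mv : Measurable (vE f g h m 0) := by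
    unfold vE
    exact (meas_ee C.mg C.mh m 0).sub mz
  have mH : Measurable H := (mz.abs.add (mz.add mv).abs).pow_const 2
  have hH0 : ∀ p, 0 ≤ H p := fun p => sq_nonneg _
  have mF : Measurable F := mv.pow_const 2
  -- the first limit
  have L1 := tendsto_min iF hF0 mH hH0
  obtain ⟨R, hR⟩ : ∃ R : ℝ, ∀ r ≥ R, ∫ p, F p * min 1 (H p / r ^ 2) ∂μ ≤ ε / 6 :=
    eventually_atTop.1 ((L1.eventually (gt_mem_nhds (show (0:ℝ) < ε / 6 by positivity))).mono
      fun r hr => hr.le)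
  -- the level K
  have L2 := tendsto_min iF hF0 (mF.pow_const 2) (fun p => sq_nonneg _)
  obtain ⟨K, hK0, hK⟩ : ∃ K : ℝ, 0 < K ∧ ∫ p, F p * min 1 (F p ^ 2 / K ^ 2) ∂μ ≤ ε / 4 := by
    obtain ⟨K, hK1, hK2⟩ := ((L2.eventually (gt_mem_nhds (show (0:ℝ) < ε / 4 by positivity))).and
      (eventually_gt_atTop 0)).exists
    exact ⟨K, hK2, hK1.le⟩
  -- the scale
  have L3 := C.tendsto_B0 hB m l
  have L4 : Tendsto (fun n : ℕ => (8192 / 6561 : ℝ) ^ n) atTop atTop :=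
    tendsto_pow_atTop_atTop_of_one_lt (by norm_num)
  obtain ⟨n0, hn0⟩ := eventually_atTop.1 ((L3.eventually
    (gt_mem_nhds (show (0:ℝ) < ε / (4 * K) by positivity))).and
      (L4.eventually (eventually_ge_atTop (R ^ 2))))
  refine ⟨m + n0, by omega, ?_⟩
  intro k hk ψ hψ h0 h1
  obtain ⟨n, rfl⟩ : ∃ n, k = m + n := ⟨k - m, by omega⟩
  have hn : n0 ≤ n := by omega
  have e0 : m + n - m = n := by omega
  rw [e0]
  obtain ⟨hn1, hn2⟩ := hn0 n hn
  set r := rN (m + n) l * (8 / 9 : ℝ) ^ (2 * n) with hr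
  have hr0 : 0 < r := by
    rw [hr]
    have := rN_pos (m + n) l
    positivity
  have hrR : R ≤ r := by
    have h2 : R ^ 2 ≤ r ^ 2 := by
      rw [hr, r_sq]
      have h3 : (1 : ℝ) ≤ 2 ^ (m + 2 * l) := one_le_pow₀ (by norm_num)
      calc R ^ 2 ≤ (8192 / 6561 : ℝ) ^ n := hn2
        _ = 1 * (8192 / 6561 : ℝ) ^ n := (one_mul _).symm
        _ ≤ _ := mul_le_mul_of_nonneg_right h3 (by positivity)
    exact abs_le_of_sq_le_sq' h2 hr0.le |>.2
  have hRr := hR r hrR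
  -- the B0 term
  have iB : Integrable (fun p : X × X => B0 g h m (2 * n) p.1) μ := C.igr_fst (C.igr_B0 m (2 * n))
  have mB : Measurable (fun p : X × X => B0 g h m (2 * n) p.1) :=
    (meas_B0 C.mg C.mh m (2 * n)).comp measurable_fst
  have imin : ∀ J : X × X → ℝ, Measurable J → (∀ p, 0 ≤ J p) →
      Integrable (fun p => F p * min 1 (J p)) μ := by
    intro J mJ hJ
    refine iF.mono' (mF.mul (measurable_const.min mJ)).aestronglyMeasurable
      (Eventually.of_forall fun p => ?_)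
    have h2 : 0 ≤ min 1 (J p) := le_min zero_le_one (hJ p)
    rw [Real.norm_eq_abs, abs_of_nonneg (mul_nonneg (hF0 p) h2)]
    exact mul_le_of_le_one_right (hF0 p) (min_le_left _ _)
  have hr2 : 0 < r ^ 2 := by positivity
  have iM1 := imin (fun p => H p / r ^ 2) (mH.div_const _) (fun p => div_nonneg (hH0 p) hr2.le)
  have iM2 := imin (fun p => B0 g h m (2 * n) p.1 / r ^ 2) (mB.div_const _)
    (fun p => div_nonneg (B0_nonneg g h m _ _) hr2.le)
  have iM3 := imin (fun p => F p ^ 2 / K ^ 2) ((mF.pow_const 2).div_const _)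
    (fun p => by positivity)
  have hB0term : ∫ p, F p * min 1 (B0 g h m (2 * n) p.1 / r ^ 2) ∂μ ≤ ε / 2 := by
    have iKB : Integrable (fun p : X × X => K * (B0 g h m (2 * n) p.1 / r ^ 2)) μ :=
      (iB.div_const _).const_mul K
    calc ∫ p, F p * min 1 (B0 g h m (2 * n) p.1 / r ^ 2) ∂μ
        ≤ ∫ p, (K * (B0 g h m (2 * n) p.1 / r ^ 2) + F p * min 1 (F p ^ 2 / K ^ 2)) ∂μ := by
          refine integral_mono iM2 (iKB.add iM3) fun p => ?_
          show F p * min 1 (B0 g h m (2 * n) p.1 / r ^ 2) ≤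
            K * (B0 g h m (2 * n) p.1 / r ^ 2) + F p * min 1 (F p ^ 2 / K ^ 2)
          have hb : 0 ≤ B0 g h m (2 * n) p.1 / r ^ 2 := div_nonneg (B0_nonneg g h m _ _) hr2.le
          have hm0 : 0 ≤ min 1 (B0 g h m (2 * n) p.1 / r ^ 2) := le_min zero_le_one hb
          rcases le_total (F p) K with hFK | hFK
          · have h2 : F p * min 1 (B0 g h m (2 * n) p.1 / r ^ 2) ≤
                K * (B0 g h m (2 * n) p.1 / r ^ 2) :=
              mul_le_mul hFK (min_le_right _ _) hm0 hK0.le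
            have h3 : 0 ≤ F p * min 1 (F p ^ 2 / K ^ 2) :=
              mul_nonneg (hF0 p) (le_min zero_le_one (by positivity))
            linarith
          · have h4 : min 1 (F p ^ 2 / K ^ 2) = 1 := by
              apply min_eq_left
              rw [one_le_div (by positivity)]
              exact pow_le_pow_left₀ hK0.le hFK 2
            rw [h4, mul_one]
            have h5 : F p * min 1 (B0 g h m (2 * n) p.1 / r ^ 2) ≤ F p :=
              mul_le_of_le_one_right (hF0 p) (min_le_left _ _)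
            have h6 : 0 ≤ K * (B0 g h m (2 * n) p.1 / r ^ 2) := mul_nonneg hK0.le hb
            linarith
      _ = K * ((∫ x, B0 g h m (2 * n) x ∂π) / r ^ 2) + ∫ p, F p * min 1 (F p ^ 2 / K ^ 2) ∂μ := by
          rw [integral_add iKB iM3, integral_const_mul, integral_div,
            C.int_fst (F := B0 g h m (2 * n)) (C.igr_B0 m (2 * n)).1]
      _ ≤ K * (ε / (4 * K)) + ε / 4 :=
          add_le_add (mul_le_mul_of_nonneg_left hn1.le hK0.le) hK
      _ = ε / 2 := by field_simp; ring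
  -- assembly
  obtain ⟨iG, hGs⟩ := C.igr_ψGr hB m (2 * n) (s := 0) (by norm_num) hr0 hψ h0 h1
  have hvE := C.int_vE_sq hV m (s := 0) (by norm_num) hψ h0 h1
  have e1 : m + 0 / 2 = m := by omega
  rw [e1] at hGs hvE
  have her := C.er_le m (2 * n) 0
  have hgm := C.gm_le_tl (le_refl m)
  have htl := C.tl_nonneg m
  have hnP := C.int_nP_le hB m (2 * n) 0
  have inP := C.igr_nP m (2 * n) 0
  have iψF : Integrable (fun p : X × X => ψ p.1 * vE f g h m 0 p ^ 2) μ := C.igr_ψ iF hψ h0 h1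
  have hmain : ∫ p, ψ p.1 * vE f g h m 0 p ^ 2 ∂μ ≤ ∫ p, ψ p.1 * Gr f g h m (2 * n) 0 r p ∂μ
      + (3 * ∫ p, F p * min 1 (H p / r ^ 2) ∂μ
        + ∫ p, F p * min 1 (B0 g h m (2 * n) p.1 / r ^ 2) ∂μ
        + ∫ p, nP g h m (2 * n) 0 p ∂μ) := by
    have iR : Integrable (fun p : X × X => 3 * (F p * min 1 (H p / r ^ 2))
        + F p * min 1 (B0 g h m (2 * n) p.1 / r ^ 2)) μ := (iM1.const_mul 3).add iM2
    have e2 : 3 * ∫ p, F p * min 1 (H p / r ^ 2) ∂μ
        + ∫ p, F p * min 1 (B0 g h m (2 * n) p.1 / r ^ 2) ∂μ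
        + ∫ p, nP g h m (2 * n) 0 p ∂μ = ∫ p, (3 * (F p * min 1 (H p / r ^ 2))
        + F p * min 1 (B0 g h m (2 * n) p.1 / r ^ 2) + nP g h m (2 * n) 0 p) ∂μ := by
      rw [integral_add iR inP, integral_add (iM1.const_mul 3) iM2, integral_const_mul]
    have iRP : Integrable (fun p : X × X => 3 * (F p * min 1 (H p / r ^ 2))
        + F p * min 1 (B0 g h m (2 * n) p.1 / r ^ 2) + nP g h m (2 * n) 0 p) μ := iR.add inP
    rw [e2, ← integral_add iG iRP]
    refine integral_mono iψF (iG.add iRP) fun p => ?_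
    show ψ p.1 * F p ≤ ψ p.1 * Gr f g h m (2 * n) 0 r p + (3 * (F p * min 1 (H p / r ^ 2))
        + F p * min 1 (B0 g h m (2 * n) p.1 / r ^ 2) + nP g h m (2 * n) 0 p)
    have h2 : F p - Gr f g h m (2 * n) 0 r p ≤ 3 * (F p * min 1 (H p / r ^ 2))
        + F p * min 1 (B0 g h m (2 * n) p.1 / r ^ 2) + nP g h m (2 * n) 0 p :=
      point hG f g h m (2 * n) hr0 p
    have h3 : 0 ≤ 3 * (F p * min 1 (H p / r ^ 2))
        + F p * min 1 (B0 g h m (2 * n) p.1 / r ^ 2) + nP g h m (2 * n) 0 p := by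
      have q1 : 0 ≤ min 1 (H p / r ^ 2) := le_min zero_le_one (div_nonneg (hH0 p) hr2.le)
      have q2 : 0 ≤ min 1 (B0 g h m (2 * n) p.1 / r ^ 2) :=
        le_min zero_le_one (div_nonneg (B0_nonneg g h m _ _) hr2.le)
      have q3 := nP_nonneg g h m (2 * n) 0 p
      have q4 := hF0 p
      positivity
    have h4 : ψ p.1 * (F p - Gr f g h m (2 * n) 0 r p) ≤
        ψ p.1 * (3 * (F p * min 1 (H p / r ^ 2))
          + F p * min 1 (B0 g h m (2 * n) p.1 / r ^ 2) + nP g h m (2 * n) 0 p) :=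
      mul_le_mul_of_nonneg_left h2 (h0 p.1)
    have h5 := mul_le_mul_of_nonneg_right (h1 p.1) h3
    linarith
  have ha : 0 ≤ ∫ x, ψ x * a m x ^ 2 ∂π :=
    integral_nonneg fun x => mul_nonneg (h0 x) (sq_nonneg _)
  have h6 := abs_le.mp hGs
  linarith

end Pool.Agent.K1H85.CL
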