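import Pool.Agent.K1H85.CL.Stm

/-!
Project CL, piece CL-STEP : one step of the characteristic function of the martingale.
-/

open MeasureTheory ProbabilityTheory Filter
open scoped Topology BigOperators ENNReal

namespace Pool.Agent.K1H85.CL

universe u v

private lemma st_taylor (y : ℝ) :
    ‖Complex.exp (Complex.I * (y : ℝ)) - 1 - Complex.I * y + (y : ℂ) ^ 2 / 2‖ ≤ |y| ^ 3 ∧
    ‖Complex.exp (Complex.I * (y : ℝ)) - 1 - Complex.I * y + (y : ℂ) ^ 2 / 2‖ ≤ y ^ 2 := by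
  set z : ℂ := Complex.exp (Complex.I * (y : ℝ)) - 1 - Complex.I * y + (y : ℂ) ^ 2 / 2 with hz
  have hexp : Complex.exp (Complex.I * (y : ℝ)) = (Real.cos y : ℂ) + (Real.sin y : ℂ) * Complex.I := by
    rw [mul_comm, Complex.exp_mul_I, Complex.ofReal_cos, Complex.ofReal_sin]
  have hz2 : z = ((Real.cos y - 1 + y ^ 2 / 2 : ℝ) : ℂ) + ((Real.sin y - y : ℝ) : ℂ) * Complex.I := by
    rw [hz, hexp]
    push_cast
    ring
  have hn : ‖z‖ ^ 2 = (Real.cos y - 1 + y ^ 2 / 2) ^ 2 + (Real.sin y - y) ^ 2 := by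
    rw [Complex.sq_norm, hz2, Complex.normSq_add_mul_I]
  have hre0 : 0 ≤ Real.cos y - 1 + y ^ 2 / 2 := by
    linarith [Real.one_sub_sq_div_two_le_cos (x := y)]
  have hre1 : Real.cos y - 1 + y ^ 2 / 2 ≤ y ^ 2 / 2 := by linarith [Real.cos_le_one y]
  have hy0 : 0 ≤ |y| := abs_nonneg y
  have hsin1 : |y - Real.sin y| ≤ |y| ^ 3 / 6 := Real.abs_sub_sin_le y
  have hsin2 : |y - Real.sin y| ≤ 2 * |y| := by
    have h1 : |Real.sin y| ≤ |y| := Real.abs_sin_le_abs
    calc |y - Real.sin y| ≤ |y| + |Real.sin y| := abs_sub _ _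
      _ ≤ 2 * |y| := by linarith
  have hre2 : Real.cos y - 1 + y ^ 2 / 2 ≤ y ^ 4 / 24 := by
    have h1 : Real.cos y = 1 - 2 * Real.sin (y / 2) ^ 2 := by
      have := Real.cos_two_mul (y / 2)
      have h2 := Real.sin_sq_add_cos_sq (y / 2)
      rw [show 2 * (y / 2) = y by ring] at this
      nlinarith
    have h3 : |y / 2 - Real.sin (y / 2)| ≤ |y / 2| ^ 3 / 6 := Real.abs_sub_sin_le _
    have h4 : |y / 2 + Real.sin (y / 2)| ≤ |y| := by
      have h5 : |Real.sin (y / 2)| ≤ |y / 2| := Real.abs_sin_le_abs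
      calc |y / 2 + Real.sin (y / 2)| ≤ |y / 2| + |Real.sin (y / 2)| := abs_add_le _ _
        _ ≤ |y / 2| + |y / 2| := by linarith
        _ = |y| := by rw [abs_div]; norm_num
    have h6 : Real.cos y - 1 + y ^ 2 / 2
        = 2 * ((y / 2 - Real.sin (y / 2)) * (y / 2 + Real.sin (y / 2))) := by
      rw [h1]; ring
    rw [h6]
    have h7 : (y / 2 - Real.sin (y / 2)) * (y / 2 + Real.sin (y / 2))
        ≤ (|y / 2| ^ 3 / 6) * |y| := by
      calc _ ≤ |(y / 2 - Real.sin (y / 2)) * (y / 2 + Real.sin (y / 2))| := le_abs_self _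
        _ = |y / 2 - Real.sin (y / 2)| * |y / 2 + Real.sin (y / 2)| := abs_mul _ _
        _ ≤ _ := mul_le_mul h3 h4 (abs_nonneg _) (by positivity)
    have h8 : (|y / 2| ^ 3 / 6) * |y| = y ^ 4 / 48 := by
      have h9 : |y / 2| = |y| / 2 := by rw [abs_div]; norm_num
      rw [h9]
      have h10 : |y| ^ 4 = y ^ 4 := by
        rw [← abs_pow, abs_of_nonneg (by positivity)]
      nlinarith [h10]
    linarith
  have him : (Real.sin y - y) ^ 2 = |y - Real.sin y| ^ 2 := by rw [sq_abs]; ring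
  constructor
  · have : ‖z‖ ^ 2 ≤ (|y| ^ 3) ^ 2 := by
      rw [hn, him]
      have h1 : (Real.cos y - 1 + y ^ 2 / 2) ^ 2 ≤ (y ^ 2 / 2) * (y ^ 4 / 24) := by
        rw [sq]
        exact mul_le_mul hre1 hre2 hre0 (by positivity)
      have h2 : |y - Real.sin y| ^ 2 ≤ (|y| ^ 3 / 6) ^ 2 :=
        pow_le_pow_left₀ (abs_nonneg _) hsin1 2
      have h3 : (|y| ^ 3) ^ 2 = y ^ 6 := by
        have h7 : (|y| ^ 3) ^ 2 = (|y| ^ 2) ^ 3 := by ring
        rw [h7, sq_abs]; ring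
      have h4 : (|y| ^ 3 / 6) ^ 2 = y ^ 6 / 36 := by rw [div_pow, h3]; norm_num
      have h5 : (y ^ 2 / 2) * (y ^ 4 / 24) = y ^ 6 / 48 := by ring
      have h6 : 0 ≤ y ^ 6 := by positivity
      rw [h3]; rw [h4] at h2; rw [h5] at h1
      linarith
    exact le_trans (le_abs_self _) (abs_le_of_sq_le_sq this (by positivity))
  · have : ‖z‖ ^ 2 ≤ (y ^ 2) ^ 2 := by
      rw [hn, him]
      have h1 : (Real.cos y - 1 + y ^ 2 / 2) ^ 2 ≤ (y ^ 2 / 2) ^ 2 :=
        pow_le_pow_left₀ hre0 hre1 2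
      have h2 : |y - Real.sin y| ^ 2 ≤ (|y| ^ 3 / 6) * (2 * |y|) := by
        rw [sq]
        exact mul_le_mul hsin1 hsin2 (abs_nonneg _) (by positivity)
      have h3 : (|y| ^ 3 / 6) * (2 * |y|) = y ^ 4 / 3 := by
        have h10 : |y| ^ 4 = y ^ 4 := by
          rw [← abs_pow, abs_of_nonneg (by positivity)]
        nlinarith [h10]
      rw [h3] at h2
      nlinarith [sq_nonneg (y ^ 2)]
    exact le_trans (le_abs_self _) (abs_le_of_sq_le_sq this (by positivity))

section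

variable {X : Type u} [MeasurableSpace X] {Ω : Type v} [MeasurableSpace Ω]

private lemma st_meas_xi (ξ : ℕ → Ω → X) {i t : ℕ} (h : i ≤ t) :
    Measurable[Fil ξ t] (ξ i) := by
  have h1 : MeasurableSpace.comap (ξ i) inferInstance ≤ Fil ξ t :=
    le_iSup (fun i : Fin (t + 1) => MeasurableSpace.comap (ξ i) inferInstance)
      (⟨i, Nat.lt_succ_of_le h⟩ : Fin (t + 1))
  exact Measurable.mono (comap_measurable (ξ i)) h1 le_rfl

private lemma st_fil_le (ξ : ℕ → Ω → X) (hξ : ∀ t, Measurable (ξ t)) (t : ℕ) :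
    Fil ξ t ≤ (inferInstance : MeasurableSpace Ω) := by
  refine iSup_le fun i => ?_
  exact (hξ i).comap_le

private lemma st_meas_Mt (ξ : ℕ → Ω → X) (D : X × X → ℝ) (hD : Measurable D) (t : ℕ) :
    ∀ T, t ≤ T → Measurable[Fil ξ T] (Mt ξ D t) := by
  induction t with
  | zero =>
    intro T _
    exact @measurable_const _ _ _ (Fil ξ T) 0
  | succ t ih =>
    intro T hT
    have h1 : Measurable[Fil ξ T] (Mt ξ D t) := ih T (by omega)
    have ha : Measurable[Fil ξ T] (ξ t) := st_meas_xi ξ (by omega)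
    have hb : Measurable[Fil ξ T] (ξ (t + 1)) := st_meas_xi ξ hT
    have h2 : Measurable[Fil ξ T] (fun ω => (ξ t ω, ξ (t + 1) ω)) := Measurable.prodMk ha hb
    have h3 : Measurable[Fil ξ T] (fun ω => D (ξ t ω, ξ (t + 1) ω)) :=
      Measurable.comp hD h2
    exact Measurable.add h1 h3

end

theorem t_STEP (X : Type u) [MeasurableSpace X] (Ω : Type v) [MeasurableSpace Ω]
    (h : S_WSEQ X Ω) : S_STEP X Ω := by
  intro κ _ π P ξ hch D hD hD2 hmart n s ε t hn hε
  haveI := hch.pr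
  haveI hπ : IsProbabilityMeasure π := by
    rw [← hch.law 0]
    exact Measure.isProbabilityMeasure_map (hch.meas 0).aemeasurable
  obtain ⟨h1, h2, -⟩ := h κ π P ξ hch
  have hn0 : (0 : ℝ) < n := by exact_mod_cast hn
  have hsn : 0 < √(n : ℝ) := Real.sqrt_pos.2 hn0
  have hsn2 : √(n : ℝ) ^ 2 = n := Real.sq_sqrt hn0.le
  -- D is integrable
  have hDi : Integrable D (π ⊗ₘ κ) :=
    ((memLp_two_iff_integrable_sq hD.aestronglyMeasurable).2 hD2).integrable one_le_two
  -- notation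
  set c : ℝ := s / √n with hc
  have hc2 : c ^ 2 = s ^ 2 / n := by rw [hc, div_pow, hsn2]
  set a : Ω → ℝ := fun ω => c * Mt ξ D t ω with ha
  set d : Ω → ℝ := fun ω => D (ξ t ω, ξ (t + 1) ω) with hd
  have hMt : Measurable[Fil ξ t] (Mt ξ D t) := st_meas_Mt ξ D hD t t le_rfl
  have hle := st_fil_le ξ hch.meas t
  have hMt' : Measurable (Mt ξ D t) := Measurable.mono hMt hle le_rfl
  have haF : Measurable[Fil ξ t] a := Measurable.const_mul hMt c
  have ham : Measurable a := Measurable.mono haF hle le_rfl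
  have hdm : Measurable d := hD.comp ((hch.meas t).prodMk (hch.meas (t + 1)))
  have hdi : Integrable d P := (h1 t D hDi).1
  have hd2i : Integrable (fun ω => d ω ^ 2) P := (h1 t (fun p => D p ^ 2) hD2).1
  -- the linear terms vanish
  have hcos : ∫ ω, Real.cos (a ω) * d ω ∂P = 0 := by
    refine h2 t D (fun ω => Real.cos (a ω)) ?_ ⟨1, fun ω => Real.abs_cos_le_one _⟩ hDi hmart
    exact Measurable.comp (g := Real.cos) Real.measurable_cos haF
  have hsin : ∫ ω, Real.sin (a ω) * d ω ∂P = 0 := by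
    refine h2 t D (fun ω => Real.sin (a ω)) ?_ ⟨1, fun ω => Real.abs_sin_le_one _⟩ hDi hmart
    exact Measurable.comp (g := Real.sin) Real.measurable_sin haF
  set E : Ω → ℂ := fun ω => Complex.exp (Complex.I * (a ω : ℝ)) with hE
  have hEm : Measurable E := by
    refine Complex.measurable_exp.comp ?_
    exact (Complex.measurable_ofReal.comp ham).const_mul _
  have hEn : ∀ ω, ‖E ω‖ = 1 := fun ω => Complex.norm_exp_I_mul_ofReal _
  have hEcs : ∀ ω, E ω = (Real.cos (a ω) : ℂ) + (Real.sin (a ω) : ℂ) * Complex.I := by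
    intro ω
    show Complex.exp (Complex.I * (a ω : ℝ)) = _
    rw [mul_comm, Complex.exp_mul_I, Complex.ofReal_cos, Complex.ofReal_sin]
  have hlin : ∫ ω, E ω * (d ω : ℂ) ∂P = 0 := by
    have e1 : ∀ ω, E ω * (d ω : ℂ) = ((Real.cos (a ω) * d ω : ℝ) : ℂ)
        + Complex.I * ((Real.sin (a ω) * d ω : ℝ) : ℂ) := by
      intro ω
      rw [hEcs]
      push_cast
      ring
    simp_rw [e1]
    have i1 : Integrable (fun ω => ((Real.cos (a ω) * d ω : ℝ) : ℂ)) P := by
      refine Integrable.ofReal ?_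
      refine hdi.bdd_mul (c := 1) (Real.measurable_cos.comp ham).aestronglyMeasurable ?_
      exact Eventually.of_forall fun ω => by
        rw [Real.norm_eq_abs]; exact Real.abs_cos_le_one _
    have i2 : Integrable (fun ω => ((Real.sin (a ω) * d ω : ℝ) : ℂ)) P := by
      refine Integrable.ofReal ?_
      refine hdi.bdd_mul (c := 1) (Real.measurable_sin.comp ham).aestronglyMeasurable ?_
      exact Eventually.of_forall fun ω => by
        rw [Real.norm_eq_abs]; exact Real.abs_sin_le_one _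
    have j1 : ∫ ω, ((Real.cos (a ω) * d ω : ℝ) : ℂ) ∂P
        = ((∫ ω, Real.cos (a ω) * d ω ∂P : ℝ) : ℂ) := integral_ofReal
    have j2 : ∫ ω, ((Real.sin (a ω) * d ω : ℝ) : ℂ) ∂P
        = ((∫ ω, Real.sin (a ω) * d ω ∂P : ℝ) : ℂ) := integral_ofReal
    rw [integral_add i1 (i2.const_mul _), integral_const_mul, j1, j2, hcos, hsin]
    simp
  -- the remainder
  set R : Ω → ℂ := fun ω => E ω * (Complex.exp (Complex.I * (c * d ω : ℝ)) - 1
      - Complex.I * (c * d ω : ℝ) + ((c * d ω : ℝ) : ℂ) ^ 2 / 2) with hR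
  have hEd : Integrable (fun ω => E ω * (d ω : ℂ)) P := by
    refine hdi.ofReal.bdd_mul (c := 1) hEm.aestronglyMeasurable ?_
    exact Eventually.of_forall fun ω => (hEn ω).le
  have hEd2 : Integrable (fun ω => E ω * ((d ω ^ 2 : ℝ) : ℂ)) P := by
    refine hd2i.ofReal.bdd_mul (c := 1) hEm.aestronglyMeasurable ?_
    exact Eventually.of_forall fun ω => (hEn ω).le
  have hEi : Integrable E P := by
    refine Integrable.of_bound hEm.aestronglyMeasurable 1 ?_
    exact Eventually.of_forall fun ω => (hEn ω).le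
  set E' : Ω → ℂ := fun ω => Complex.exp (Complex.I * (c * Mt ξ D (t + 1) ω : ℝ)) with hE'
  have hE'eq : ∀ ω, E' ω = E ω * Complex.exp (Complex.I * (c * d ω : ℝ)) := by
    intro ω
    show Complex.exp (Complex.I * (c * (Mt ξ D t ω + d ω) : ℝ)) = _
    rw [hE, ← Complex.exp_add]
    congr 1
    rw [ha]
    push_cast
    ring
  have hE'm : Measurable E' := by
    have : E' = fun ω => E ω * Complex.exp (Complex.I * (c * d ω : ℝ)) := funext hE'eq
    rw [this]
    refine hEm.mul (Complex.measurable_exp.comp ?_)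
    exact (Complex.measurable_ofReal.comp (hdm.const_mul c)).const_mul _
  have hE'n : ∀ ω, ‖E' ω‖ = 1 := fun ω => Complex.norm_exp_I_mul_ofReal _
  have hE'i : Integrable E' P := by
    refine Integrable.of_bound hE'm.aestronglyMeasurable 1 ?_
    exact Eventually.of_forall fun ω => (hE'n ω).le
  have hkey : (∫ ω, E' ω ∂P) - (∫ ω, E ω ∂P) + ((s ^ 2 / (2 * n) : ℝ) : ℂ) *
      ∫ ω, E ω * ((d ω ^ 2 : ℝ) : ℂ) ∂P = ∫ ω, R ω ∂P := by
    have e1 : ∀ ω, R ω = (E' ω - E ω + ((s ^ 2 / (2 * n) : ℝ) : ℂ) *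
        (E ω * ((d ω ^ 2 : ℝ) : ℂ))) - (Complex.I * c) * (E ω * (d ω : ℂ)) := by
      intro ω
      rw [hR, hE'eq]
      have e2 : ((s ^ 2 / (2 * n) : ℝ) : ℂ) = (c : ℂ) ^ 2 / 2 := by
        rw [← Complex.ofReal_pow, hc2]
        push_cast
        field_simp
      rw [e2]
      push_cast
      ring
    simp_rw [e1]
    have k1 : Integrable (fun ω => E' ω - E ω) P := hE'i.sub hEi
    have k2 : Integrable (fun ω => ((s ^ 2 / (2 * n) : ℝ) : ℂ) * (E ω * ((d ω ^ 2 : ℝ) : ℂ))) P :=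
      hEd2.const_mul _
    have k3 : Integrable (fun ω => E' ω - E ω + ((s ^ 2 / (2 * n) : ℝ) : ℂ) *
        (E ω * ((d ω ^ 2 : ℝ) : ℂ))) P := k1.add k2
    have k4 : Integrable (fun ω => (Complex.I * c) * (E ω * (d ω : ℂ))) P := hEd.const_mul _
    rw [integral_sub k3 k4, integral_add k1 k2, integral_sub hE'i hEi, integral_const_mul,
      integral_const_mul, hlin, mul_zero, sub_zero]
  rw [hkey]
  -- the majorant
  set S : Set (X × X) := {p : X × X | ε * √n < |D p|} with hS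
  have hSm : MeasurableSet S := measurableSet_lt measurable_const hD.abs
  set G : X × X → ℝ := fun p => 1 / n * (|s| ^ 3 * ε * D p ^ 2
      + s ^ 2 * S.indicator (fun p => D p ^ 2) p) with hG
  have hindi : Integrable (S.indicator (fun p => D p ^ 2)) (π ⊗ₘ κ) := hD2.indicator hSm
  have hGi : Integrable G (π ⊗ₘ κ) :=
    ((hD2.const_mul (|s| ^ 3 * ε)).add (hindi.const_mul (s ^ 2))).const_mul (1 / (n : ℝ))
  have hGint : ∫ p, G p ∂(π ⊗ₘ κ) = 1 / n * (|s| ^ 3 * ε * ∫ p, D p ^ 2 ∂(π ⊗ₘ κ)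
        + s ^ 2 * ∫ p in S, D p ^ 2 ∂(π ⊗ₘ κ)) := by
    rw [hG, integral_const_mul, integral_add (hD2.const_mul (|s| ^ 3 * ε))
      (hindi.const_mul (s ^ 2)), integral_const_mul, integral_const_mul, integral_indicator hSm]
  rw [← hGint, ← (h1 t G hGi).2]
  refine norm_integral_le_of_norm_le (h1 t G hGi).1 (Eventually.of_forall fun ω => ?_)
  have hRn : ‖R ω‖ = ‖Complex.exp (Complex.I * (c * d ω : ℝ)) - 1
      - Complex.I * (c * d ω : ℝ) + ((c * d ω : ℝ) : ℂ) ^ 2 / 2‖ := by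
    rw [hR]
    simp only [norm_mul, hEn, one_mul]
  rw [hRn]
  obtain ⟨b1, b2⟩ := st_taylor (c * d ω)
  have hdω : D (ξ t ω, ξ (t + 1) ω) = d ω := rfl
  by_cases hcase : (ξ t ω, ξ (t + 1) ω) ∈ S
  · refine le_trans b2 ?_
    show _ ≤ 1 / n * (|s| ^ 3 * ε * D (ξ t ω, ξ (t + 1) ω) ^ 2
      + s ^ 2 * S.indicator (fun p => D p ^ 2) (ξ t ω, ξ (t + 1) ω))
    rw [Set.indicator_of_mem hcase, hdω, mul_pow, hc2]
    have : 0 ≤ 1 / (n : ℝ) * (|s| ^ 3 * ε * d ω ^ 2) := by positivity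
    have e : s ^ 2 / n * d ω ^ 2 = 1 / n * (s ^ 2 * d ω ^ 2) := by ring
    rw [e, mul_add]
    linarith
  · refine le_trans b1 ?_
    show _ ≤ 1 / n * (|s| ^ 3 * ε * D (ξ t ω, ξ (t + 1) ω) ^ 2
      + s ^ 2 * S.indicator (fun p => D p ^ 2) (ξ t ω, ξ (t + 1) ω))
    rw [Set.indicator_of_notMem hcase, hdω, mul_zero, add_zero]
    have hsm : |d ω| ≤ ε * √n := not_lt.1 hcase
    have hcabs : |c| = |s| / √n := by rw [hc, abs_div, abs_of_pos hsn]
    have e1 : |c * d ω| ^ 3 = |s| ^ 3 / (√n * n) * (d ω ^ 2 * |d ω|) := by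
      rw [abs_mul, hcabs, mul_pow, div_pow]
      have : √(n : ℝ) ^ 3 = √n * n := by rw [pow_succ, hsn2]; ring
      rw [this]
      have h5 : |d ω| ^ 3 = d ω ^ 2 * |d ω| := by rw [pow_succ, sq_abs]
      rw [h5]
    rw [e1]
    calc |s| ^ 3 / (√n * n) * (d ω ^ 2 * |d ω|)
        ≤ |s| ^ 3 / (√n * n) * (d ω ^ 2 * (ε * √n)) := by
          refine mul_le_mul_of_nonneg_left ?_ (by positivity)
          exact mul_le_mul_of_nonneg_left hsm (by positivity)
      _ = 1 / n * (|s| ^ 3 * ε * d ω ^ 2) := by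
          field_simp

end Pool.Agent.K1H85.CL
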