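import Pool.Agent.K1H85.CL.Base

/-!
Project CL (MP_cd27db_pr), CL-13 : summation of the steps.
-/

open MeasureTheory ProbabilityTheory Filter
open scoped Topology BigOperators ENNReal

namespace Pool.Agent.K1H85.CL

universe u

section TOT

/-- product of a bounded measurable function with an integrable one -/
lemma tot_igr_mul {Y : Type*} [MeasurableSpace Y] {ν : Measure Y} {ψ F : Y → ℝ}
    (hψ : Measurable ψ) (h1 : ∀ x, |ψ x| ≤ 1) (hF : Integrable F ν) :
    Integrable (fun x => ψ x * F x) ν := by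
  refine hF.mono (hψ.aestronglyMeasurable.mul hF.aestronglyMeasurable) ?_
  refine Eventually.of_forall fun x => ?_
  rw [Real.norm_eq_abs, Real.norm_eq_abs, abs_mul]
  calc |ψ x| * |F x| ≤ 1 * |F x| := mul_le_mul_of_nonneg_right (h1 x) (abs_nonneg _)
    _ = |F x| := one_mul _

lemma tot_abs {x : ℝ} (h0 : 0 ≤ x) (h1 : x ≤ 1) : |x| ≤ 1 := by
  rw [abs_of_nonneg h0]; exact h1

/-- geometric sum of the radii -/
lemma tot_sum_r (r0 : ℝ) (hr : 0 < r0) (N : ℕ) :
    ∑ s ∈ Finset.range N, r0 * (9 / 8) ^ s ≤ 8 * (r0 * (9 / 8) ^ N) := by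
  have h : ∀ N : ℕ, ∑ s ∈ Finset.range N, r0 * (9 / 8) ^ s = 8 * (r0 * (9 / 8) ^ N) - 8 * r0 := by
    intro N
    induction N with
    | zero => simp
    | succ N ih => rw [Finset.sum_range_succ, ih, pow_succ]; ring
  rw [h]; linarith

/-- sum of the square roots -/
lemma tot_sum_sqrt (n : ℕ) (α : ℕ → ℝ) (K : ℝ) (h0 : ∀ t, 0 ≤ α t)
    (hK : ∑ t ∈ Finset.range n, α t ≤ K) :
    ∑ t ∈ Finset.range n, √(α t) ≤ √n * √K := by
  have h1 := Finset.sum_mul_sq_le_sq_mul_sq (Finset.range n) (fun _ => (1 : ℝ)) (fun t => √(α t))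
  simp only [one_mul, one_pow, Finset.sum_const, Finset.card_range, nsmul_eq_mul, mul_one] at h1
  have h2 : ∑ t ∈ Finset.range n, √(α t) ^ 2 = ∑ t ∈ Finset.range n, α t :=
    Finset.sum_congr rfl fun t _ => Real.sq_sqrt (h0 t)
  rw [h2] at h1
  rw [← Real.sqrt_mul (by positivity)]
  apply Real.le_sqrt_of_sq_le
  exact h1.trans (mul_le_mul_of_nonneg_left hK (by positivity))

variable {X : Type u} [MeasurableSpace X] {π : Measure X} {μ : Measure (X × X)} {f : X → ℝ}
  {g h a b : ℕ → X → ℝ} {γ : ℕ → ℝ}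

/-- one step for a fixed time -/
lemma tot_Gs_step (C : Cor π μ f g h a b γ) (m N s : ℕ) {r : ℝ} (hr : 0 < r) {ψ : X → ℝ}
    (mψ : Measurable ψ) (h0 : ∀ x, 0 ≤ ψ x) (h1 : ∀ x, ψ x ≤ 1) :
    Gs μ f g h m N (s + 1) (9 / 8 * r) ψ - Gs μ f g h m N s r ψ
      = ∫ p, ψ p.1 * PsE g h m N s r p ∂μ - ∫ x, ψ x * PsV f g h m N s r x ∂π := by
  have hr' : (0 : ℝ) < 9 / 8 * r := by positivity
  have mψ' : Measurable (fun p : X × X => ψ p.1) := mψ.comp measurable_fst
  have hb' : ∀ p : X × X, |ψ p.1| ≤ 1 := fun p => tot_abs (h0 _) (h1 _)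
  have e1 : ∫ x, ψ x * PsV f g h m N s r x ∂π = ∫ p, ψ p.1 * PsV f g h m N s r p.1 ∂μ :=
    (C.int_fst (F := fun x => ψ x * PsV f g h m N s r x)
      (mψ.mul (C.meas_PsV m N s r)).aestronglyMeasurable).symm
  have i1 : Integrable (fun p : X × X => ψ p.1 * PsE g h m N s r p) μ :=
    tot_igr_mul mψ' hb' (C.igr_PsE m N s hr)
  have i2 : Integrable (fun p : X × X => ψ p.1 * PsV f g h m N s r p.1) μ :=
    tot_igr_mul mψ' hb' (C.igr_fst (C.igr_PsV m N s hr))
  have i3 : Integrable (fun p : X × X => ψ p.1 * (Fp (9 / 8 * r) (ne g h m N (s + 1) p)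
      - Fp (9 / 8 * r) (nv f g h m N (s + 1) p.1))) μ :=
    tot_igr_mul mψ' hb' ((C.igr_Fne m N (s + 1) hr').sub (C.igr_fst (C.igr_Fnv m N (s + 1) hr')))
  have i4 : Integrable (fun p : X × X => ψ p.1 * (Fp r (ne g h m N s p)
      - Fp r (nv f g h m N s p.1))) μ :=
    tot_igr_mul mψ' hb' ((C.igr_Fne m N s hr).sub (C.igr_fst (C.igr_Fnv m N s hr)))
  rw [e1]
  unfold Gs
  rw [← integral_sub i3 i4, ← integral_sub i1 i2]
  apply integral_congr_ae
  refine Eventually.of_forall fun p => ?_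
  simp only [PsE_eq, PsV_eq]
  ring

/-- the drop of the second moment -/
lemma tot_drop (C : Cor π μ f g h a b γ) {ψ ψs : X → ℝ}
    (mψ : Measurable ψ) (mψs : Measurable ψs) (h0 : ∀ x, 0 ≤ ψ x) (h1 : ∀ x, ψ x ≤ 1)
    (hs0 : ∀ x, 0 ≤ ψs x) (hs1 : ∀ x, ψs x ≤ 1)
    (dual : ∀ φ : X → ℝ, Integrable φ π → ∫ p, ψ p.1 * φ p.2 ∂μ = ∫ x, ψs x * φ x ∂π) :
    0 ≤ ∫ x, ψ x ^ 2 ∂π - ∫ x, ψs x ^ 2 ∂π := by
  have := C.pp
  have := C.pm
  have b1 : ∀ x, |ψ x| ≤ 1 := fun x => tot_abs (h0 _) (h1 _)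
  have b2 : ∀ x, |ψs x| ≤ 1 := fun x => tot_abs (hs0 _) (hs1 _)
  have iψ : Integrable ψ π := by
    have := tot_igr_mul (ν := π) (F := fun _ => (1 : ℝ)) mψ b1 (integrable_const 1)
    simpa using this
  have iψs : Integrable ψs π := by
    have := tot_igr_mul (ν := π) (F := fun _ => (1 : ℝ)) mψs b2 (integrable_const 1)
    simpa using this
  have iψ2 : Integrable (fun x => ψ x ^ 2) π := by
    have := tot_igr_mul mψ b1 iψ
    simpa only [pow_two] using this
  have iψs2 : Integrable (fun x => ψs x ^ 2) π := by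
    have := tot_igr_mul mψs b2 iψs
    simpa only [pow_two] using this
  have ic : Integrable (fun p : X × X => ψ p.1 * ψs p.2) μ :=
    tot_igr_mul (mψ.comp measurable_fst) (fun p => b1 p.1) (C.igr_snd iψs)
  have e1 : ∫ p, ψ p.1 ^ 2 ∂μ = ∫ x, ψ x ^ 2 ∂π :=
    C.int_fst (F := fun x => ψ x ^ 2) (mψ.pow_const 2).aestronglyMeasurable
  have e2 : ∫ p, ψs p.2 ^ 2 ∂μ = ∫ x, ψs x ^ 2 ∂π :=
    C.int_snd (F := fun x => ψs x ^ 2) (mψs.pow_const 2).aestronglyMeasurable
  have e3 : ∫ p, ψ p.1 * ψs p.2 ∂μ = ∫ x, ψs x ^ 2 ∂π := by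
    rw [dual ψs iψs]
    simp only [pow_two]
  have key : ∫ p, (ψ p.1 - ψs p.2) ^ 2 ∂μ = ∫ x, ψ x ^ 2 ∂π - ∫ x, ψs x ^ 2 ∂π := by
    have j1 : Integrable (fun p : X × X => ψ p.1 ^ 2) μ := C.igr_fst iψ2
    have j2 : Integrable (fun p : X × X => ψs p.2 ^ 2) μ := C.igr_snd iψs2
    have j3 : Integrable (fun p : X × X => 2 * (ψ p.1 * ψs p.2)) μ := ic.const_mul 2
    have : ∫ p, (ψ p.1 - ψs p.2) ^ 2 ∂μ
        = ∫ p, (ψ p.1 ^ 2 - 2 * (ψ p.1 * ψs p.2) + ψs p.2 ^ 2) ∂μ := by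
      apply integral_congr_ae
      exact Eventually.of_forall fun p => by simp only; ring
    have j4 : Integrable (fun p : X × X => ψ p.1 ^ 2 - 2 * (ψ p.1 * ψs p.2)) μ := j1.sub j3
    rw [this, integral_add j4 j2, integral_sub j1 j3, integral_const_mul, e1, e2, e3]
    ring
  rw [← key]
  exact integral_nonneg fun p => sq_nonneg _

end TOT


/-- CL-13 -/
theorem t_TOT (X : Type u) [MeasurableSpace X] (hO : S_ODD X) (hE : S_EVEN X) (hI : S_INT X) :
    S_TOT X := by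
  intro π μ f g h a b γ C m N n r0 BD C1 Gd ψ ψs hr0 hBD hvv hC1 mGd hGd W
  have := C.pp
  have := C.pm
  -- abbreviations
  set r : ℕ → ℝ := fun s => r0 * (9 / 8) ^ s with hrdef
  have hr : ∀ s, 0 < r s := fun s => by simp only [hrdef]; positivity
  have hrs : ∀ s, r (s + 1) = 9 / 8 * r s := fun s => by
    simp only [hrdef]; rw [pow_succ]; ring
  have hr00 : r 0 = r0 := by simp [hrdef]
  have hrN : r0 * (9 / 8) ^ N = r N := rfl
  have htl := C.tl_nonneg m
  have bψ : ∀ t x, |ψ t x| ≤ 1 := fun t x => tot_abs (W.h0 t x) (W.h1 t x)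
  have bψs : ∀ t x, |ψs t x| ≤ 1 := fun t x => tot_abs (W.hs0 t x) (W.hs1 t x)
  obtain ⟨_, hint⟩ := hI π μ f g h a b γ C m N r0 hr0
  set V : ℕ → ℕ → ℝ := fun t s => ∫ x, ψ t x * PsV f g h m N s (r s) x ∂π with hV
  set Vs : ℕ → ℕ → ℝ := fun t s => ∫ x, ψs t x * PsV f g h m N s (r s) x ∂π with hVs
  set E : ℕ → ℕ → ℝ := fun t s => ∫ p, ψ t p.1 * PsE g h m N s (r s) p ∂μ with hEdef
  set α : ℕ → ℝ := fun t => ∫ x, ψ t x ^ 2 ∂π - ∫ x, ψs t x ^ 2 ∂π with hα
  set BB : ℝ := BD + 4000000 * tl γ m with hBB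
  set A : ℕ → ℕ → ℝ := fun s t => ∫ x, |ψ (t + 1) x - ψs t x| * |PsV f g h m N s (r s) x| ∂π
    with hA
  set I : ℕ → ℝ := fun s => ∫ x, |PsV f g h m N s (r s) x| ∂π with hIdef
  have iV : ∀ s, Integrable (PsV f g h m N s (r s)) π := fun s => C.igr_PsV m N s (hr s)
  have iψV : ∀ t s, Integrable (fun x => ψ t x * PsV f g h m N s (r s) x) π := fun t s =>
    tot_igr_mul (W.mψ t) (bψ t) (iV s)
  have iψsV : ∀ t s, Integrable (fun x => ψs t x * PsV f g h m N s (r s) x) π := fun t s =>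
    tot_igr_mul (W.mψs t) (bψs t) (iV s)
  have hα0 : ∀ t, 0 ≤ α t := fun t =>
    tot_drop C (W.mψ t) (W.mψs t) (W.h0 t) (W.h1 t) (W.hs0 t) (W.hs1 t) (W.dual t)
  -- one step
  have hstep : ∀ t, ∀ s, Gs μ f g h m N (s + 1) (r (s + 1)) (ψ t) - Gs μ f g h m N s (r s) (ψ t)
      = E t s - V t s := by
    intro t s
    rw [hrs]
    exact tot_Gs_step C m N s (hr s) (W.mψ t) (W.h0 t) (W.h1 t)
  have htel : ∀ t, Gs μ f g h m N N (r N) (ψ t) - Gs μ f g h m N 0 r0 (ψ t)
      = ∑ s ∈ Finset.range N, (E t s - V t s) := by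
    intro t
    rw [← hr00, ← Finset.sum_range_sub (fun s => Gs μ f g h m N s (r s) (ψ t)) N]
    exact Finset.sum_congr rfl fun s _ => hstep t s
  -- lower bound of one step
  have hlow : ∀ t, ∀ s ∈ Finset.range N, -(40000000 * er γ m N s) - 5 * r s * √(α t) * √BB
      + (if s % 2 = 0 then Vs t s - V t s else 0) ≤ E t s - V t s := by
    intro t s hs
    have hsN : s < N := Finset.mem_range.1 hs
    have hpos : 0 ≤ 5 * r s * √(α t) * √BB := by have := hr s; positivity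
    rcases Nat.mod_two_eq_zero_or_one s with h2 | h2
    · rw [if_pos h2]
      have k1 := hE π μ f g h a b γ C m N s (r s) (ψ t) (ψs t) hsN h2 (hr s) (W.mψ t) (W.mψs t)
        (W.h0 t) (W.h1 t) (W.hs0 t) (W.hs1 t) (W.dual t)
      have k2 : √(∫ p, (h (m + s / 2) p.1 - h (m + s / 2) p.2 + f p.2) ^ 2 ∂μ
          + 1000000 * er γ m N s) ≤ √BB := by
        apply Real.sqrt_le_sqrt
        have := hvv (m + s / 2)
        have := C.er_le m N s
        simp only [hBB]
        linarith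
      have k3 : 5 * r s * √(α t) * √(∫ p, (h (m + s / 2) p.1 - h (m + s / 2) p.2 + f p.2) ^ 2 ∂μ
          + 1000000 * er γ m N s) ≤ 5 * r s * √(α t) * √BB :=
        mul_le_mul_of_nonneg_left k2 (by have := hr s; positivity)
      have k4 : -(5 * r s * √(α t) * √(∫ p, (h (m + s / 2) p.1 - h (m + s / 2) p.2 + f p.2) ^ 2 ∂μ
          + 1000000 * er γ m N s)) - 40000000 * er γ m N s ≤ E t s - Vs t s := k1
      linarith
    · rw [if_neg (by omega)]
      have k1 := hO π μ f g h a b γ C m N s (r s) (ψ t) hsN h2 (hr s) (W.mψ t) (W.h0 t) (W.h1 t)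
      have mψ' : Measurable (fun p : X × X => ψ t p.1) := (W.mψ t).comp measurable_fst
      have i1 : Integrable (fun p : X × X => ψ t p.1 * PsE g h m N s (r s) p) μ :=
        tot_igr_mul mψ' (fun p => bψ t p.1) (C.igr_PsE m N s (hr s))
      have i2 : Integrable (fun p : X × X => ψ t p.1 * PsV f g h m N s (r s) p.1) μ :=
        tot_igr_mul mψ' (fun p => bψ t p.1) (C.igr_fst (iV s))
      have e1 : ∫ p, ψ t p.1 * PsV f g h m N s (r s) p.1 ∂μ = V t s :=
        C.int_fst (F := fun x => ψ t x * PsV f g h m N s (r s) x)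
          ((W.mψ t).mul (C.meas_PsV m N s (r s))).aestronglyMeasurable
      have e2 : ∫ p, ψ t p.1 * (PsE g h m N s (r s) p - PsV f g h m N s (r s) p.1) ∂μ
          = E t s - V t s := by
        rw [← e1]
        simp only [hEdef]
        rw [← integral_sub i1 i2]
        simp only [mul_sub]
      rw [e2] at k1
      linarith
  -- the exchange terms
  have hA0 : ∀ s t, 0 ≤ A s t := fun s t => integral_nonneg fun x => by positivity
  have hI0 : ∀ s, 0 ≤ I s := fun s => integral_nonneg fun x => abs_nonneg _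
  have bd : ∀ t x, |ψ (t + 1) x - ψs t x| ≤ 1 := by
    intro t x
    rw [abs_le]
    constructor <;> linarith [W.h0 (t + 1) x, W.h1 (t + 1) x, W.hs0 t x, W.hs1 t x]
  have md : ∀ t, Measurable (fun x => |ψ (t + 1) x - ψs t x|) := fun t =>
    ((W.mψ (t + 1)).sub (W.mψs t)).abs
  have iA : ∀ s t, Integrable (fun x => |ψ (t + 1) x - ψs t x| * |PsV f g h m N s (r s) x|) π :=
    fun s t => tot_igr_mul (md t) (fun x => by rw [abs_abs]; exact bd t x) (iV s).abs
  have hex1 : ∀ t s, -(A s t) ≤ Vs t s - V (t + 1) s := by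
    intro t s
    simp only [hA, hVs, hV]
    rw [← integral_neg, ← integral_sub (iψsV t s) (iψV (t + 1) s)]
    apply integral_mono (iA s t).neg ((iψsV t s).sub (iψV (t + 1) s))
    intro x
    have : |(ψ (t + 1) x - ψs t x) * PsV f g h m N s (r s) x|
        = |ψ (t + 1) x - ψs t x| * |PsV f g h m N s (r s) x| := abs_mul _ _
    have h3 := le_abs_self ((ψ (t + 1) x - ψs t x) * PsV f g h m N s (r s) x)
    simp only [Pi.sub_apply, Pi.neg_apply]
    rw [this] at h3
    nlinarith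
  have hex2 : ∀ s, -(I s) ≤ V n s - V 0 s := by
    intro s
    simp only [hIdef, hV]
    rw [← integral_neg, ← integral_sub (iψV n s) (iψV 0 s)]
    apply integral_mono (iV s).abs.neg ((iψV n s).sub (iψV 0 s))
    intro x
    have h4 : |ψ n x - ψ 0 x| ≤ 1 := by
      rw [abs_le]
      constructor <;> linarith [W.h0 n x, W.h1 n x, W.h0 0 x, W.h1 0 x]
    have h5 : |(ψ n x - ψ 0 x) * PsV f g h m N s (r s) x| ≤ |PsV f g h m N s (r s) x| := by
      rw [abs_mul]
      calc |ψ n x - ψ 0 x| * |PsV f g h m N s (r s) x| ≤ 1 * |PsV f g h m N s (r s) x| :=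
            mul_le_mul_of_nonneg_right h4 (abs_nonneg _)
        _ = _ := one_mul _
    have h3 := neg_abs_le ((ψ n x - ψ 0 x) * PsV f g h m N s (r s) x)
    simp only [Pi.sub_apply, Pi.neg_apply]
    linarith
  have hexs : ∀ s, -(∑ t ∈ Finset.range n, A s t) - I s
      ≤ ∑ t ∈ Finset.range n, (if s % 2 = 0 then Vs t s - V t s else 0) := by
    intro s
    by_cases h2 : s % 2 = 0
    · simp only [if_pos h2]
      have e1 : ∑ t ∈ Finset.range n, (Vs t s - V t s)
          = ∑ t ∈ Finset.range n, (Vs t s - V (t + 1) s) + (V n s - V 0 s) := by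
        rw [← Finset.sum_range_sub (fun t => V t s) n, ← Finset.sum_add_distrib]
        exact Finset.sum_congr rfl fun t _ => by ring
      rw [e1]
      have e2 : -(∑ t ∈ Finset.range n, A s t) ≤ ∑ t ∈ Finset.range n, (Vs t s - V (t + 1) s) := by
        rw [← Finset.sum_neg_distrib]
        exact Finset.sum_le_sum fun t _ => hex1 t s
      linarith [hex2 s]
    · simp only [if_neg h2, Finset.sum_const_zero]
      have := Finset.sum_nonneg (s := Finset.range n) fun t _ => hA0 s t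
      linarith [hI0 s]
  -- the sum of the exchange terms
  have hAsum : ∀ t, ∑ s ∈ Finset.range N, A s t
      ≤ 200 * (r N) ^ 2 * ∫ x, |ψ (t + 1) x - ψs t x| ∂π := by
    intro t
    simp only [hA]
    rw [← integral_finsetSum _ fun s _ => iA s t, ← integral_const_mul]
    have id : Integrable (fun x => |ψ (t + 1) x - ψs t x|) π := by
      have := tot_igr_mul (ν := π) (F := fun _ => (1 : ℝ)) (md t)
        (fun x => by rw [abs_abs]; exact bd t x) (integrable_const 1)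
      simpa using this
    apply integral_mono_ae (integrable_finsetSum _ fun s _ => iA s t) (id.const_mul _)
    filter_upwards [W.good t] with x hx
    rw [← Finset.mul_sum]
    by_cases hxG : x ∈ Gd
    · have := hGd x hxG
      have h6 : ∑ s ∈ Finset.range N, |PsV f g h m N s (r s) x| ≤ 200 * (r N) ^ 2 := this
      calc |ψ (t + 1) x - ψs t x| * ∑ s ∈ Finset.range N, |PsV f g h m N s (r s) x|
          ≤ |ψ (t + 1) x - ψs t x| * (200 * (r N) ^ 2) :=
            mul_le_mul_of_nonneg_left h6 (abs_nonneg _)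
        _ = _ := by ring
    · rw [hx hxG]
      simp
  have hAA : ∑ s ∈ Finset.range N, ∑ t ∈ Finset.range n, A s t ≤ C1 * (200 * (r N) ^ 2) := by
    rw [Finset.sum_comm]
    calc ∑ t ∈ Finset.range n, ∑ s ∈ Finset.range N, A s t
        ≤ ∑ t ∈ Finset.range n, 200 * (r N) ^ 2 * ∫ x, |ψ (t + 1) x - ψs t x| ∂π :=
          Finset.sum_le_sum fun t _ => hAsum t
      _ = 200 * (r N) ^ 2 * ∑ t ∈ Finset.range n, ∫ x, |ψ (t + 1) x - ψs t x| ∂π := by
          rw [Finset.mul_sum]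
      _ ≤ 200 * (r N) ^ 2 * C1 := mul_le_mul_of_nonneg_left W.var (by positivity)
      _ = _ := by ring
  -- the sum of the drops
  have iψ : ∀ t, Integrable (ψ t) π := fun t => by
    have := tot_igr_mul (ν := π) (F := fun _ => (1 : ℝ)) (W.mψ t) (bψ t) (integrable_const 1)
    simpa using this
  have iψs : ∀ t, Integrable (ψs t) π := fun t => by
    have := tot_igr_mul (ν := π) (F := fun _ => (1 : ℝ)) (W.mψs t) (bψs t) (integrable_const 1)
    simpa using this
  have iψ2 : ∀ t, Integrable (fun x => ψ t x ^ 2) π := fun t => by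
    have := tot_igr_mul (W.mψ t) (bψ t) (iψ t)
    simpa only [pow_two] using this
  have iψs2 : ∀ t, Integrable (fun x => ψs t x ^ 2) π := fun t => by
    have := tot_igr_mul (W.mψs t) (bψs t) (iψs t)
    simpa only [pow_two] using this
  have hαsum : ∑ t ∈ Finset.range n, α t ≤ 1 + 2 * C1 := by
    have e1 : ∑ t ∈ Finset.range n, α t
        = ∑ t ∈ Finset.range n, (∫ x, ψ (t + 1) x ^ 2 ∂π - ∫ x, ψs t x ^ 2 ∂π)
          - (∫ x, ψ n x ^ 2 ∂π - ∫ x, ψ 0 x ^ 2 ∂π) := by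
      rw [← Finset.sum_range_sub (fun t => ∫ x, ψ t x ^ 2 ∂π) n, ← Finset.sum_sub_distrib]
      exact Finset.sum_congr rfl fun t _ => by simp only [hα]; ring
    have e2 : ∀ t, ∫ x, ψ (t + 1) x ^ 2 ∂π - ∫ x, ψs t x ^ 2 ∂π
        ≤ 2 * ∫ x, |ψ (t + 1) x - ψs t x| ∂π := by
      intro t
      have id : Integrable (fun x => |ψ (t + 1) x - ψs t x|) π := ((iψ (t + 1)).sub (iψs t)).abs
      rw [← integral_sub (iψ2 (t + 1)) (iψs2 t), ← integral_const_mul]
      apply integral_mono ((iψ2 (t + 1)).sub (iψs2 t)) (id.const_mul 2)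
      intro x
      simp only [Pi.sub_apply]
      have q1 : ψ (t + 1) x ^ 2 - ψs t x ^ 2
          = (ψ (t + 1) x - ψs t x) * (ψ (t + 1) x + ψs t x) := by ring
      have q2 : (ψ (t + 1) x - ψs t x) * (ψ (t + 1) x + ψs t x)
          ≤ |ψ (t + 1) x - ψs t x| * (ψ (t + 1) x + ψs t x) :=
        mul_le_mul_of_nonneg_right (le_abs_self _) (by linarith [W.h0 (t + 1) x, W.hs0 t x])
      have q3 : |ψ (t + 1) x - ψs t x| * (ψ (t + 1) x + ψs t x)
          ≤ |ψ (t + 1) x - ψs t x| * 2 :=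
        mul_le_mul_of_nonneg_left (by linarith [W.h1 (t + 1) x, W.hs1 t x]) (abs_nonneg _)
      linarith
    have e3 : ∑ t ∈ Finset.range n, (∫ x, ψ (t + 1) x ^ 2 ∂π - ∫ x, ψs t x ^ 2 ∂π) ≤ 2 * C1 := by
      calc ∑ t ∈ Finset.range n, (∫ x, ψ (t + 1) x ^ 2 ∂π - ∫ x, ψs t x ^ 2 ∂π)
          ≤ ∑ t ∈ Finset.range n, 2 * ∫ x, |ψ (t + 1) x - ψs t x| ∂π :=
            Finset.sum_le_sum fun t _ => e2 t
        _ = 2 * ∑ t ∈ Finset.range n, ∫ x, |ψ (t + 1) x - ψs t x| ∂π := by rw [Finset.mul_sum]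
        _ ≤ 2 * C1 := by linarith [W.var]
    have e4 : 0 ≤ ∫ x, ψ n x ^ 2 ∂π := integral_nonneg fun x => sq_nonneg _
    have e5 : ∫ x, ψ 0 x ^ 2 ∂π ≤ 1 := by
      have : ∫ x, ψ 0 x ^ 2 ∂π ≤ ∫ _, (1 : ℝ) ∂π := by
        apply integral_mono (iψ2 0) (integrable_const 1)
        intro x
        simp only
        nlinarith [W.h0 0 x, W.h1 0 x]
      simpa using this
    rw [e1]
    linarith
  have hsq := tot_sum_sqrt n α (1 + 2 * C1) hα0 hαsum
  have hrsum := tot_sum_r r0 hr0 N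
  -- assembly
  have hIs : ∑ s ∈ Finset.range N, I s ≤ 20000000 * tl γ 0 * 2 ^ (m + N / 2) := hint
  have tot1 : ∑ t ∈ Finset.range n, Gs μ f g h m N N (r N) (ψ t)
      - ∑ t ∈ Finset.range n, Gs μ f g h m N 0 r0 (ψ t)
      = ∑ t ∈ Finset.range n, ∑ s ∈ Finset.range N, (E t s - V t s) := by
    rw [← Finset.sum_sub_distrib]
    exact Finset.sum_congr rfl fun t _ => htel t
  have tot2 : ∑ t ∈ Finset.range n, ∑ s ∈ Finset.range N,
      (-(40000000 * er γ m N s) - 5 * r s * √(α t) * √BB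
        + (if s % 2 = 0 then Vs t s - V t s else 0))
      ≤ ∑ t ∈ Finset.range n, ∑ s ∈ Finset.range N, (E t s - V t s) :=
    Finset.sum_le_sum fun t _ => Finset.sum_le_sum fun s hs => hlow t s hs
  have tot3 : ∑ t ∈ Finset.range n, ∑ s ∈ Finset.range N,
      (-(40000000 * er γ m N s) - 5 * r s * √(α t) * √BB
        + (if s % 2 = 0 then Vs t s - V t s else 0))
      = -(n * (40000000 * ∑ s ∈ Finset.range N, er γ m N s))
        - 5 * (∑ s ∈ Finset.range N, r s) * (∑ t ∈ Finset.range n, √(α t)) * √BB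
        + ∑ s ∈ Finset.range N, ∑ t ∈ Finset.range n,
          (if s % 2 = 0 then Vs t s - V t s else 0) := by
    simp only [Finset.sum_add_distrib, Finset.sum_sub_distrib]
    congr 1
    · congr 1
      · rw [Finset.sum_const, Finset.card_range, nsmul_eq_mul, Finset.sum_neg_distrib,
          ← Finset.mul_sum]
        ring
      · have : ∀ t, ∑ s ∈ Finset.range N, 5 * r s * √(α t) * √BB
            = 5 * (∑ s ∈ Finset.range N, r s) * √(α t) * √BB := by
          intro t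
          rw [Finset.mul_sum, Finset.sum_mul, Finset.sum_mul]
        simp only [this]
        rw [← Finset.sum_mul, ← Finset.mul_sum]
    · exact Finset.sum_comm
  have tot4 : -(∑ s ∈ Finset.range N, ∑ t ∈ Finset.range n, A s t) - ∑ s ∈ Finset.range N, I s
      ≤ ∑ s ∈ Finset.range N, ∑ t ∈ Finset.range n,
          (if s % 2 = 0 then Vs t s - V t s else 0) := by
    rw [← Finset.sum_neg_distrib, ← Finset.sum_sub_distrib]
    exact Finset.sum_le_sum fun s _ => hexs s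
  have tot5 : (n : ℝ) * (40000000 * ∑ s ∈ Finset.range N, er γ m N s)
      ≤ 5000000000 * tl γ m * n := by
    have := C.sum_er_le m N
    have hn : (0 : ℝ) ≤ n := by positivity
    nlinarith [mul_nonneg hn htl, mul_le_mul_of_nonneg_left this hn]
  have tot6 : 5 * (∑ s ∈ Finset.range N, r s) * (∑ t ∈ Finset.range n, √(α t)) * √BB
      ≤ 40 * (r N) * √n * √(1 + 2 * C1) * √BB := by
    have h7 : (∑ s ∈ Finset.range N, r s) ≤ 8 * r N := hrsum
    have h8 : 0 ≤ ∑ t ∈ Finset.range n, √(α t) := Finset.sum_nonneg fun t _ => Real.sqrt_nonneg _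
    have hrN0 := (hr N).le
    have h9 : 5 * (∑ s ∈ Finset.range N, r s) * (∑ t ∈ Finset.range n, √(α t))
        ≤ 5 * (8 * r N) * (√n * √(1 + 2 * C1)) := by
      apply mul_le_mul (by linarith) hsq h8 (by positivity)
    calc 5 * (∑ s ∈ Finset.range N, r s) * (∑ t ∈ Finset.range n, √(α t)) * √BB
        ≤ 5 * (8 * r N) * (√n * √(1 + 2 * C1)) * √BB :=
          mul_le_mul_of_nonneg_right h9 (Real.sqrt_nonneg _)
      _ = _ := by ring
  rw [hrN]
  rw [tot3] at tot2
  linarith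

end Pool.Agent.K1H85.CL

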