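import Pool.Agent.K1H85.CL.Stm

set_option autoImplicit false

/-!
Project CL, piece CL-19: the frozen martingale.
-/

open MeasureTheory ProbabilityTheory Filter
open scoped Topology BigOperators ENNReal

namespace Pool.Agent.K1H85.CL

universe u v

namespace UPD

section basic

variable {X : Type u} [MeasurableSpace X] {Ω : Type v}

lemma fil_mono (ξ : ℕ → Ω → X) (t : ℕ) : Fil ξ t ≤ Fil ξ (t + 1) := by
  refine iSup_le fun i => ?_
  exact le_iSup (fun j : Fin (t + 1 + 1) => MeasurableSpace.comap (ξ j) inferInstance)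
    ⟨i.1, by omega⟩

lemma fil_meas (ξ : ℕ → Ω → X) (t i : ℕ) (hi : i ≤ t) : Measurable[Fil ξ t] (ξ i) := by
  rw [measurable_iff_comap_le]
  exact le_iSup (fun j : Fin (t + 1) => MeasurableSpace.comap (ξ j) inferInstance)
    ⟨i, by omega⟩

lemma fil_le [MeasurableSpace Ω] (ξ : ℕ → Ω → X) (hξ : ∀ t, Measurable (ξ t)) (t : ℕ) :
    Fil ξ t ≤ (inferInstance : MeasurableSpace Ω) := by
  refine iSup_le fun i => ?_
  exact (hξ i).comap_le

lemma step_M [MeasurableSpace Ω] (M : Ω → ℝ) (x y : Ω → X) (D : X × X → ℝ) (hM : Measurable M)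
    (hx : Measurable x) (hy : Measurable y) (hD : Measurable D) :
    Measurable (fun ω => M ω + D (x ω, y ω)) :=
  hM.add (hD.comp (hx.prodMk hy))

open Classical in
lemma step_m [MeasurableSpace Ω] (M m : Ω → ℝ) (x : Ω → X) (c : ℝ) (Gd : Set X)
    (hM : Measurable M) (hm : Measurable m) (hx : Measurable x) (hGd : MeasurableSet Gd) :
    Measurable (fun ω => if c < |M ω - m ω| ∧ x ω ∈ Gd then M ω else m ω) := by
  refine Measurable.ite ?_ hM hm
  refine MeasurableSet.inter ?_ (hx hGd)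
  exact measurableSet_lt measurable_const (hM.sub hm).abs

lemma trunc_meas [MeasurableSpace Ω] (w : Ω → ℝ) (hw : Measurable w) (K : ℝ) :
    Measurable (fun ω => max (-K) (min K (w ω))) :=
  measurable_const.max (measurable_const.min hw)

end basic

end UPD

open UPD

theorem t_UPD (X : Type u) [MeasurableSpace X] (Ω : Type v) [MeasurableSpace Ω]
    (h : S_WSEQ X Ω) : S_UPD X Ω := by
  intro κ _ π P ξ hC D hD hD2 hD0 c Gd hc hGd
  obtain ⟨hW1, hW2, -⟩ := h κ π P ξ hC
  have := hC.pr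
  have hπ : IsProbabilityMeasure π := by
    rw [← hC.law 0]
    exact Measure.isProbabilityMeasure_map (hC.meas 0).aemeasurable
  -- measurability
  have mM : ∀ t, Measurable[Fil ξ t] (Mt ξ D t) := by
    intro t
    induction t with
    | zero => exact @measurable_const _ _ _ (Fil ξ 0) _
    | succ t ih =>
      exact @step_M X _ Ω (Fil ξ (t + 1)) (Mt ξ D t) (ξ t) (ξ (t + 1)) D
        (ih.mono (fil_mono ξ t) le_rfl) (fil_meas ξ (t + 1) t (by omega))
        (fil_meas ξ (t + 1) (t + 1) le_rfl) hD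
  have mm : ∀ t, Measurable[Fil ξ t] (mt ξ D c Gd t) := by
    intro t
    induction t with
    | zero => exact @measurable_const _ _ _ (Fil ξ 0) _
    | succ t ih =>
      exact @step_m X _ Ω (Fil ξ (t + 1)) (Mt ξ D (t + 1)) (mt ξ D c Gd t) (ξ (t + 1)) c Gd
        (mM (t + 1)) (ih.mono (fil_mono ξ t) le_rfl)
        (fil_meas ξ (t + 1) (t + 1) le_rfl) hGd
  have mM' : ∀ t, Measurable (Mt ξ D t) := fun t => (mM t).mono (fil_le ξ hC.meas t) le_rfl
  have mm' : ∀ t, Measurable (mt ξ D c Gd t) := fun t => (mm t).mono (fil_le ξ hC.meas t) le_rfl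
  have mD : ∀ t, Measurable (fun ω => D (ξ t ω, ξ (t + 1) ω)) := fun t =>
    hD.comp ((hC.meas t).prodMk (hC.meas (t + 1)))
  -- square integrability
  have LD : ∀ t, MemLp (fun ω => D (ξ t ω, ξ (t + 1) ω)) 2 P := by
    intro t
    rw [memLp_two_iff_integrable_sq (mD t).aestronglyMeasurable]
    exact (hW1 t _ hD2).1
  have iD : Integrable D (π ⊗ₘ κ) := by
    have : MemLp D 2 (π ⊗ₘ κ) := by
      rw [memLp_two_iff_integrable_sq hD.aestronglyMeasurable]
      exact hD2
    exact this.integrable (by norm_num)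
  have LM : ∀ t, MemLp (Mt ξ D t) 2 P := by
    intro t
    induction t with
    | zero => exact MemLp.zero
    | succ t ih => exact ih.add (LD t)
  have Lm : ∀ t, MemLp (mt ξ D c Gd t) 2 P := by
    intro t
    induction t with
    | zero => exact MemLp.zero
    | succ t ih =>
      refine ((LM (t + 1)).abs.add ih.abs).mono (mm' (t + 1)).aestronglyMeasurable ?_
      refine Filter.Eventually.of_forall fun ω => ?_
      rw [Real.norm_eq_abs, Real.norm_eq_abs]
      have e : |(|Mt ξ D (t + 1)| + |mt ξ D c Gd t|) ω| =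
          |Mt ξ D (t + 1) ω| + |mt ξ D c Gd t ω| := by
        rw [Pi.add_apply, Pi.abs_apply, Pi.abs_apply]
        exact abs_of_nonneg (by positivity)
      rw [e]
      have e2 : mt ξ D c Gd (t + 1) ω = Mt ξ D (t + 1) ω ∨
          mt ξ D c Gd (t + 1) ω = mt ξ D c Gd t ω := by
        rw [mt]
        split_ifs
        · exact Or.inl rfl
        · exact Or.inr rfl
      rcases e2 with e2 | e2 <;> rw [e2] <;> simp
  -- orthogonality
  have orth : ∀ (t : ℕ) (w : Ω → ℝ), Measurable[Fil ξ t] w → MemLp w 2 P →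
      ∫ ω, w ω * D (ξ t ω, ξ (t + 1) ω) ∂P = 0 := by
    intro t w hw hw2
    have hwm : Measurable w := hw.mono (fil_le ξ hC.meas t) le_rfl
    have hint : Integrable (fun ω => w ω * D (ξ t ω, ξ (t + 1) ω)) P :=
      hw2.integrable_mul (LD t)
    have hK : ∀ K : ℕ, ∫ ω, max (-(K : ℝ)) (min (K : ℝ) (w ω)) * D (ξ t ω, ξ (t + 1) ω) ∂P = 0 := by
      intro K
      refine hW2 t D _ ?_ ⟨K, fun ω => ?_⟩ iD hD0
      · exact @trunc_meas Ω (Fil ξ t) w hw K
      · rw [abs_le]
        have : (0 : ℝ) ≤ K := Nat.cast_nonneg K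
        exact ⟨le_max_left _ _, max_le (by linarith) (min_le_left _ _)⟩
    have hlim : Tendsto (fun K : ℕ =>
        ∫ ω, max (-(K : ℝ)) (min (K : ℝ) (w ω)) * D (ξ t ω, ξ (t + 1) ω) ∂P) atTop
        (𝓝 (∫ ω, w ω * D (ξ t ω, ξ (t + 1) ω) ∂P)) := by
      refine tendsto_integral_of_dominated_convergence
        (fun ω => |w ω * D (ξ t ω, ξ (t + 1) ω)|) ?_ hint.abs ?_ ?_
      · intro K
        exact ((measurable_const.max (measurable_const.min hwm)).mul
          (mD t)).aestronglyMeasurable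
      · intro K
        refine Filter.Eventually.of_forall fun ω => ?_
        rw [Real.norm_eq_abs, abs_mul, abs_mul]
        refine mul_le_mul_of_nonneg_right ?_ (abs_nonneg _)
        have hK0 : (0 : ℝ) ≤ K := Nat.cast_nonneg K
        rw [abs_le]
        constructor
        · rcases le_total 0 (w ω) with h0 | h0
          · have : 0 ≤ min (K : ℝ) (w ω) := le_min hK0 h0
            linarith [abs_nonneg (w ω), le_max_right (-(K : ℝ)) (min (K : ℝ) (w ω))]
          · rw [abs_of_nonpos h0, neg_neg]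
            have : min (K : ℝ) (w ω) = w ω := min_eq_right (by linarith)
            rw [this]
            exact le_max_right _ _
        · refine max_le (by linarith [abs_nonneg (w ω)]) ?_
          exact (min_le_right _ _).trans (le_abs_self _)
      · refine Filter.Eventually.of_forall fun ω => ?_
        refine Tendsto.mul_const _ ?_
        obtain ⟨N, hN⟩ := exists_nat_ge |w ω|
        refine tendsto_const_nhds.congr' ?_
        filter_upwards [eventually_ge_atTop N] with K hNK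
        have h1 : |w ω| ≤ K := hN.trans (by exact_mod_cast hNK)
        rw [abs_le] at h1
        rw [min_eq_right h1.2, max_eq_right h1.1]
    simp only [hK] at hlim
    exact (tendsto_nhds_unique hlim tendsto_const_nhds)
  have hsq : ∀ (t : ℕ) (w : Ω → ℝ), Measurable[Fil ξ t] w → MemLp w 2 P →
      ∫ ω, (w ω + D (ξ t ω, ξ (t + 1) ω)) ^ 2 ∂P =
        ∫ ω, w ω ^ 2 ∂P + ∫ p, D p ^ 2 ∂(π ⊗ₘ κ) := by
    intro t w hw hw2
    have h1 := orth t w hw hw2
    have h2 : Integrable (fun ω => w ω * D (ξ t ω, ξ (t + 1) ω)) P :=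
      hw2.integrable_mul (LD t)
    have h3 : Integrable (fun ω => w ω ^ 2) P := hw2.integrable_sq
    have h4 : Integrable (fun ω => D (ξ t ω, ξ (t + 1) ω) ^ 2) P := (LD t).integrable_sq
    have h5 : ∫ ω, D (ξ t ω, ξ (t + 1) ω) ^ 2 ∂P = ∫ p, D p ^ 2 ∂(π ⊗ₘ κ) :=
      (hW1 t (fun p => D p ^ 2) hD2).2
    have e : ∀ ω, (w ω + D (ξ t ω, ξ (t + 1) ω)) ^ 2 =
        w ω ^ 2 + 2 * (w ω * D (ξ t ω, ξ (t + 1) ω)) + D (ξ t ω, ξ (t + 1) ω) ^ 2 := by
      intro ω
      ring
    simp only [e]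
    have h6 := integral_add (h3.add (h2.const_mul 2)) h4
    have h7 := integral_add h3 (h2.const_mul 2)
    simp only [Pi.add_apply] at h6 h7
    rw [h6, h7, integral_const_mul, h1, h5]
    ring
  have hM2 : ∀ t : ℕ, ∫ ω, Mt ξ D t ω ^ 2 ∂P = t * ∫ p, D p ^ 2 ∂(π ⊗ₘ κ) := by
    intro t
    induction t with
    | zero => simp [Mt]
    | succ t ih =>
      have := hsq t (Mt ξ D t) (mM t) (LM t)
      simp only [Mt]
      rw [this, ih]
      push_cast
      ring
  refine ⟨mM, mm, LM, hM2, ?_, ?_, ?_⟩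
  · intro t ω
    cases t with
    | zero => left; simpa [Mt, mt] using hc.le
    | succ t =>
      rw [mt]
      split_ifs with hif
      · left
        simpa using hc.le
      · rw [not_and_or, not_lt] at hif
        exact hif
  · intro t ω hω
    rw [mt, if_neg (fun hh => hω hh.2)]
  · intro n
    have key : ∀ t : ℕ, (P {ω | mt ξ D c Gd (t + 1) ω ≠ mt ξ D c Gd t ω}).toReal * c ^ 2 ≤
        ∫ ω, (Mt ξ D t ω - mt ξ D c Gd t ω) ^ 2 ∂P + ∫ p, D p ^ 2 ∂(π ⊗ₘ κ) -
          ∫ ω, (Mt ξ D (t + 1) ω - mt ξ D c Gd (t + 1) ω) ^ 2 ∂P := by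
      intro t
      have hZ := hsq t (fun ω => Mt ξ D t ω - mt ξ D c Gd t ω) ((mM t).sub (mm t))
        ((LM t).sub (Lm t))
      have hI : Integrable (fun ω => (mt ξ D c Gd (t + 1) ω - mt ξ D c Gd t ω) ^ 2) P :=
        ((Lm (t + 1)).sub (Lm t)).integrable_sq
      have hJ : Integrable (fun ω => (Mt ξ D (t + 1) ω - mt ξ D c Gd t ω) ^ 2) P :=
        ((LM (t + 1)).sub (Lm t)).integrable_sq
      have e1 : ∀ ω, (Mt ξ D (t + 1) ω - mt ξ D c Gd (t + 1) ω) ^ 2 =
          (Mt ξ D (t + 1) ω - mt ξ D c Gd t ω) ^ 2 -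
            (mt ξ D c Gd (t + 1) ω - mt ξ D c Gd t ω) ^ 2 := by
        intro ω
        have e2 : mt ξ D c Gd (t + 1) ω = Mt ξ D (t + 1) ω ∨
            mt ξ D c Gd (t + 1) ω = mt ξ D c Gd t ω := by
          rw [mt]
          split_ifs
          · exact Or.inl rfl
          · exact Or.inr rfl
        rcases e2 with e2 | e2 <;> rw [e2] <;> ring
      have e3 : ∫ ω, (Mt ξ D (t + 1) ω - mt ξ D c Gd (t + 1) ω) ^ 2 ∂P =
          ∫ ω, (Mt ξ D (t + 1) ω - mt ξ D c Gd t ω) ^ 2 ∂P -
            ∫ ω, (mt ξ D c Gd (t + 1) ω - mt ξ D c Gd t ω) ^ 2 ∂P := by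
        rw [← integral_sub hJ hI]
        exact integral_congr_ae (Filter.Eventually.of_forall e1)
      have e4 : ∫ ω, (Mt ξ D (t + 1) ω - mt ξ D c Gd t ω) ^ 2 ∂P =
          ∫ ω, (Mt ξ D t ω - mt ξ D c Gd t ω) ^ 2 ∂P + ∫ p, D p ^ 2 ∂(π ⊗ₘ κ) := by
        rw [← hZ]
        refine integral_congr_ae (Filter.Eventually.of_forall fun ω => ?_)
        simp only [Mt]
        ring
      have hS : MeasurableSet {ω | mt ξ D c Gd (t + 1) ω ≠ mt ξ D c Gd t ω} :=
        (measurableSet_eq_fun (mm' (t + 1)) (mm' t)).compl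
      have e5 : (P {ω | mt ξ D c Gd (t + 1) ω ≠ mt ξ D c Gd t ω}).toReal * c ^ 2 ≤
          ∫ ω, (mt ξ D c Gd (t + 1) ω - mt ξ D c Gd t ω) ^ 2 ∂P := by
        have e6 : (P {ω | mt ξ D c Gd (t + 1) ω ≠ mt ξ D c Gd t ω}).toReal * c ^ 2 =
            ∫ ω, Set.indicator {ω | mt ξ D c Gd (t + 1) ω ≠ mt ξ D c Gd t ω}
              (fun _ => c ^ 2) ω ∂P := by
          rw [integral_indicator_const _ hS]
          rfl
        rw [e6]
        refine integral_mono ((integrable_const _).indicator hS) hI ?_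
        intro ω
        by_cases hω : ω ∈ {ω | mt ξ D c Gd (t + 1) ω ≠ mt ξ D c Gd t ω}
        · rw [Set.indicator_of_mem hω]
          have h7 : c < |mt ξ D c Gd (t + 1) ω - mt ξ D c Gd t ω| := by
            have h8 : mt ξ D c Gd (t + 1) ω ≠ mt ξ D c Gd t ω := hω
            rw [mt] at h8 ⊢
            split_ifs at h8 ⊢ with hif
            · exact hif.1
            · exact absurd rfl h8
          calc c ^ 2 ≤ |mt ξ D c Gd (t + 1) ω - mt ξ D c Gd t ω| ^ 2 :=
                pow_le_pow_left₀ hc.le h7.le 2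
            _ = _ := sq_abs _
        · rw [Set.indicator_of_notMem hω]
          positivity
      linarith
    have hsum : ∀ n : ℕ, (∑ t ∈ Finset.range n,
        (P {ω | mt ξ D c Gd (t + 1) ω ≠ mt ξ D c Gd t ω}).toReal) * c ^ 2 ≤
        n * (∫ p, D p ^ 2 ∂(π ⊗ₘ κ)) -
          ∫ ω, (Mt ξ D n ω - mt ξ D c Gd n ω) ^ 2 ∂P := by
      intro n
      induction n with
      | zero => simp [Mt, mt]
      | succ n ih =>
        rw [Finset.sum_range_succ, add_mul]
        have := key n
        push_cast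
        linarith
    have hn := hsum n
    have h0 : 0 ≤ ∫ ω, (Mt ξ D n ω - mt ξ D c Gd n ω) ^ 2 ∂P :=
      integral_nonneg fun ω => sq_nonneg _
    rw [le_div_iff₀ (by positivity)]
    linarith

end Pool.Agent.K1H85.CL
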