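import Pool.Agent.K1H85.CL.Stm

/-!
Project CL, piece VAR : the second moments of the martingale differences converge.
-/

open MeasureTheory ProbabilityTheory Filter
open scoped Topology BigOperators ENNReal

namespace Pool.Agent.K1H85.CL

universe u

namespace VAR

variable {X : Type u} [MeasurableSpace X]

theorem lin3 {α : Type*} [MeasurableSpace α] {ν : Measure α} {F G H : α → ℝ}
    (hF : Integrable F ν) (hG : Integrable G ν) (hH : Integrable H ν) (s t : ℝ) :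
    ∫ x, (F x + s * G x + t * H x) ∂ν = ∫ x, F x ∂ν + s * ∫ x, G x ∂ν + t * ∫ x, H x ∂ν := by
  have h1 : ∫ x, (F x + s * G x + t * H x) ∂ν =
      ∫ x, (F x + s * G x) ∂ν + ∫ x, t * H x ∂ν :=
    integral_add (hF.add (hG.const_mul s)) (hH.const_mul t)
  have h2 : ∫ x, (F x + s * G x) ∂ν = ∫ x, F x ∂ν + ∫ x, s * G x ∂ν :=
    integral_add hF (hG.const_mul s)
  rw [h1, h2, integral_const_mul, integral_const_mul]

/-- Cauchy-Schwarz -/
theorem cs {α : Type*} [MeasurableSpace α] {ν : Measure α} {φ ψ : α → ℝ} (hφ : MemLp φ 2 ν)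
    (hψ : MemLp ψ 2 ν) : (∫ x, φ x * ψ x ∂ν) ^ 2 ≤ (∫ x, φ x ^ 2 ∂ν) * ∫ x, ψ x ^ 2 ∂ν := by
  have i1 : Integrable (fun x => φ x ^ 2) ν := hφ.integrable_sq
  have i2 : Integrable (fun x => ψ x ^ 2) ν := hψ.integrable_sq
  have i3 : Integrable (fun x => φ x * ψ x) ν := hφ.integrable_mul hψ
  have key : ∀ t : ℝ, 0 ≤ (∫ x, φ x ^ 2 ∂ν) * (t * t) + (2 * ∫ x, φ x * ψ x ∂ν) * t
      + ∫ x, ψ x ^ 2 ∂ν := by
    intro t
    have h0 : 0 ≤ ∫ x, (t * φ x + ψ x) ^ 2 ∂ν := integral_nonneg fun x => sq_nonneg _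
    have h1 : ∫ x, (t * φ x + ψ x) ^ 2 ∂ν =
        (∫ x, φ x ^ 2 ∂ν) * (t * t) + (2 * ∫ x, φ x * ψ x ∂ν) * t + ∫ x, ψ x ^ 2 ∂ν := by
      have e : (fun x => (t * φ x + ψ x) ^ 2) =
          fun x => ψ x ^ 2 + (t * t) * φ x ^ 2 + (2 * t) * (φ x * ψ x) := by
        ext x; ring
      rw [e, lin3 i2 i1 i3]
      ring
    rw [h1] at h0
    exact h0
  have h := discrim_le_zero key
  unfold discrim at h
  nlinarith

theorem cs' {α : Type*} [MeasurableSpace α] {ν : Measure α} {φ ψ : α → ℝ} (hφ : MemLp φ 2 ν)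
    (hψ : MemLp ψ 2 ν) {A B D : ℝ} (hA : ∫ x, φ x ^ 2 ∂ν ≤ A) (hB : ∫ x, ψ x ^ 2 ∂ν ≤ B)
    (hD : 0 ≤ D) (h : A * B ≤ D ^ 2) : |∫ x, φ x * ψ x ∂ν| ≤ D := by
  apply abs_le_of_sq_le_sq _ hD
  have h1 := cs hφ hψ
  have h0 : 0 ≤ ∫ x, φ x ^ 2 ∂ν := integral_nonneg fun x => sq_nonneg _
  have h0' : 0 ≤ ∫ x, ψ x ^ 2 ∂ν := integral_nonneg fun x => sq_nonneg _
  calc (∫ x, φ x * ψ x ∂ν) ^ 2 ≤ _ := h1
    _ ≤ A * B := mul_le_mul hA hB h0' (h0.trans hA)
    _ ≤ D ^ 2 := h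

section

variable {π : Measure X} {μ : Measure (X × X)} {f : X → ℝ} {g h a b : ℕ → X → ℝ} {γ : ℕ → ℝ}

theorem mem1 (C : Cor π μ f g h a b γ) {φ : X → ℝ} (hφ : MemLp φ 2 π) :
    MemLp (fun p : X × X => φ p.1) 2 μ := by
  have h1 : MemLp φ 2 (μ.map Prod.fst) := by rw [C.fst]; exact hφ
  exact h1.comp_of_map measurable_fst.aemeasurable

theorem mem2 (C : Cor π μ f g h a b γ) {φ : X → ℝ} (hφ : MemLp φ 2 π) :
    MemLp (fun p : X × X => φ p.2) 2 μ := by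
  have h1 : MemLp φ 2 (μ.map Prod.snd) := by rw [C.snd]; exact hφ
  exact h1.comp_of_map measurable_snd.aemeasurable

theorem int1 (C : Cor π μ f g h a b γ) {φ : X → ℝ} (hφ : AEStronglyMeasurable φ π) :
    ∫ p : X × X, φ p.1 ∂μ = ∫ x, φ x ∂π := by
  rw [← C.fst] at hφ ⊢
  exact (integral_map measurable_fst.aemeasurable hφ).symm

theorem int2 (C : Cor π μ f g h a b γ) {φ : X → ℝ} (hφ : AEStronglyMeasurable φ π) :
    ∫ p : X × X, φ p.2 ∂μ = ∫ x, φ x ∂π := by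
  rw [← C.snd] at hφ ⊢
  exact (integral_map measurable_snd.aemeasurable hφ).symm

theorem orth (C : Cor π μ f g h a b γ) (j : ℕ) (Φ : X → ℝ) (hΦ : MemLp Φ 2 π) :
    ∫ p, Φ p.1 * DD f g a j p ∂μ = 0 := by
  have hf1 := mem1 C C.Lf
  have hg1 := mem1 C (C.Lg j)
  have hg2 := mem2 C (C.Lg j)
  have ha1 := mem1 C (C.La j)
  have hΦ1 := mem1 C hΦ
  have i1 : Integrable (fun p : X × X => Φ p.1 * (f p.1 - g j p.1 + g j p.2)) μ :=
    hΦ1.integrable_mul ((hf1.sub hg1).add hg2)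
  have i2 : Integrable (fun p : X × X => Φ p.1 * a j p.1) μ := hΦ1.integrable_mul ha1
  have e : (fun p : X × X => Φ p.1 * DD f g a j p) =
      fun p => Φ p.1 * (f p.1 - g j p.1 + g j p.2) - Φ p.1 * a j p.1 := by
    ext p; unfold DD; ring
  rw [e, integral_sub i1 i2, C.da j Φ hΦ,
    int1 C (φ := fun x => Φ x * a j x) (hΦ.1.mul (C.La j).1), sub_self]

theorem memDD (C : Cor π μ f g h a b γ) (j : ℕ) : MemLp (DD f g a j) 2 μ := by
  have hf1 := mem1 C C.Lf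
  have hg1 := mem1 C (C.Lg j)
  have hg2 := mem2 C (C.Lg j)
  have ha1 := mem1 C (C.La j)
  exact ((hg2.sub hg1).add hf1).sub ha1

/-- the second moment of the martingale differences -/
theorem sq_DD (C : Cor π μ f g h a b γ) (j : ℕ) :
    ∫ p, DD f g a j p ^ 2 ∂μ = 2 * ∫ x, f x * g j x ∂π - ∫ x, f x ^ 2 ∂π
      + (2 * ∫ x, f x * a j x ∂π - 2 * ∫ x, g j x * a j x ∂π - ∫ x, a j x ^ 2 ∂π) := by
  have hf1 := mem1 C C.Lf
  have hg1 := mem1 C (C.Lg j)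
  have hg2 := mem2 C (C.Lg j)
  have ha1 := mem1 C (C.La j)
  have hu : MemLp (fun x => f x - g j x) 2 π := C.Lf.sub (C.Lg j)
  have hu1 := mem1 C hu
  have hv : MemLp (fun p : X × X => f p.1 - g j p.1 + g j p.2) 2 μ := (hf1.sub hg1).add hg2
  have hD := memDD C j
  -- step 1
  have e1 : ∫ p, DD f g a j p ^ 2 ∂μ =
      ∫ p : X × X, (f p.1 - g j p.1 + g j p.2) ^ 2 ∂μ - ∫ x, a j x ^ 2 ∂π := by
    have h1 := orth C j (a j) (C.La j)
    have h2 := C.da j (a j) (C.La j)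
    have e : (fun p : X × X => DD f g a j p ^ 2) = fun p =>
        (f p.1 - g j p.1 + g j p.2) ^ 2 + (-1) * (a j p.1 * (f p.1 - g j p.1 + g j p.2))
          + (-1) * (a j p.1 * DD f g a j p) := by
      ext p; unfold DD; ring
    have i1 : Integrable (fun p : X × X => (f p.1 - g j p.1 + g j p.2) ^ 2) μ := hv.integrable_sq
    have i2 : Integrable (fun p : X × X => a j p.1 * (f p.1 - g j p.1 + g j p.2)) μ :=
      ha1.integrable_mul hv
    have i3 : Integrable (fun p : X × X => a j p.1 * DD f g a j p) μ := ha1.integrable_mul hD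
    have e' : ∫ x, a j x ^ 2 ∂π = ∫ x, a j x * a j x ∂π := by
      congr 1
      ext x
      ring
    rw [e, lin3 i1 i2 i3, h1, h2, e']
    ring
  have e2 : ∫ p : X × X, (f p.1 - g j p.1 + g j p.2) ^ 2 ∂μ =
      ∫ x, g j x ^ 2 ∂π - ∫ x, (f x - g j x) ^ 2 ∂π + 2 * ∫ x, (f x - g j x) * a j x ∂π := by
    have h2 := C.da j (fun x => f x - g j x) hu
    have e : (fun p : X × X => (f p.1 - g j p.1 + g j p.2) ^ 2) = fun p =>
        g j p.2 ^ 2 + (-1) * (f p.1 - g j p.1) ^ 2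
          + 2 * ((f p.1 - g j p.1) * (f p.1 - g j p.1 + g j p.2)) := by
      ext p; ring
    have i1 : Integrable (fun p : X × X => g j p.2 ^ 2) μ := hg2.integrable_sq
    have i2 : Integrable (fun p : X × X => (f p.1 - g j p.1) ^ 2) μ := hu1.integrable_sq
    have i3 : Integrable (fun p : X × X => (f p.1 - g j p.1) * (f p.1 - g j p.1 + g j p.2)) μ :=
      hu1.integrable_mul hv
    rw [e, lin3 i1 i2 i3, h2,
      int1 C (φ := fun x => (f x - g j x) ^ 2) (hu.1.pow 2),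
      int2 C (φ := fun x => g j x ^ 2) ((C.Lg j).1.pow 2)]
    ring
  have e3 : ∫ x, (f x - g j x) ^ 2 ∂π =
      ∫ x, f x ^ 2 ∂π - 2 * ∫ x, f x * g j x ∂π + ∫ x, g j x ^ 2 ∂π := by
    have e : (fun x => (f x - g j x) ^ 2) =
        fun x => f x ^ 2 + (-2) * (f x * g j x) + 1 * g j x ^ 2 := by
      ext x; ring
    have i1 : Integrable (fun x => f x ^ 2) π := C.Lf.integrable_sq
    have i2 : Integrable (fun x => f x * g j x) π := C.Lf.integrable_mul (C.Lg j)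
    have i3 : Integrable (fun x => g j x ^ 2) π := (C.Lg j).integrable_sq
    rw [e, lin3 i1 i2 i3]
    ring
  have e4 : ∫ x, (f x - g j x) * a j x ∂π = ∫ x, f x * a j x ∂π - ∫ x, g j x * a j x ∂π := by
    have e : (fun x => (f x - g j x) * a j x) = fun x => f x * a j x - g j x * a j x := by
      ext x; ring
    have i1 : Integrable (fun x => f x * a j x) π := C.Lf.integrable_mul (C.La j)
    have i2 : Integrable (fun x => g j x * a j x) π := (C.Lg j).integrable_mul (C.La j)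
    rw [e, integral_sub i1 i2]
  rw [e1, e2, e3, e4]
  ring

theorem incr (C : Cor π μ f g h a b γ) (j : ℕ) :
    ∫ x, f x * g (j + 1) x ∂π - ∫ x, f x * g j x ∂π =
      (∫ x, g (j + 1) x * b j x ∂π - ∫ x, g j x * b j x ∂π)
        - (∫ x, h j x * a (j + 1) x ∂π - ∫ x, h j x * a j x ∂π) := by
  have hg := C.Lg j
  have hg' := C.Lg (j + 1)
  have hq : MemLp (fun x => g (j + 1) x - g j x) 2 π := hg'.sub hg
  have hh := C.Lh j
  have hf1 := mem1 C C.Lf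
  have hf2 := mem2 C C.Lf
  have hq1 := mem1 C hq
  have hq2 := mem2 C hq
  have hh1 := mem1 C hh
  have hh2 := mem2 C hh
  have h1 := C.db j (fun x => g (j + 1) x - g j x) hq
  have h2 := C.da (j + 1) (h j) hh
  have h3 := C.da j (h j) hh
  -- left side of h1
  have i1 : Integrable (fun p : X × X => (g (j + 1) p.2 - g j p.2) * f p.2) μ :=
    hq2.integrable_mul hf2
  have i2 : Integrable (fun p : X × X => (g (j + 1) p.2 - g j p.2) * h j p.2) μ :=
    hq2.integrable_mul hh2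
  have i3 : Integrable (fun p : X × X => (g (j + 1) p.2 - g j p.2) * h j p.1) μ :=
    hq2.integrable_mul hh1
  have e1 : ∫ p : X × X, (g (j + 1) p.2 - g j p.2) * (f p.2 - h j p.2 + h j p.1) ∂μ =
      ∫ x, (g (j + 1) x - g j x) * f x ∂π - ∫ x, (g (j + 1) x - g j x) * h j x ∂π
        + ∫ p : X × X, (g (j + 1) p.2 - g j p.2) * h j p.1 ∂μ := by
    have e : (fun p : X × X => (g (j + 1) p.2 - g j p.2) * (f p.2 - h j p.2 + h j p.1)) =
        fun p => (g (j + 1) p.2 - g j p.2) * f p.2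
          + (-1) * ((g (j + 1) p.2 - g j p.2) * h j p.2)
          + 1 * ((g (j + 1) p.2 - g j p.2) * h j p.1) := by
      ext p; ring
    rw [e, lin3 i1 i2 i3,
      int2 C (φ := fun x => (g (j + 1) x - g j x) * f x) (hq.1.mul C.Lf.1),
      int2 C (φ := fun x => (g (j + 1) x - g j x) * h j x) (hq.1.mul hh.1)]
    ring
  have e2 : ∫ x, h j x * a (j + 1) x ∂π - ∫ x, h j x * a j x ∂π =
      ∫ p : X × X, (g (j + 1) p.2 - g j p.2) * h j p.1 ∂μ
        - ∫ x, (g (j + 1) x - g j x) * h j x ∂π := by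
    have i4 : Integrable (fun p : X × X => h j p.1 * (f p.1 - g (j + 1) p.1 + g (j + 1) p.2)) μ :=
      hh1.integrable_mul ((hf1.sub (mem1 C hg')).add (mem2 C hg'))
    have i5 : Integrable (fun p : X × X => h j p.1 * (f p.1 - g j p.1 + g j p.2)) μ :=
      hh1.integrable_mul ((hf1.sub (mem1 C hg)).add (mem2 C hg))
    have i6 : Integrable (fun p : X × X => (g (j + 1) p.1 - g j p.1) * h j p.1) μ :=
      hq1.integrable_mul hh1
    rw [← h2, ← h3, ← integral_sub i4 i5,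
      ← int1 C (φ := fun x => (g (j + 1) x - g j x) * h j x) (hq.1.mul hh.1),
      ← integral_sub i3 i6]
    congr 1
    ext p
    ring
  have e3 : ∫ x, (g (j + 1) x - g j x) * f x ∂π =
      ∫ x, f x * g (j + 1) x ∂π - ∫ x, f x * g j x ∂π := by
    have i1 : Integrable (fun x => f x * g (j + 1) x) π := C.Lf.integrable_mul hg'
    have i2 : Integrable (fun x => f x * g j x) π := C.Lf.integrable_mul hg
    rw [← integral_sub i1 i2]
    congr 1
    ext x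
    ring
  have e4 : ∫ x, (g (j + 1) x - g j x) * b j x ∂π =
      ∫ x, g (j + 1) x * b j x ∂π - ∫ x, g j x * b j x ∂π := by
    have i1 : Integrable (fun x => g (j + 1) x * b j x) π := hg'.integrable_mul (C.Lb j)
    have i2 : Integrable (fun x => g j x * b j x) π := hg.integrable_mul (C.Lb j)
    rw [← integral_sub i1 i2]
    congr 1
    ext x
    ring
  linarith

theorem bnd (C : Cor π μ f g h a b γ) (j : ℕ) :
    |∫ x, f x * a j x ∂π| ≤ γ j ^ 2 ∧ |∫ x, g j x * a j x ∂π| ≤ γ j ^ 2 ∧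
    |∫ x, g j x * b j x ∂π| ≤ γ j ^ 2 ∧ |∫ x, h j x * a j x ∂π| ≤ γ j ^ 2 ∧
    ∫ x, a j x ^ 2 ∂π ≤ γ j ^ 2 ∧ ∫ x, b j x ^ 2 ∂π ≤ γ j ^ 2 ∧
    |∫ x, g (j + 1) x * b j x ∂π| ≤ gm γ j ∧ |∫ x, h j x * a (j + 1) x ∂π| ≤ gm γ j := by
  have h2 : (0 : ℝ) < 2 ^ j := by positivity
  have hp : (2 : ℝ) ^ j * γ j ^ 2 * (γ j ^ 2 / 2 ^ j) ≤ (γ j ^ 2) ^ 2 := by
    apply le_of_eq; field_simp
  have hle : γ j ^ 2 / 2 ^ j ≤ γ j ^ 2 := by
    apply div_le_self (sq_nonneg _)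
    exact one_le_pow₀ (by norm_num)
  have hgm : 0 ≤ gm γ j := by unfold gm; positivity
  refine ⟨cs' C.Lf (C.La j) (C.nf j) (C.na j) (sq_nonneg _) hp,
    cs' (C.Lg j) (C.La j) (C.ng j) (C.na j) (sq_nonneg _) hp,
    cs' (C.Lg j) (C.Lb j) (C.ng j) (C.nb j) (sq_nonneg _) hp,
    cs' (C.Lh j) (C.La j) (C.nh j) (C.na j) (sq_nonneg _) hp,
    (C.na j).trans hle, (C.nb j).trans hle,
    cs' (C.Lg (j + 1)) (C.Lb j) (C.ng (j + 1)) (C.nb j) hgm ?_,
    cs' (C.Lh j) (C.La (j + 1)) (C.nh j) (C.na (j + 1)) hgm ?_⟩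
  · have e : (2 : ℝ) ^ (j + 1) * γ (j + 1) ^ 2 * (γ j ^ 2 / 2 ^ j) =
        2 * (γ (j + 1) ^ 2 * γ j ^ 2) := by
      rw [pow_succ]; field_simp
    rw [e]
    unfold gm
    nlinarith [sq_nonneg (γ j ^ 2), sq_nonneg (γ (j + 1) ^ 2), sq_nonneg (γ j ^ 2 - γ (j + 1) ^ 2)]
  · have e : (2 : ℝ) ^ j * γ j ^ 2 * (γ (j + 1) ^ 2 / 2 ^ (j + 1)) =
        (γ (j + 1) ^ 2 * γ j ^ 2) / 2 := by
      have e2 : (2 : ℝ) ^ (j + 1) = 2 * 2 ^ j := pow_succ' 2 j
      rw [e2]; field_simp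
    rw [e]
    unfold gm
    nlinarith [sq_nonneg (γ j ^ 2), sq_nonneg (γ (j + 1) ^ 2), sq_nonneg (γ j ^ 2 - γ (j + 1) ^ 2),
      mul_nonneg (sq_nonneg (γ (j + 1))) (sq_nonneg (γ j))]

theorem conv (C : Cor π μ f g h a b γ) :
    ∃ σ2 : ℝ, 0 ≤ σ2 ∧ Tendsto (fun j => ∫ p, DD f g a j p ^ 2 ∂μ) atTop (𝓝 σ2) := by
  have hs := C.sγ
  have hs1 : Summable (fun j => γ (j + 1) ^ 2) := (summable_nat_add_iff 1).mpr hs
  have hγ0 : Tendsto (fun j => γ j ^ 2) atTop (𝓝 0) := hs.tendsto_atTop_zero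
  -- convergence of the main term
  set q : ℕ → ℝ := fun j => ∫ x, f x * g (j + 1) x ∂π - ∫ x, f x * g j x ∂π with hq
  have hqb : ∀ j, ‖q j‖ ≤ 4 * (γ j ^ 2 + γ (j + 1) ^ 2) := by
    intro j
    obtain ⟨_, _, b3, b4, _, _, b7, b8⟩ := bnd C j
    have hG : γ j ^ 2 ≤ gm γ j := by unfold gm; nlinarith [sq_nonneg (γ (j + 1))]
    have e : 4 * (γ j ^ 2 + γ (j + 1) ^ 2) = 4 * gm γ j := rfl
    rw [e, hq, Real.norm_eq_abs]
    simp only
    rw [incr C j]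
    rw [abs_le] at b3 b4 b7 b8 ⊢
    constructor <;> linarith [b3.1, b3.2, b4.1, b4.2, b7.1, b7.2, b8.1, b8.2]
  have hqs : Summable q := Summable.of_norm_bounded ((hs.add hs1).mul_left 4) hqb
  have htel : ∀ j, ∑ i ∈ Finset.range j, q i =
      ∫ x, f x * g j x ∂π - ∫ x, f x * g 0 x ∂π := by
    intro j
    rw [hq]
    exact Finset.sum_range_sub (fun j => ∫ x, f x * g j x ∂π) j
  obtain ⟨Q, hQ⟩ := hqs
  have h1 : Tendsto (fun j => ∫ x, f x * g j x ∂π) atTop (𝓝 (Q + ∫ x, f x * g 0 x ∂π)) := by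
    have := (hQ.tendsto_sum_nat).add_const (∫ x, f x * g 0 x ∂π)
    refine this.congr fun j => ?_
    rw [htel j]
    ring
  have h2 : Tendsto (fun j => 2 * ∫ x, f x * a j x ∂π - 2 * ∫ x, g j x * a j x ∂π
      - ∫ x, a j x ^ 2 ∂π) atTop (𝓝 0) := by
    apply squeeze_zero_norm (a := fun j => 5 * γ j ^ 2)
    · intro j
      obtain ⟨b1, b2, _, _, b5, _, _, _⟩ := bnd C j
      have b0 : 0 ≤ ∫ x, a j x ^ 2 ∂π := integral_nonneg fun x => sq_nonneg _
      rw [Real.norm_eq_abs]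
      rw [abs_le] at b1 b2 ⊢
      constructor <;> linarith [b1.1, b1.2, b2.1, b2.2]
    · simpa using hγ0.const_mul 5
  have h3 : Tendsto (fun j => ∫ p, DD f g a j p ^ 2 ∂μ) atTop
      (𝓝 (2 * (Q + ∫ x, f x * g 0 x ∂π) - ∫ x, f x ^ 2 ∂π + 0)) := by
    refine Tendsto.congr (fun j => (sq_DD C j).symm) ?_
    exact ((h1.const_mul 2).sub_const _).add h2
  refine ⟨_, ?_, h3⟩
  exact ge_of_tendsto' h3 fun j => integral_nonneg fun p => sq_nonneg _

theorem swap (C : Cor π μ f g h a b γ) : Cor π (μ.map Prod.swap) f h g b a γ where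
  pp := C.pp
  pm := by
    have := C.pm
    exact Measure.isProbabilityMeasure_map measurable_swap.aemeasurable
  fst := by
    rw [Measure.map_map measurable_fst measurable_swap]
    exact C.snd
  snd := by
    rw [Measure.map_map measurable_snd measurable_swap]
    exact C.fst
  mf := C.mf
  mg := C.mh
  mh := C.mg
  ma := C.mb
  mb := C.ma
  Lf := C.Lf
  Lg := C.Lh
  Lh := C.Lg
  La := C.Lb
  Lb := C.La
  da := fun j Φ hΦ => by
    have := integral_map_equiv (μ := μ) (MeasurableEquiv.prodComm (α := X) (β := X))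
      (fun p : X × X => Φ p.1 * (f p.1 - h j p.1 + h j p.2))
    rw [← C.db j Φ hΦ]
    exact this
  db := fun j Φ hΦ => by
    have := integral_map_equiv (μ := μ) (MeasurableEquiv.prodComm (α := X) (β := X))
      (fun p : X × X => Φ p.2 * (f p.2 - g j p.2 + g j p.1))
    rw [← C.da j Φ hΦ]
    exact this
  nf := C.nf
  ng := C.nh
  nh := C.ng
  na := C.nb
  nb := C.na
  γ0 := C.γ0
  sγ := C.sγ

theorem bdd (C : Cor π μ f g h a b γ) :
    ∃ BD : ℝ, 0 ≤ BD ∧ ∀ j, ∫ p, (h j p.1 - h j p.2 + f p.2) ^ 2 ∂μ ≤ BD := by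
  obtain ⟨σ, _, hσ⟩ := conv (swap C)
  obtain ⟨B1, hB1⟩ := hσ.bddAbove_range
  obtain ⟨B2, hB2⟩ := (C.sγ.tendsto_atTop_zero).bddAbove_range
  have hB1' : ∀ j, ∫ p, DD f h b j p ^ 2 ∂(μ.map Prod.swap) ≤ B1 := fun j => hB1 ⟨j, rfl⟩
  have hB2' : ∀ j, γ j ^ 2 ≤ B2 := fun j => hB2 ⟨j, rfl⟩
  have hB10 : 0 ≤ B1 := (integral_nonneg fun p => sq_nonneg _).trans (hB1' 0)
  have hB20 : 0 ≤ B2 := (sq_nonneg _).trans (hB2' 0)
  refine ⟨2 * B1 + 2 * B2, by positivity, fun j => ?_⟩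
  have e0 : ∫ p, DD f h b j p ^ 2 ∂(μ.map Prod.swap) =
      ∫ p : X × X, (h j p.1 - h j p.2 + f p.2 - b j p.2) ^ 2 ∂μ :=
    integral_map_equiv (μ := μ) (MeasurableEquiv.prodComm (α := X) (β := X))
      (fun p : X × X => DD f h b j p ^ 2)
  have hv : MemLp (fun p : X × X => h j p.1 - h j p.2 + f p.2) 2 μ :=
    ((mem1 C (C.Lh j)).sub (mem2 C (C.Lh j))).add (mem2 C C.Lf)
  have hb2 := mem2 C (C.Lb j)
  have i1 : Integrable (fun p : X × X => (h j p.1 - h j p.2 + f p.2) ^ 2) μ := hv.integrable_sq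
  have i2 : Integrable (fun p : X × X => (h j p.1 - h j p.2 + f p.2 - b j p.2) ^ 2) μ :=
    (hv.sub hb2).integrable_sq
  have i3 : Integrable (fun p : X × X => b j p.2 ^ 2) μ := hb2.integrable_sq
  have e1 : ∫ p : X × X, b j p.2 ^ 2 ∂μ = ∫ x, b j x ^ 2 ∂π :=
    int2 C (φ := fun x => b j x ^ 2) ((C.Lb j).1.pow 2)
  calc ∫ p : X × X, (h j p.1 - h j p.2 + f p.2) ^ 2 ∂μ
      ≤ ∫ p : X × X, (2 * (h j p.1 - h j p.2 + f p.2 - b j p.2) ^ 2 + 2 * b j p.2 ^ 2) ∂μ := by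
        refine integral_mono i1 ((i2.const_mul 2).add (i3.const_mul 2)) fun p => ?_
        simp only
        nlinarith [sq_nonneg (h j p.1 - h j p.2 + f p.2 - 2 * b j p.2)]
    _ = 2 * ∫ p, DD f h b j p ^ 2 ∂(μ.map Prod.swap) + 2 * ∫ x, b j x ^ 2 ∂π := by
        rw [integral_add (i2.const_mul 2) (i3.const_mul 2), integral_const_mul,
          integral_const_mul, e0, e1]
    _ ≤ 2 * B1 + 2 * B2 := by
        have := (bnd C j).2.2.2.2.2.1
        linarith [hB1' j, hB2' j]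

end

end VAR

theorem t_VAR (X : Type u) [MeasurableSpace X] : S_VAR X := by
  intro π μ f g h a b γ C
  exact ⟨VAR.conv C, VAR.bdd C, VAR.orth C⟩

end Pool.Agent.K1H85.CL
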