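import Pool.Agent.K1H85.CL.Stm

/-! CL-17 : the main theorem at the level of state weights. -/

open MeasureTheory ProbabilityTheory Filter
open scoped Topology BigOperators ENNReal

namespace Pool.Agent.K1H85.CL

universe u

section

variable {X : Type u} [MeasurableSpace X] {π : Measure X} {μ : Measure (X × X)} {f : X → ℝ}
  {g h a b : ℕ → X → ℝ} {γ : ℕ → ℝ}

private theorem w_tl0 (hc : Cor π μ f g h a b γ) (j : ℕ) : γ j ^ 2 ≤ tl γ 0 := by
  unfold tl
  simp only [zero_add]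
  exact hc.sγ.le_tsum j fun i _ => sq_nonneg _

private theorem w_gm (hc : Cor π μ f g h a b γ) (j : ℕ) : gm γ j ≤ 2 * tl γ 0 := by
  unfold gm
  have h1 := w_tl0 hc j
  have h2 := w_tl0 hc (j + 1)
  linarith

private theorem w_tl_nonneg (m : ℕ) : 0 ≤ tl γ m := tsum_nonneg fun _ => sq_nonneg _

private theorem w_gm_nonneg (j : ℕ) : 0 ≤ gm γ j := add_nonneg (sq_nonneg _) (sq_nonneg _)

private theorem w_fst (hc : Cor π μ f g h a b γ) : MeasurePreserving Prod.fst μ π :=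
  ⟨measurable_fst, hc.fst⟩

private theorem w_snd (hc : Cor π μ f g h a b γ) : MeasurePreserving Prod.snd μ π :=
  ⟨measurable_snd, hc.snd⟩

private theorem w_DD_meas (hc : Cor π μ f g h a b γ) (j : ℕ) : Measurable (DD f g a j) := by
  unfold DD
  exact (((hc.mg j).comp measurable_snd).sub ((hc.mg j).comp measurable_fst)).add
    (hc.mf.comp measurable_fst) |>.sub ((hc.ma j).comp measurable_fst)

private theorem w_DD_int (hc : Cor π μ f g h a b γ) (j : ℕ) :
    Integrable (fun p => DD f g a j p ^ 2) μ := by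
  have h1 : MemLp (DD f g a j) 2 μ := by
    unfold DD
    exact ((((hc.Lg j).comp_measurePreserving (w_snd hc)).sub
      ((hc.Lg j).comp_measurePreserving (w_fst hc))).add
      (hc.Lf.comp_measurePreserving (w_fst hc))).sub
      ((hc.La j).comp_measurePreserving (w_fst hc))
  exact h1.integrable_sq

private theorem w_zz_lp (hc : Cor π μ f g h a b γ) (m s : ℕ) : MemLp (zz f g h m s) 2 π := by
  unfold zz
  exact ((hc.Lg _).add (hc.Lh _)).sub hc.Lf

private theorem w_xx_lp (hc : Cor π μ f g h a b γ) (m s : ℕ) : MemLp (xx g h m s) 2 π := by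
  unfold xx
  by_cases hs : s % 2 = 0
  · simp only [hs, if_true]
    exact (hc.Lg _).sub (hc.Lg _)
  · simp only [hs, if_false]
    exact (hc.Lh _).sub (hc.Lh _)

private theorem w_zz_meas (hc : Cor π μ f g h a b γ) (m s : ℕ) : Measurable (zz f g h m s) := by
  unfold zz
  exact ((hc.mg _).add (hc.mh _)).sub hc.mf

private theorem w_xx_meas (hc : Cor π μ f g h a b γ) (m s : ℕ) : Measurable (xx g h m s) := by
  unfold xx
  by_cases hs : s % 2 = 0
  · simp only [hs, if_true]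
    exact (hc.mg _).sub (hc.mg _)
  · simp only [hs, if_false]
    exact (hc.mh _).sub (hc.mh _)

private theorem w_nv_meas (hc : Cor π μ f g h a b γ) (m N s : ℕ) :
    Measurable (nv f g h m N s) := by
  unfold nv nrm2
  refine ((w_zz_meas hc m s).pow_const 2).add (Measurable.const_mul ?_ _)
  exact Finset.measurable_fun_sum _ fun t _ => ((w_xx_meas hc m t).pow_const 2).const_mul _

private theorem w_nv_int (hc : Cor π μ f g h a b γ) (m N s : ℕ) :
    Integrable (nv f g h m N s) π := by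
  unfold nv nrm2
  refine (w_zz_lp hc m s).integrable_sq.add (Integrable.const_mul ?_ _)
  exact integrable_finsetSum _ fun t _ => ((w_xx_lp hc m t).integrable_sq).const_mul _

private theorem w_cw_nonneg (s t : ℕ) : 0 ≤ cw s t := by
  unfold cw
  split_ifs <;> positivity

private theorem w_cw_le (s t : ℕ) : cw s t ≤ 1 := by
  unfold cw
  split_ifs
  · exact pow_le_one₀ (by norm_num) (by norm_num)
  · exact pow_le_one₀ (by norm_num) (by norm_num)

omit [MeasurableSpace X] in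
private theorem w_nv_nonneg (m N s : ℕ) (x : X) : 0 ≤ nv f g h m N s x := by
  unfold nv nrm2
  refine add_nonneg (sq_nonneg _) (mul_nonneg (by norm_num) (Finset.sum_nonneg fun t _ => ?_))
  exact mul_nonneg (w_cw_nonneg _ _) (sq_nonneg _)

private theorem w_geo (m K : ℕ) :
    ∑ t ∈ Finset.range (2 * K), (2 : ℝ) ^ (m + t / 2) ≤ 2 * 2 ^ (m + K) := by
  induction K with
  | zero => simp
  | succ K ih =>
    have e : 2 * (K + 1) = 2 * K + 1 + 1 := by ring
    rw [e, Finset.sum_range_succ, Finset.sum_range_succ]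
    have e1 : 2 * K / 2 = K := by omega
    have e2 : (2 * K + 1) / 2 = K := by omega
    rw [e1, e2]
    have e3 : (2 : ℝ) ^ (m + (K + 1)) = 2 * 2 ^ (m + K) := by ring
    rw [e3]
    linarith

private theorem w_nv_le (hBND : S_BND X) (hc : Cor π μ f g h a b γ) (m K : ℕ) :
    ∫ x, nv f g h m (2 * K) (2 * K) x ∂π ≤ 200000 * tl γ 0 * 2 ^ (m + K) := by
  have hT := w_tl_nonneg (γ := γ) 0
  have h1 : ∫ x, nv f g h m (2 * K) (2 * K) x ∂π = ∫ x, zz f g h m (2 * K) x ^ 2 ∂π +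
      10000 * ∑ t ∈ Finset.range (2 * K), cw (2 * K) t * ∫ x, xx g h m t x ^ 2 ∂π := by
    unfold nv nrm2
    rw [integral_add (w_zz_lp hc m _).integrable_sq, integral_const_mul, integral_finsetSum]
    · congr 2
      exact Finset.sum_congr rfl fun t _ => integral_const_mul _ _
    · exact fun t _ => ((w_xx_lp hc m t).integrable_sq).const_mul _
    · exact (integrable_finsetSum _ fun t _ =>
        ((w_xx_lp hc m t).integrable_sq).const_mul _).const_mul _
  rw [h1]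
  have h2 : ∫ x, zz f g h m (2 * K) x ^ 2 ∂π ≤ 24 * tl γ 0 * 2 ^ (m + K) := by
    have h3 := (hBND π μ f g h a b γ hc m (2 * K)).1
    have e : 2 * K / 2 = K := by omega
    rw [e] at h3
    have h4 := mul_le_mul_of_nonneg_left (w_gm hc (m + K))
      (by positivity : (0 : ℝ) ≤ 12 * 2 ^ (m + K))
    linarith
  have h3 : ∑ t ∈ Finset.range (2 * K), cw (2 * K) t * ∫ x, xx g h m t x ^ 2 ∂π ≤
      16 * tl γ 0 * 2 ^ (m + K) := by
    calc ∑ t ∈ Finset.range (2 * K), cw (2 * K) t * ∫ x, xx g h m t x ^ 2 ∂π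
        ≤ ∑ t ∈ Finset.range (2 * K), (8 * tl γ 0) * 2 ^ (m + t / 2) := by
          refine Finset.sum_le_sum fun t _ => ?_
          have h4 := (hBND π μ f g h a b γ hc m t).2.1
          have h5 : 0 ≤ ∫ x, xx g h m t x ^ 2 ∂π := integral_nonneg fun x => sq_nonneg _
          have h6 := mul_le_mul_of_nonneg_left (w_gm hc (m + t / 2))
            (by positivity : (0 : ℝ) ≤ 4 * 2 ^ (m + t / 2))
          have h7 := mul_le_mul_of_nonneg_right (w_cw_le (2 * K) t) h5
          linarith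
      _ = (8 * tl γ 0) * ∑ t ∈ Finset.range (2 * K), (2 : ℝ) ^ (m + t / 2) := by
          rw [Finset.mul_sum]
      _ ≤ (8 * tl γ 0) * (2 * 2 ^ (m + K)) :=
          mul_le_mul_of_nonneg_left (w_geo m K) (by positivity)
      _ = 16 * tl γ 0 * 2 ^ (m + K) := by ring
  have h4 : 0 ≤ tl γ 0 * 2 ^ (m + K) := by positivity
  linarith

omit [MeasurableSpace X] in
private theorem w_zstep (m s : ℕ) (x : X) :
    zz f g h m (s + 1) x = zz f g h m s x + xx g h m s x := by
  unfold zz xx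
  rcases Nat.even_or_odd' s with ⟨u, rfl | rfl⟩
  · have e1 : (2 * u + 1 + 1) / 2 = u + 1 := by omega
    have e2 : (2 * u + 1) / 2 = u := by omega
    have e3 : 2 * u / 2 = u := by omega
    have e4 : 2 * u % 2 = 0 := by omega
    rw [e1, e2, e3, e4, if_pos rfl]
    ring_nf
  · have e1 : (2 * u + 1 + 1 + 1) / 2 = u + 1 := by omega
    have e2 : (2 * u + 1 + 1) / 2 = u + 1 := by omega
    have e3 : (2 * u + 1) / 2 = u := by omega
    have e4 : ¬ ((2 * u + 1) % 2 = 0) := by omega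
    rw [e1, e2, e3, if_neg e4]
    ring_nf

private theorem w_one (hc : Cor π μ f g h a b γ) (n : ℕ) (Gd : Set X) :
    Wt π μ n Gd 0 (fun _ _ => 1) (fun _ _ => 1) where
  mψ _ := measurable_const
  mψs _ := measurable_const
  h0 _ _ := zero_le_one
  h1 _ _ := le_rfl
  hs0 _ _ := zero_le_one
  hs1 _ _ := le_rfl
  dual t φ hφ := by
    simp only [one_mul]
    have h1 := hφ.aestronglyMeasurable
    rw [← hc.snd] at h1
    conv_rhs => rw [← hc.snd]
    rw [integral_map measurable_snd.aemeasurable h1]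
  good t := by simp
  var := by simp

end

theorem t_W (X : Type u) [MeasurableSpace X] (hBND : S_BND X) (hVAR : S_VAR X) (hGOOD : S_GOOD)
    (_hINT : S_INT X) (hTOT : S_TOT X) (hSTART : S_START X) (hEND : S_END X) (hLOW : S_LOW X) :
    S_W X := by
  intro κ _ π f g h a b γ hinv herg hc σ2 hσ ε C1 hε hC1
  have := hc.pp
  have := hc.pm
  obtain ⟨-, ⟨BD, hBD0, hBD⟩, -⟩ := hVAR π (π ⊗ₘ κ) f g h a b γ hc
  have hT0 := w_tl_nonneg (γ := γ) 0
  obtain ⟨e1, he1⟩ : ∃ e1 : ℝ, e1 = ε / 100 := ⟨_, rfl⟩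
  have he1p : 0 < e1 := by rw [he1]; positivity
  -- choose `m`
  have htl : Tendsto (fun m => tl γ m) atTop (𝓝 0) := by
    have h1 := tendsto_sum_nat_add (fun j => γ j ^ 2)
    refine h1.congr fun m => ?_
    unfold tl
    exact tsum_congr fun j => by rw [add_comm]
  have hm1 : ∀ᶠ m in atTop, 10 ^ 12 * tl γ m ≤ e1 := by
    have h1 : ∀ᶠ m in atTop, tl γ m < e1 / 10 ^ 12 :=
      htl.eventually_lt_const (by positivity)
    filter_upwards [h1] with m hm
    rw [lt_div_iff₀ (by positivity)] at hm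
    linarith
  have hm2 : ∀ᶠ m in atTop, |∫ p, DD f g a m p ^ 2 ∂(π ⊗ₘ κ) - σ2| ≤ e1 := by
    have h1 := (Metric.tendsto_nhds.1 hσ) e1 he1p
    filter_upwards [h1] with m hm
    rw [Real.dist_eq] at hm
    exact hm.le
  obtain ⟨m, hm1, hmσ⟩ := (hm1.and hm2).exists
  obtain ⟨k1, hk1⟩ := eventually_atTop.1 hm2
  have hTm := w_tl_nonneg (γ := γ) m
  obtain ⟨A, hA⟩ : ∃ A : ℝ, A = √(BD + 4000000 * tl γ m) := ⟨_, rfl⟩
  obtain ⟨B, hB⟩ : ∃ B : ℝ, B = √(1 + 2 * C1) := ⟨_, rfl⟩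
  have hA0 : 0 ≤ A := by rw [hA]; positivity
  have hB0 : 0 ≤ B := by rw [hB]; positivity
  -- choose `l`
  obtain ⟨l, hl⟩ : ∃ l : ℕ, (1 / 2 : ℝ) ^ l * (40 * B * A + 20000000 * tl γ 0 + 200 * C1 + 32 +
      50000 * tl γ 0) ≤ e1 := by
    have h1 : Tendsto (fun l : ℕ => (1 / 2 : ℝ) ^ l * (40 * B * A + 20000000 * tl γ 0 +
        200 * C1 + 32 + 50000 * tl γ 0)) atTop (𝓝 (0 * (40 * B * A + 20000000 * tl γ 0 +
        200 * C1 + 32 + 50000 * tl γ 0))) :=
      (tendsto_pow_atTop_nhds_zero_of_lt_one (by norm_num) (by norm_num)).mul_const _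
    rw [zero_mul] at h1
    obtain ⟨l, hl⟩ := (h1.eventually_lt_const he1p).exists
    exact ⟨l, hl.le⟩
  obtain ⟨k0, hk0m, hk0⟩ := hSTART π (π ⊗ₘ κ) f g h a b γ hc m l e1 he1p
  obtain ⟨n0, hn0⟩ := hLOW κ π hinv herg (fun p => DD f g a m p ^ 2)
    ((w_DD_meas hc m).pow_const 2) (fun p => sq_nonneg _) (w_DD_int hc m) e1 C1 he1p hC1
  refine ⟨l, max (max k0 k1) n0, ?_⟩
  intro k hk n hn1 _
  have hkk0 : k0 ≤ k := (le_max_left _ _).trans ((le_max_left _ _).trans hk)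
  have hkk1 : k1 ≤ k := (le_max_right _ _).trans ((le_max_left _ _).trans hk)
  have hkn0 : n0 ≤ k := (le_max_right _ _).trans hk
  have hmk : m ≤ k := hk0m.trans hkk0
  -- numbers
  obtain ⟨q, hq⟩ : ∃ q : ℝ, q = (1 / 2 : ℝ) ^ l := ⟨_, rfl⟩
  obtain ⟨u, hu⟩ : ∃ u : ℝ, u = (2 : ℝ) ^ l := ⟨_, rfl⟩
  rw [← hq] at hl
  have hqp : 0 < q := by rw [hq]; positivity
  have hup : 0 < u := by rw [hu]; positivity
  have hqu : q * u = 1 := by
    rw [hq, hu, ← mul_pow]
    norm_num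
  have hq1 : q ≤ 1 := by
    rw [hq]
    exact pow_le_one₀ (by norm_num) (by norm_num)
  have hl1 : q * (40 * B * A) ≤ e1 := by
    have h1 : 0 ≤ q * (20000000 * tl γ 0 + 200 * C1 + 32 + 50000 * tl γ 0) := by positivity
    linarith
  have hl2 : q * (20000000 * tl γ 0) ≤ e1 := by
    have h1 : 0 ≤ q * (40 * B * A + 200 * C1 + 32 + 50000 * tl γ 0) := by positivity
    linarith
  have hl3 : q * (200 * C1) ≤ e1 := by
    have h1 : 0 ≤ q * (40 * B * A + 20000000 * tl γ 0 + 32 + 50000 * tl γ 0) := by positivity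
    linarith
  have hl4 : q * 32 ≤ e1 := by
    have h1 : 0 ≤ q * (40 * B * A + 20000000 * tl γ 0 + 200 * C1 + 50000 * tl γ 0) := by positivity
    linarith
  have hl5 : q * (50000 * tl γ 0) ≤ e1 := by
    have h1 : 0 ≤ q * (40 * B * A + 20000000 * tl γ 0 + 200 * C1 + 32) := by positivity
    linarith
  have hnR : (2 : ℝ) ^ k * u ^ 4 ≤ n := by
    have h1 : ((2 ^ (k + 4 * l) : ℕ) : ℝ) ≤ n := by exact_mod_cast hn1
    have h2 : ((2 ^ (k + 4 * l) : ℕ) : ℝ) = (2 : ℝ) ^ k * u ^ 4 := by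
      rw [hu]
      push_cast
      ring
    rwa [h2] at h1
  have hkp : (0 : ℝ) < 2 ^ k := by positivity
  have hnp : (0 : ℝ) < n := lt_of_lt_of_le (by positivity) hnR
  have hr2 : rN k l ^ 2 = 2 ^ k * u ^ 2 := by
    unfold rN
    rw [Real.sq_sqrt (by positivity), hu]
    ring
  have hrp : 0 < rN k l := by
    unfold rN
    positivity
  have hrn : rN k l ^ 2 ≤ q ^ 2 * n := by
    have h1 := mul_le_mul_of_nonneg_left hnR (by positivity : 0 ≤ q ^ 2)
    have h2 : q ^ 2 * (2 ^ k * u ^ 4) = (q * u) ^ 2 * (2 ^ k * u ^ 2) := by ring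
    rw [h2, hqu, one_pow, one_mul] at h1
    rw [hr2]
    exact h1
  have hrq : rN k l ≤ q * √n := by
    have h1 := Real.sqrt_le_sqrt hrn
    rwa [Real.sqrt_sq hrp.le, Real.sqrt_mul (by positivity), Real.sqrt_sq hqp.le] at h1
  have h2k : (2 : ℝ) ^ k ≤ q * n := by
    have h1 := mul_le_mul_of_nonneg_left hnR (by positivity : 0 ≤ q ^ 4)
    have h2 : q ^ 4 * (2 ^ k * u ^ 4) = (q * u) ^ 4 * 2 ^ k := by ring
    rw [h2, hqu, one_pow, one_mul] at h1
    have h3 : q ^ 4 ≤ q := by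
      have h4 := pow_le_one₀ (n := 3) hqp.le hq1
      have h5 := mul_le_mul_of_nonneg_left h4 hqp.le
      linarith [show q * q ^ 3 = q ^ 4 by ring]
    exact h1.trans (mul_le_mul_of_nonneg_right h3 hnp.le)
  -- errors
  have hb1 : ∀ (n' : ℕ) (c : ℝ), n' ≤ n → 0 ≤ c → c ≤ B →
      40 * rN k l * √n' * c * A ≤ e1 * n := by
    intro n' c hn' hc0 hcB
    have h1 : √(n' : ℝ) ≤ √n := Real.sqrt_le_sqrt (by exact_mod_cast hn')
    have h2 : rN k l * √n' ≤ q * n := by
      calc rN k l * √n' ≤ (q * √n) * √n :=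
            mul_le_mul hrq h1 (Real.sqrt_nonneg _) (by positivity)
        _ = q * n := by rw [mul_assoc, Real.mul_self_sqrt hnp.le]
    have h3 : c * A ≤ B * A := mul_le_mul_of_nonneg_right hcB hA0
    have h4 : (rN k l * √n') * (c * A) ≤ (q * n) * (B * A) :=
      mul_le_mul h2 h3 (by positivity) (by positivity)
    have h5 := mul_le_mul_of_nonneg_right hl1 hnp.le
    linarith [h4, h5]
  have hb2 : 20000000 * tl γ 0 * 2 ^ k ≤ e1 * n := by
    have h1 := mul_le_mul_of_nonneg_left h2k (by positivity : 0 ≤ 20000000 * tl γ 0)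
    have h2 := mul_le_mul_of_nonneg_right hl2 hnp.le
    linarith [h1, h2]
  have hb3 : C1 * (200 * rN k l ^ 2) ≤ e1 * n := by
    have h0 : q ^ 2 * n ≤ q * n := by
      have h4 := mul_le_mul_of_nonneg_left hq1 (by positivity : 0 ≤ q * n)
      linarith [show q * n * q = q ^ 2 * n by ring]
    have h1 := mul_le_mul_of_nonneg_left (hrn.trans h0) (by positivity : 0 ≤ C1 * 200)
    have h2 := mul_le_mul_of_nonneg_right hl3 hnp.le
    linarith [h1, h2]
  have hTn : 10 ^ 12 * tl γ m * n ≤ e1 * n := mul_le_mul_of_nonneg_right hm1 hnp.le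
  -- the good set
  obtain ⟨N, hN⟩ : ∃ N : ℕ, N = 2 * (k - m) := ⟨_, rfl⟩
  have hN2 : m + N / 2 = k := by omega
  obtain ⟨r0, hr0⟩ : ∃ r0 : ℝ, r0 = rN k l * (8 / 9) ^ N := ⟨_, rfl⟩
  have hr0p : 0 < r0 := by rw [hr0]; positivity
  have hr0N : r0 * (9 / 8) ^ N = rN k l := by
    rw [hr0, mul_assoc, ← mul_pow]
    norm_num
  have hGdm : MeasurableSet {x | nv f g h m N N x ≤ 4 * rN k l ^ 2} :=
    measurableSet_le (w_nv_meas hc m N N) measurable_const
  have hgood : ∀ x ∈ {x | nv f g h m N N x ≤ 4 * rN k l ^ 2},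
      ∑ s ∈ Finset.range N, |PsV f g h m N s (r0 * (9 / 8) ^ s) x| ≤
        200 * (r0 * (9 / 8) ^ N) ^ 2 := by
    intro x hx
    refine hGOOD N r0 (fun s => zz f g h m s x) (fun t => xx g h m t x) hr0p
      (fun s => w_zstep m s x) ?_
    rw [hr0N]
    exact hx
  have hstart : ∀ ψ : X → ℝ, Measurable ψ → (∀ x, 0 ≤ ψ x) → (∀ x, ψ x ≤ 1) →
      ∫ p, ψ p.1 * DD f g a m p ^ 2 ∂(π ⊗ₘ κ) - e1 - 1000000 * tl γ m ≤
        Gs (π ⊗ₘ κ) f g h m N 0 r0 ψ := by
    intro ψ h1 h2 h3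
    have h4 := hk0 k hkk0 ψ h1 h2 h3
    rw [← hN, ← hr0] at h4
    exact h4
  have hend := hEND π (π ⊗ₘ κ) f g h a b γ hc m k (rN k l) hmk hrp
  rw [← hN] at hend
  obtain ⟨hend1, hend2, hend3⟩ := hend
  have hkσ := hk1 k hkk1
  -- deficit
  have hdef : ∫ p, DD f g a k p ^ 2 ∂(π ⊗ₘ κ) - Gs (π ⊗ₘ κ) f g h m N N (rN k l) (fun _ => 1) ≤
      6 * e1 := by
    have h1 := hTOT π (π ⊗ₘ κ) f g h a b γ hc m N n r0 BD 0 _ (fun _ _ => 1) (fun _ _ => 1) hr0p
      hBD0 hBD le_rfl hGdm hgood (w_one hc n _)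
    rw [hr0N, hN2, ← hA, Finset.sum_const, Finset.sum_const, Finset.card_range, nsmul_eq_mul,
      nsmul_eq_mul] at h1
    have h2 := hstart (fun _ => 1) measurable_const (fun _ => zero_le_one) (fun _ => le_rfl)
    simp only [one_mul] at h2
    have h3 : √(1 + 2 * (0 : ℝ)) ≤ B := by
      rw [hB]
      exact Real.sqrt_le_sqrt (by linarith)
    have h4 := hb1 n _ le_rfl (Real.sqrt_nonneg _) h3
    have h5 := mul_le_mul_of_nonneg_left h2 hnp.le
    have h6 := abs_le.1 hmσ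
    have h7 := abs_le.1 hkσ
    have h8 : (n : ℝ) * (∫ p, DD f g a m p ^ 2 ∂(π ⊗ₘ κ) - e1 - 1000000 * tl γ m -
        5000000000 * tl γ m - 2 * e1) ≤
        n * Gs (π ⊗ₘ κ) f g h m N N (rN k l) (fun _ => 1) := by
      linarith [h1, h4, h5, hb2]
    have h9 := le_of_mul_le_mul_left h8 hnp
    linarith
  have hDDk := w_DD_int hc k
  refine ⟨{x | nv f g h m N N x ≤ 4 * rN k l ^ 2}, hGdm, ?_, ?_, ?_, ?_⟩
  · -- measure of the bad set
    have h1 := mul_meas_ge_le_integral_of_nonneg (μ := π)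
      (Filter.Eventually.of_forall fun x => w_nv_nonneg (f := f) (g := g) (h := h) m N N x)
      (w_nv_int hc m N N) (4 * rN k l ^ 2)
    have h2 : ∫ x, nv f g h m N N x ∂π ≤ 200000 * tl γ 0 * 2 ^ k := by
      have h3 := w_nv_le hBND hc m (k - m)
      rw [← hN, Nat.add_sub_cancel' hmk] at h3
      exact h3
    have h3 : (π {x | nv f g h m N N x ≤ 4 * rN k l ^ 2}ᶜ).toReal ≤
        π.real {x | 4 * rN k l ^ 2 ≤ nv f g h m N N x} := by
      refine measureReal_mono ?_ (measure_ne_top _ _)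
      intro x hx
      have hx' : ¬ (nv f g h m N N x ≤ 4 * rN k l ^ 2) := hx
      exact (not_le.1 hx').le
    obtain ⟨P, hP⟩ : ∃ P : ℝ, P = π.real {x | 4 * rN k l ^ 2 ≤ nv f g h m N N x} := ⟨_, rfl⟩
    have hP0 : 0 ≤ P := by rw [hP]; exact measureReal_nonneg
    rw [← hP] at h1 h3
    have h4 : (2 : ℝ) ^ k * (4 * u ^ 2 * P) ≤ 2 ^ k * (200000 * tl γ 0) := by
      have h5 := h1.trans h2
      rw [hr2] at h5
      linarith [h5]
    have h5 := le_of_mul_le_mul_left h4 hkp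
    have h6 := mul_le_mul_of_nonneg_left h5 (by positivity : 0 ≤ q ^ 2)
    have h7 : q ^ 2 * (4 * u ^ 2 * P) = 4 * (q * u) ^ 2 * P := by ring
    rw [h7, hqu, one_pow, mul_one] at h6
    have h8 : q ^ 2 * (200000 * tl γ 0) ≤ q * (200000 * tl γ 0) := by
      have h9 : q ^ 2 ≤ q := by nlinarith
      exact mul_le_mul_of_nonneg_right h9 (by positivity)
    linarith
  · have h1 : {p : X × X | p.1 ∉ {x | nv f g h m N N x ≤ 4 * rN k l ^ 2}} =
        {p : X × X | 4 * rN k l ^ 2 < nv f g h m N N p.1} := by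
      ext p
      simp
    rw [h1]
    linarith
  · have h1 : ∫ p in {p : X × X | ε * √n < |DD f g a k p|}, DD f g a k p ^ 2 ∂(π ⊗ₘ κ) ≤
        ∫ p in {p : X × X | 32 * rN k l ≤ |DD f g a k p|}, DD f g a k p ^ 2 ∂(π ⊗ₘ κ) := by
      refine setIntegral_mono_set hDDk.integrableOn
        (Filter.Eventually.of_forall fun p => sq_nonneg _) ?_
      refine LE.le.eventuallyLE ?_
      intro p hp
      have hp' : ε * √n < |DD f g a k p| := hp
      refine le_trans ?_ hp'.le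
      have h2 := mul_le_mul_of_nonneg_left hrq (by norm_num : (0 : ℝ) ≤ 32)
      have h3 := mul_le_mul_of_nonneg_right hl4 (Real.sqrt_nonneg (n : ℝ))
      have h4 := mul_le_mul_of_nonneg_right (show e1 ≤ ε by linarith) (Real.sqrt_nonneg (n : ℝ))
      linarith
    linarith
  · intro n' hn' ψ ψs hW
    have hn'R : (n' : ℝ) ≤ n := by exact_mod_cast hn'
    have h1 := hTOT π (π ⊗ₘ κ) f g h a b γ hc m N n' r0 BD C1 _ ψ ψs hr0p
      hBD0 hBD hC1 hGdm hgood hW
    rw [hr0N, hN2, ← hA, ← hB] at h1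
    have h2 : ∑ t ∈ Finset.range n', (∫ p, ψ t p.1 * DD f g a m p ^ 2 ∂(π ⊗ₘ κ) - e1 -
        1000000 * tl γ m) ≤ ∑ t ∈ Finset.range n', Gs (π ⊗ₘ κ) f g h m N 0 r0 (ψ t) :=
      Finset.sum_le_sum fun t _ => hstart (ψ t) (hW.mψ t) (hW.h0 t) (hW.h1 t)
    have h3 : ∑ t ∈ Finset.range n', Gs (π ⊗ₘ κ) f g h m N N (rN k l) (ψ t) ≤
        ∑ t ∈ Finset.range n', (∫ p, ψ t p.1 * DD f g a k p ^ 2 ∂(π ⊗ₘ κ) +
          1000000 * tl γ m) :=
      Finset.sum_le_sum fun t _ => hend1 (ψ t) (hW.mψ t) (hW.h0 t) (hW.h1 t)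
    simp only [Finset.sum_sub_distrib, Finset.sum_add_distrib, Finset.sum_const,
      Finset.card_range, nsmul_eq_mul] at h2 h3
    have hnn0 : n0 ≤ n := by
      refine hkn0.trans (le_trans ?_ hn1)
      exact (Nat.lt_two_pow_self (n := k)).le.trans
        (Nat.pow_le_pow_right (by norm_num) (Nat.le_add_right _ _))
    have h4 := hn0 n hnn0 n' hn' _ ψ ψs hW
    have h5 := hb1 n' B hn' hB0 le_rfl
    obtain ⟨S, hS⟩ : ∃ S : ℝ, S = ∑ t ∈ Finset.range n', ∫ x, ψ t x ∂π := ⟨_, rfl⟩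
    have hS0 : 0 ≤ S := by
      rw [hS]
      exact Finset.sum_nonneg fun t _ => integral_nonneg (hW.h0 t)
    have hSn : S ≤ n' := by
      rw [hS]
      calc ∑ t ∈ Finset.range n', ∫ x, ψ t x ∂π ≤ ∑ t ∈ Finset.range n', (1 : ℝ) := by
            refine Finset.sum_le_sum fun t _ => ?_
            have h6 : ∫ x, ψ t x ∂π ≤ ∫ x, (1 : ℝ) ∂π := by
              refine integral_mono_of_nonneg (Filter.Eventually.of_forall (hW.h0 t))
                (integrable_const _) (Filter.Eventually.of_forall (hW.h1 t))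
            simpa using h6
        _ = n' := by simp
    rw [← hS] at h4
    rw [← hS]
    have h6 : σ2 * S ≤ (∫ p, DD f g a m p ^ 2 ∂(π ⊗ₘ κ)) * S + e1 * n := by
      have h7 := abs_le.1 hmσ
      have h8 : σ2 ≤ ∫ p, DD f g a m p ^ 2 ∂(π ⊗ₘ κ) + e1 := by linarith
      have h9 := mul_le_mul_of_nonneg_right h8 hS0
      have h10 := mul_le_mul_of_nonneg_left (hSn.trans hn'R) he1p.le
      linarith
    have h7 := mul_le_mul_of_nonneg_left hn'R he1p.le
    have h8 := mul_le_mul_of_nonneg_left hn'R hTm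
    have h9 : 0 ≤ e1 * n := by positivity
    have h10 : ε * n = 100 * (e1 * n) := by rw [he1]; ring
    rw [h10]
    linarith [h1, h2, h3, h4, h5, h6, h7, h8, h9, hb2, hb3, hTn]

end Pool.Agent.K1H85.CL
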