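import Pool.Agent.K1H85.CL.Stm

/-! Project CL, piece CL-18 (`S_WSEQ`): state weights of adapted path weights. -/

open MeasureTheory ProbabilityTheory Filter
open scoped Topology BigOperators ENNReal

namespace Pool.Agent.K1H85.CL

universe u v

noncomputable section

namespace WSEQ

variable {X : Type u} [MeasurableSpace X] {Ω : Type v} [MeasurableSpace Ω]

/-- the measure with density `w` -/
abbrev dn (P : Measure Ω) (w : Ω → ℝ) : Measure Ω :=
  P.withDensity (fun ω => ENNReal.ofReal (w ω))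

theorem fil_le {ξ : ℕ → Ω → X} (hm : ∀ t, Measurable (ξ t)) (t : ℕ) :
    Fil ξ t ≤ (inferInstance : MeasurableSpace Ω) :=
  iSup_le fun i => (hm i).comap_le

omit [MeasurableSpace Ω] in
theorem meas_fil (ξ : ℕ → Ω → X) (t : ℕ) : Measurable[Fil ξ t] (ξ t) := by
  have h : MeasurableSpace.comap (ξ t) inferInstance ≤ Fil ξ t :=
    le_iSup (fun i : Fin (t + 1) => MeasurableSpace.comap (ξ i) inferInstance) (Fin.last t)
  exact measurable_iff_comap_le.2 h

theorem dn_fin {P : Measure Ω} [IsProbabilityMeasure P] {w : Ω → ℝ} (hw : Measurable w)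
    (h0 : ∀ ω, 0 ≤ w ω) (h1 : ∀ ω, w ω ≤ 1) : IsFiniteMeasure (dn P w) := by
  refine isFiniteMeasure_withDensity_ofReal ?_
  have : Integrable w P := Integrable.of_bound hw.aestronglyMeasurable 1
    (Eventually.of_forall fun ω => by rw [Real.norm_eq_abs, abs_of_nonneg (h0 ω)]; exact h1 ω)
  exact this.2

theorem pair_law {κ : Kernel X X} [IsMarkovKernel κ] {π : Measure X} {P : Measure Ω}
    {ξ : ℕ → Ω → X} (hC : Chain κ π P ξ) (t : ℕ) {w : Ω → ℝ} (hw : Measurable[Fil ξ t] w)
    (h0 : ∀ ω, 0 ≤ w ω) (h1 : ∀ ω, w ω ≤ 1) :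
    (dn P w).map (fun ω => (ξ t ω, ξ (t + 1) ω)) = ((dn P w).map (ξ t)) ⊗ₘ κ := by
  have := hC.pr
  have hwm : Measurable w := hw.mono (fil_le hC.meas t) le_rfl
  have : IsFiniteMeasure (dn P w) := dn_fin hwm h0 h1
  have hpm : Measurable (fun ω => (ξ t ω, ξ (t + 1) ω)) := (hC.meas t).prodMk (hC.meas (t + 1))
  have : IsFiniteMeasure ((dn P w).map (fun ω => (ξ t ω, ξ (t + 1) ω))) :=
    Measure.isFiniteMeasure_map _ _
  have : IsFiniteMeasure ((dn P w).map (ξ t)) := Measure.isFiniteMeasure_map _ _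
  refine Measure.ext_prod fun {A B} hA hB => ?_
  rw [Measure.map_apply hpm (hA.prod hB), Measure.compProd_apply_prod hA hB,
    setLIntegral_map hA (κ.measurable_coe hB) (hC.meas t)]
  have hgm : Measurable (fun ω => ENNReal.ofReal (w ω)) := hwm.ennreal_ofReal
  have hAm : MeasurableSet (ξ t ⁻¹' A) := hC.meas t hA
  have hκm : Measurable fun ω => κ (ξ t ω) B := (κ.measurable_coe hB).comp (hC.meas t)
  rw [withDensity_apply _ (hpm (hA.prod hB)),
    setLIntegral_withDensity_eq_setLIntegral_mul P hgm hκm hAm]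
  -- the adapted weight
  set W : Ω → ℝ := fun ω => w ω * (A.indicator (fun _ => (1 : ℝ)) (ξ t ω)) with hW
  have hAi : Measurable (A.indicator (fun _ => (1 : ℝ))) := measurable_const.indicator hA
  have hBi : Measurable (B.indicator (fun _ => (1 : ℝ))) := measurable_const.indicator hB
  have hWm : Measurable[Fil ξ t] W := by
    have : Measurable[Fil ξ t] (fun ω => A.indicator (fun _ => (1 : ℝ)) (ξ t ω)) :=
      hAi.comp (meas_fil ξ t)
    exact hw.mul this
  have hi0 : ∀ (S : Set X) (x : X), 0 ≤ S.indicator (fun _ => (1 : ℝ)) x := fun S x =>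
    Set.indicator_nonneg (fun _ _ => zero_le_one) x
  have hi1 : ∀ (S : Set X) (x : X), S.indicator (fun _ => (1 : ℝ)) x ≤ 1 := fun S x =>
    Set.indicator_le_self' (fun _ _ => zero_le_one) x
  have hW0 : ∀ ω, 0 ≤ W ω := fun ω => mul_nonneg (h0 ω) (hi0 A _)
  have hW1 : ∀ ω, W ω ≤ 1 := fun ω => mul_le_one₀ (h1 ω) (hi0 A _) (hi1 A _)
  have hWm' : Measurable W := hWm.mono (fil_le hC.meas t) le_rfl
  have key := hC.markov t W (B.indicator (fun _ => (1 : ℝ))) hWm
    (fun ω => by rw [abs_of_nonneg (hW0 ω)]; exact hW1 ω) hBi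
    (fun x => by rw [abs_of_nonneg (hi0 B x)]; exact hi1 B x)
  have hk : ∀ x, ∫ y, B.indicator (fun _ => (1 : ℝ)) y ∂(κ x) = (κ x B).toReal := by
    intro x
    rw [integral_indicator_const _ hB]
    simp [Measure.real]
  simp only [hk] at key
  have e1 : ∫⁻ ω in (fun ω => (ξ t ω, ξ (t + 1) ω)) ⁻¹' (A ×ˢ B), ENNReal.ofReal (w ω) ∂P =
      ENNReal.ofReal (∫ ω, W ω * B.indicator (fun _ => (1 : ℝ)) (ξ (t + 1) ω) ∂P) := by
    rw [ofReal_integral_eq_lintegral_ofReal, ← lintegral_indicator (hpm (hA.prod hB))]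
    · refine lintegral_congr fun ω => ?_
      by_cases ha : ξ t ω ∈ A
      · by_cases hb : ξ (t + 1) ω ∈ B
        · have : ω ∈ (fun ω => (ξ t ω, ξ (t + 1) ω)) ⁻¹' (A ×ˢ B) := ⟨ha, hb⟩
          rw [Set.indicator_of_mem this, hW]
          simp only [Set.indicator_of_mem ha, Set.indicator_of_mem hb, mul_one]
        · have : ω ∉ (fun ω => (ξ t ω, ξ (t + 1) ω)) ⁻¹' (A ×ˢ B) := fun h => hb h.2
          rw [Set.indicator_of_notMem this, Set.indicator_of_notMem hb, mul_zero,
            ENNReal.ofReal_zero]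
      · have : ω ∉ (fun ω => (ξ t ω, ξ (t + 1) ω)) ⁻¹' (A ×ˢ B) := fun h => ha h.1
        rw [Set.indicator_of_notMem this, hW]
        simp only [Set.indicator_of_notMem ha, mul_zero, zero_mul, ENNReal.ofReal_zero]
    · refine Integrable.of_bound (hWm'.mul (hBi.comp (hC.meas (t + 1)))).aestronglyMeasurable 1
        (Eventually.of_forall fun ω => ?_)
      rw [Real.norm_eq_abs, abs_of_nonneg (mul_nonneg (hW0 ω) (hi0 B _))]
      exact mul_le_one₀ (hW1 ω) (hi0 B _) (hi1 B _)
    · exact Eventually.of_forall fun ω => mul_nonneg (hW0 ω) (hi0 B _)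
  have hκ1 : ∀ x, (κ x B).toReal ≤ 1 := fun x => by
    have := prob_le_one (μ := κ x) (s := B)
    exact ENNReal.toReal_le_of_le_ofReal zero_le_one (by simpa using this)
  have e2 : ∫⁻ ω in ξ t ⁻¹' A, ((fun ω => ENNReal.ofReal (w ω)) * fun ω => κ (ξ t ω) B) ω ∂P =
      ENNReal.ofReal (∫ ω, W ω * (κ (ξ t ω) B).toReal ∂P) := by
    rw [ofReal_integral_eq_lintegral_ofReal, ← lintegral_indicator hAm]
    · refine lintegral_congr fun ω => ?_
      by_cases ha : ξ t ω ∈ A
      · have : ω ∈ ξ t ⁻¹' A := ha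
        rw [Set.indicator_of_mem this, hW]
        simp only [Set.indicator_of_mem ha, mul_one, Pi.mul_apply]
        rw [ENNReal.ofReal_mul (h0 ω), ENNReal.ofReal_toReal (measure_ne_top _ _)]
      · have : ω ∉ ξ t ⁻¹' A := ha
        rw [Set.indicator_of_notMem this, hW]
        simp only [Set.indicator_of_notMem ha, mul_zero, zero_mul, ENNReal.ofReal_zero]
    · refine Integrable.of_bound (hWm'.mul hκm.ennreal_toReal).aestronglyMeasurable 1
        (Eventually.of_forall fun ω => ?_)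
      rw [Real.norm_eq_abs, abs_of_nonneg (mul_nonneg (hW0 ω) ENNReal.toReal_nonneg)]
      exact mul_le_one₀ (hW1 ω) ENNReal.toReal_nonneg (hκ1 _)
    · exact Eventually.of_forall fun ω => mul_nonneg (hW0 ω) ENNReal.toReal_nonneg
  rw [e1, e2, key]

theorem map_le {κ : Kernel X X} {π : Measure X} {P : Measure Ω}
    {ξ : ℕ → Ω → X} (hC : Chain κ π P ξ) (s : ℕ) {w : Ω → ℝ}
    (h1 : ∀ ω, w ω ≤ 1) : (dn P w).map (ξ s) ≤ π := by
  rw [← hC.law s]
  refine Measure.map_mono ?_ (hC.meas s)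
  conv_rhs => rw [← withDensity_one (μ := P)]
  refine withDensity_mono (Eventually.of_forall fun ω => ?_)
  change ENNReal.ofReal (w ω) ≤ 1
  rw [← ENNReal.ofReal_one]
  exact ENNReal.ofReal_le_ofReal (h1 ω)

theorem dens {π : Measure X} [IsProbabilityMeasure π] {ρ : Measure X} (h : ρ ≤ π) :
    ∃ ψ : X → ℝ, Measurable ψ ∧ (∀ x, 0 ≤ ψ x) ∧ (∀ x, ψ x ≤ 1) ∧
      ρ = π.withDensity (fun x => ENNReal.ofReal (ψ x)) := by
  have hac : ρ ≪ π := Measure.absolutelyContinuous_of_le h
  have : IsFiniteMeasure ρ := isFiniteMeasure_of_le π h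
  refine ⟨fun x => min 1 (ρ.rnDeriv π x).toReal, ?_, ?_, ?_, ?_⟩
  · exact measurable_const.min (Measure.measurable_rnDeriv ρ π).ennreal_toReal
  · intro x
    exact le_min zero_le_one ENNReal.toReal_nonneg
  · intro x
    exact min_le_left _ _
  · conv_lhs => rw [← Measure.withDensity_rnDeriv_eq ρ π hac]
    refine withDensity_congr_ae ?_
    filter_upwards [Measure.rnDeriv_le_one_of_le h] with x hx
    have hx1 : (ρ.rnDeriv π x) ≤ 1 := hx
    have : (ρ.rnDeriv π x).toReal ≤ 1 :=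
      ENNReal.toReal_le_of_le_ofReal zero_le_one (by simpa using hx1)
    rw [min_eq_right this, ENNReal.ofReal_toReal (ne_top_of_le_ne_top ENNReal.one_ne_top hx1)]

theorem wd_comp {κ : Kernel X X} [IsMarkovKernel κ] {π : Measure X} [IsFiniteMeasure π]
    {g : X → ℝ≥0∞} (hg : Measurable g) :
    (π.withDensity g) ⊗ₘ κ = (π ⊗ₘ κ).withDensity (fun p => g p.1) := by
  ext s hs
  have hgf : Measurable (fun p : X × X => g p.1) := hg.comp measurable_fst
  rw [Measure.compProd_apply hs, withDensity_apply _ hs,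
    lintegral_withDensity_eq_lintegral_mul _ hg (Kernel.measurable_kernel_prodMk_left hs),
    ← lintegral_indicator hs, Measure.lintegral_compProd (hgf.indicator hs)]
  refine lintegral_congr fun x => ?_
  have : (fun y => s.indicator (fun p : X × X => g p.1) (x, y)) =
      (Prod.mk x ⁻¹' s).indicator (fun _ => g x) := by
    ext y
    by_cases hy : (x, y) ∈ s
    · rw [Set.indicator_of_mem hy, Set.indicator_of_mem (show y ∈ Prod.mk x ⁻¹' s from hy)]
    · rw [Set.indicator_of_notMem hy,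
        Set.indicator_of_notMem (show y ∉ Prod.mk x ⁻¹' s from hy)]
  rw [this, lintegral_indicator_const (measurable_prodMk_left hs)]
  rfl

theorem int_pair {κ : Kernel X X} [IsMarkovKernel κ] {π : Measure X} [IsProbabilityMeasure π]
    {P : Measure Ω} {ξ : ℕ → Ω → X} (hC : Chain κ π P ξ) (t : ℕ) {w : Ω → ℝ}
    (hw : Measurable[Fil ξ t] w) (h0 : ∀ ω, 0 ≤ w ω) (h1 : ∀ ω, w ω ≤ 1) {ψ : X → ℝ}
    (hψm : Measurable ψ) (hψ0 : ∀ x, 0 ≤ ψ x)
    (hψ : (dn P w).map (ξ t) = π.withDensity (fun x => ENNReal.ofReal (ψ x)))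
    {Φ : X × X → ℝ} (hΦ : Integrable Φ (π ⊗ₘ κ)) :
    ∫ ω, w ω * Φ (ξ t ω, ξ (t + 1) ω) ∂P = ∫ p, ψ p.1 * Φ p ∂(π ⊗ₘ κ) := by
  have := hC.pr
  have hwm : Measurable w := hw.mono (fil_le hC.meas t) le_rfl
  have hpm : Measurable (fun ω => (ξ t ω, ξ (t + 1) ω)) := (hC.meas t).prodMk (hC.meas (t + 1))
  have hlaw : (dn P w).map (fun ω => (ξ t ω, ξ (t + 1) ω)) =
      (π ⊗ₘ κ).withDensity (fun p => ENNReal.ofReal (ψ p.1)) := by
    rw [pair_law hC t hw h0 h1, hψ, wd_comp hψm.ennreal_ofReal]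
  have e1 : ∫ ω, w ω * Φ (ξ t ω, ξ (t + 1) ω) ∂P =
      ∫ ω, Φ (ξ t ω, ξ (t + 1) ω) ∂(dn P w) := by
    rw [integral_withDensity_eq_integral_toReal_smul hwm.ennreal_ofReal
      (Eventually.of_forall fun ω => ENNReal.ofReal_lt_top)]
    refine integral_congr_ae (Eventually.of_forall fun ω => ?_)
    simp only [smul_eq_mul, ENNReal.toReal_ofReal (h0 ω)]
  have hΦm : AEStronglyMeasurable Φ ((dn P w).map (fun ω => (ξ t ω, ξ (t + 1) ω))) := by
    rw [hlaw]
    exact hΦ.1.mono_ac (withDensity_absolutelyContinuous _ _)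
  have hψf : Measurable (fun p : X × X => ψ p.1) := hψm.comp measurable_fst
  rw [e1, ← integral_map hpm.aemeasurable hΦm, hlaw,
    integral_withDensity_eq_integral_toReal_smul hψf.ennreal_ofReal
      (Eventually.of_forall fun ω => ENNReal.ofReal_lt_top)]
  refine integral_congr_ae (Eventually.of_forall fun p => ?_)
  simp only [smul_eq_mul, ENNReal.toReal_ofReal (hψ0 _)]

theorem int_one {κ : Kernel X X} {π : Measure X}
    {P : Measure Ω} {ξ : ℕ → Ω → X} (hC : Chain κ π P ξ) (s : ℕ) {w : Ω → ℝ}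
    (hwm : Measurable w) (h0 : ∀ ω, 0 ≤ w ω) {ψ : X → ℝ}
    (hψm : Measurable ψ) (hψ0 : ∀ x, 0 ≤ ψ x)
    (hψ : (dn P w).map (ξ s) = π.withDensity (fun x => ENNReal.ofReal (ψ x)))
    {φ : X → ℝ} (hφ : Integrable φ π) :
    ∫ ω, w ω * φ (ξ s ω) ∂P = ∫ x, ψ x * φ x ∂π := by
  have e1 : ∫ ω, w ω * φ (ξ s ω) ∂P = ∫ ω, φ (ξ s ω) ∂(dn P w) := by
    rw [integral_withDensity_eq_integral_toReal_smul hwm.ennreal_ofReal
      (Eventually.of_forall fun ω => ENNReal.ofReal_lt_top)]
    refine integral_congr_ae (Eventually.of_forall fun ω => ?_)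
    simp only [smul_eq_mul, ENNReal.toReal_ofReal (h0 ω)]
  have hφm : AEStronglyMeasurable φ ((dn P w).map (ξ s)) := by
    rw [hψ]
    exact hφ.1.mono_ac (withDensity_absolutelyContinuous _ _)
  rw [e1, ← integral_map (hC.meas s).aemeasurable hφm, hψ,
    integral_withDensity_eq_integral_toReal_smul hψm.ennreal_ofReal
      (Eventually.of_forall fun ω => ENNReal.ofReal_lt_top)]
  refine integral_congr_ae (Eventually.of_forall fun p => ?_)
  simp only [smul_eq_mul, ENNReal.toReal_ofReal (hψ0 _)]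

theorem law_pair {κ : Kernel X X} [IsMarkovKernel κ] {π : Measure X} {P : Measure Ω}
    {ξ : ℕ → Ω → X} (hC : Chain κ π P ξ) (t : ℕ) :
    P.map (fun ω => (ξ t ω, ξ (t + 1) ω)) = π ⊗ₘ κ := by
  have h := pair_law hC t (w := fun _ => 1) measurable_const (fun _ => zero_le_one)
    (fun _ => le_rfl)
  have h2 : dn P (fun _ => 1) = P := by
    unfold dn
    simp only [ENNReal.ofReal_one]
    exact withDensity_one
  rw [h2, hC.law t] at h
  exact h

end WSEQ

open WSEQ

theorem t_WSEQ (X : Type u) [MeasurableSpace X] (Ω : Type v) [MeasurableSpace Ω] :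
    S_WSEQ X Ω := by
  intro κ _ π P ξ hC
  have := hC.pr
  have hπ : IsProbabilityMeasure π := by
    rw [← hC.law 0]
    exact Measure.isProbabilityMeasure_map (hC.meas 0).aemeasurable
  have hpm : ∀ t, Measurable (fun ω => (ξ t ω, ξ (t + 1) ω)) := fun t =>
    (hC.meas t).prodMk (hC.meas (t + 1))
  have P1 : ∀ (t : ℕ) (Φ : X × X → ℝ), Integrable Φ (π ⊗ₘ κ) →
      Integrable (fun ω => Φ (ξ t ω, ξ (t + 1) ω)) P ∧
      ∫ ω, Φ (ξ t ω, ξ (t + 1) ω) ∂P = ∫ p, Φ p ∂(π ⊗ₘ κ) := by
    intro t Φ hΦ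
    rw [← law_pair hC t] at hΦ ⊢
    exact ⟨hΦ.comp_measurable (hpm t), (integral_map (hpm t).aemeasurable hΦ.1).symm⟩
  refine ⟨P1, ?_, ?_⟩
  · rintro t Φ w hw ⟨C, hC'⟩ hΦ hmean
    set C' : ℝ := max C 1 with hCdef
    have hCpos : 0 < C' := lt_of_lt_of_le zero_lt_one (le_max_right _ _)
    have hwC : ∀ ω, |w ω| ≤ C' := fun ω => (hC' ω).trans (le_max_left _ _)
    set w' : Ω → ℝ := fun ω => (w ω / C' + 1) / 2 with hw'
    have hw'm : Measurable[Fil ξ t] w' := ((hw.div_const C').add_const 1).div_const 2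
    have hb : ∀ ω, -1 ≤ w ω / C' ∧ w ω / C' ≤ 1 := fun ω => by
      have := abs_le.1 (hwC ω)
      constructor
      · rw [le_div_iff₀ hCpos]; linarith [this.1]
      · rw [div_le_iff₀ hCpos]; linarith [this.2]
    have h0 : ∀ ω, 0 ≤ w' ω := fun ω => by
      have := (hb ω).1
      simp only [hw']; linarith
    have h1 : ∀ ω, w' ω ≤ 1 := fun ω => by
      have := (hb ω).2
      simp only [hw']; linarith
    obtain ⟨ψ, hψm, hψ0, hψ1, hψ⟩ := dens (map_le hC t h1)
    have k1 := int_pair hC t hw'm h0 h1 hψm hψ0 hψ hΦ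
    have hψΦ : Integrable (fun p : X × X => ψ p.1 * Φ p) (π ⊗ₘ κ) := by
      refine hΦ.bdd_mul (c := 1) (hψm.comp measurable_fst).aestronglyMeasurable
        (Eventually.of_forall fun p => ?_)
      rw [Real.norm_eq_abs, abs_of_nonneg (hψ0 _)]
      exact hψ1 _
    have k2 : ∫ p, ψ p.1 * Φ p ∂(π ⊗ₘ κ) = 0 := by
      rw [Measure.integral_compProd hψΦ]
      refine integral_eq_zero_of_ae ?_
      filter_upwards [hmean] with x hx
      simp only [Pi.zero_apply]
      rw [integral_const_mul, hx, mul_zero]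
    have k3 : ∫ ω, Φ (ξ t ω, ξ (t + 1) ω) ∂P = 0 := by
      rw [(P1 t Φ hΦ).2, Measure.integral_compProd hΦ]
      exact integral_eq_zero_of_ae hmean
    have hI := (P1 t Φ hΦ).1
    have hw'mm : Measurable w' := hw'm.mono (fil_le hC.meas t) le_rfl
    have hI' : Integrable (fun ω => w' ω * Φ (ξ t ω, ξ (t + 1) ω)) P := by
      refine hI.bdd_mul (c := 1) hw'mm.aestronglyMeasurable
        (Eventually.of_forall fun ω => ?_)
      rw [Real.norm_eq_abs, abs_of_nonneg (h0 _)]
      exact h1 _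
    have e : ∀ ω, w ω * Φ (ξ t ω, ξ (t + 1) ω) =
        2 * C' * (w' ω * Φ (ξ t ω, ξ (t + 1) ω)) - C' * Φ (ξ t ω, ξ (t + 1) ω) := by
      intro ω
      simp only [hw']
      field_simp
      ring
    simp_rw [e]
    rw [integral_sub (hI'.const_mul _) (hI.const_mul _), integral_const_mul, integral_const_mul,
      k1, k2, k3, mul_zero, mul_zero, sub_zero]
  · intro w n Gd C1 hw h0 h1 hGd hoff hvar
    have hwm : ∀ t, Measurable (w t) := fun t => (hw t).mono (fil_le hC.meas t) le_rfl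
    choose ψ hψm hψ0 hψ1 hψ using fun t => dens (map_le hC t (h1 t))
    choose ψs hsm hs0 hs1 hs using fun t => dens (map_le hC (t + 1) (h1 t))
    have hsnd : (π ⊗ₘ κ).map Prod.snd = π := by
      rw [← law_pair hC 0, Measure.map_map measurable_snd (hpm 0)]
      exact hC.law 1
    -- the difference formula
    have hdiff : ∀ (t : ℕ) (φ : X → ℝ), Measurable φ → (∃ C, ∀ x, |φ x| ≤ C) →
        ∫ x, (ψ (t + 1) x - ψs t x) * φ x ∂π =
          ∫ ω, (w (t + 1) ω - w t ω) * φ (ξ (t + 1) ω) ∂P := by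
      rintro t φ hφm ⟨C, hφC⟩
      have hφi : Integrable φ π := Integrable.of_bound hφm.aestronglyMeasurable C
        (Eventually.of_forall hφC)
      have a1 := int_one hC (t + 1) (hwm (t + 1)) (h0 (t + 1)) (hψm (t + 1)) (hψ0 (t + 1))
        (hψ (t + 1)) hφi
      have a2 := int_one hC (t + 1) (hwm t) (h0 t) (hsm t) (hs0 t) (hs t) hφi
      have i1 : ∀ (θ : X → ℝ), Measurable θ → (∀ x, 0 ≤ θ x) → (∀ x, θ x ≤ 1) →
          Integrable (fun x => θ x * φ x) π := fun θ hm h0 h1 =>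
        hφi.bdd_mul (c := 1) hm.aestronglyMeasurable (Eventually.of_forall fun x => by
          rw [Real.norm_eq_abs, abs_of_nonneg (h0 _)]; exact h1 _)
      have hφi' : Integrable (fun ω => φ (ξ (t + 1) ω)) P := Integrable.of_bound
        (hφm.comp (hC.meas (t + 1))).aestronglyMeasurable C (Eventually.of_forall fun ω => hφC _)
      have i2 : ∀ (θ : Ω → ℝ), Measurable θ → (∀ x, 0 ≤ θ x) → (∀ x, θ x ≤ 1) →
          Integrable (fun ω => θ ω * φ (ξ (t + 1) ω)) P := fun θ hm h0 h1 =>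
        hφi'.bdd_mul (c := 1) hm.aestronglyMeasurable (Eventually.of_forall fun x => by
          rw [Real.norm_eq_abs, abs_of_nonneg (h0 _)]; exact h1 _)
      simp_rw [sub_mul]
      rw [integral_sub (i1 _ (hψm _) (hψ0 _) (hψ1 _)) (i1 _ (hsm _) (hs0 _) (hs1 _)),
        integral_sub (i2 _ (hwm _) (h0 _) (h1 _)) (i2 _ (hwm _) (h0 _) (h1 _)), a1, a2]
    have habs : ∀ t x, |ψ (t + 1) x - ψs t x| ≤ 1 := fun t x => by
      rw [abs_le]
      constructor
      · linarith [hψ0 (t + 1) x, hs1 t x]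
      · linarith [hψ1 (t + 1) x, hs0 t x]
    have hdm : ∀ t, Measurable (fun x => ψ (t + 1) x - ψs t x) := fun t =>
      (hψm (t + 1)).sub (hsm t)
    refine ⟨ψ, ψs, ⟨hψm, hsm, hψ0, hψ1, hs0, hs1, ?_, ?_, ?_⟩, ?_, ?_⟩
    · intro t φ hφ
      have hφ2 : Integrable (fun p : X × X => φ p.2) (π ⊗ₘ κ) := by
        have : Integrable φ ((π ⊗ₘ κ).map Prod.snd) := by rw [hsnd]; exact hφ
        exact this.comp_measurable measurable_snd
      rw [← int_pair hC t (hw t) (h0 t) (h1 t) (hψm t) (hψ0 t) (hψ t) hφ2,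
        ← int_one hC (t + 1) (hwm t) (h0 t) (hsm t) (hs0 t) (hs t) hφ]
    · intro t
      set h : X → ℝ := Gdᶜ.indicator (fun x => ψ (t + 1) x - ψs t x) with hh
      have hhm : Measurable h := (hdm t).indicator hGd.compl
      have k := hdiff t h hhm ⟨1, fun x => by
        by_cases hx : x ∈ Gdᶜ
        · rw [hh, Set.indicator_of_mem hx]; exact habs t x
        · rw [hh, Set.indicator_of_notMem hx, abs_zero]; exact zero_le_one⟩
      have k0 : ∫ ω, (w (t + 1) ω - w t ω) * h (ξ (t + 1) ω) ∂P = 0 := by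
        refine integral_eq_zero_of_ae (Eventually.of_forall fun ω => ?_)
        change (w (t + 1) ω - w t ω) * h (ξ (t + 1) ω) = 0
        by_cases hx : ξ (t + 1) ω ∈ Gd
        · rw [hh, Set.indicator_of_notMem (fun hc : ξ (t + 1) ω ∈ Gdᶜ => hc hx), mul_zero]
        · rw [hoff t ω hx, sub_self, zero_mul]
      rw [k0] at k
      have hsq : ∀ x, (ψ (t + 1) x - ψs t x) * h x = h x ^ 2 := fun x => by
        by_cases hx : x ∈ Gdᶜ
        · rw [hh, Set.indicator_of_mem hx]; ring
        · rw [hh, Set.indicator_of_notMem hx]; ring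
      simp_rw [hsq] at k
      have hb : ∀ x, |h x| ≤ 1 := fun x => by
        by_cases hx : x ∈ Gdᶜ
        · rw [hh, Set.indicator_of_mem hx]; exact habs t x
        · rw [hh, Set.indicator_of_notMem hx, abs_zero]; exact zero_le_one
      have hi : Integrable (fun x => h x ^ 2) π := Integrable.of_bound
        (hhm.pow_const 2).aestronglyMeasurable 1 (Eventually.of_forall fun x => by
          rw [Real.norm_eq_abs, abs_of_nonneg (sq_nonneg _), ← sq_abs]
          exact pow_le_one₀ (abs_nonneg _) (hb x))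
      have k2 := (integral_eq_zero_iff_of_nonneg (fun x => sq_nonneg (h x)) hi).1 k
      filter_upwards [k2] with x hx hxG
      have hx' : h x ^ 2 = 0 := hx
      have hx0 : h x = 0 := by
        exact pow_eq_zero_iff (two_ne_zero) |>.1 hx'
      rw [hh, Set.indicator_of_mem (show x ∈ Gdᶜ from hxG)] at hx0
      linarith
    · refine le_trans (Finset.sum_le_sum fun t _ => ?_) hvar
      set φ : X → ℝ := fun x => if 0 ≤ ψ (t + 1) x - ψs t x then 1 else -1 with hφ
      have hφm : Measurable φ :=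
        Measurable.ite (measurableSet_le measurable_const (hdm t)) measurable_const
          measurable_const
      have hφ1 : ∀ x, |φ x| ≤ 1 := fun x => by
        simp only [hφ]; split_ifs <;> simp
      have k := hdiff t φ hφm ⟨1, hφ1⟩
      have e : ∀ x, (ψ (t + 1) x - ψs t x) * φ x = |ψ (t + 1) x - ψs t x| := fun x => by
        simp only [hφ]
        split_ifs with hx
        · rw [mul_one, abs_of_nonneg hx]
        · rw [mul_neg, mul_one, abs_of_neg (not_le.1 hx)]
      simp_rw [e] at k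
      rw [k]
      have hwd : ∀ ω, |w (t + 1) ω - w t ω| ≤ 1 := fun ω => by
        rw [abs_le]
        constructor
        · linarith [h0 (t + 1) ω, h1 t ω]
        · linarith [h1 (t + 1) ω, h0 t ω]
      have hdwm : Measurable (fun ω => w (t + 1) ω - w t ω) := (hwm _).sub (hwm _)
      refine integral_mono (Integrable.of_bound
        (hdwm.mul (hφm.comp (hC.meas (t + 1)))).aestronglyMeasurable 1
          (Eventually.of_forall fun ω => ?_))
        (Integrable.of_bound hdwm.abs.aestronglyMeasurable 1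
          (Eventually.of_forall fun ω => ?_)) fun ω => ?_
      · rw [Real.norm_eq_abs, abs_mul]
        exact mul_le_one₀ (hwd ω) (abs_nonneg _) (hφ1 _)
      · rw [Real.norm_eq_abs, abs_abs]
        exact hwd ω
      · refine (le_abs_self _).trans ?_
        rw [abs_mul]
        exact mul_le_of_le_one_right (abs_nonneg _) (hφ1 _)
    · intro t
      have := int_one hC t (hwm t) (h0 t) (hψm t) (hψ0 t) (hψ t)
        (φ := fun _ => 1) (integrable_const 1)
      simpa using this
    · intro t Φ hΦ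
      exact int_pair hC t (hw t) (h0 t) (h1 t) (hψm t) (hψ0 t) (hψ t) hΦ

end

end Pool.Agent.K1H85.CL
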