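import Pool.Agent.K1H85.CL.Stm

/-!
Project CL (MP_cd27db_pr), piece CL-25: from the usual definition of a two-sided stationary Markov
chain (conditional expectations of indicators) to the working form.
-/

open MeasureTheory ProbabilityTheory Filter
open scoped Topology BigOperators ENNReal

namespace Pool.Agent.K1H85.CL

universe u v

noncomputable section

variable {X : Type u} [MeasurableSpace X] {Ω : Type v} [mΩ : MeasurableSpace Ω]

/-- the past sigma-algebra -/
@[reducible] private def Past (ξ : ℤ → Ω → X) (n : ℤ) : MeasurableSpace Ω :=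
  ⨆ i : Set.Iic n, MeasurableSpace.comap (ξ i) inferInstance

private theorem past_le {ξ : ℤ → Ω → X} (hξ : ∀ n, Measurable (ξ n)) (n : ℤ) :
    Past ξ n ≤ mΩ := iSup_le fun i => (hξ i).comap_le

private theorem fil_le_past (ξ : ℤ → Ω → X) (t : ℕ) :
    Fil (fun n : ℕ => ξ (n : ℤ)) t ≤ Past ξ (t : ℤ) := by
  refine iSup_le fun i => ?_
  have hi : ((i : ℕ) : ℤ) ∈ Set.Iic (t : ℤ) := by
    have := i.2
    simp only [Set.mem_Iic]
    omega
  exact le_iSup (fun j : Set.Iic (t : ℤ) => MeasurableSpace.comap (ξ j) inferInstance)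
    ⟨((i : ℕ) : ℤ), hi⟩

/-- the Markov property for indicators -/
private theorem ind {κ : Kernel X X} [IsMarkovKernel κ] {π : Measure X} {P : Measure Ω}
    {ξ : ℤ → Ω → X} (h : StatMarkov κ π P ξ) (n : ℤ) {w : Ω → ℝ}
    (hw : Measurable[Past ξ n] w) (hb : ∀ ω, |w ω| ≤ 1) {A : Set X} (hA : MeasurableSet A) :
    ∫ ω, w ω * (A.indicator (fun _ => (1 : ℝ)) (ξ (n + 1) ω)) ∂P =
      ∫ ω, w ω * (κ (ξ n ω) A).toReal ∂P := by
  haveI := h.pr
  have hm : Past ξ n ≤ mΩ := past_le h.meas n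
  haveI : SigmaFinite (P.trim hm) := by
    haveI : IsFiniteMeasure (P.trim hm) := isFiniteMeasure_trim hm
    infer_instance
  set g : Ω → ℝ := (ξ (n + 1) ⁻¹' A).indicator (fun _ => (1 : ℝ)) with hg
  have hAm : MeasurableSet (ξ (n + 1) ⁻¹' A) := h.meas (n + 1) hA
  have hgi : Integrable g P := (integrable_const (1 : ℝ)).indicator hAm
  have hwm : Measurable w := hw.mono hm le_rfl
  have hwg : Integrable (w * g) P := by
    refine Integrable.bdd_mul hgi hwm.aestronglyMeasurable (c := 1) ?_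
    exact Filter.Eventually.of_forall fun ω => by simpa using hb ω
  have h1 : P[w * g | Past ξ n] =ᵐ[P] w * P[g | Past ξ n] :=
    condExp_mul_of_stronglyMeasurable_left hw.stronglyMeasurable hwg hgi
  have h2 : P[g | Past ξ n] =ᵐ[P] fun ω => (κ (ξ n ω) A).toReal := h.markov n A hA
  calc ∫ ω, w ω * (A.indicator (fun _ => (1 : ℝ)) (ξ (n + 1) ω)) ∂P
      = ∫ ω, (w * g) ω ∂P := by
        refine integral_congr_ae (Filter.Eventually.of_forall fun ω => ?_)
        simp only [Pi.mul_apply, hg]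
        rfl
    _ = ∫ ω, (P[w * g | Past ξ n]) ω ∂P := (integral_condExp hm).symm
    _ = ∫ ω, w ω * (κ (ξ n ω) A).toReal ∂P := by
        refine integral_congr_ae ?_
        filter_upwards [h1, h2] with ω e1 e2
        rw [e1, Pi.mul_apply, e2]

/-- the Markov property for simple functions -/
private theorem simp' {κ : Kernel X X} [IsMarkovKernel κ] {π : Measure X} {P : Measure Ω}
    {ξ : ℤ → Ω → X} (h : StatMarkov κ π P ξ) (n : ℤ) {w : Ω → ℝ}
    (hw : Measurable[Past ξ n] w) (hb : ∀ ω, |w ω| ≤ 1) (f : SimpleFunc X ℝ) :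
    ∫ ω, w ω * f (ξ (n + 1) ω) ∂P = ∫ ω, w ω * ∫ y, f y ∂(κ (ξ n ω)) ∂P := by
  haveI := h.pr
  have hm : Past ξ n ≤ mΩ := past_le h.meas n
  have hwm : Measurable w := hw.mono hm le_rfl
  -- integrability
  have hi1 : ∀ f : SimpleFunc X ℝ, Integrable (fun ω => w ω * f (ξ (n + 1) ω)) P := by
    intro f
    obtain ⟨C, hC⟩ := f.exists_forall_norm_le
    refine Integrable.of_bound (hwm.mul (f.measurable.comp (h.meas (n + 1)))).aestronglyMeasurable
      C (Filter.Eventually.of_forall fun ω => ?_)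
    rw [norm_mul]
    have h1 : ‖w ω‖ ≤ 1 := by simpa using hb ω
    have h2 := hC (ξ (n + 1) ω)
    nlinarith [norm_nonneg (w ω), norm_nonneg (f (ξ (n + 1) ω))]
  have hi2 : ∀ f : SimpleFunc X ℝ, Integrable (fun ω => w ω * ∫ y, f y ∂(κ (ξ n ω))) P := by
    intro f
    obtain ⟨C, hC⟩ := f.exists_forall_norm_le
    have hmeas : StronglyMeasurable fun x => ∫ y, f y ∂(κ x) :=
      f.measurable.stronglyMeasurable.integral_kernel
    refine Integrable.of_bound
      (hwm.mul (hmeas.measurable.comp (h.meas n))).aestronglyMeasurable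
      C (Filter.Eventually.of_forall fun ω => ?_)
    have h1 : ‖w ω‖ ≤ 1 := by simpa using hb ω
    have h2 : ‖∫ y, f y ∂(κ (ξ n ω))‖ ≤ C := by
      have := norm_integral_le_of_norm_le_const (μ := κ (ξ n ω)) (f := fun y => f y) (C := C)
        (Filter.Eventually.of_forall fun y => hC y)
      simpa using this
    show ‖w ω * ∫ y, f y ∂(κ (ξ n ω))‖ ≤ C
    rw [norm_mul]
    nlinarith [norm_nonneg (w ω), norm_nonneg (∫ y, f y ∂(κ (ξ n ω)))]
  induction f using SimpleFunc.induction with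
  | const c hs =>
    rename_i s
    have e1 : ∀ x, (SimpleFunc.piecewise s hs (SimpleFunc.const X c) (SimpleFunc.const X 0)) x
        = c * s.indicator (fun _ => (1 : ℝ)) x := by
      intro x
      by_cases hx : x ∈ s <;> simp [hx]
    have e2 : ∀ x, ∫ y, (SimpleFunc.piecewise s hs (SimpleFunc.const X c)
        (SimpleFunc.const X 0)) y ∂(κ x) = c * (κ x s).toReal := by
      intro x
      rw [integral_congr_ae (Filter.Eventually.of_forall e1), integral_const_mul,
        integral_indicator_const _ hs]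
      simp [Measure.real]
    simp_rw [e2, e1]
    have e3 := ind h n hw hb hs
    have : ∀ ω, w ω * (c * s.indicator (fun _ => (1 : ℝ)) (ξ (n + 1) ω)) =
        c * (w ω * s.indicator (fun _ => (1 : ℝ)) (ξ (n + 1) ω)) := fun ω => by ring
    simp_rw [this]
    have : ∀ ω, w ω * (c * (κ (ξ n ω) s).toReal) = c * (w ω * (κ (ξ n ω) s).toReal) :=
      fun ω => by ring
    simp_rw [this]
    rw [integral_const_mul, integral_const_mul, e3]
  | add hd hf hg =>
    rename_i f g
    have e1 : ∀ ω, w ω * (f + g) (ξ (n + 1) ω) =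
        w ω * f (ξ (n + 1) ω) + w ω * g (ξ (n + 1) ω) := fun ω => by
      simp [mul_add]
    have e2 : ∀ ω, w ω * ∫ y, (f + g) y ∂(κ (ξ n ω)) =
        w ω * ∫ y, f y ∂(κ (ξ n ω)) + w ω * ∫ y, g y ∂(κ (ξ n ω)) := fun ω => by
      rw [← mul_add, ← integral_add (SimpleFunc.integrable_of_isFiniteMeasure f)
        (SimpleFunc.integrable_of_isFiniteMeasure g)]
      rfl
    simp_rw [e1, e2]
    rw [integral_add (hi1 f) (hi1 g), integral_add (hi2 f) (hi2 g), hf, hg]

theorem t_Z (X : Type u) [MeasurableSpace X] (Ω : Type v) [MeasurableSpace Ω] : S_Z X Ω := by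
  intro κ _ π P ξ h
  haveI := h.pr
  refine ⟨h.pr, fun t => h.meas t, fun t => h.law t, ?_⟩
  intro t w Φ hw hb hΦ hΦb
  have hwP : Measurable[Past ξ (t : ℤ)] w := hw.mono (fil_le_past ξ t) le_rfl
  have hwm : Measurable w := hwP.mono (past_le h.meas t) le_rfl
  have hcast : (((t + 1 : ℕ)) : ℤ) = (t : ℤ) + 1 := by push_cast; ring
  show ∫ ω, w ω * Φ (ξ ((t + 1 : ℕ) : ℤ) ω) ∂P = ∫ ω, w ω * ∫ y, Φ y ∂(κ (ξ (t : ℤ) ω)) ∂P
  rw [hcast]
  -- approximation by simple functions
  have h0 : (0 : ℝ) ∈ Set.Icc (-1 : ℝ) 1 := by constructor <;> norm_num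
  set F : ℕ → SimpleFunc X ℝ := fun n => SimpleFunc.approxOn Φ hΦ (Set.Icc (-1 : ℝ) 1) 0 h0 n
    with hF
  have hFb : ∀ n x, ‖F n x‖ ≤ 1 := by
    intro n x
    have := SimpleFunc.approxOn_mem hΦ h0 n x
    rw [Real.norm_eq_abs, abs_le]
    exact this
  have hFt : ∀ x, Tendsto (fun n => F n x) atTop (𝓝 (Φ x)) := by
    intro x
    refine SimpleFunc.tendsto_approxOn hΦ h0 (subset_closure ?_)
    exact abs_le.mp (hΦb x)
  have hL : Tendsto (fun n => ∫ ω, w ω * F n (ξ ((t : ℤ) + 1) ω) ∂P) atTop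
      (𝓝 (∫ ω, w ω * Φ (ξ ((t : ℤ) + 1) ω) ∂P)) := by
    refine tendsto_integral_of_dominated_convergence (fun _ => (1 : ℝ)) ?_ (integrable_const _)
      ?_ ?_
    · intro n
      exact (hwm.mul ((F n).measurable.comp (h.meas _))).aestronglyMeasurable
    · intro n
      refine Filter.Eventually.of_forall fun ω => ?_
      rw [norm_mul]
      have h1 : ‖w ω‖ ≤ 1 := by simpa using hb ω
      have h2 := hFb n (ξ ((t : ℤ) + 1) ω)
      nlinarith [norm_nonneg (w ω), norm_nonneg (F n (ξ ((t : ℤ) + 1) ω))]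
    · exact Filter.Eventually.of_forall fun ω => (hFt _).const_mul _
  have hK : ∀ x, Tendsto (fun n => ∫ y, F n y ∂(κ x)) atTop (𝓝 (∫ y, Φ y ∂(κ x))) := by
    intro x
    refine tendsto_integral_of_dominated_convergence (fun _ => (1 : ℝ)) ?_ (integrable_const _)
      ?_ ?_
    · intro n
      exact (F n).measurable.aestronglyMeasurable
    · intro n
      exact Filter.Eventually.of_forall fun y => hFb n y
    · exact Filter.Eventually.of_forall fun y => hFt y
  have hR : Tendsto (fun n => ∫ ω, w ω * ∫ y, F n y ∂(κ (ξ (t : ℤ) ω)) ∂P) atTop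
      (𝓝 (∫ ω, w ω * ∫ y, Φ y ∂(κ (ξ (t : ℤ) ω)) ∂P)) := by
    refine tendsto_integral_of_dominated_convergence (fun _ => (1 : ℝ)) ?_ (integrable_const _)
      ?_ ?_
    · intro n
      have hmeas : StronglyMeasurable fun x => ∫ y, F n y ∂(κ x) :=
        (F n).measurable.stronglyMeasurable.integral_kernel
      exact (hwm.mul (hmeas.measurable.comp (h.meas _))).aestronglyMeasurable
    · intro n
      refine Filter.Eventually.of_forall fun ω => ?_
      have h1 : ‖w ω‖ ≤ 1 := by simpa using hb ω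
      have h2 : ‖∫ y, F n y ∂(κ (ξ (t : ℤ) ω))‖ ≤ 1 := by
        have := norm_integral_le_of_norm_le_const (μ := κ (ξ (t : ℤ) ω)) (f := fun y => F n y)
          (C := 1) (Filter.Eventually.of_forall fun y => hFb n y)
        simpa using this
      rw [norm_mul]
      nlinarith [norm_nonneg (w ω), norm_nonneg (∫ y, F n y ∂(κ (ξ (t : ℤ) ω)))]
    · exact Filter.Eventually.of_forall fun ω => (hK _).const_mul _
  refine tendsto_nhds_unique hL ?_
  have e : (fun n => ∫ ω, w ω * F n (ξ ((t : ℤ) + 1) ω) ∂P) =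
      fun n => ∫ ω, w ω * ∫ y, F n y ∂(κ (ξ (t : ℤ) ω)) ∂P :=
    funext fun n => simp' h t hwP hb (F n)
  rw [e]
  exact hR

end

end Pool.Agent.K1H85.CL
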