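import Pool.Agent.K1H85.CL.Fin
import Pool.Agent.K1H85.CL.T_S1
import Pool.Agent.K1H85.CL.T_SC
import Pool.Agent.K1H85.CL.T_GF
import Pool.Agent.K1H85.CL.T_CFA
import Pool.Agent.K1H85.CL.T_SQ
import Pool.Agent.K1H85.CL.T_QE
import Pool.Agent.K1H85.CL.T_VAR
import Pool.Agent.K1H85.CL.T_LOW
import Pool.Agent.K1H85.CL.T_WSEQ
import Pool.Agent.K1H85.CL.T_UPD
import Pool.Agent.K1H85.CL.T_STEP
import Pool.Agent.K1H85.CL.T_OP
import Pool.Agent.K1H85.CL.T_Z
import Pool.Agent.K1H85.CL.T_APX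
import Pool.Agent.K1H85.CL.T_BND
import Pool.Agent.K1H85.CL.T_ODD
import Pool.Agent.K1H85.CL.T_EVEN
import Pool.Agent.K1H85.CL.T_INT
import Pool.Agent.K1H85.CL.T_TOT
import Pool.Agent.K1H85.CL.T_START
import Pool.Agent.K1H85.CL.T_END
import Pool.Agent.K1H85.CL.T_W
import Pool.Agent.K1H85.CL.T_KEY
import Pool.Agent.K1H85.CL.T_CLT

/-!
All pieces of project CL put together.
-/

open MeasureTheory ProbabilityTheory Filter

namespace Pool.Agent.K1H85.CL

universe u v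

theorem all_QE : S_QE.{u} := t_QE t_SQ

theorem all_OP (X : Type u) [MeasurableSpace X] : S_OP X := t_OP X all_QE

theorem all_SC : S_SC := t_SC t_S1

theorem all_ODD (X : Type u) [MeasurableSpace X] : S_ODD X := t_ODD X all_SC (t_BND X)

theorem all_EVEN (X : Type u) [MeasurableSpace X] : S_EVEN X := t_EVEN X all_SC (t_BND X)

theorem all_INT (X : Type u) [MeasurableSpace X] : S_INT X := t_INT X (t_BND X)

theorem all_TOT (X : Type u) [MeasurableSpace X] : S_TOT X :=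
  t_TOT X (all_ODD X) (all_EVEN X) (all_INT X)

theorem all_START (X : Type u) [MeasurableSpace X] : S_START X :=
  t_START X t_GF (t_BND X) (t_VAR X)

theorem all_END (X : Type u) [MeasurableSpace X] : S_END X :=
  t_END X t_GF (t_BND X) (t_VAR X)

theorem all_W (X : Type u) [MeasurableSpace X] : S_W X :=
  t_W X (t_BND X) (t_VAR X) t_GOOD (all_INT X) (all_TOT X) (all_START X) (all_END X) (t_LOW X)

theorem all_UPD (X : Type u) [MeasurableSpace X] (Ω : Type v) [MeasurableSpace Ω] : S_UPD X Ω :=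
  t_UPD X Ω (t_WSEQ X Ω)

theorem all_STEP (X : Type u) [MeasurableSpace X] (Ω : Type v) [MeasurableSpace Ω] : S_STEP X Ω :=
  t_STEP X Ω (t_WSEQ X Ω)

theorem all_KEY (X : Type u) [MeasurableSpace X] (Ω : Type v) [MeasurableSpace Ω] : S_KEY X Ω :=
  t_KEY X Ω (all_W X) (t_VAR X) (t_WSEQ X Ω) (all_UPD X Ω) (all_STEP X Ω) t_CFA

theorem all_CLT (X : Type u) [MeasurableSpace X] (Ω : Type v) [MeasurableSpace Ω] : S_CLT X Ω :=
  t_CLT X Ω (all_KEY X Ω) (t_APX X Ω) (t_VAR X) (all_UPD X Ω)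

end Pool.Agent.K1H85.CL
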