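import Pool.Agent.K1H85.CL.Stm

/-!
Common lemmas of project CL: weights, the potential, measurability and integrability on the pair
level.
-/

open MeasureTheory ProbabilityTheory Filter
open scoped Topology BigOperators ENNReal

namespace Pool.Agent.K1H85.CL

universe u

set_option linter.unusedSectionVars false

/-! ### weights -/

lemma cw_self (s : ℕ) : cw s s = 1 := by simp [cw]

lemma cw_pos (s t : ℕ) : 0 < cw s t := by
  unfold cw; split_ifs <;> positivity

lemma cw_le_one (s t : ℕ) : cw s t ≤ 1 := by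
  unfold cw; split_ifs
  · exact pow_le_one₀ (by norm_num) (by norm_num)
  · exact pow_le_one₀ (by norm_num) (by norm_num)

lemma cw_succ_of_lt {s t : ℕ} (h : s < t) : cw (s + 1) t = 81 / 64 * cw s t := by
  unfold cw
  rw [if_pos (by omega), if_pos (by omega)]
  obtain ⟨k, rfl⟩ : ∃ k, t = s + 1 + k := ⟨t - (s + 1), by omega⟩
  have h1 : s + 1 + k - (s + 1) = k := by omega
  have h2 : s + 1 + k - s = k + 1 := by omega
  rw [h1, h2, pow_succ]; ring

lemma cw_succ_of_le {s t : ℕ} (h : t ≤ s) : cw (s + 1) t = 1521 / 1600 * cw s t := by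
  unfold cw
  rw [if_neg (by omega)]
  rcases Nat.lt_or_ge t s with h' | h'
  · rw [if_neg (by omega)]
    have h1 : s + 1 - t = s - t + 1 := by omega
    rw [h1, pow_succ]; ring
  · have : t = s := by omega
    subst this
    simp

lemma cw_succ_le (s t : ℕ) : cw (s + 1) t ≤ 81 / 64 * cw s t := by
  rcases Nat.lt_or_ge s t with h | h
  · exact (cw_succ_of_lt h).le
  · rw [cw_succ_of_le h]; nlinarith [cw_pos s t]

/-- sum of the weights over the steps -/
lemma sum_cw_le (N t : ℕ) : ∑ s ∈ Finset.range N, cw s t ≤ 25 := by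
  have h1 : ∀ M : ℕ, ∀ q : ℝ, 0 ≤ q → q < 1 → ∑ i ∈ Finset.range M, q ^ i ≤ 1 / (1 - q) := by
    intro M q hq0 hq1
    have := geom_sum_Ico_le_of_lt_one (x := q) (m := 0) (n := M) hq0 hq1
    simpa using this
  have key : ∀ N t : ℕ, ∑ s ∈ Finset.range N, cw s t
      ≤ ∑ i ∈ Finset.range (t + 1), (64 / 81 : ℝ) ^ i
        + (1521 / 1600 : ℝ) * ∑ i ∈ Finset.range N, (1521 / 1600 : ℝ) ^ i := by
    intro N t
    have e1 : ∑ s ∈ Finset.range N, cw s t
        = ∑ s ∈ (Finset.range N).filter (fun s => s ≤ t), cw s t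
          + ∑ s ∈ (Finset.range N).filter (fun s => ¬ s ≤ t), cw s t :=
      (Finset.sum_filter_add_sum_filter_not _ _ _).symm
    rw [e1]
    apply add_le_add
    · calc ∑ s ∈ (Finset.range N).filter (fun s => s ≤ t), cw s t
          ≤ ∑ s ∈ Finset.range (t + 1), cw s t := by
            apply Finset.sum_le_sum_of_subset_of_nonneg
            · intro s hs
              simp only [Finset.mem_filter, Finset.mem_range] at hs ⊢
              omega
            · intro i _ _; exact (cw_pos i t).le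
        _ = ∑ s ∈ Finset.range (t + 1), (64 / 81 : ℝ) ^ (t - s) := by
            apply Finset.sum_congr rfl
            intro s hs
            simp only [Finset.mem_range] at hs
            unfold cw; rw [if_pos (by omega)]
        _ = ∑ i ∈ Finset.range (t + 1), (64 / 81 : ℝ) ^ i := by
            rw [← Finset.sum_range_reflect]
            apply Finset.sum_congr rfl
            intro s hs
            simp only [Finset.mem_range] at hs
            congr 1
            omega
    · rw [Finset.mul_sum]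
      calc ∑ s ∈ (Finset.range N).filter (fun s => ¬ s ≤ t), cw s t
          = ∑ s ∈ (Finset.range N).filter (fun s => ¬ s ≤ t),
              (1521 / 1600 : ℝ) * (1521 / 1600 : ℝ) ^ (s - t - 1) := by
            apply Finset.sum_congr rfl
            intro s hs
            simp only [Finset.mem_filter, Finset.mem_range] at hs
            unfold cw; rw [if_neg hs.2]
            have : s - t = (s - t - 1) + 1 := by omega
            rw [this, pow_succ]
            have h3 : s - t - 1 + 1 - 1 = s - t - 1 := by omega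
            rw [h3]; ring
        _ = ∑ i ∈ ((Finset.range N).filter (fun s => ¬ s ≤ t)).image (fun s => s - t - 1),
              (1521 / 1600 : ℝ) * (1521 / 1600 : ℝ) ^ i := by
            rw [Finset.sum_image]
            intro a ha b hb hab
            simp only [Finset.coe_filter, Finset.mem_range, Set.mem_ofPred_eq] at ha hb hab
            omega
        _ ≤ ∑ i ∈ Finset.range N, (1521 / 1600 : ℝ) * (1521 / 1600 : ℝ) ^ i := by
            apply Finset.sum_le_sum_of_subset_of_nonneg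
            · intro i hi
              simp only [Finset.mem_image, Finset.mem_filter, Finset.mem_range] at hi ⊢
              obtain ⟨s, hs, rfl⟩ := hi
              omega
            · intro i _ _; positivity
  have a1 := h1 (t + 1) (64 / 81) (by norm_num) (by norm_num)
  have a2 := h1 N (1521 / 1600) (by norm_num) (by norm_num)
  have := key N t
  norm_num at a1 a2
  linarith

/-! ### the potential -/

lemma nrm2_nonneg (N s : ℕ) (e : ℝ) (x : ℕ → ℝ) : 0 ≤ nrm2 N s e x := by
  unfold nrm2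
  have : 0 ≤ ∑ t ∈ Finset.range N, cw s t * x t ^ 2 :=
    Finset.sum_nonneg fun t _ => mul_nonneg (cw_pos s t).le (sq_nonneg _)
  positivity

lemma Fp_nonneg {r q : ℝ} (hr : 0 < r) (hq : 0 ≤ q) : 0 ≤ Fp r q := by
  unfold Fp
  have : r ≤ √(r ^ 2 + q) := by
    apply Real.le_sqrt_of_sq_le; linarith
  nlinarith

lemma Fp_le {r q : ℝ} (hr : 0 < r) (hq : 0 ≤ q) : Fp r q ≤ q := by
  unfold Fp
  have h1 : √(r ^ 2 + q) ^ 2 = r ^ 2 + q := Real.sq_sqrt (by positivity)
  nlinarith [sq_nonneg (√(r ^ 2 + q) - r)]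

lemma Fp_le_lin {r q : ℝ} (hr : 0 < r) (hq : 0 ≤ q) : Fp r q ≤ 2 * r * √q := by
  unfold Fp
  have h1 : √(r ^ 2 + q) ≤ r + √q := by
    rw [Real.sqrt_le_left (by positivity)]
    nlinarith [Real.sq_sqrt hq, Real.sqrt_nonneg q, mul_nonneg hr.le (Real.sqrt_nonneg q)]
  nlinarith

/-! ### pair level -/

section pair

variable {X : Type u} [MeasurableSpace X] {π : Measure X} {μ : Measure (X × X)} {f : X → ℝ}
  {g h a b : ℕ → X → ℝ} {γ : ℕ → ℝ}

lemma zz_succ (f : X → ℝ) (g h : ℕ → X → ℝ) (m s : ℕ) (x : X) :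
    zz f g h m (s + 1) x = zz f g h m s x + xx g h m s x := by
  unfold zz xx
  rcases Nat.mod_two_eq_zero_or_one s with hs | hs
  · rw [if_pos hs]
    have h1 : (s + 1 + 1) / 2 = s / 2 + 1 := by omega
    have h2 : (s + 1) / 2 = s / 2 := by omega
    rw [h1, h2, ← add_assoc]; ring
  · rw [if_neg (by omega)]
    have h1 : (s + 1 + 1) / 2 = s / 2 + 1 := by omega
    have h2 : (s + 1) / 2 = s / 2 + 1 := by omega
    rw [h1, h2, ← add_assoc]; ring

lemma ee_succ (g h : ℕ → X → ℝ) (m s : ℕ) (p : X × X) :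
    ee g h m (s + 1) p = ee g h m s p + xe g h m s p := by
  unfold ee xe xx
  rcases Nat.mod_two_eq_zero_or_one s with hs | hs
  · rw [if_pos hs, if_pos hs]
    have h1 : (s + 1 + 1) / 2 = s / 2 + 1 := by omega
    have h2 : (s + 1) / 2 = s / 2 := by omega
    rw [h1, h2, ← add_assoc]; ring
  · rw [if_neg (by omega), if_neg (by omega)]
    have h1 : (s + 1 + 1) / 2 = s / 2 + 1 := by omega
    have h2 : (s + 1) / 2 = s / 2 + 1 := by omega
    rw [h1, h2, ← add_assoc]; ring

lemma PsV_eq (f : X → ℝ) (g h : ℕ → X → ℝ) (m N s : ℕ) (r : ℝ) (x : X) :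
    PsV f g h m N s r x = Fp (9 / 8 * r) (nv f g h m N (s + 1) x) - Fp r (nv f g h m N s x) := by
  unfold PsV Psi nv
  rw [zz_succ]

lemma PsE_eq (g h : ℕ → X → ℝ) (m N s : ℕ) (r : ℝ) (p : X × X) :
    PsE g h m N s r p = Fp (9 / 8 * r) (ne g h m N (s + 1) p) - Fp r (ne g h m N s p) := by
  unfold PsE Psi ne
  rw [ee_succ]

lemma nv_nonneg (f : X → ℝ) (g h : ℕ → X → ℝ) (m N s : ℕ) (x : X) : 0 ≤ nv f g h m N s x :=
  nrm2_nonneg _ _ _ _

lemma ne_nonneg (g h : ℕ → X → ℝ) (m N s : ℕ) (p : X × X) : 0 ≤ ne g h m N s p :=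
  nrm2_nonneg _ _ _ _

section meas

variable (hg : ∀ j, Measurable (g j)) (hh : ∀ j, Measurable (h j)) (hf : Measurable f)
include hg hh

lemma meas_xx (m s : ℕ) : Measurable (xx g h m s) := by
  unfold xx
  split_ifs
  · exact (hg _).sub (hg _)
  · exact (hh _).sub (hh _)

lemma meas_xe (m s : ℕ) : Measurable (xe g h m s) := by
  unfold xe
  split_ifs
  · exact (meas_xx hg hh m s).comp measurable_snd
  · exact (meas_xx hg hh m s).comp measurable_fst

lemma meas_ee (m s : ℕ) : Measurable (ee g h m s) := by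
  unfold ee
  exact ((hh _).comp measurable_fst).add ((hg _).comp measurable_snd)

lemma meas_ne (m N s : ℕ) : Measurable (ne g h m N s) := by
  unfold ne nrm2
  apply Measurable.add
  · exact (meas_ee hg hh m s).pow_const 2
  · apply Measurable.const_mul
    exact Finset.measurable_fun_sum _ fun t _ => ((meas_xe hg hh m t).pow_const 2).const_mul _

include hf

lemma meas_zz (m s : ℕ) : Measurable (zz f g h m s) := by
  unfold zz
  exact ((hg _).add (hh _)).sub hf

lemma meas_nv (m N s : ℕ) : Measurable (nv f g h m N s) := by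
  unfold nv nrm2
  apply Measurable.add
  · exact (meas_zz hg hh hf m s).pow_const 2
  · apply Measurable.const_mul
    exact Finset.measurable_fun_sum _ fun t _ => ((meas_xx hg hh m t).pow_const 2).const_mul _

end meas

lemma meas_Fp (r : ℝ) : Measurable (Fp r) := by
  unfold Fp
  fun_prop

/-- Cauchy-Schwarz for real square integrable functions. -/
lemma cs_abs {Y : Type*} [MeasurableSpace Y] {ν : Measure Y} {F G : Y → ℝ} (hF : MemLp F 2 ν)
    (hG : MemLp G 2 ν) : |∫ y, F y * G y ∂ν| ≤ √(∫ y, F y ^ 2 ∂ν) * √(∫ y, G y ^ 2 ∂ν) := by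
  have hFG : Integrable (fun y => F y * G y) ν := hF.integrable_mul hG
  have hF2 : Integrable (fun y => F y ^ 2) ν := hF.integrable_sq
  have hG2 : Integrable (fun y => G y ^ 2) ν := hG.integrable_sq
  have hA : 0 ≤ ∫ y, F y ^ 2 ∂ν := integral_nonneg fun y => sq_nonneg _
  have hB : 0 ≤ ∫ y, G y ^ 2 ∂ν := integral_nonneg fun y => sq_nonneg _
  have key : ∀ t : ℝ, 0 ≤ (∫ y, F y ^ 2 ∂ν) * (t * t) + (2 * ∫ y, F y * G y ∂ν) * t
      + ∫ y, G y ^ 2 ∂ν := by
    intro t
    have h1 : ∫ y, (t * F y + G y) ^ 2 ∂ν = (∫ y, F y ^ 2 ∂ν) * (t * t)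
        + (2 * ∫ y, F y * G y ∂ν) * t + ∫ y, G y ^ 2 ∂ν := by
      have : ∀ y, (t * F y + G y) ^ 2 = (t * t) * F y ^ 2 + (2 * t) * (F y * G y) + G y ^ 2 := by
        intro y; ring
      simp_rw [this]
      have e1 : Integrable (fun y => (t * t) * F y ^ 2) ν := hF2.const_mul _
      have e2 : Integrable (fun y => (2 * t) * (F y * G y)) ν := hFG.const_mul _
      have e3 : Integrable (fun y => (t * t) * F y ^ 2 + (2 * t) * (F y * G y)) ν := e1.add e2
      rw [integral_add e3 hG2, integral_add e1 e2, integral_const_mul, integral_const_mul]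
      ring
    rw [← h1]
    exact integral_nonneg fun y => sq_nonneg _
  have hd := discrim_le_zero key
  unfold discrim at hd
  have h2 : (∫ y, F y * G y ∂ν) ^ 2 ≤ (∫ y, F y ^ 2 ∂ν) * ∫ y, G y ^ 2 ∂ν := by nlinarith
  rw [← Real.sqrt_mul hA, ← Real.sqrt_sq_eq_abs]
  exact Real.sqrt_le_sqrt h2

namespace Cor

variable (C : Cor π μ f g h a b γ)
include C

lemma mpf : MeasurePreserving Prod.fst μ π := ⟨measurable_fst, C.fst⟩

lemma mps : MeasurePreserving Prod.snd μ π := ⟨measurable_snd, C.snd⟩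

lemma int_fst {F : X → ℝ} (hF : AEStronglyMeasurable F π) :
    ∫ p, F p.1 ∂μ = ∫ x, F x ∂π := by
  have : ∫ x, F x ∂(μ.map Prod.fst) = ∫ p, F p.1 ∂μ :=
    integral_map measurable_fst.aemeasurable (by rw [C.fst]; exact hF)
  rw [← this, C.fst]

lemma int_snd {F : X → ℝ} (hF : AEStronglyMeasurable F π) :
    ∫ p, F p.2 ∂μ = ∫ x, F x ∂π := by
  have : ∫ x, F x ∂(μ.map Prod.snd) = ∫ p, F p.2 ∂μ :=
    integral_map measurable_snd.aemeasurable (by rw [C.snd]; exact hF)
  rw [← this, C.snd]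

lemma mem_fst {F : X → ℝ} (hF : MemLp F 2 π) : MemLp (fun p : X × X => F p.1) 2 μ :=
  hF.comp_measurePreserving C.mpf

lemma mem_snd {F : X → ℝ} (hF : MemLp F 2 π) : MemLp (fun p : X × X => F p.2) 2 μ :=
  hF.comp_measurePreserving C.mps

lemma igr_fst {F : X → ℝ} (hF : Integrable F π) : Integrable (fun p : X × X => F p.1) μ :=
  C.mpf.integrable_comp_of_integrable hF

lemma igr_snd {F : X → ℝ} (hF : Integrable F π) : Integrable (fun p : X × X => F p.2) μ :=
  C.mps.integrable_comp_of_integrable hF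

lemma L_xx (m s : ℕ) : MemLp (xx g h m s) 2 π := by
  unfold xx
  split_ifs
  · exact (C.Lg _).sub (C.Lg _)
  · exact (C.Lh _).sub (C.Lh _)

lemma L_zz (m s : ℕ) : MemLp (zz f g h m s) 2 π := by
  unfold zz
  exact ((C.Lg _).add (C.Lh _)).sub C.Lf

lemma L_xe (m s : ℕ) : MemLp (xe g h m s) 2 μ := by
  unfold xe
  split_ifs
  · exact C.mem_snd (C.L_xx m s)
  · exact C.mem_fst (C.L_xx m s)

lemma L_ee (m s : ℕ) : MemLp (ee g h m s) 2 μ := by
  unfold ee
  exact (C.mem_fst (C.Lh _)).add (C.mem_snd (C.Lg _))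

lemma igr_nv (m N s : ℕ) : Integrable (nv f g h m N s) π := by
  unfold nv nrm2
  apply Integrable.add
  · exact (C.L_zz m s).integrable_sq
  · apply Integrable.const_mul
    exact integrable_finsetSum _ fun t _ => ((C.L_xx m t).integrable_sq).const_mul _

lemma igr_ne (m N s : ℕ) : Integrable (ne g h m N s) μ := by
  unfold ne nrm2
  apply Integrable.add
  · exact (C.L_ee m s).integrable_sq
  · apply Integrable.const_mul
    exact integrable_finsetSum _ fun t _ => ((C.L_xe m t).integrable_sq).const_mul _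

lemma igr_Fnv (m N s : ℕ) {r : ℝ} (hr : 0 < r) :
    Integrable (fun x => Fp r (nv f g h m N s x)) π := by
  refine (C.igr_nv m N s).mono'
    ((meas_Fp r).comp (meas_nv C.mg C.mh C.mf m N s)).aestronglyMeasurable ?_
  refine Eventually.of_forall fun x => ?_
  have h0 := nv_nonneg f g h m N s x
  rw [Real.norm_eq_abs, abs_of_nonneg (Fp_nonneg hr h0)]
  exact Fp_le hr h0

lemma igr_Fne (m N s : ℕ) {r : ℝ} (hr : 0 < r) :
    Integrable (fun p => Fp r (ne g h m N s p)) μ := by
  refine (C.igr_ne m N s).mono'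
    ((meas_Fp r).comp (meas_ne C.mg C.mh m N s)).aestronglyMeasurable ?_
  refine Eventually.of_forall fun p => ?_
  have h0 := ne_nonneg g h m N s p
  rw [Real.norm_eq_abs, abs_of_nonneg (Fp_nonneg hr h0)]
  exact Fp_le hr h0

lemma igr_PsV (m N s : ℕ) {r : ℝ} (hr : 0 < r) : Integrable (PsV f g h m N s r) π := by
  have : PsV f g h m N s r = fun x => Fp (9 / 8 * r) (nv f g h m N (s + 1) x)
      - Fp r (nv f g h m N s x) := funext fun x => PsV_eq f g h m N s r x
  rw [this]
  exact (C.igr_Fnv m N (s + 1) (by positivity)).sub (C.igr_Fnv m N s hr)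

lemma igr_PsE (m N s : ℕ) {r : ℝ} (hr : 0 < r) : Integrable (PsE g h m N s r) μ := by
  have : PsE g h m N s r = fun x => Fp (9 / 8 * r) (ne g h m N (s + 1) x)
      - Fp r (ne g h m N s x) := funext fun x => PsE_eq g h m N s r x
  rw [this]
  exact (C.igr_Fne m N (s + 1) (by positivity)).sub (C.igr_Fne m N s hr)

lemma meas_PsV (m N s : ℕ) (r : ℝ) : Measurable (PsV f g h m N s r) := by
  have : PsV f g h m N s r = fun x => Fp (9 / 8 * r) (nv f g h m N (s + 1) x)
      - Fp r (nv f g h m N s x) := funext fun x => PsV_eq f g h m N s r x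
  rw [this]
  exact ((meas_Fp _).comp (meas_nv C.mg C.mh C.mf m N (s + 1))).sub
    ((meas_Fp _).comp (meas_nv C.mg C.mh C.mf m N s))

lemma meas_PsE (m N s : ℕ) (r : ℝ) : Measurable (PsE g h m N s r) := by
  have : PsE g h m N s r = fun x => Fp (9 / 8 * r) (ne g h m N (s + 1) x)
      - Fp r (ne g h m N s x) := funext fun x => PsE_eq g h m N s r x
  rw [this]
  exact ((meas_Fp _).comp (meas_ne C.mg C.mh m N (s + 1))).sub
    ((meas_Fp _).comp (meas_ne C.mg C.mh m N s))

lemma gm_nonneg (j : ℕ) : 0 ≤ gm γ j := by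
  unfold gm; positivity

lemma tl_nonneg (m : ℕ) : 0 ≤ tl γ m := by
  unfold tl
  exact tsum_nonneg fun j => sq_nonneg _

lemma summ_tl (m : ℕ) : Summable (fun j => γ (m + j) ^ 2) := by
  have := (summable_nat_add_iff m).2 C.sγ
  simpa [add_comm] using this

lemma sq_le_tl {m j : ℕ} (hj : m ≤ j) : γ j ^ 2 ≤ tl γ m := by
  obtain ⟨i, rfl⟩ := Nat.exists_eq_add_of_le hj
  exact (C.summ_tl m).le_tsum i fun j _ => sq_nonneg _

lemma gm_le_tl {m j : ℕ} (hj : m ≤ j) : gm γ j ≤ 2 * tl γ m := by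
  unfold gm
  have h1 := C.sq_le_tl hj
  have h2 := C.sq_le_tl (show m ≤ j + 1 by omega)
  linarith

lemma sum_gm_le (m N : ℕ) : ∑ t ∈ Finset.range N, gm γ (m + t / 2) ≤ 4 * tl γ m := by
  have h1 : ∀ M : ℕ, ∑ t ∈ Finset.range (2 * M), gm γ (m + t / 2)
      = 2 * ∑ i ∈ Finset.range M, gm γ (m + i) := by
    intro M
    induction M with
    | zero => simp
    | succ M ih =>
      have : 2 * (M + 1) = 2 * M + 1 + 1 := by ring
      rw [this, Finset.sum_range_succ, Finset.sum_range_succ, ih, Finset.sum_range_succ]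
      have e1 : 2 * M / 2 = M := by omega
      have e2 : (2 * M + 1) / 2 = M := by omega
      rw [e1, e2]; ring
  have h2 : ∀ M : ℕ, ∑ i ∈ Finset.range M, gm γ (m + i) ≤ 2 * tl γ m := by
    intro M
    unfold gm
    rw [Finset.sum_add_distrib]
    have a1 : ∑ i ∈ Finset.range M, γ (m + i) ^ 2 ≤ tl γ m :=
      (C.summ_tl m).sum_le_tsum _ fun j _ => sq_nonneg _
    have a2 : ∑ i ∈ Finset.range M, γ (m + i + 1) ^ 2 ≤ tl γ m := by
      have b1 : ∑ i ∈ Finset.range M, γ (m + i + 1) ^ 2
          ≤ ∑ i ∈ Finset.range (M + 1), γ (m + i) ^ 2 := by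
        rw [Finset.sum_range_succ']
        have : ∀ i, m + i + 1 = m + (i + 1) := fun i => by ring
        simp only [this]
        nlinarith [sq_nonneg (γ (m + 0))]
      exact b1.trans ((C.summ_tl m).sum_le_tsum _ fun j _ => sq_nonneg _)
    linarith
  calc ∑ t ∈ Finset.range N, gm γ (m + t / 2)
      ≤ ∑ t ∈ Finset.range (2 * N), gm γ (m + t / 2) := by
        apply Finset.sum_le_sum_of_subset_of_nonneg
        · intro t ht; simp only [Finset.mem_range] at ht ⊢; omega
        · intro t _ _; exact C.gm_nonneg _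
    _ = 2 * ∑ i ∈ Finset.range N, gm γ (m + i) := h1 N
    _ ≤ 4 * tl γ m := by linarith [h2 N]

lemma er_nonneg (m N s : ℕ) : 0 ≤ er γ m N s :=
  Finset.sum_nonneg fun t _ => mul_nonneg (cw_pos s t).le (C.gm_nonneg _)

lemma er_le (m N s : ℕ) : er γ m N s ≤ 4 * tl γ m := by
  refine le_trans ?_ (C.sum_gm_le m N)
  unfold er
  apply Finset.sum_le_sum
  intro t _
  nlinarith [cw_le_one s t, C.gm_nonneg (m + t / 2)]

lemma gm_le_er {m N s : ℕ} (hs : s < N) : gm γ (m + s / 2) ≤ er γ m N s := by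
  unfold er
  have : cw s s * gm γ (m + s / 2) ≤ ∑ t ∈ Finset.range N, cw s t * gm γ (m + t / 2) :=
    Finset.single_le_sum (f := fun t => cw s t * gm γ (m + t / 2))
      (fun t _ => mul_nonneg (cw_pos s t).le (C.gm_nonneg _)) (Finset.mem_range.2 hs)
  rwa [cw_self, one_mul] at this

lemma sum_er_le (m N : ℕ) : ∑ s ∈ Finset.range N, er γ m N s ≤ 100 * tl γ m := by
  unfold er
  rw [Finset.sum_comm]
  calc ∑ t ∈ Finset.range N, ∑ s ∈ Finset.range N, cw s t * gm γ (m + t / 2)
      ≤ ∑ t ∈ Finset.range N, 25 * gm γ (m + t / 2) := by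
        apply Finset.sum_le_sum
        intro t _
        rw [← Finset.sum_mul]
        exact mul_le_mul_of_nonneg_right (sum_cw_le N t) (C.gm_nonneg _)
    _ = 25 * ∑ t ∈ Finset.range N, gm γ (m + t / 2) := by rw [Finset.mul_sum]
    _ ≤ 100 * tl γ m := by linarith [C.sum_gm_le m N]

end Cor

end pair

end Pool.Agent.K1H85.CL
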