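import Pool.Agent.K1H85.CL.Stm

/-!
Final assembly of project CL from the statements of the pieces.
-/

open MeasureTheory ProbabilityTheory Filter
open scoped Topology

namespace Pool.Agent.K1H85.CL

universe u v

theorem final (hSQ : S_SQ.{u}) (hOP : ∀ (X : Type u) [MeasurableSpace X], S_OP X)
    (hZ : ∀ (X : Type u) [MeasurableSpace X] (Ω : Type v) [MeasurableSpace Ω], S_Z X Ω)
    (hCLT : ∀ (X : Type u) [MeasurableSpace X] (Ω : Type v) [MeasurableSpace Ω], S_CLT X Ω)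
    (X : Type u) [MeasurableSpace X] (κ : Kernel X X) [IsMarkovKernel κ]
    (π : Measure X) [IsProbabilityMeasure π] (hinv : κ.Invariant π) :
    (∃ Q : Lp ℝ 2 π →L[ℝ] Lp ℝ 2 π,
      ∀ φ : Lp ℝ 2 π, ∀ᵐ x ∂π, (Q φ : X → ℝ) x = ∫ y, (φ : X → ℝ) y ∂(κ x)) ∧
    ∀ Q : Lp ℝ 2 π →L[ℝ] Lp ℝ 2 π,
      (∀ φ : Lp ℝ 2 π, ∀ᵐ x ∂π, (Q φ : X → ℝ) x = ∫ y, (φ : X → ℝ) y ∂(κ x)) →
      Summable (fun n => dl n • Q ^ (n + 1)) ∧
      Summable (fun n => dl n • (ContinuousLinearMap.adjoint Q) ^ (n + 1)) ∧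
      (Erg κ π → ∀ (Ω : Type v) [MeasurableSpace Ω] (P : Measure Ω) (ξ : ℤ → Ω → X),
        StatMarkov κ π P ξ → ∀ (f : X → ℝ) (_ : Measurable f) (hf : MemLp f 2 π),
        (∃ w : Lp ℝ 2 π, (1 - ∑' n, dl n • Q ^ (n + 1)) w = hf.toLp f) →
        (∃ w' : Lp ℝ 2 π,
          (1 - ∑' n, dl n • (ContinuousLinearMap.adjoint Q) ^ (n + 1)) w' = hf.toLp f) →
        ∃ σ2 : NNReal,
          Tendsto (fun n : ℕ =>
            (∫ ω, (∑ i ∈ Finset.range n, f (ξ ((i : ℤ) + 1) ω)) ^ 2 ∂P) / n) atTop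
            (𝓝 (σ2 : ℝ)) ∧
          ∀ φ : BoundedContinuousFunction ℝ ℝ, Tendsto
            (fun n : ℕ => ∫ ω, φ ((∑ i ∈ Finset.range n, f (ξ ((i : ℤ) + 1) ω)) / √n) ∂P) atTop
            (𝓝 (∫ x, φ x ∂(gaussianReal 0 σ2)))) := by
  obtain ⟨Q0, hQ0n, hQ0, hmain⟩ := hOP X κ π hinv
  refine ⟨⟨Q0, hQ0⟩, fun Q hQ => ?_⟩
  have hQeq : Q = Q0 := by
    refine ContinuousLinearMap.ext fun φ => ?_
    refine Lp.ext ?_
    filter_upwards [hQ φ, hQ0 φ] with x h1 h2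
    rw [h1, h2]
  subst hQeq
  have hadj : ‖ContinuousLinearMap.adjoint Q‖ ≤ 1 := by
    rw [LinearIsometryEquiv.norm_map]; exact hQ0n
  refine ⟨(hSQ.2.2.2.2 (Lp ℝ 2 π) Q hQ0n).1, (hSQ.2.2.2.2 (Lp ℝ 2 π) _ hadj).1, ?_⟩
  intro hErg Ω _ P ξ hch f hmf hf hw hw'
  obtain ⟨w, hw⟩ := hw
  obtain ⟨w', hw'⟩ := hw'
  have e1 : ∀ᵐ x ∂π, f x = ((1 - ∑' n, dl n • Q ^ (n + 1)) w : Lp ℝ 2 π) x := by
    rw [hw]
    filter_upwards [hf.coeFn_toLp] with x hx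
    rw [hx]
  have e2 : ∀ᵐ x ∂π, f x =
      ((1 - ∑' n, dl n • (ContinuousLinearMap.adjoint Q) ^ (n + 1)) w' : Lp ℝ 2 π) x := by
    rw [hw']
    filter_upwards [hf.coeFn_toLp] with x hx
    rw [hx]
  obtain ⟨g, h, a, b, γ, hcor⟩ := hmain f w w' hmf hf e1 e2
  obtain ⟨σ2, h1, h2⟩ := hCLT X Ω κ π f g h a b γ P (fun n : ℕ => ξ (n : ℤ)) hinv hErg hcor
    (hZ X Ω κ π P ξ hch)
  refine ⟨σ2, ?_, fun φ => ?_⟩
  · simpa using h1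
  · simpa using h2 φ

end Pool.Agent.K1H85.CL
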