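import Pool.Agent.K1H85.CL.All

/-!
Function level form of the two square root conditions.
-/

open MeasureTheory ProbabilityTheory Filter
open scoped Topology

namespace Pool.Agent.K1H85.CL

universe u v

noncomputable section

variable {X : Type u} [MeasurableSpace X]

/-- the iterates of the Markov operator, on functions -/
def mpow (κ : Kernel X X) : ℕ → (X → ℝ) → X → ℝ
  | 0, φ => φ
  | n + 1, φ => fun x => ∫ y, mpow κ n φ y ∂(κ x)

/-- forward condition -/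
def FwdC (κ : Kernel X X) (π : Measure X) (f : X → ℝ) : Prop :=
  ∃ g : X → ℝ, MemLp g 2 π ∧ Tendsto (fun N : ℕ =>
    ∫ x, (f x - (g x - ∑ n ∈ Finset.range N, dl n * mpow κ (n + 1) g x)) ^ 2 ∂π) atTop (𝓝 0)

/-- `v = Q* u` -/
def AdjI (κ : Kernel X X) (π : Measure X) (w v : X → ℝ) : Prop :=
  MemLp v 2 π ∧ ∀ φ : X → ℝ, MemLp φ 2 π →
    ∫ x, v x * φ x ∂π = ∫ x, w x * ∫ y, φ y ∂(κ x) ∂π

/-- backward condition -/
def BwdC (κ : Kernel X X) (π : Measure X) (f : X → ℝ) : Prop :=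
  ∃ G : ℕ → X → ℝ, MemLp (G 0) 2 π ∧ (∀ n, AdjI κ π (G n) (G (n + 1))) ∧
    Tendsto (fun N : ℕ =>
      ∫ x, (f x - (G 0 x - ∑ n ∈ Finset.range N, dl n * G (n + 1) x)) ^ 2 ∂π) atTop (𝓝 0)

lemma ae_kernel {κ : Kernel X X} [IsMarkovKernel κ] {π : Measure X} [IsProbabilityMeasure π]
    (hinv : κ.Invariant π) {u w : X → ℝ} (h : ∀ᵐ x ∂π, u x = w x) :
    ∀ᵐ x ∂π, ∫ y, u y ∂(κ x) = ∫ y, w y ∂(κ x) := by
  have h1 : ∀ᵐ x ∂(π.bind κ), u x = w x := by rw [hinv]; exact h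
  have h2 : ∀ᵐ x ∂π, ∀ᵐ y ∂(κ x), u y = w y :=
    Measure.ae_ae_of_ae_bind κ.measurable.aemeasurable h1
  filter_upwards [h2] with x hx
  exact integral_congr_ae hx

/-- key comparison: norm convergence of the series against function level convergence -/
lemma eq_of_tendsto {π : Measure X} {f : X → ℝ} (hf : MemLp f 2 π)
    {T : Lp ℝ 2 π →L[ℝ] Lp ℝ 2 π} (hT : Summable (fun n => dl n • T ^ (n + 1)))
    {G : ℕ → X → ℝ} (w : Lp ℝ 2 π) (hG : ∀ n, ∀ᵐ x ∂π, ((T ^ n) w : Lp ℝ 2 π) x = G n x)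
    (hlim : Tendsto (fun N : ℕ =>
      ∫ x, (f x - (G 0 x - ∑ n ∈ Finset.range N, dl n * G (n + 1) x)) ^ 2 ∂π) atTop (𝓝 0)) :
    (1 - ∑' n, dl n • T ^ (n + 1)) w = hf.toLp f := by
  have hs : Tendsto (fun N : ℕ => ∑ n ∈ Finset.range N, (dl n • T ^ (n + 1)) w) atTop
      (𝓝 ((∑' n, dl n • T ^ (n + 1)) w)) := by
    have h1 := hT.hasSum.tendsto_sum_nat
    have h2 := ((ContinuousLinearMap.apply ℝ (Lp ℝ 2 π) w).continuous.tendsto _).comp h1
    refine h2.congr fun N => ?_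
    simp [Function.comp, ContinuousLinearMap.sum_apply]
  have hlim2 : Tendsto (fun N : ℕ => hf.toLp f - (w - ∑ n ∈ Finset.range N,
      (dl n • T ^ (n + 1)) w)) atTop
      (𝓝 (hf.toLp f - (w - (∑' n, dl n • T ^ (n + 1)) w))) :=
    tendsto_const_nhds.sub (tendsto_const_nhds.sub hs)
  have hsq : ∀ N : ℕ, ‖hf.toLp f - (w - ∑ n ∈ Finset.range N, (dl n • T ^ (n + 1)) w)‖ ^ 2
      = ∫ x, (f x - (G 0 x - ∑ n ∈ Finset.range N, dl n * G (n + 1) x)) ^ 2 ∂π := by
    intro N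
    have hn : ∀ φ : Lp ℝ 2 π, ‖φ‖ ^ 2 = ∫ x, (φ : X → ℝ) x ^ 2 ∂π := by
      intro φ
      rw [← real_inner_self_eq_norm_sq, L2.inner_def]
      refine integral_congr_ae (Eventually.of_forall fun x => ?_)
      simp
    rw [hn]
    refine integral_congr_ae ?_
    have hsum : ∀ N : ℕ, ∀ᵐ x ∂π, ((∑ n ∈ Finset.range N, (dl n • T ^ (n + 1)) w : Lp ℝ 2 π) :
        X → ℝ) x = ∑ n ∈ Finset.range N, dl n * G (n + 1) x := by
      intro N
      induction N with
      | zero =>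
        simp only [Finset.range_zero, Finset.sum_empty]
        filter_upwards [Lp.coeFn_zero ℝ 2 π] with x hx
        rw [hx]; rfl
      | succ N ih =>
        rw [Finset.sum_range_succ]
        have e1 : (dl N • T ^ (N + 1)) w = dl N • (T ^ (N + 1)) w := rfl
        rw [e1]
        filter_upwards [ih, Lp.coeFn_add (∑ n ∈ Finset.range N, (dl n • T ^ (n + 1)) w)
          (dl N • (T ^ (N + 1)) w), Lp.coeFn_smul (dl N) ((T ^ (N + 1)) w), hG (N + 1)]
          with x h1 h2 h3 h4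
        rw [h2, Pi.add_apply, h1, h3, Pi.smul_apply, h4, Finset.sum_range_succ, smul_eq_mul]
    have h0 : ∀ᵐ x ∂π, (w : X → ℝ) x = G 0 x := by
      have := hG 0
      simpa using this
    filter_upwards [hsum N, h0, hf.coeFn_toLp,
      Lp.coeFn_sub (hf.toLp f) (w - ∑ n ∈ Finset.range N, (dl n • T ^ (n + 1)) w),
      Lp.coeFn_sub w (∑ n ∈ Finset.range N, (dl n • T ^ (n + 1)) w)] with x h1 h2 h3 h4 h5
    rw [h4, Pi.sub_apply, h5, Pi.sub_apply, h1, h2, h3]
  have hz : Tendsto (fun N : ℕ => ‖hf.toLp f - (w - ∑ n ∈ Finset.range N,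
      (dl n • T ^ (n + 1)) w)‖ ^ 2) atTop (𝓝 0) := by
    simp_rw [hsq]; exact hlim
  have hz2 := (hlim2.norm).pow 2
  have h3 := tendsto_nhds_unique hz2 hz
  have h4 : ‖hf.toLp f - (w - (∑' n, dl n • T ^ (n + 1)) w)‖ = 0 := by
    exact pow_eq_zero_iff (two_ne_zero) |>.1 h3
  have h5 := sub_eq_zero.1 (norm_eq_zero.1 h4)
  rw [h5]
  rfl

theorem final2 (κ : Kernel X X) [IsMarkovKernel κ] (π : Measure X) [IsProbabilityMeasure π]
    (hinv : κ.Invariant π) (hErg : Erg κ π) (Ω : Type v) [MeasurableSpace Ω] (P : Measure Ω)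
    (ξ : ℤ → Ω → X) (hξ : StatMarkov κ π P ξ) (f : X → ℝ) (hmf : Measurable f)
    (hf : MemLp f 2 π) (h1 : FwdC κ π f) (h2 : BwdC κ π f) :
    ∃ σ2 : NNReal,
      Tendsto (fun n : ℕ =>
        (∫ ω, (∑ i ∈ Finset.range n, f (ξ ((i : ℤ) + 1) ω)) ^ 2 ∂P) / n) atTop
        (𝓝 (σ2 : ℝ)) ∧
      ∀ φ : BoundedContinuousFunction ℝ ℝ, Tendsto
        (fun n : ℕ => ∫ ω, φ ((∑ i ∈ Finset.range n, f (ξ ((i : ℤ) + 1) ω)) / √n) ∂P) atTop
        (𝓝 (∫ x, φ x ∂(gaussianReal 0 σ2))) := by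
  obtain ⟨⟨Q, hQ⟩, hall⟩ := final.{u, v} t_SQ (fun X _ => all_OP X) (fun X _ Ω _ => t_Z X Ω)
    (fun X _ Ω _ => all_CLT X Ω) X κ π hinv
  obtain ⟨hs1, hs2, hmain⟩ := hall Q hQ
  refine hmain hErg Ω P ξ hξ f hmf hf ?_ ?_
  · obtain ⟨g, hg, hlim⟩ := h1
    refine ⟨hg.toLp g, eq_of_tendsto hf hs1 (G := fun n => mpow κ n g) _ ?_ ?_⟩
    · intro n
      induction n with
      | zero =>
        simp only [pow_zero, mpow]
        filter_upwards [hg.coeFn_toLp] with x hx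
        exact hx
      | succ n ih =>
        have e : (Q ^ (n + 1)) (hg.toLp g) = Q ((Q ^ n) (hg.toLp g)) := by
          rw [pow_succ']; rfl
        rw [e]
        filter_upwards [hQ ((Q ^ n) (hg.toLp g)), ae_kernel hinv ih] with x h1 h2
        rw [h1, h2]; rfl
    · simpa [mpow] using hlim
  · obtain ⟨G, hG0, hG, hlim⟩ := h2
    have hGL : ∀ n, MemLp (G n) 2 π := by
      intro n
      cases n with
      | zero => exact hG0
      | succ n => exact (hG n).1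
    refine ⟨hG0.toLp (G 0), eq_of_tendsto hf hs2 (G := G) _ ?_ hlim⟩
    have key : ∀ n, ((ContinuousLinearMap.adjoint Q) ^ n) (hG0.toLp (G 0))
        = (hGL n).toLp (G n) := by
      intro n
      induction n with
      | zero => simp
      | succ n ih =>
        have e : ((ContinuousLinearMap.adjoint Q) ^ (n + 1)) (hG0.toLp (G 0))
            = ContinuousLinearMap.adjoint Q
              (((ContinuousLinearMap.adjoint Q) ^ n) (hG0.toLp (G 0))) := by
          rw [pow_succ']; rfl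
        rw [e, ih]
        refine ext_inner_right ℝ fun φ => ?_
        rw [ContinuousLinearMap.adjoint_inner_left, L2.inner_def, L2.inner_def]
        have a1 := (hG n).2 φ (Lp.memLp φ)
        have b1 : ∫ x, inner ℝ (((hGL n).toLp (G n) : Lp ℝ 2 π) x) ((Q φ : Lp ℝ 2 π) x) ∂π
            = ∫ x, G n x * ∫ y, (φ : X → ℝ) y ∂(κ x) ∂π := by
          refine integral_congr_ae ?_
          filter_upwards [(hGL n).coeFn_toLp, hQ φ] with x h1 h2
          rw [h1, h2]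
          simp [mul_comm]
        have b2 : ∫ x, inner ℝ (((hGL (n + 1)).toLp (G (n + 1)) : Lp ℝ 2 π) x)
            ((φ : Lp ℝ 2 π) x) ∂π = ∫ x, G (n + 1) x * (φ : X → ℝ) x ∂π := by
          refine integral_congr_ae ?_
          filter_upwards [(hGL (n + 1)).coeFn_toLp] with x h1
          rw [h1]
          simp [mul_comm]
        rw [b1, b2, a1]
    intro n
    rw [key n]
    exact (hGL n).coeFn_toLp

end

end Pool.Agent.K1H85.CL
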