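import Pool.Agent.K1H85.CL.Base

/-!
Common lemmas for the start and the end: the decomposition of the difference between the edge and
the vertex vector at even steps.
-/

open MeasureTheory ProbabilityTheory Filter
open scoped Topology BigOperators ENNReal

namespace Pool.Agent.K1H85.CL

universe u

set_option linter.unusedSectionVars false

lemma nrm2_add (N s : ℕ) (e δ : ℝ) (x d : ℕ → ℝ) :
    nrm2 N s (e + δ) (fun t => x t + d t) = nrm2 N s e x
      + 2 * (e * δ + 10000 * ∑ t ∈ Finset.range N, cw s t * (x t * d t)) + nrm2 N s δ d := by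
  unfold nrm2
  have h1 : ∑ t ∈ Finset.range N, cw s t * (x t + d t) ^ 2
      = ∑ t ∈ Finset.range N, cw s t * x t ^ 2 + 2 * ∑ t ∈ Finset.range N, cw s t * (x t * d t)
        + ∑ t ∈ Finset.range N, cw s t * d t ^ 2 := by
    rw [Finset.mul_sum, ← Finset.sum_add_distrib, ← Finset.sum_add_distrib]
    apply Finset.sum_congr rfl
    intro t _
    ring
  rw [h1]
  ring

lemma nrm2_cs (N s : ℕ) (e δ : ℝ) (x d : ℕ → ℝ) :
    (e * δ + 10000 * ∑ t ∈ Finset.range N, cw s t * (x t * d t)) ^ 2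
      ≤ nrm2 N s e x * nrm2 N s δ d := by
  set c := e * δ + 10000 * ∑ t ∈ Finset.range N, cw s t * (x t * d t) with hc
  have key : ∀ u : ℝ, 0 ≤ nrm2 N s δ d * (u * u) + (2 * c) * u + nrm2 N s e x := by
    intro u
    have h1 := nrm2_add N s e (u * δ) x (fun t => u * d t)
    have h2 : nrm2 N s (u * δ) (fun t => u * d t) = u * u * nrm2 N s δ d := by
      unfold nrm2
      have : ∑ t ∈ Finset.range N, cw s t * (u * d t) ^ 2
          = u * u * ∑ t ∈ Finset.range N, cw s t * d t ^ 2 := by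
        rw [Finset.mul_sum]
        apply Finset.sum_congr rfl
        intro t _
        ring
      rw [this]; ring
    have h3 : e * (u * δ) + 10000 * ∑ t ∈ Finset.range N, cw s t * (x t * (u * d t)) = u * c := by
      have : ∑ t ∈ Finset.range N, cw s t * (x t * (u * d t))
          = u * ∑ t ∈ Finset.range N, (cw s t * (x t * d t)) := by
        rw [Finset.mul_sum]
        apply Finset.sum_congr rfl
        intro t _
        ring
      rw [hc, this]; ring
    rw [h2, h3] at h1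
    have h4 := nrm2_nonneg N s (e + u * δ) (fun t => x t + u * d t)
    rw [h1] at h4
    linarith
  have hd := discrim_le_zero key
  unfold discrim at hd
  nlinarith

section pair

variable {X : Type u} [MeasurableSpace X] {π : Measure X} {μ : Measure (X × X)} {f : X → ℝ}
  {g h a b : ℕ → X → ℝ} {γ : ℕ → ℝ}

/-- difference of the first coordinates -/
noncomputable def vE (f : X → ℝ) (g h : ℕ → X → ℝ) (m s : ℕ) (p : X × X) : ℝ :=
  ee g h m s p - zz f g h m s p.1

/-- differences of the other coordinates -/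
noncomputable def dE (g h : ℕ → X → ℝ) (m t : ℕ) (p : X × X) : ℝ :=
  xe g h m t p - xx g h m t p.1

/-- squared length of the other coordinates of the difference -/
noncomputable def nP (g h : ℕ → X → ℝ) (m N s : ℕ) (p : X × X) : ℝ :=
  10000 * ∑ t ∈ Finset.range N, cw s t * dE g h m t p ^ 2

/-- squared length of the difference -/
noncomputable def nn (f : X → ℝ) (g h : ℕ → X → ℝ) (m N s : ℕ) (p : X × X) : ℝ :=
  vE f g h m s p ^ 2 + nP g h m N s p

/-- scalar product of the vertex vector and the difference -/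
noncomputable def cc (f : X → ℝ) (g h : ℕ → X → ℝ) (m N s : ℕ) (p : X × X) : ℝ :=
  zz f g h m s p.1 * vE f g h m s p
    + 10000 * ∑ t ∈ Finset.range N, cw s t * (xx g h m t p.1 * dE g h m t p)

lemma ne_eq_nv (f : X → ℝ) (g h : ℕ → X → ℝ) (m N s : ℕ) (p : X × X) :
    ne g h m N s p = nv f g h m N s p.1 + 2 * cc f g h m N s p + nn f g h m N s p := by
  have h1 := nrm2_add N s (zz f g h m s p.1) (vE f g h m s p) (fun t => xx g h m t p.1)
    (fun t => dE g h m t p)
  have e1 : zz f g h m s p.1 + vE f g h m s p = ee g h m s p := by unfold vE; ring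
  have e2 : (fun t => xx g h m t p.1 + dE g h m t p) = fun t => xe g h m t p := by
    funext t; unfold dE; ring
  rw [e1, e2] at h1
  exact h1

lemma cc_sq_le (f : X → ℝ) (g h : ℕ → X → ℝ) (m N s : ℕ) (p : X × X) :
    cc f g h m N s p ^ 2 ≤ nv f g h m N s p.1 * nn f g h m N s p :=
  nrm2_cs N s _ _ _ _

lemma nP_nonneg (g h : ℕ → X → ℝ) (m N s : ℕ) (p : X × X) : 0 ≤ nP g h m N s p := by
  unfold nP
  have : 0 ≤ ∑ t ∈ Finset.range N, cw s t * dE g h m t p ^ 2 :=
    Finset.sum_nonneg fun t _ => mul_nonneg (cw_pos s t).le (sq_nonneg _)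
  positivity

lemma nn_nonneg (f : X → ℝ) (g h : ℕ → X → ℝ) (m N s : ℕ) (p : X × X) :
    0 ≤ nn f g h m N s p := by
  unfold nn
  have := nP_nonneg g h m N s p
  positivity

lemma vE_even (f : X → ℝ) (g h : ℕ → X → ℝ) (m : ℕ) {s : ℕ} (hs : s % 2 = 0) (p : X × X) :
    vE f g h m s p = f p.1 - g (m + s / 2) p.1 + g (m + s / 2) p.2 := by
  unfold vE ee zz
  have : (s + 1) / 2 = s / 2 := by omega
  rw [this]; ring

lemma vE_DD (f : X → ℝ) (g h a : ℕ → X → ℝ) (m : ℕ) {s : ℕ} (hs : s % 2 = 0) (p : X × X) :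
    vE f g h m s p = DD f g a (m + s / 2) p + a (m + s / 2) p.1 := by
  rw [vE_even f g h m hs]
  unfold DD; ring

lemma dE_even (g h : ℕ → X → ℝ) (m : ℕ) {t : ℕ} (ht : t % 2 = 0) (p : X × X) :
    dE g h m t p = xx g h m t p.2 - xx g h m t p.1 := by
  unfold dE xe
  rw [if_pos ht]

lemma dE_odd (g h : ℕ → X → ℝ) (m : ℕ) {t : ℕ} (ht : t % 2 = 1) (p : X × X) :
    dE g h m t p = 0 := by
  unfold dE xe
  rw [if_neg (by omega)]; ring

/-- product of a bounded and a square integrable function -/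
lemma memLp_bdd {Y : Type*} [MeasurableSpace Y] {ν : Measure Y} {w F : Y → ℝ} (hw : Measurable w)
    (c : ℝ) (hw2 : ∀ y, |w y| ≤ c) (hF : MemLp F 2 ν) : MemLp (fun y => w y * F y) 2 ν := by
  refine MemLp.of_le_mul (c := c) hF (hw.aestronglyMeasurable.mul hF.1) ?_
  refine Eventually.of_forall fun y => ?_
  rw [norm_mul, Real.norm_eq_abs]
  exact mul_le_mul_of_nonneg_right (hw2 y) (norm_nonneg _)

namespace Cor

variable (C : Cor π μ f g h a b γ)
include C

lemma L_vE (m s : ℕ) : MemLp (vE f g h m s) 2 μ := by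
  unfold vE
  exact (C.L_ee m s).sub (C.mem_fst (C.L_zz m s))

lemma L_dE (m t : ℕ) : MemLp (dE g h m t) 2 μ := by
  unfold dE
  exact (C.L_xe m t).sub (C.mem_fst (C.L_xx m t))

lemma igr_nP (m N s : ℕ) : Integrable (nP g h m N s) μ := by
  unfold nP
  apply Integrable.const_mul
  exact integrable_finsetSum _ fun t _ => ((C.L_dE m t).integrable_sq).const_mul _

lemma igr_nn (m N s : ℕ) : Integrable (nn f g h m N s) μ := by
  unfold nn
  exact (C.L_vE m s).integrable_sq.add (C.igr_nP m N s)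

lemma L_DD (j : ℕ) : MemLp (DD f g a j) 2 μ := by
  unfold DD
  exact (((C.mem_snd (C.Lg j)).sub (C.mem_fst (C.Lg j))).add (C.mem_fst C.Lf)).sub
    (C.mem_fst (C.La j))

/-- the quadratic term -/
lemma int_nP_le (hB : S_BND X) (m N s : ℕ) : ∫ p, nP g h m N s p ∂μ ≤ 60000 * er γ m N s := by
  unfold nP er
  rw [integral_const_mul, integral_finsetSum _ fun t _ => ((C.L_dE m t).integrable_sq).const_mul _,
    Finset.mul_sum, Finset.mul_sum]
  apply Finset.sum_le_sum
  intro t _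
  rw [integral_const_mul]
  have hc := cw_pos s t
  have h1 : ∫ p, dE g h m t p ^ 2 ∂μ ≤ 6 * gm γ (m + t / 2) := by
    rcases Nat.mod_two_eq_zero_or_one t with ht | ht
    · simp only [dE_even g h m ht]
      exact (hB π μ f g h a b γ C m t).2.2.2.2.1
    · simp only [dE_odd g h m ht]
      have := C.gm_nonneg (m + t / 2)
      simp only [ne_eq, OfNat.ofNat_ne_zero, not_false_eq_true, zero_pow, integral_zero]
      positivity
  nlinarith

/-- the linear term -/
lemma lin_bound (hB : S_BND X) (m N : ℕ) {s : ℕ} (hs : s % 2 = 0) {w : X → ℝ}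
    (hw : Measurable w) (hw2 : ∀ x, |w x| ≤ 2) :
    Integrable (fun p => w p.1 * cc f g h m N s p) μ ∧
    |∫ p, w p.1 * cc f g h m N s p ∂μ| ≤ 7 * gm γ (m + s / 2) + 80000 * er γ m N s := by
  have hΦ0 : MemLp (fun x => w x * zz f g h m s x) 2 π := memLp_bdd hw 2 hw2 (C.L_zz m s)
  have hΦ : ∀ t, MemLp (fun x => w x * xx g h m t x) 2 π := fun t =>
    memLp_bdd hw 2 hw2 (C.L_xx m t)
  have i0 : Integrable (fun p : X × X => (w p.1 * zz f g h m s p.1) * vE f g h m s p) μ :=
    (C.mem_fst hΦ0).integrable_mul (C.L_vE m s)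
  have it : ∀ t, Integrable (fun p : X × X => cw s t * ((w p.1 * xx g h m t p.1) *
      dE g h m t p)) μ := fun t =>
    ((C.mem_fst (hΦ t)).integrable_mul (C.L_dE m t)).const_mul _
  have isum : Integrable (fun p : X × X => 10000 * ∑ t ∈ Finset.range N,
      cw s t * ((w p.1 * xx g h m t p.1) * dE g h m t p)) μ :=
    (integrable_finsetSum _ fun t _ => it t).const_mul _
  have hfun : (fun p : X × X => w p.1 * cc f g h m N s p) =
      fun p => (w p.1 * zz f g h m s p.1) * vE f g h m s p + 10000 * ∑ t ∈ Finset.range N,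
        cw s t * ((w p.1 * xx g h m t p.1) * dE g h m t p) := by
    funext p
    unfold cc
    rw [mul_add, ← mul_assoc, ← mul_assoc (w p.1) 10000, mul_comm (w p.1) 10000, mul_assoc 10000,
      Finset.mul_sum]
    congr 2
    apply Finset.sum_congr rfl
    intro t _
    ring
  rw [hfun]
  refine ⟨i0.add isum, ?_⟩
  rw [integral_add i0 isum, integral_const_mul, integral_finsetSum _ fun t _ => it t]
  have hgm := C.gm_nonneg (m + s / 2)
  obtain ⟨b1, -, b3, -⟩ := hB π μ f g h a b γ C m s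
  -- the first coordinate
  have h0 : |∫ p, (w p.1 * zz f g h m s p.1) * vE f g h m s p ∂μ| ≤ 7 * gm γ (m + s / 2) := by
    have e1 : ∫ p, (w p.1 * zz f g h m s p.1) * vE f g h m s p ∂μ =
        ∫ x, (w x * zz f g h m s x) * a (m + s / 2) x ∂π := by
      rw [← C.da (m + s / 2) (fun x => w x * zz f g h m s x) hΦ0]
      simp only [vE_even f g h m hs]
    rw [e1]
    refine (cs_abs hΦ0 (C.La (m + s / 2))).trans ?_
    have h2 : (s + 1) / 2 = s / 2 := by omega
    rw [h2] at b3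
    have h3 : ∫ x, (w x * zz f g h m s x) ^ 2 ∂π ≤
        48 * 2 ^ (m + s / 2) * gm γ (m + s / 2) := by
      calc ∫ x, (w x * zz f g h m s x) ^ 2 ∂π ≤ ∫ x, 4 * zz f g h m s x ^ 2 ∂π := by
            apply integral_mono hΦ0.integrable_sq ((C.L_zz m s).integrable_sq.const_mul _)
            intro x
            show (w x * zz f g h m s x) ^ 2 ≤ 4 * zz f g h m s x ^ 2
            rw [mul_pow]
            have : w x ^ 2 ≤ 4 := by
              have := hw2 x
              rw [← sq_abs]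
              nlinarith [abs_nonneg (w x)]
            exact mul_le_mul_of_nonneg_right this (sq_nonneg _)
        _ = 4 * ∫ x, zz f g h m s x ^ 2 ∂π := integral_const_mul _ _
        _ ≤ _ := by linarith
    calc √(∫ x, (w x * zz f g h m s x) ^ 2 ∂π) * √(∫ x, a (m + s / 2) x ^ 2 ∂π)
        ≤ √(48 * 2 ^ (m + s / 2) * gm γ (m + s / 2)) *
            √(gm γ (m + s / 2) / 2 ^ (m + s / 2)) :=
          mul_le_mul (Real.sqrt_le_sqrt h3) (Real.sqrt_le_sqrt b3) (Real.sqrt_nonneg _)
            (Real.sqrt_nonneg _)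
      _ = √(48 * gm γ (m + s / 2) ^ 2) := by
          rw [← Real.sqrt_mul (by positivity)]
          congr 1
          field_simp
      _ ≤ √((7 * gm γ (m + s / 2)) ^ 2) := by
          apply Real.sqrt_le_sqrt
          nlinarith
      _ = 7 * gm γ (m + s / 2) := Real.sqrt_sq (by positivity)
  -- the other coordinates
  have ht : ∀ t, |∫ p, cw s t * ((w p.1 * xx g h m t p.1) * dE g h m t p) ∂μ| ≤
      cw s t * (8 * gm γ (m + t / 2)) := by
    intro t
    have hc := cw_pos s t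
    have hg := C.gm_nonneg (m + t / 2)
    rw [integral_const_mul, abs_mul, abs_of_pos hc]
    apply mul_le_mul_of_nonneg_left _ hc.le
    rcases Nat.mod_two_eq_zero_or_one t with ht | ht
    · simp only [dE_even g h m ht]
      obtain ⟨-, c2, -, -, -, c6, -⟩ := hB π μ f g h a b γ C m t
      refine (c6 ht (fun x => w x * xx g h m t x) (hΦ t)).trans ?_
      have h3 : ∫ x, (w x * xx g h m t x) ^ 2 ∂π ≤
          16 * 2 ^ (m + t / 2) * gm γ (m + t / 2) := by
        calc ∫ x, (w x * xx g h m t x) ^ 2 ∂π ≤ ∫ x, 4 * xx g h m t x ^ 2 ∂π := by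
              apply integral_mono (hΦ t).integrable_sq ((C.L_xx m t).integrable_sq.const_mul _)
              intro x
              show (w x * xx g h m t x) ^ 2 ≤ 4 * xx g h m t x ^ 2
              rw [mul_pow]
              have : w x ^ 2 ≤ 4 := by
                have := hw2 x
                rw [← sq_abs]
                nlinarith [abs_nonneg (w x)]
              exact mul_le_mul_of_nonneg_right this (sq_nonneg _)
          _ = 4 * ∫ x, xx g h m t x ^ 2 ∂π := integral_const_mul _ _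
          _ ≤ _ := by linarith
      calc √(∫ x, (w x * xx g h m t x) ^ 2 ∂π) * √(4 * gm γ (m + t / 2) / 2 ^ (m + t / 2))
          ≤ √(16 * 2 ^ (m + t / 2) * gm γ (m + t / 2)) *
              √(4 * gm γ (m + t / 2) / 2 ^ (m + t / 2)) :=
            mul_le_mul_of_nonneg_right (Real.sqrt_le_sqrt h3) (Real.sqrt_nonneg _)
        _ = √((8 * gm γ (m + t / 2)) ^ 2) := by
            rw [← Real.sqrt_mul (by positivity)]
            congr 1
            field_simp
            ring
        _ = 8 * gm γ (m + t / 2) := Real.sqrt_sq (by positivity)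
    · simp only [dE_odd g h m ht, mul_zero, integral_zero, abs_zero]
      positivity
  have hsum : |10000 * ∑ t ∈ Finset.range N,
      ∫ p, cw s t * ((w p.1 * xx g h m t p.1) * dE g h m t p) ∂μ| ≤ 80000 * er γ m N s := by
    rw [abs_mul, abs_of_pos (by norm_num : (0:ℝ) < 10000)]
    have : |∑ t ∈ Finset.range N,
        ∫ p, cw s t * ((w p.1 * xx g h m t p.1) * dE g h m t p) ∂μ| ≤ 8 * er γ m N s := by
      refine (Finset.abs_sum_le_sum_abs _ _).trans ?_
      unfold er
      rw [Finset.mul_sum]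
      apply Finset.sum_le_sum
      intro t _
      exact (ht t).trans (le_of_eq (by ring))
    linarith
  calc |∫ p, (w p.1 * zz f g h m s p.1) * vE f g h m s p ∂μ + 10000 * ∑ t ∈ Finset.range N,
      ∫ p, cw s t * ((w p.1 * xx g h m t p.1) * dE g h m t p) ∂μ|
      ≤ |∫ p, (w p.1 * zz f g h m s p.1) * vE f g h m s p ∂μ| + |10000 * ∑ t ∈ Finset.range N,
          ∫ p, cw s t * ((w p.1 * xx g h m t p.1) * dE g h m t p) ∂μ| := abs_add_le _ _
    _ ≤ _ := add_le_add h0 hsum

/-- the square of the first coordinate of the difference -/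
lemma int_vE_sq (hV : S_VAR X) (m : ℕ) {s : ℕ} (hs : s % 2 = 0) {ψ : X → ℝ}
    (hψ : Measurable ψ) (h0 : ∀ x, 0 ≤ ψ x) (h1 : ∀ x, ψ x ≤ 1) :
    ∫ p, ψ p.1 * vE f g h m s p ^ 2 ∂μ =
      ∫ p, ψ p.1 * DD f g a (m + s / 2) p ^ 2 ∂μ + ∫ x, ψ x * a (m + s / 2) x ^ 2 ∂π := by
  have hψ1 : ∀ x, |ψ x| ≤ 1 := fun x => by rw [abs_of_nonneg (h0 x)]; exact h1 x
  have hΦ : MemLp (fun x => ψ x * a (m + s / 2) x) 2 π := memLp_bdd hψ 1 hψ1 (C.La _)
  have o := (hV π μ f g h a b γ C).2.2 (m + s / 2) _ hΦ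
  have hψ2 : MemLp (fun p : X × X => ψ p.1 * DD f g a (m + s / 2) p) 2 μ :=
    memLp_bdd (hψ.comp measurable_fst) 1 (fun p => hψ1 p.1) (C.L_DD _)
  have i1 : Integrable (fun p : X × X => ψ p.1 * DD f g a (m + s / 2) p ^ 2) μ := by
    refine (hψ2.integrable_mul (C.L_DD (m + s / 2))).congr (Eventually.of_forall fun p => ?_)
    simp only [Pi.mul_apply]; ring
  have i2 : Integrable (fun p : X × X => (ψ p.1 * a (m + s / 2) p.1) *
      DD f g a (m + s / 2) p) μ := (C.mem_fst hΦ).integrable_mul (C.L_DD _)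
  have i3' : Integrable (fun x : X => ψ x * a (m + s / 2) x ^ 2) π := by
    refine (hΦ.integrable_mul (C.La (m + s / 2))).congr (Eventually.of_forall fun p => ?_)
    simp only [Pi.mul_apply]; ring
  have i3 : Integrable (fun p : X × X => ψ p.1 * a (m + s / 2) p.1 ^ 2) μ := C.igr_fst i3'
  have hfun : (fun p : X × X => ψ p.1 * vE f g h m s p ^ 2) = fun p =>
      (ψ p.1 * DD f g a (m + s / 2) p ^ 2 + 2 * ((ψ p.1 * a (m + s / 2) p.1) *
        DD f g a (m + s / 2) p)) + ψ p.1 * a (m + s / 2) p.1 ^ 2 := by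
    funext p
    rw [vE_DD f g h a m hs]; ring
  have j2 : Integrable (fun p : X × X => 2 * ((ψ p.1 * a (m + s / 2) p.1) *
      DD f g a (m + s / 2) p)) μ := i2.const_mul 2
  have j12 : Integrable (fun p : X × X => ψ p.1 * DD f g a (m + s / 2) p ^ 2 +
      2 * ((ψ p.1 * a (m + s / 2) p.1) * DD f g a (m + s / 2) p)) μ := i1.add j2
  rw [hfun, integral_add j12 i3, integral_add i1 j2, integral_const_mul, o, C.int_fst i3'.1]
  ring

end Cor

/-- the remainder of second order -/
noncomputable def Gr (f : X → ℝ) (g h : ℕ → X → ℝ) (m N s : ℕ) (r : ℝ) (p : X × X) : ℝ :=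
  Fp r (ne g h m N s p) - Fp r (nv f g h m N s p.1)
    - 2 * r * cc f g h m N s p / √(r ^ 2 + nv f g h m N s p.1)

lemma Gr_spec (hG : S_GF) (f : X → ℝ) (g h : ℕ → X → ℝ) (m N s : ℕ) {r : ℝ} (hr : 0 < r)
    (p : X × X) :
    Gr f g h m N s r p = r / √(r ^ 2 + nv f g h m N s p.1) * (nn f g h m N s p
      - (√(r ^ 2 + ne g h m N s p) - √(r ^ 2 + nv f g h m N s p.1)) ^ 2) ∧
    (√(r ^ 2 + ne g h m N s p) - √(r ^ 2 + nv f g h m N s p.1)) ^ 2 ≤ nn f g h m N s p ∧
    0 ≤ Gr f g h m N s r p ∧ Gr f g h m N s r p ≤ nn f g h m N s p ∧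
    (4 * r ^ 2 ≤ nv f g h m N s p.1 ∨ 256 * r ^ 2 ≤ nn f g h m N s p →
      Gr f g h m N s r p ≤ nn f g h m N s p / 2) :=
  hG r _ _ _ _ hr (nv_nonneg f g h m N s p.1) (ne_nonneg g h m N s p)
    (nn_nonneg f g h m N s p) (ne_eq_nv f g h m N s p) (cc_sq_le f g h m N s p)

/-- the weight of the linear term -/
noncomputable def wl (f : X → ℝ) (g h : ℕ → X → ℝ) (m N s : ℕ) (r : ℝ) (ψ : X → ℝ) (x : X) : ℝ :=
  ψ x * (2 * r / √(r ^ 2 + nv f g h m N s x))

lemma wl_le (f : X → ℝ) (g h : ℕ → X → ℝ) (m N s : ℕ) {r : ℝ} (hr : 0 < r) {ψ : X → ℝ}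
    (h0 : ∀ x, 0 ≤ ψ x) (h1 : ∀ x, ψ x ≤ 1) (x : X) : |wl f g h m N s r ψ x| ≤ 2 := by
  unfold wl
  have hv := nv_nonneg f g h m N s x
  have hM : r ≤ √(r ^ 2 + nv f g h m N s x) := by
    apply Real.le_sqrt_of_sq_le; linarith
  have hM0 : 0 < √(r ^ 2 + nv f g h m N s x) := hr.trans_le hM
  have h2 : 2 * r / √(r ^ 2 + nv f g h m N s x) ≤ 2 := by
    rw [div_le_iff₀ hM0]; linarith
  have h3 : 0 ≤ 2 * r / √(r ^ 2 + nv f g h m N s x) := by positivity
  rw [abs_of_nonneg (mul_nonneg (h0 x) h3)]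
  calc ψ x * (2 * r / √(r ^ 2 + nv f g h m N s x)) ≤ 1 * 2 :=
        mul_le_mul (h1 x) h2 h3 zero_le_one
    _ = 2 := one_mul _

namespace Cor

variable (C : Cor π μ f g h a b γ)
include C

lemma meas_wl (m N s : ℕ) (r : ℝ) {ψ : X → ℝ} (hψ : Measurable ψ) :
    Measurable (wl f g h m N s r ψ) := by
  unfold wl
  have := meas_nv C.mg C.mh C.mf m N s
  exact hψ.mul ((measurable_const).div ((this.const_add _).sqrt))

lemma igr_ψGr (hB : S_BND X) (m N : ℕ) {s : ℕ} (hs : s % 2 = 0) {r : ℝ} (hr : 0 < r)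
    {ψ : X → ℝ} (hψ : Measurable ψ) (h0 : ∀ x, 0 ≤ ψ x) (h1 : ∀ x, ψ x ≤ 1) :
    Integrable (fun p : X × X => ψ p.1 * Gr f g h m N s r p) μ ∧
    |Gs μ f g h m N s r ψ - ∫ p, ψ p.1 * Gr f g h m N s r p ∂μ| ≤
      7 * gm γ (m + s / 2) + 80000 * er γ m N s := by
  obtain ⟨l1, l2⟩ := C.lin_bound hB m N hs (C.meas_wl m N s r hψ) (wl_le f g h m N s hr h0 h1)
  have i1 : Integrable (fun p : X × X => ψ p.1 * (Fp r (ne g h m N s p) -
      Fp r (nv f g h m N s p.1))) μ := by
    refine Integrable.bdd_mul (c := 1) ((C.igr_Fne m N s hr).sub (C.igr_fst (C.igr_Fnv m N s hr)))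
      (hψ.comp measurable_fst).aestronglyMeasurable (Eventually.of_forall fun p => ?_)
    rw [Real.norm_eq_abs, abs_of_nonneg (h0 p.1)]
    exact h1 p.1
  have hfun : (fun p : X × X => ψ p.1 * Gr f g h m N s r p) = fun p =>
      ψ p.1 * (Fp r (ne g h m N s p) - Fp r (nv f g h m N s p.1)) -
        wl f g h m N s r ψ p.1 * cc f g h m N s p := by
    funext p
    unfold Gr wl
    ring
  refine ⟨by rw [hfun]; exact i1.sub l1, ?_⟩
  rw [hfun, integral_sub i1 l1]
  unfold Gs
  rw [sub_sub_cancel]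
  exact l2

lemma igr_ψ {F : X × X → ℝ} (hF : Integrable F μ) {ψ : X → ℝ} (hψ : Measurable ψ)
    (h0 : ∀ x, 0 ≤ ψ x) (h1 : ∀ x, ψ x ≤ 1) : Integrable (fun p : X × X => ψ p.1 * F p) μ := by
  refine Integrable.bdd_mul (c := 1) hF
    (hψ.comp measurable_fst).aestronglyMeasurable (Eventually.of_forall fun p => ?_)
  rw [Real.norm_eq_abs, abs_of_nonneg (h0 p.1)]
  exact h1 p.1

lemma a_sq_le {m k : ℕ} (hk : m ≤ k) : ∫ x, a k x ^ 2 ∂π ≤ tl γ m := by
  refine (C.na k).trans ?_
  have h1 := C.sq_le_tl hk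
  have h2 : (1 : ℝ) ≤ 2 ^ k := one_le_pow₀ (by norm_num)
  calc γ k ^ 2 / 2 ^ k ≤ γ k ^ 2 := div_le_self (sq_nonneg _) h2
    _ ≤ _ := h1

end Cor

end pair

end Pool.Agent.K1H85.CL
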