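import Pool.Agent.K1H85.CL.Base

/-!
Common lemmas for the odd and even steps of project CL.
-/

open MeasureTheory ProbabilityTheory Filter
open scoped Topology BigOperators ENNReal

namespace Pool.Agent.K1H85.CL

universe u

variable {X : Type u} [MeasurableSpace X] {π : Measure X} {μ : Measure (X × X)} {f : X → ℝ}
  {g h a b : ℕ → X → ℝ} {γ : ℕ → ℝ}

set_option linter.unusedSectionVars false

/-- the coefficient of the new potential. -/
noncomputable def cA (f : X → ℝ) (g h : ℕ → X → ℝ) (m N s : ℕ) (r : ℝ) (x : X) : ℝ :=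
  2 * (9 / 8 * r) / √((9 / 8 * r) ^ 2 + nv f g h m N (s + 1) x)

/-- the coefficient of the old potential. -/
noncomputable def cB (f : X → ℝ) (g h : ℕ → X → ℝ) (m N s : ℕ) (r : ℝ) (x : X) : ℝ :=
  2 * r / √(r ^ 2 + nv f g h m N s x)

lemma frac_bd {r q : ℝ} (hr : 0 < r) (hq : 0 ≤ q) :
    0 ≤ 2 * r / √(r ^ 2 + q) ∧ 2 * r / √(r ^ 2 + q) ≤ 2 := by
  have h1 : r ≤ √(r ^ 2 + q) := Real.le_sqrt_of_sq_le (by linarith)
  have h2 : 0 < √(r ^ 2 + q) := hr.trans_le h1
  refine ⟨by positivity, ?_⟩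
  rw [div_le_iff₀ h2]; linarith

lemma cA_bd (f : X → ℝ) (g h : ℕ → X → ℝ) (m N s : ℕ) {r : ℝ} (hr : 0 < r) (x : X) :
    0 ≤ cA f g h m N s r x ∧ cA f g h m N s r x ≤ 2 :=
  frac_bd (by positivity) (nv_nonneg f g h m N (s + 1) x)

lemma cB_bd (f : X → ℝ) (g h : ℕ → X → ℝ) (m N s : ℕ) {r : ℝ} (hr : 0 < r) (x : X) :
    0 ≤ cB f g h m N s r x ∧ cB f g h m N s r x ≤ 2 :=
  frac_bd hr (nv_nonneg f g h m N s x)

lemma meas_cA (hg : ∀ j, Measurable (g j)) (hh : ∀ j, Measurable (h j)) (hf : Measurable f)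
    (m N s : ℕ) (r : ℝ) : Measurable (cA f g h m N s r) := by
  unfold cA
  have := meas_nv hg hh hf m N (s + 1)
  fun_prop

lemma meas_cB (hg : ∀ j, Measurable (g j)) (hh : ∀ j, Measurable (h j)) (hf : Measurable f)
    (m N s : ℕ) (r : ℝ) : Measurable (cB f g h m N s r) := by
  unfold cB
  have := meas_nv hg hh hf m N s
  fun_prop

lemma pw (hSC : S_SC) (f : X → ℝ) (g h : ℕ → X → ℝ) (m N s : ℕ) (r : ℝ) (hs : s < N)
    (hr : 0 < r) (q : X) (p : X × X) (hd : xe g h m s p = xx g h m s q) :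
    PsV f g h m N s r q
      + (cA f g h m N s r q * (zz f g h m s q + xx g h m s q)
          - cB f g h m N s r q * zz f g h m s q) * (ee g h m s p - zz f g h m s q)
      + 10000 * ∑ t ∈ Finset.range N,
          (cA f g h m N s r q * cw (s + 1) t - cB f g h m N s r q * cw s t) * xx g h m t q
            * (xe g h m t p - xx g h m t q)
      - 500 * (10000 * ∑ t ∈ Finset.range N, cw s t * (xe g h m t p - xx g h m t q) ^ 2)
    ≤ PsE g h m N s r p := by
  have h1 := hSC N s r (zz f g h m s q) (ee g h m s p - zz f g h m s q) (fun t => xx g h m t q)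
    (fun t => xe g h m t p - xx g h m t q) hs hr (by simp [hd])
  have e1 : zz f g h m s q + (ee g h m s p - zz f g h m s q) = ee g h m s p := by ring
  have e2 : (fun t => xx g h m t q + (xe g h m t p - xx g h m t q)) = fun t => xe g h m t p := by
    funext t; ring
  have e3 : nrm2 N (s + 1) (zz f g h m s q + xx g h m s q) (fun t => xx g h m t q)
      = nv f g h m N (s + 1) q := by unfold nv; rw [zz_succ]
  rw [e1] at h1
  simp only [e2] at h1
  rw [e3] at h1
  exact h1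

/-- AM-GM for products of square roots. -/
lemma sqrt_mul_sqrt_le {A B u : ℝ} (hA : 0 ≤ A) (hB : 0 ≤ B) (hu : 0 < u) :
    √A * √B ≤ (A / u + B * u) / 2 := by
  have h1 : √A ^ 2 = A := Real.sq_sqrt hA
  have h2 : √B ^ 2 = B := Real.sq_sqrt hB
  have h3 : √u ^ 2 = u := Real.sq_sqrt hu.le
  have h4 : 0 < √u := Real.sqrt_pos.2 hu
  have h5 := sq_nonneg (√A / √u - √B * √u)
  have h6 : (√A / √u - √B * √u) ^ 2 = A / u + B * u - 2 * (√A * √B) := by
    rw [sub_sq, div_pow, mul_pow, h1, h2, h3]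
    have : 2 * (√A / √u) * (√B * √u) = 2 * (√A * √B) := by
      field_simp
    rw [this]; ring
  rw [h6] at h5
  linarith

lemma memLp_le {Y : Type*} [MeasurableSpace Y] {ν : Measure Y} {Φ F : Y → ℝ} (hF : MemLp F 2 ν)
    (hΦ : Measurable Φ) (c : ℝ) (hle : ∀ y, |Φ y| ≤ c * |F y|) : MemLp Φ 2 ν :=
  hF.of_le_mul hΦ.aestronglyMeasurable (Eventually.of_forall fun y => by
    rw [Real.norm_eq_abs, Real.norm_eq_abs]; exact hle y)

namespace Cor

variable (C : Cor π μ f g h a b γ)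
include C

/-- the first order coefficient of `e`. -/
lemma Phi1_bd (m N s : ℕ) {r : ℝ} (hr : 0 < r) (c : ℝ) (hc0 : 0 ≤ c) (hc1 : c ≤ 1) (x : X) :
    (c * (cA f g h m N s r x * (zz f g h m s x + xx g h m s x)
          - cB f g h m N s r x * zz f g h m s x)) ^ 2 ≤
      32 * zz f g h m s x ^ 2 + 8 * xx g h m s x ^ 2 := by
  have hA := cA_bd f g h m N s hr x
  have hB := cB_bd f g h m N s hr x
  set A := cA f g h m N s r x
  set B := cB f g h m N s r x
  set z := zz f g h m s x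
  set y := xx g h m s x
  have e1 : A * (z + y) - B * z = (A - B) * z + A * y := by ring
  have h1 : (A - B) ^ 2 ≤ 4 := by nlinarith [hA.1, hA.2, hB.1, hB.2]
  have h2 : A ^ 2 ≤ 4 := by nlinarith [hA.1, hA.2]
  have h3 : ((A - B) * z + A * y) ^ 2 ≤ 2 * ((A - B) * z) ^ 2 + 2 * (A * y) ^ 2 := by
    nlinarith [sq_nonneg ((A - B) * z - A * y)]
  have h4 : ((A - B) * z) ^ 2 ≤ 4 * z ^ 2 := by
    rw [mul_pow]; exact mul_le_mul_of_nonneg_right h1 (sq_nonneg _)
  have h5 : (A * y) ^ 2 ≤ 4 * y ^ 2 := by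
    rw [mul_pow]; exact mul_le_mul_of_nonneg_right h2 (sq_nonneg _)
  have h6 : c ^ 2 ≤ 1 := by nlinarith
  rw [e1, mul_pow]
  have h7 : 0 ≤ ((A - B) * z + A * y) ^ 2 := sq_nonneg _
  calc c ^ 2 * ((A - B) * z + A * y) ^ 2 ≤ 1 * ((A - B) * z + A * y) ^ 2 :=
        mul_le_mul_of_nonneg_right h6 h7
    _ ≤ 32 * z ^ 2 + 8 * y ^ 2 := by nlinarith [sq_nonneg z, sq_nonneg y]

/-- the first order coefficients of the other coordinates. -/
lemma Phi2_bd (m N s t : ℕ) {r : ℝ} (hr : 0 < r) (c : ℝ) (hc0 : 0 ≤ c) (hc1 : c ≤ 1) (x : X) :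
    |c * (cA f g h m N s r x * (cw (s + 1) t / cw s t) - cB f g h m N s r x) * xx g h m t x| ≤
      3 * |xx g h m t x| := by
  have hA := cA_bd f g h m N s hr x
  have hB := cB_bd f g h m N s hr x
  have h1 : 0 ≤ cw (s + 1) t / cw s t := (div_pos (cw_pos _ _) (cw_pos _ _)).le
  have h2 : cw (s + 1) t / cw s t ≤ 81 / 64 := by
    rw [div_le_iff₀ (cw_pos _ _)]; exact cw_succ_le s t
  rw [abs_mul, abs_mul, abs_of_nonneg hc0]
  apply mul_le_mul_of_nonneg_right _ (abs_nonneg _)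
  have h3 : |cA f g h m N s r x * (cw (s + 1) t / cw s t) - cB f g h m N s r x| ≤ 3 := by
    rw [abs_le]
    constructor
    · have := mul_nonneg hA.1 h1
      linarith [hB.2]
    · have := mul_le_mul hA.2 h2 h1 (by norm_num)
      linarith [hB.1]
  calc c * |cA f g h m N s r x * (cw (s + 1) t / cw s t) - cB f g h m N s r x|
      ≤ 1 * 3 := mul_le_mul hc1 h3 (abs_nonneg _) (by norm_num)
    _ = 3 := by norm_num

lemma meas_Phi1 (m N s : ℕ) (r : ℝ) {ψ : X → ℝ} (hψ : Measurable ψ) :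
    Measurable (fun x => ψ x * (cA f g h m N s r x * (zz f g h m s x + xx g h m s x)
          - cB f g h m N s r x * zz f g h m s x)) := by
  have h1 := meas_cA C.mg C.mh C.mf m N s r
  have h2 := meas_cB C.mg C.mh C.mf m N s r
  have h3 := meas_zz C.mg C.mh C.mf m s
  have h4 := meas_xx C.mg C.mh m s
  exact hψ.mul ((h1.mul (h3.add h4)).sub (h2.mul h3))

lemma meas_Phi2 (m N s t : ℕ) (r : ℝ) {ψ : X → ℝ} (hψ : Measurable ψ) :
    Measurable (fun x => ψ x * (cA f g h m N s r x * (cw (s + 1) t / cw s t)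
      - cB f g h m N s r x) * xx g h m t x) := by
  have h1 := meas_cA C.mg C.mh C.mf m N s r
  have h2 := meas_cB C.mg C.mh C.mf m N s r
  have h4 := meas_xx C.mg C.mh m t
  exact (hψ.mul ((h1.mul_const _).sub h2)).mul h4

/-- the integral of the square of the first coefficient. -/
lemma Phi1_int (hB : S_BND X) (m N s : ℕ) {r : ℝ} (hr : 0 < r) {ψ : X → ℝ} (hψ : Measurable ψ)
    (h0 : ∀ x, 0 ≤ ψ x) (h1 : ∀ x, ψ x ≤ 1) :
    MemLp (fun x => ψ x * (cA f g h m N s r x * (zz f g h m s x + xx g h m s x)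
          - cB f g h m N s r x * zz f g h m s x)) 2 π ∧
    ∫ x, (ψ x * (cA f g h m N s r x * (zz f g h m s x + xx g h m s x)
          - cB f g h m N s r x * zz f g h m s x)) ^ 2 ∂π ≤
      416 * (2 ^ (m + s / 2) * gm γ (m + s / 2)) := by
  have hz := (C.L_zz m s).integrable_sq
  have hx := (C.L_xx m s).integrable_sq
  have hm := C.meas_Phi1 m N s r hψ
  have hdom : Integrable (fun x => 32 * zz f g h m s x ^ 2 + 8 * xx g h m s x ^ 2) π :=
    (hz.const_mul 32).add (hx.const_mul 8)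
  have hsq : Integrable (fun x => (ψ x * (cA f g h m N s r x * (zz f g h m s x + xx g h m s x)
          - cB f g h m N s r x * zz f g h m s x)) ^ 2) π := by
    refine hdom.mono' (hm.pow_const 2).aestronglyMeasurable (Eventually.of_forall fun x => ?_)
    rw [Real.norm_eq_abs, abs_of_nonneg (sq_nonneg _)]
    exact C.Phi1_bd m N s hr (ψ x) (h0 x) (h1 x) x
  refine ⟨(memLp_two_iff_integrable_sq hm.aestronglyMeasurable).2 hsq, ?_⟩
  have hbn := hB π μ f g h a b γ C m s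
  calc ∫ x, (ψ x * (cA f g h m N s r x * (zz f g h m s x + xx g h m s x)
          - cB f g h m N s r x * zz f g h m s x)) ^ 2 ∂π
      ≤ ∫ x, (32 * zz f g h m s x ^ 2 + 8 * xx g h m s x ^ 2) ∂π :=
        integral_mono hsq hdom fun x => C.Phi1_bd m N s hr (ψ x) (h0 x) (h1 x) x
    _ = 32 * ∫ x, zz f g h m s x ^ 2 ∂π + 8 * ∫ x, xx g h m s x ^ 2 ∂π := by
        rw [integral_add (hz.const_mul 32) (hx.const_mul 8), integral_const_mul,
          integral_const_mul]
    _ ≤ 416 * (2 ^ (m + s / 2) * gm γ (m + s / 2)) := by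
        have h2 := hbn.1
        have h3 := hbn.2.1
        nlinarith

/-- the other coefficients. -/
lemma Phi2_int (hB : S_BND X) (m N s t : ℕ) {r : ℝ} (hr : 0 < r) {ψ : X → ℝ} (hψ : Measurable ψ)
    (h0 : ∀ x, 0 ≤ ψ x) (h1 : ∀ x, ψ x ≤ 1) :
    MemLp (fun x => ψ x * (cA f g h m N s r x * (cw (s + 1) t / cw s t)
      - cB f g h m N s r x) * xx g h m t x) 2 π ∧
    ∫ x, (ψ x * (cA f g h m N s r x * (cw (s + 1) t / cw s t)
      - cB f g h m N s r x) * xx g h m t x) ^ 2 ∂π ≤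
      36 * (2 ^ (m + t / 2) * gm γ (m + t / 2)) := by
  have hx := (C.L_xx m t).integrable_sq
  have hm := C.meas_Phi2 m N s t r hψ
  have hbd := fun x => C.Phi2_bd m N s t hr (ψ x) (h0 x) (h1 x) x
  have hmem := memLp_le (C.L_xx m t) hm 3 hbd
  refine ⟨hmem, ?_⟩
  have hbn := hB π μ f g h a b γ C m t
  have hsq : ∀ x, (ψ x * (cA f g h m N s r x * (cw (s + 1) t / cw s t)
      - cB f g h m N s r x) * xx g h m t x) ^ 2 ≤ 9 * xx g h m t x ^ 2 := by
    intro x
    have h3 := hbd x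
    have h4 := pow_le_pow_left₀ (abs_nonneg _) h3 2
    rw [sq_abs, mul_pow (3 : ℝ), sq_abs] at h4
    linarith
  calc ∫ x, (ψ x * (cA f g h m N s r x * (cw (s + 1) t / cw s t)
      - cB f g h m N s r x) * xx g h m t x) ^ 2 ∂π
      ≤ ∫ x, 9 * xx g h m t x ^ 2 ∂π := integral_mono hmem.integrable_sq (hx.const_mul 9) hsq
    _ = 9 * ∫ x, xx g h m t x ^ 2 ∂π := integral_const_mul _ _
    _ ≤ _ := by
        have h3 := hbn.2.1
        nlinarith

end Cor

end Pool.Agent.K1H85.CL
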