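import Mathlib

/-!
Project CL (MP_cd27db_pr): the central limit theorem for stationary ergodic Markov chains under the
two-sided square root conditions.  Definitions and statements of the pieces.
-/

open MeasureTheory ProbabilityTheory Filter
open scoped Topology BigOperators ENNReal

namespace Pool.Agent.K1H85.CL

universe u v

noncomputable section

/-! ### Pointwise objects -/

/-- squared weights of the coordinates -/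
def cw (s t : ℕ) : ℝ := if s ≤ t then (64 / 81 : ℝ) ^ (t - s) else (1521 / 1600 : ℝ) ^ (s - t)

/-- squared length of the state vector at step `s` (of `N`) -/
def nrm2 (N s : ℕ) (e : ℝ) (x : ℕ → ℝ) : ℝ :=
  e ^ 2 + 10000 * ∑ t ∈ Finset.range N, cw s t * x t ^ 2

/-- the potential as a function of the squared length -/
def Fp (r q : ℝ) : ℝ := 2 * r * (√(r ^ 2 + q) - r)

/-- the increment of the potential at step `s` -/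
def Psi (N s : ℕ) (r e : ℝ) (x : ℕ → ℝ) : ℝ :=
  Fp (9 / 8 * r) (nrm2 N (s + 1) (e + x s) x) - Fp r (nrm2 N s e x)

/-- coefficients of `1 - √(1-x) = ∑ dl n x^(n+1)` -/
def dl (n : ℕ) : ℝ := (catalan n : ℝ) / (2 * 4 ^ n)

/-! ### Pure real analysis pieces -/

/-- CL-1 : the scalar inequality (tau = 1/100). -/
def S_S1 : Prop := ∀ R W e x : ℝ, 0 < R → 0 ≤ W → 10000 * x ^ 2 ≤ W →
  (R + W) * (1 + 1 / 100 * (e ^ 2 / (R + W + e ^ 2))) /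
      ((R + W + e ^ 2) * √(R + W + e ^ 2)) ≤
    9 / 8 * (81 / 64 * R + 1521 / 1600 * W) *
        (1 - 1 / 100 * ((e + x) ^ 2 / (81 / 64 * R + 1521 / 1600 * W + (e + x) ^ 2))) /
      ((81 / 64 * R + 1521 / 1600 * W + (e + x) ^ 2) *
        √(81 / 64 * R + 1521 / 1600 * W + (e + x) ^ 2))

/-- CL-2 : semiconvexity of `Psi` in the directions with `d s = 0`. -/
def S_SC : Prop := ∀ (N s : ℕ) (r e δ : ℝ) (x d : ℕ → ℝ), s < N → 0 < r → d s = 0 →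
  Psi N s r e x
      + (2 * (9 / 8 * r) / √((9 / 8 * r) ^ 2 + nrm2 N (s + 1) (e + x s) x) * (e + x s)
          - 2 * r / √(r ^ 2 + nrm2 N s e x) * e) * δ
      + 10000 * ∑ t ∈ Finset.range N,
          (2 * (9 / 8 * r) / √((9 / 8 * r) ^ 2 + nrm2 N (s + 1) (e + x s) x) * cw (s + 1) t
            - 2 * r / √(r ^ 2 + nrm2 N s e x) * cw s t) * x t * d t
      - 500 * (10000 * ∑ t ∈ Finset.range N, cw s t * d t ^ 2)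
    ≤ Psi N s r (e + δ) (fun t => x t + d t)

/-- CL-3 : exact second order remainder of the potential. -/
def S_GF : Prop := ∀ r q q' c n : ℝ, 0 < r → 0 ≤ q → 0 ≤ q' → 0 ≤ n → q' = q + 2 * c + n →
  c ^ 2 ≤ q * n →
  Fp r q' - Fp r q - 2 * r * c / √(r ^ 2 + q)
      = r / √(r ^ 2 + q) * (n - (√(r ^ 2 + q') - √(r ^ 2 + q)) ^ 2) ∧
  (√(r ^ 2 + q') - √(r ^ 2 + q)) ^ 2 ≤ n ∧
  0 ≤ Fp r q' - Fp r q - 2 * r * c / √(r ^ 2 + q) ∧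
  Fp r q' - Fp r q - 2 * r * c / √(r ^ 2 + q) ≤ n ∧
  (4 * r ^ 2 ≤ q ∨ 256 * r ^ 2 ≤ n →
    Fp r q' - Fp r q - 2 * r * c / √(r ^ 2 + q) ≤ n / 2)

/-- CL-4 : bound of all increments at a state whose last squared length is at most `4 r_N^2`. -/
def S_GOOD : Prop := ∀ (N : ℕ) (r0 : ℝ) (z x : ℕ → ℝ), 0 < r0 → (∀ s, z (s + 1) = z s + x s) →
  nrm2 N N (z N) x ≤ 4 * (r0 * (9 / 8) ^ N) ^ 2 →
  ∑ s ∈ Finset.range N, |Psi N s (r0 * (9 / 8) ^ s) (z s) x| ≤ 200 * (r0 * (9 / 8) ^ N) ^ 2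

/-- CL-5 : a discrete Gronwall and Abel summation lemma. -/
def S_CFA : Prop := ∀ (n : ℕ) (c ε : ℝ) (x η : ℕ → ℂ), 0 < n → 0 ≤ c → c ≤ n → 0 ≤ ε →
  x 0 = 1 → (∀ t < n, x (t + 1) - x t = -((c / n : ℝ) : ℂ) * x t + η t) →
  (∀ n' ≤ n, ‖∑ t ∈ Finset.range n', η t‖ ≤ ε) →
  ‖x n - ((Real.exp (-c) : ℝ) : ℂ)‖ ≤ 2 * ε + c ^ 2 / n

/-! ### Hilbert space pieces -/

/-- CL-6 : elementary facts on the coefficients and the square root of `1 - T`. -/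
def S_SQ : Prop := (∀ n, 0 < dl n) ∧ HasSum dl 1 ∧
  (∀ L : ℕ, 0 < L → Summable (fun n => dl n * min ((n : ℝ) + 1) L) ∧
    ∑' n, dl n * min ((n : ℝ) + 1) L ≤ 2 * √L) ∧
  (∀ x ∈ Set.Icc (0 : ℝ) 1, HasSum (fun n => dl n * x ^ (n + 1)) (1 - √(1 - x))) ∧
  (∀ (H : Type u) [NormedAddCommGroup H] [InnerProductSpace ℝ H] [CompleteSpace H]
    (T : H →L[ℝ] H), ‖T‖ ≤ 1 →
    Summable (fun n => dl n • T ^ (n + 1)) ∧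
    (1 - ∑' n, dl n • T ^ (n + 1)) * (1 - ∑' n, dl n • T ^ (n + 1)) = 1 - T)

/-- CL-7 : the quadratic estimate. -/
def S_QE : Prop := ∀ (H : Type u) [NormedAddCommGroup H] [InnerProductSpace ℝ H] [CompleteSpace H]
  (T : H →L[ℝ] H), ‖T‖ ≤ 1 → ∀ w : H, ∃ g : ℕ → H,
    (∀ j, (1 / 2 : ℝ) ^ j • g j + (g j - T (g j)) = (1 - ∑' n, dl n • T ^ (n + 1)) w) ∧
    Summable (fun j => (1 / 2 : ℝ) ^ j * ‖g j‖ ^ 2)

/-! ### Correctors, pair level -/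

section pair

variable {X : Type u} [MeasurableSpace X]

/-- The system of forward correctors `g j` and backward correctors `h j` of `f`, for a coupling
`μ` of `π` with itself; `a j`, `b j` are the errors. -/
structure Cor (π : Measure X) (μ : Measure (X × X)) (f : X → ℝ) (g h a b : ℕ → X → ℝ)
    (γ : ℕ → ℝ) : Prop where
  pp : IsProbabilityMeasure π
  pm : IsProbabilityMeasure μ
  fst : μ.map Prod.fst = π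
  snd : μ.map Prod.snd = π
  mf : Measurable f
  mg : ∀ j, Measurable (g j)
  mh : ∀ j, Measurable (h j)
  ma : ∀ j, Measurable (a j)
  mb : ∀ j, Measurable (b j)
  Lf : MemLp f 2 π
  Lg : ∀ j, MemLp (g j) 2 π
  Lh : ∀ j, MemLp (h j) 2 π
  La : ∀ j, MemLp (a j) 2 π
  Lb : ∀ j, MemLp (b j) 2 π
  da : ∀ j (Φ : X → ℝ), MemLp Φ 2 π →
    ∫ p, Φ p.1 * (f p.1 - g j p.1 + g j p.2) ∂μ = ∫ x, Φ x * a j x ∂π
  db : ∀ j (Φ : X → ℝ), MemLp Φ 2 π →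
    ∫ p, Φ p.2 * (f p.2 - h j p.2 + h j p.1) ∂μ = ∫ x, Φ x * b j x ∂π
  nf : ∀ j, ∫ x, f x ^ 2 ∂π ≤ 2 ^ j * γ j ^ 2
  ng : ∀ j, ∫ x, g j x ^ 2 ∂π ≤ 2 ^ j * γ j ^ 2
  nh : ∀ j, ∫ x, h j x ^ 2 ∂π ≤ 2 ^ j * γ j ^ 2
  na : ∀ j, ∫ x, a j x ^ 2 ∂π ≤ γ j ^ 2 / 2 ^ j
  nb : ∀ j, ∫ x, b j x ^ 2 ∂π ≤ γ j ^ 2 / 2 ^ j
  γ0 : ∀ j, 0 ≤ γ j
  sγ : Summable (fun j => γ j ^ 2)

/-- martingale differences of scale `j` -/
def DD (f : X → ℝ) (g a : ℕ → X → ℝ) (j : ℕ) (p : X × X) : ℝ :=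
  g j p.2 - g j p.1 + f p.1 - a j p.1

/-- the tail of the squares -/
def tl (γ : ℕ → ℝ) (m : ℕ) : ℝ := ∑' j, γ (m + j) ^ 2

def gm (γ : ℕ → ℝ) (j : ℕ) : ℝ := γ j ^ 2 + γ (j + 1) ^ 2

/-- the error of step `s` -/
def er (γ : ℕ → ℝ) (m N s : ℕ) : ℝ := ∑ t ∈ Finset.range N, cw s t * gm γ (m + t / 2)

/-- the move of step `s` : even = forward corrector, odd = backward corrector -/
def xx (g h : ℕ → X → ℝ) (m s : ℕ) (x : X) : ℝ :=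
  if s % 2 = 0 then g (m + s / 2 + 1) x - g (m + s / 2) x
  else h (m + s / 2 + 1) x - h (m + s / 2) x

/-- the vertex function at step `s` -/
def zz (f : X → ℝ) (g h : ℕ → X → ℝ) (m s : ℕ) (x : X) : ℝ :=
  g (m + (s + 1) / 2) x + h (m + s / 2) x - f x

/-- the edge function at step `s` -/
def ee (g h : ℕ → X → ℝ) (m s : ℕ) (p : X × X) : ℝ :=
  h (m + s / 2) p.1 + g (m + (s + 1) / 2) p.2

/-- the edge value of the move -/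
def xe (g h : ℕ → X → ℝ) (m s : ℕ) (p : X × X) : ℝ :=
  if s % 2 = 0 then xx g h m s p.2 else xx g h m s p.1

def nv (f : X → ℝ) (g h : ℕ → X → ℝ) (m N s : ℕ) (x : X) : ℝ :=
  nrm2 N s (zz f g h m s x) (fun t => xx g h m t x)

def ne (g h : ℕ → X → ℝ) (m N s : ℕ) (p : X × X) : ℝ :=
  nrm2 N s (ee g h m s p) (fun t => xe g h m t p)

def PsV (f : X → ℝ) (g h : ℕ → X → ℝ) (m N s : ℕ) (r : ℝ) (x : X) : ℝ :=
  Psi N s r (zz f g h m s x) (fun t => xx g h m t x)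

def PsE (g h : ℕ → X → ℝ) (m N s : ℕ) (r : ℝ) (p : X × X) : ℝ :=
  Psi N s r (ee g h m s p) (fun t => xe g h m t p)

/-- the weighted functional -/
def Gs (μ : Measure (X × X)) (f : X → ℝ) (g h : ℕ → X → ℝ) (m N s : ℕ) (r : ℝ)
    (ψ : X → ℝ) : ℝ :=
  ∫ p, ψ p.1 * (Fp r (ne g h m N s p) - Fp r (nv f g h m N s p.1)) ∂μ

/-- sequences of state weights -/
structure Wt (π : Measure X) (μ : Measure (X × X)) (n : ℕ) (Gd : Set X) (C1 : ℝ)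
    (ψ ψs : ℕ → X → ℝ) : Prop where
  mψ : ∀ t, Measurable (ψ t)
  mψs : ∀ t, Measurable (ψs t)
  h0 : ∀ t x, 0 ≤ ψ t x
  h1 : ∀ t x, ψ t x ≤ 1
  hs0 : ∀ t x, 0 ≤ ψs t x
  hs1 : ∀ t x, ψs t x ≤ 1
  dual : ∀ t (φ : X → ℝ), Integrable φ π → ∫ p, ψ t p.1 * φ p.2 ∂μ = ∫ x, ψs t x * φ x ∂π
  good : ∀ t, ∀ᵐ x ∂π, x ∉ Gd → ψ (t + 1) x = ψs t x
  var : ∑ t ∈ Finset.range n, ∫ x, |ψ (t + 1) x - ψs t x| ∂π ≤ C1

end pair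

/-- CL-8 : basic bounds. -/
def S_BND (X : Type u) [MeasurableSpace X] : Prop :=
  ∀ (π : Measure X) (μ : Measure (X × X)) (f : X → ℝ) (g h a b : ℕ → X → ℝ) (γ : ℕ → ℝ),
    Cor π μ f g h a b γ → ∀ m s : ℕ,
    ∫ x, zz f g h m s x ^ 2 ∂π ≤ 12 * 2 ^ (m + s / 2) * gm γ (m + s / 2) ∧
    ∫ x, xx g h m s x ^ 2 ∂π ≤ 4 * 2 ^ (m + s / 2) * gm γ (m + s / 2) ∧
    ∫ x, a (m + (s + 1) / 2) x ^ 2 ∂π ≤ gm γ (m + s / 2) / 2 ^ (m + s / 2) ∧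
    ∫ x, b (m + s / 2) x ^ 2 ∂π ≤ gm γ (m + s / 2) / 2 ^ (m + s / 2) ∧
    ∫ p, (xx g h m s p.2 - xx g h m s p.1) ^ 2 ∂μ ≤ 6 * gm γ (m + s / 2) ∧
    (s % 2 = 0 → ∀ Φ : X → ℝ, MemLp Φ 2 π →
      |∫ p, Φ p.1 * (xx g h m s p.2 - xx g h m s p.1) ∂μ| ≤
        √(∫ x, Φ x ^ 2 ∂π) * √(4 * gm γ (m + s / 2) / 2 ^ (m + s / 2))) ∧
    (s % 2 = 1 → ∀ Φ : X → ℝ, MemLp Φ 2 π →
      |∫ p, Φ p.2 * (xx g h m s p.1 - xx g h m s p.2) ∂μ| ≤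
        √(∫ x, Φ x ^ 2 ∂π) * √(4 * gm γ (m + s / 2) / 2 ^ (m + s / 2)))

/-- CL-9 : the second moments of the martingale differences converge. -/
def S_VAR (X : Type u) [MeasurableSpace X] : Prop :=
  ∀ (π : Measure X) (μ : Measure (X × X)) (f : X → ℝ) (g h a b : ℕ → X → ℝ) (γ : ℕ → ℝ),
    Cor π μ f g h a b γ →
    (∃ σ2 : ℝ, 0 ≤ σ2 ∧ Tendsto (fun j => ∫ p, DD f g a j p ^ 2 ∂μ) atTop (𝓝 σ2)) ∧
    (∃ BD : ℝ, 0 ≤ BD ∧ ∀ j, ∫ p, (h j p.1 - h j p.2 + f p.2) ^ 2 ∂μ ≤ BD) ∧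
    (∀ j (Φ : X → ℝ), MemLp Φ 2 π → ∫ p, Φ p.1 * DD f g a j p ∂μ = 0)

/-- CL-10 : the odd steps. -/
def S_ODD (X : Type u) [MeasurableSpace X] : Prop :=
  ∀ (π : Measure X) (μ : Measure (X × X)) (f : X → ℝ) (g h a b : ℕ → X → ℝ) (γ : ℕ → ℝ),
    Cor π μ f g h a b γ → ∀ (m N s : ℕ) (r : ℝ) (ψ : X → ℝ), s < N → s % 2 = 1 → 0 < r →
    Measurable ψ → (∀ x, 0 ≤ ψ x) → (∀ x, ψ x ≤ 1) →
    -(40000000 * er γ m N s) ≤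
      ∫ p, ψ p.1 * (PsE g h m N s r p - PsV f g h m N s r p.1) ∂μ

/-- CL-11 : the even steps. -/
def S_EVEN (X : Type u) [MeasurableSpace X] : Prop :=
  ∀ (π : Measure X) (μ : Measure (X × X)) (f : X → ℝ) (g h a b : ℕ → X → ℝ) (γ : ℕ → ℝ),
    Cor π μ f g h a b γ → ∀ (m N s : ℕ) (r : ℝ) (ψ ψs : X → ℝ), s < N → s % 2 = 0 → 0 < r →
    Measurable ψ → Measurable ψs → (∀ x, 0 ≤ ψ x) → (∀ x, ψ x ≤ 1) → (∀ x, 0 ≤ ψs x) →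
    (∀ x, ψs x ≤ 1) →
    (∀ φ : X → ℝ, Integrable φ π → ∫ p, ψ p.1 * φ p.2 ∂μ = ∫ x, ψs x * φ x ∂π) →
    -(5 * r * √(∫ x, ψ x ^ 2 ∂π - ∫ x, ψs x ^ 2 ∂π) *
        √(∫ p, (h (m + s / 2) p.1 - h (m + s / 2) p.2 + f p.2) ^ 2 ∂μ + 1000000 * er γ m N s))
      - 40000000 * er γ m N s ≤
    ∫ p, ψ p.1 * PsE g h m N s r p ∂μ - ∫ x, ψs x * PsV f g h m N s r x ∂π

/-- CL-12 : total size of the increments at the vertices. -/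
def S_INT (X : Type u) [MeasurableSpace X] : Prop :=
  ∀ (π : Measure X) (μ : Measure (X × X)) (f : X → ℝ) (g h a b : ℕ → X → ℝ) (γ : ℕ → ℝ),
    Cor π μ f g h a b γ → ∀ (m N : ℕ) (r0 : ℝ), 0 < r0 →
    (∀ s r, 0 < r → Integrable (PsV f g h m N s r) π) ∧
    ∑ s ∈ Finset.range N, ∫ x, |PsV f g h m N s (r0 * (9 / 8) ^ s) x| ∂π ≤
      20000000 * tl γ 0 * 2 ^ (m + N / 2)

/-- CL-13 : summation of the steps. -/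
def S_TOT (X : Type u) [MeasurableSpace X] : Prop :=
  ∀ (π : Measure X) (μ : Measure (X × X)) (f : X → ℝ) (g h a b : ℕ → X → ℝ) (γ : ℕ → ℝ),
    Cor π μ f g h a b γ → ∀ (m N n : ℕ) (r0 BD C1 : ℝ) (Gd : Set X) (ψ ψs : ℕ → X → ℝ),
    0 < r0 → 0 ≤ BD → (∀ j, ∫ p, (h j p.1 - h j p.2 + f p.2) ^ 2 ∂μ ≤ BD) → 0 ≤ C1 →
    MeasurableSet Gd →
    (∀ x ∈ Gd, ∑ s ∈ Finset.range N, |PsV f g h m N s (r0 * (9 / 8) ^ s) x| ≤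
      200 * (r0 * (9 / 8) ^ N) ^ 2) →
    Wt π μ n Gd C1 ψ ψs →
    ∑ t ∈ Finset.range n, Gs μ f g h m N 0 r0 (ψ t)
        - 5000000000 * tl γ m * n
        - 40 * (r0 * (9 / 8) ^ N) * √n * √(1 + 2 * C1) * √(BD + 4000000 * tl γ m)
        - 20000000 * tl γ 0 * 2 ^ (m + N / 2)
        - C1 * (200 * (r0 * (9 / 8) ^ N) ^ 2)
      ≤ ∑ t ∈ Finset.range n, Gs μ f g h m N N (r0 * (9 / 8) ^ N) (ψ t)

/-- the radius of the potential at the last step (scale `k`, parameter `l`) -/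
def rN (k l : ℕ) : ℝ := √(2 ^ (k + 2 * l))

/-- CL-14 : the start. -/
def S_START (X : Type u) [MeasurableSpace X] : Prop :=
  ∀ (π : Measure X) (μ : Measure (X × X)) (f : X → ℝ) (g h a b : ℕ → X → ℝ) (γ : ℕ → ℝ),
    Cor π μ f g h a b γ → ∀ (m l : ℕ) (ε : ℝ), 0 < ε → ∃ k0 : ℕ, m ≤ k0 ∧ ∀ k ≥ k0,
    ∀ ψ : X → ℝ, Measurable ψ → (∀ x, 0 ≤ ψ x) → (∀ x, ψ x ≤ 1) →
    ∫ p, ψ p.1 * DD f g a m p ^ 2 ∂μ - ε - 1000000 * tl γ m ≤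
      Gs μ f g h m (2 * (k - m)) 0 (rN k l * (8 / 9) ^ (2 * (k - m))) ψ

/-- CL-15 : the end, upper bound. -/
def S_END (X : Type u) [MeasurableSpace X] : Prop :=
  ∀ (π : Measure X) (μ : Measure (X × X)) (f : X → ℝ) (g h a b : ℕ → X → ℝ) (γ : ℕ → ℝ),
    Cor π μ f g h a b γ → ∀ (m k : ℕ) (r : ℝ), m ≤ k → 0 < r →
    (∀ ψ : X → ℝ, Measurable ψ → (∀ x, 0 ≤ ψ x) → (∀ x, ψ x ≤ 1) →
      Gs μ f g h m (2 * (k - m)) (2 * (k - m)) r ψ ≤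
        ∫ p, ψ p.1 * DD f g a k p ^ 2 ∂μ + 1000000 * tl γ m) ∧
    ∫ p in {p : X × X | 4 * r ^ 2 < nv f g h m (2 * (k - m)) (2 * (k - m)) p.1},
        DD f g a k p ^ 2 ∂μ ≤
      4 * (∫ p, DD f g a k p ^ 2 ∂μ - Gs μ f g h m (2 * (k - m)) (2 * (k - m)) r (fun _ => 1))
        + 10000000 * tl γ m ∧
    ∫ p in {p : X × X | 32 * r ≤ |DD f g a k p|}, DD f g a k p ^ 2 ∂μ ≤
      4 * (∫ p, DD f g a k p ^ 2 ∂μ - Gs μ f g h m (2 * (k - m)) (2 * (k - m)) r (fun _ => 1))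
        + 10000000 * tl γ m

/-! ### The chain -/

section chain

variable {X : Type u} [MeasurableSpace X] {Ω : Type v} [MeasurableSpace Ω]

/-- ergodicity of the Markov operator -/
def Erg (κ : Kernel X X) (π : Measure X) : Prop :=
  ∀ φ : X → ℝ, MemLp φ 2 π → (∀ᵐ x ∂π, ∫ y, φ y ∂(κ x) = φ x) → ∃ c : ℝ, ∀ᵐ x ∂π, φ x = c

/-- the sigma-algebra generated by `ξ 0, ..., ξ t` -/
@[reducible] def Fil (ξ : ℕ → Ω → X) (t : ℕ) : MeasurableSpace Ω :=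
  ⨆ i : Fin (t + 1), MeasurableSpace.comap (ξ i) inferInstance

/-- A stationary Markov chain with kernel `κ` and invariant law `π`. -/
structure Chain (κ : Kernel X X) (π : Measure X) (P : Measure Ω) (ξ : ℕ → Ω → X) : Prop where
  pr : IsProbabilityMeasure P
  meas : ∀ t, Measurable (ξ t)
  law : ∀ t, P.map (ξ t) = π
  markov : ∀ (t : ℕ) (w : Ω → ℝ) (Φ : X → ℝ), Measurable[Fil ξ t] w → (∀ ω, |w ω| ≤ 1) →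
    Measurable Φ → (∀ x, |Φ x| ≤ 1) →
    ∫ ω, w ω * Φ (ξ (t + 1) ω) ∂P = ∫ ω, w ω * ∫ y, Φ y ∂(κ (ξ t ω)) ∂P

/-- A two-sided stationary Markov chain with kernel `κ` and invariant law `π` (the usual
definition by conditional expectations). -/
structure StatMarkov (κ : Kernel X X) (π : Measure X) (P : Measure Ω) (ξ : ℤ → Ω → X) : Prop where
  pr : IsProbabilityMeasure P
  meas : ∀ n, Measurable (ξ n)
  law : ∀ n, P.map (ξ n) = π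
  markov : ∀ (n : ℤ) (A : Set X), MeasurableSet A →
    P[(ξ (n + 1) ⁻¹' A).indicator (fun _ => (1 : ℝ)) |
      ⨆ i : Set.Iic n, MeasurableSpace.comap (ξ i) inferInstance] =ᵐ[P]
        fun ω => (κ (ξ n ω) A).toReal

/-- the martingale -/
def Mt (ξ : ℕ → Ω → X) (D : X × X → ℝ) : ℕ → Ω → ℝ
  | 0, _ => 0
  | t + 1, ω => Mt ξ D t ω + D (ξ t ω, ξ (t + 1) ω)

open Classical in
/-- the frozen martingale: it is updated when it is off by more than `c` and the state is good -/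
def mt (ξ : ℕ → Ω → X) (D : X × X → ℝ) (c : ℝ) (Gd : Set X) : ℕ → Ω → ℝ
  | 0, _ => 0
  | t + 1, ω => if c < |Mt ξ D (t + 1) ω - mt ξ D c Gd t ω| ∧ ξ (t + 1) ω ∈ Gd
      then Mt ξ D (t + 1) ω else mt ξ D c Gd t ω

end chain

/-- CL-25 : from the usual definition of a Markov chain to the working one. -/
def S_Z (X : Type u) [MeasurableSpace X] (Ω : Type v) [MeasurableSpace Ω] : Prop :=
  ∀ (κ : Kernel X X) [IsMarkovKernel κ] (π : Measure X) (P : Measure Ω) (ξ : ℤ → Ω → X),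
    StatMarkov κ π P ξ → Chain κ π P (fun n : ℕ => ξ (n : ℤ))

/-- CL-16 : the lower bound at a fixed scale (ergodic theorem). -/
def S_LOW (X : Type u) [MeasurableSpace X] : Prop :=
  ∀ (κ : Kernel X X) [IsMarkovKernel κ] (π : Measure X) [IsProbabilityMeasure π],
    κ.Invariant π → Erg κ π → ∀ W : X × X → ℝ, Measurable W → (∀ p, 0 ≤ W p) →
    Integrable W (π ⊗ₘ κ) → ∀ ε C1 : ℝ, 0 < ε → 0 ≤ C1 → ∃ n0 : ℕ, ∀ n ≥ n0, ∀ n' ≤ n,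
    ∀ (Gd : Set X) (ψ ψs : ℕ → X → ℝ), Wt π (π ⊗ₘ κ) n' Gd C1 ψ ψs →
    (∫ p, W p ∂(π ⊗ₘ κ)) * ∑ t ∈ Finset.range n', ∫ x, ψ t x ∂π - ε * n ≤
      ∑ t ∈ Finset.range n', ∫ p, ψ t p.1 * W p ∂(π ⊗ₘ κ)

/-- CL-17 : the main theorem at the level of state weights. -/
def S_W (X : Type u) [MeasurableSpace X] : Prop :=
  ∀ (κ : Kernel X X) [IsMarkovKernel κ] (π : Measure X) (f : X → ℝ) (g h a b : ℕ → X → ℝ)
    (γ : ℕ → ℝ), κ.Invariant π → Erg κ π → Cor π (π ⊗ₘ κ) f g h a b γ → ∀ σ2 : ℝ,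
    Tendsto (fun j => ∫ p, DD f g a j p ^ 2 ∂(π ⊗ₘ κ)) atTop (𝓝 σ2) →
    ∀ ε C1 : ℝ, 0 < ε → 0 ≤ C1 → ∃ l k0 : ℕ, ∀ k ≥ k0, ∀ n : ℕ, 2 ^ (k + 4 * l) ≤ n →
    n < 2 ^ (k + 4 * l + 1) → ∃ Gd : Set X, MeasurableSet Gd ∧ (π Gdᶜ).toReal ≤ ε ∧
      ∫ p in {p : X × X | p.1 ∉ Gd}, DD f g a k p ^ 2 ∂(π ⊗ₘ κ) ≤ ε ∧
      ∫ p in {p : X × X | ε * √n < |DD f g a k p|}, DD f g a k p ^ 2 ∂(π ⊗ₘ κ) ≤ ε ∧
      ∀ n' ≤ n, ∀ ψ ψs : ℕ → X → ℝ, Wt π (π ⊗ₘ κ) n' Gd C1 ψ ψs →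
        σ2 * ∑ t ∈ Finset.range n', ∫ x, ψ t x ∂π - ε * n ≤
          ∑ t ∈ Finset.range n', ∫ p, ψ t p.1 * DD f g a k p ^ 2 ∂(π ⊗ₘ κ)

/-- CL-18 : state weights of an adapted sequence of path weights. -/
def S_WSEQ (X : Type u) [MeasurableSpace X] (Ω : Type v) [MeasurableSpace Ω] : Prop :=
  ∀ (κ : Kernel X X) [IsMarkovKernel κ] (π : Measure X) (P : Measure Ω) (ξ : ℕ → Ω → X),
    Chain κ π P ξ →
    (∀ (t : ℕ) (Φ : X × X → ℝ), Integrable Φ (π ⊗ₘ κ) →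
      Integrable (fun ω => Φ (ξ t ω, ξ (t + 1) ω)) P ∧
      ∫ ω, Φ (ξ t ω, ξ (t + 1) ω) ∂P = ∫ p, Φ p ∂(π ⊗ₘ κ)) ∧
    (∀ (t : ℕ) (Φ : X × X → ℝ) (w : Ω → ℝ), Measurable[Fil ξ t] w → (∃ C, ∀ ω, |w ω| ≤ C) →
      Integrable Φ (π ⊗ₘ κ) → (∀ᵐ x ∂π, ∫ y, Φ (x, y) ∂(κ x) = 0) →
      ∫ ω, w ω * Φ (ξ t ω, ξ (t + 1) ω) ∂P = 0) ∧
    ∀ (w : ℕ → Ω → ℝ) (n : ℕ) (Gd : Set X) (C1 : ℝ), (∀ t, Measurable[Fil ξ t] (w t)) →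
      (∀ t ω, 0 ≤ w t ω) → (∀ t ω, w t ω ≤ 1) → MeasurableSet Gd →
      (∀ t ω, ξ (t + 1) ω ∉ Gd → w (t + 1) ω = w t ω) →
      ∑ t ∈ Finset.range n, ∫ ω, |w (t + 1) ω - w t ω| ∂P ≤ C1 →
      ∃ ψ ψs : ℕ → X → ℝ, Wt π (π ⊗ₘ κ) n Gd C1 ψ ψs ∧
        (∀ t, ∫ ω, w t ω ∂P = ∫ x, ψ t x ∂π) ∧
        ∀ (t : ℕ) (Φ : X × X → ℝ), Integrable Φ (π ⊗ₘ κ) →
          ∫ ω, w t ω * Φ (ξ t ω, ξ (t + 1) ω) ∂P = ∫ p, ψ t p.1 * Φ p ∂(π ⊗ₘ κ)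

/-- CL-19 : the frozen martingale. -/
def S_UPD (X : Type u) [MeasurableSpace X] (Ω : Type v) [MeasurableSpace Ω] : Prop :=
  ∀ (κ : Kernel X X) [IsMarkovKernel κ] (π : Measure X) (P : Measure Ω) (ξ : ℕ → Ω → X),
    Chain κ π P ξ → ∀ (D : X × X → ℝ), Measurable D → Integrable (fun p => D p ^ 2) (π ⊗ₘ κ) →
    (∀ᵐ x ∂π, ∫ y, D (x, y) ∂(κ x) = 0) → ∀ (c : ℝ) (Gd : Set X), 0 < c → MeasurableSet Gd →
    (∀ t, Measurable[Fil ξ t] (Mt ξ D t)) ∧ (∀ t, Measurable[Fil ξ t] (mt ξ D c Gd t)) ∧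
    (∀ t, MemLp (Mt ξ D t) 2 P) ∧
    (∀ t, ∫ ω, Mt ξ D t ω ^ 2 ∂P = t * ∫ p, D p ^ 2 ∂(π ⊗ₘ κ)) ∧
    (∀ t ω, |Mt ξ D t ω - mt ξ D c Gd t ω| ≤ c ∨ ξ t ω ∉ Gd) ∧
    (∀ t ω, ξ (t + 1) ω ∉ Gd → mt ξ D c Gd (t + 1) ω = mt ξ D c Gd t ω) ∧
    (∀ n : ℕ, ∑ t ∈ Finset.range n,
      (P {ω | mt ξ D c Gd (t + 1) ω ≠ mt ξ D c Gd t ω}).toReal ≤
        n * (∫ p, D p ^ 2 ∂(π ⊗ₘ κ)) / c ^ 2)

/-- CL-20 : one step of the characteristic function. -/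
def S_STEP (X : Type u) [MeasurableSpace X] (Ω : Type v) [MeasurableSpace Ω] : Prop :=
  ∀ (κ : Kernel X X) [IsMarkovKernel κ] (π : Measure X) (P : Measure Ω) (ξ : ℕ → Ω → X),
    Chain κ π P ξ → ∀ (D : X × X → ℝ), Measurable D → Integrable (fun p => D p ^ 2) (π ⊗ₘ κ) →
    (∀ᵐ x ∂π, ∫ y, D (x, y) ∂(κ x) = 0) → ∀ (n : ℕ) (s ε : ℝ) (t : ℕ), 0 < n → 0 < ε →
    ‖(∫ ω, Complex.exp (Complex.I * (s / √n * Mt ξ D (t + 1) ω : ℝ)) ∂P)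
        - (∫ ω, Complex.exp (Complex.I * (s / √n * Mt ξ D t ω : ℝ)) ∂P)
        + ((s ^ 2 / (2 * n) : ℝ) : ℂ) *
          ∫ ω, Complex.exp (Complex.I * (s / √n * Mt ξ D t ω : ℝ)) *
            ((D (ξ t ω, ξ (t + 1) ω) ^ 2 : ℝ) : ℂ) ∂P‖ ≤
      1 / n * (|s| ^ 3 * ε * ∫ p, D p ^ 2 ∂(π ⊗ₘ κ)
        + s ^ 2 * ∫ p in {p : X × X | ε * √n < |D p|}, D p ^ 2 ∂(π ⊗ₘ κ))

/-- CL-21 : convergence of the characteristic functions of the martingales. -/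
def S_KEY (X : Type u) [MeasurableSpace X] (Ω : Type v) [MeasurableSpace Ω] : Prop :=
  ∀ (κ : Kernel X X) [IsMarkovKernel κ] (π : Measure X) (f : X → ℝ) (g h a b : ℕ → X → ℝ)
    (γ : ℕ → ℝ) (P : Measure Ω) (ξ : ℕ → Ω → X), κ.Invariant π → Erg κ π →
    Cor π (π ⊗ₘ κ) f g h a b γ → Chain κ π P ξ → ∀ σ2 : ℝ, 0 ≤ σ2 →
    Tendsto (fun j => ∫ p, DD f g a j p ^ 2 ∂(π ⊗ₘ κ)) atTop (𝓝 σ2) →
    ∀ s ε : ℝ, 0 < ε → ∃ l k0 : ℕ, ∀ k ≥ k0, ∀ n : ℕ, 2 ^ (k + 4 * l) ≤ n →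
      n < 2 ^ (k + 4 * l + 1) →
      ‖(∫ ω, Complex.exp (Complex.I * (s / √n * Mt ξ (DD f g a k) n ω : ℝ)) ∂P)
        - ((Real.exp (-(s ^ 2 * σ2 / 2)) : ℝ) : ℂ)‖ ≤ ε

/-- CL-22 : comparison of the partial sums with the martingales. -/
def S_APX (X : Type u) [MeasurableSpace X] (Ω : Type v) [MeasurableSpace Ω] : Prop :=
  ∀ (κ : Kernel X X) [IsMarkovKernel κ] (π : Measure X) (f : X → ℝ) (g h a b : ℕ → X → ℝ)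
    (γ : ℕ → ℝ) (P : Measure Ω) (ξ : ℕ → Ω → X),
    Cor π (π ⊗ₘ κ) f g h a b γ → Chain κ π P ξ → ∀ (l : ℕ) (ε : ℝ), 0 < ε →
    ∃ k0 : ℕ, ∀ k ≥ k0, ∀ n : ℕ, 2 ^ (k + 4 * l) ≤ n → n < 2 ^ (k + 4 * l + 1) →
      MemLp (fun ω => ∑ i ∈ Finset.range n, f (ξ (i + 1) ω)) 2 P ∧
      ∫ ω, (∑ i ∈ Finset.range n, f (ξ (i + 1) ω) - Mt ξ (DD f g a k) n ω) ^ 2 ∂P ≤ ε * n

/-- CL-23 : the theorem for a chain with correctors. -/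
def S_CLT (X : Type u) [MeasurableSpace X] (Ω : Type v) [MeasurableSpace Ω] : Prop :=
  ∀ (κ : Kernel X X) [IsMarkovKernel κ] (π : Measure X) (f : X → ℝ) (g h a b : ℕ → X → ℝ)
    (γ : ℕ → ℝ) (P : Measure Ω) (ξ : ℕ → Ω → X), κ.Invariant π → Erg κ π →
    Cor π (π ⊗ₘ κ) f g h a b γ → Chain κ π P ξ → ∃ σ2 : NNReal,
    Tendsto (fun n : ℕ => (∫ ω, (∑ i ∈ Finset.range n, f (ξ (i + 1) ω)) ^ 2 ∂P) / n) atTop
      (𝓝 (σ2 : ℝ)) ∧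
    ∀ φ : BoundedContinuousFunction ℝ ℝ, Tendsto
      (fun n : ℕ => ∫ ω, φ ((∑ i ∈ Finset.range n, f (ξ (i + 1) ω)) / √n) ∂P) atTop
      (𝓝 (∫ x, φ x ∂(gaussianReal 0 σ2)))

/-- CL-24 : the Markov operator and the correctors from the two square root conditions. -/
def S_OP (X : Type u) [MeasurableSpace X] : Prop :=
  ∀ (κ : Kernel X X) [IsMarkovKernel κ] (π : Measure X) [IsProbabilityMeasure π],
    κ.Invariant π → ∃ Q : Lp ℝ 2 π →L[ℝ] Lp ℝ 2 π, ‖Q‖ ≤ 1 ∧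
    (∀ φ : Lp ℝ 2 π, ∀ᵐ x ∂π, (Q φ : X → ℝ) x = ∫ y, (φ : X → ℝ) y ∂(κ x)) ∧
    ∀ (f : X → ℝ) (w w' : Lp ℝ 2 π), Measurable f → MemLp f 2 π →
      (∀ᵐ x ∂π, f x = ((1 - ∑' n, dl n • Q ^ (n + 1)) w : Lp ℝ 2 π) x) →
      (∀ᵐ x ∂π, f x =
        ((1 - ∑' n, dl n • (ContinuousLinearMap.adjoint Q) ^ (n + 1)) w' : Lp ℝ 2 π) x) →
      ∃ (g h a b : ℕ → X → ℝ) (γ : ℕ → ℝ), Cor π (π ⊗ₘ κ) f g h a b γ

end

end Pool.Agent.K1H85.CL
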