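import Pool.Agent.K1H85.CL.Stm

/-!
Project CL (MP_cd27db_pr), piece CL-22 : comparison of the partial sums with the martingales.
-/

open MeasureTheory ProbabilityTheory Filter
open scoped Topology BigOperators ENNReal

namespace Pool.Agent.K1H85.CL

universe u v

private lemma apx_tel {X : Type u} {Ω : Type v} [MeasurableSpace X] [MeasurableSpace Ω]
    (ξ : ℕ → Ω → X) (f : X → ℝ) (g a : ℕ → X → ℝ) (k : ℕ) (ω : Ω) (n : ℕ) :
    ∑ i ∈ Finset.range n, f (ξ (i + 1) ω) - Mt ξ (DD f g a k) n ω =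
      f (ξ n ω) - f (ξ 0 ω) + g k (ξ 0 ω) - g k (ξ n ω) +
        ∑ i ∈ Finset.range n, a k (ξ i ω) := by
  induction n with
  | zero => simp [Mt]
  | succ n ih =>
    rw [Finset.sum_range_succ, Finset.sum_range_succ]
    have : Mt ξ (DD f g a k) (n + 1) ω
        = Mt ξ (DD f g a k) n ω + DD f g a k (ξ n ω, ξ (n + 1) ω) := rfl
    rw [this]
    simp only [DD]
    linarith

private lemma apx_sq (a b c d e : ℝ) :
    (a - b + c - d + e) ^ 2 ≤ 5 * (a ^ 2 + b ^ 2 + c ^ 2 + d ^ 2 + e ^ 2) := by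
  nlinarith [sq_nonneg (a + b), sq_nonneg (a - c), sq_nonneg (a + d), sq_nonneg (a - e),
    sq_nonneg (b + c), sq_nonneg (b - d), sq_nonneg (b + e), sq_nonneg (c + d),
    sq_nonneg (c - e), sq_nonneg (d + e)]

private lemma apx_memLp {X : Type u} {Ω : Type v} [MeasurableSpace X] [MeasurableSpace Ω]
    {κ : Kernel X X} {π : Measure X} {P : Measure Ω} {ξ : ℕ → Ω → X} (hC : Chain κ π P ξ)
    {φ : X → ℝ} (hL : MemLp φ 2 π) (t : ℕ) :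
    MemLp (fun ω => φ (ξ t ω)) 2 P := by
  have hmp : MeasurePreserving (ξ t) P π := ⟨hC.meas t, hC.law t⟩
  exact hL.comp_measurePreserving hmp

private lemma apx_int {X : Type u} {Ω : Type v} [MeasurableSpace X] [MeasurableSpace Ω]
    {κ : Kernel X X} {π : Measure X} {P : Measure Ω} {ξ : ℕ → Ω → X} (hC : Chain κ π P ξ)
    {φ : X → ℝ} (hm : Measurable φ) (t : ℕ) :
    ∫ ω, φ (ξ t ω) ^ 2 ∂P = ∫ x, φ x ^ 2 ∂π := by
  conv_rhs => rw [← hC.law t]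
  rw [integral_map (hC.meas t).aemeasurable]
  exact (hm.pow_const 2).aestronglyMeasurable

private lemma apx_five {Ω : Type v} [MeasurableSpace Ω] {P : Measure Ω} {u1 u2 u3 u4 u5 : Ω → ℝ}
    (h1 : Integrable u1 P) (h2 : Integrable u2 P) (h3 : Integrable u3 P) (h4 : Integrable u4 P)
    (h5 : Integrable u5 P) :
    ∫ ω, (u1 ω + u2 ω + u3 ω + u4 ω + u5 ω) ∂P =
      ∫ ω, u1 ω ∂P + ∫ ω, u2 ω ∂P + ∫ ω, u3 ω ∂P + ∫ ω, u4 ω ∂P + ∫ ω, u5 ω ∂P := by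
  have h12 : Integrable (fun ω => u1 ω + u2 ω) P := h1.add h2
  have h123 : Integrable (fun ω => u1 ω + u2 ω + u3 ω) P := h12.add h3
  have h1234 : Integrable (fun ω => u1 ω + u2 ω + u3 ω + u4 ω) P := h123.add h4
  rw [integral_add h1234 h5, integral_add h123 h4, integral_add h12 h3, integral_add h1 h2]

theorem t_APX (X : Type u) [MeasurableSpace X] (Ω : Type v) [MeasurableSpace Ω] :
    S_APX X Ω := by
  intro κ _ π f g h a b γ P ξ hCor hCh l ε hε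
  have hlim : Tendsto (fun j => γ j ^ 2) atTop (𝓝 0) := hCor.sγ.tendsto_atTop_zero
  set C : ℝ := 20 + 5 * 2 ^ (4 * l + 1) with hCdef
  have hCpos : 0 < C := by positivity
  have hev : ∀ᶠ j in atTop, γ j ^ 2 < ε / C := by
    have := hlim.eventually (gt_mem_nhds (show (0 : ℝ) < ε / C by positivity))
    exact this
  obtain ⟨k0, hk0⟩ := eventually_atTop.1 hev
  refine ⟨k0, fun k hk n hn1 hn2 => ?_⟩
  have hγ := hk0 k hk
  have := hCh.pr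
  have hLf : ∀ t, MemLp (fun ω => f (ξ t ω)) 2 P := fun t => apx_memLp hCh hCor.Lf t
  have hLg : ∀ t, MemLp (fun ω => g k (ξ t ω)) 2 P := fun t => apx_memLp hCh (hCor.Lg k) t
  have hLa : ∀ t, MemLp (fun ω => a k (ξ t ω)) 2 P := fun t => apx_memLp hCh (hCor.La k) t
  refine ⟨memLp_finsetSum _ (fun i _ => hLf (i + 1)), ?_⟩
  have hF : ∀ t, ∫ ω, f (ξ t ω) ^ 2 ∂P ≤ 2 ^ k * γ k ^ 2 := fun t => by
    rw [apx_int hCh hCor.mf t]; exact hCor.nf k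
  have hG : ∀ t, ∫ ω, g k (ξ t ω) ^ 2 ∂P ≤ 2 ^ k * γ k ^ 2 := fun t => by
    rw [apx_int hCh (hCor.mg k) t]; exact hCor.ng k
  have hA : ∀ t, ∫ ω, a k (ξ t ω) ^ 2 ∂P ≤ γ k ^ 2 / 2 ^ k := fun t => by
    rw [apx_int hCh (hCor.ma k) t]; exact hCor.na k
  have hIf : ∀ t, Integrable (fun ω => f (ξ t ω) ^ 2) P := fun t => (hLf t).integrable_sq
  have hIg : ∀ t, Integrable (fun ω => g k (ξ t ω) ^ 2) P := fun t => (hLg t).integrable_sq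
  have hIa : ∀ t, Integrable (fun ω => a k (ξ t ω) ^ 2) P := fun t => (hLa t).integrable_sq
  have hIs : Integrable (fun ω => ∑ i ∈ Finset.range n, a k (ξ i ω) ^ 2) P :=
    integrable_finsetSum _ (fun i _ => hIa i)
  -- the pointwise bound
  have hpt : ∀ ω, (∑ i ∈ Finset.range n, f (ξ (i + 1) ω) - Mt ξ (DD f g a k) n ω) ^ 2 ≤
      5 * (f (ξ n ω) ^ 2 + f (ξ 0 ω) ^ 2 + g k (ξ 0 ω) ^ 2 + g k (ξ n ω) ^ 2 +
        n * ∑ i ∈ Finset.range n, a k (ξ i ω) ^ 2) := by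
    intro ω
    rw [apx_tel]
    refine (apx_sq _ _ _ _ _).trans ?_
    have h1 : (∑ i ∈ Finset.range n, a k (ξ i ω)) ^ 2 ≤
        n * ∑ i ∈ Finset.range n, a k (ξ i ω) ^ 2 := by
      have := sq_sum_le_card_mul_sum_sq (s := Finset.range n) (f := fun i => a k (ξ i ω))
      simpa using this
    linarith
  have hbd : Integrable (fun ω => 5 * (f (ξ n ω) ^ 2 + f (ξ 0 ω) ^ 2 + g k (ξ 0 ω) ^ 2
      + g k (ξ n ω) ^ 2 + n * ∑ i ∈ Finset.range n, a k (ξ i ω) ^ 2)) P :=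
    (((((hIf n).add (hIf 0)).add (hIg 0)).add (hIg n)).add (hIs.const_mul _)).const_mul _
  have hint : ∫ ω, (∑ i ∈ Finset.range n, f (ξ (i + 1) ω) - Mt ξ (DD f g a k) n ω) ^ 2 ∂P ≤
      ∫ ω, 5 * (f (ξ n ω) ^ 2 + f (ξ 0 ω) ^ 2 + g k (ξ 0 ω) ^ 2 + g k (ξ n ω) ^ 2 +
        n * ∑ i ∈ Finset.range n, a k (ξ i ω) ^ 2) ∂P :=
    integral_mono_of_nonneg (Eventually.of_forall fun ω => sq_nonneg _) hbd
      (Eventually.of_forall hpt)
  have hval : ∫ ω, 5 * (f (ξ n ω) ^ 2 + f (ξ 0 ω) ^ 2 + g k (ξ 0 ω) ^ 2 + g k (ξ n ω) ^ 2 +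
        n * ∑ i ∈ Finset.range n, a k (ξ i ω) ^ 2) ∂P =
      5 * (∫ ω, f (ξ n ω) ^ 2 ∂P + ∫ ω, f (ξ 0 ω) ^ 2 ∂P + ∫ ω, g k (ξ 0 ω) ^ 2 ∂P +
        ∫ ω, g k (ξ n ω) ^ 2 ∂P + n * ∑ i ∈ Finset.range n, ∫ ω, a k (ξ i ω) ^ 2 ∂P) := by
    rw [integral_const_mul, apx_five (hIf n) (hIf 0) (hIg 0) (hIg n) (hIs.const_mul _),
      integral_const_mul, integral_finsetSum _ (fun i _ => hIa i)]
  have hsum : ∑ i ∈ Finset.range n, ∫ ω, a k (ξ i ω) ^ 2 ∂P ≤ n * (γ k ^ 2 / 2 ^ k) := by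
    calc ∑ i ∈ Finset.range n, ∫ ω, a k (ξ i ω) ^ 2 ∂P
        ≤ ∑ _i ∈ Finset.range n, γ k ^ 2 / 2 ^ k := Finset.sum_le_sum (fun i _ => hA i)
      _ = n * (γ k ^ 2 / 2 ^ k) := by simp
  have hn1' : (2 : ℝ) ^ k ≤ n := by
    have h2 : (2 : ℕ) ^ k ≤ n := le_trans (Nat.pow_le_pow_right (by norm_num) (by omega)) hn1
    exact_mod_cast h2
  have hn2' : (n : ℝ) ≤ 2 ^ k * 2 ^ (4 * l + 1) := by
    rw [← pow_add]
    have : (n : ℝ) < 2 ^ (k + 4 * l + 1) := by exact_mod_cast hn2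
    have e : k + (4 * l + 1) = k + 4 * l + 1 := by ring
    rw [e]; exact this.le
  have hn0 : (0 : ℝ) ≤ n := Nat.cast_nonneg n
  have h2k : (0 : ℝ) < 2 ^ k := by positivity
  have hγ0 : 0 ≤ γ k ^ 2 := sq_nonneg _
  have hG' : 2 ^ k * γ k ^ 2 ≤ n * γ k ^ 2 := mul_le_mul_of_nonneg_right hn1' hγ0
  have hA' : n * (n * (γ k ^ 2 / 2 ^ k)) ≤ n * (2 ^ (4 * l + 1) * γ k ^ 2) := by
    refine mul_le_mul_of_nonneg_left ?_ hn0
    rw [mul_div_assoc', div_le_iff₀ h2k]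
    calc n * γ k ^ 2 ≤ (2 ^ k * 2 ^ (4 * l + 1)) * γ k ^ 2 :=
          mul_le_mul_of_nonneg_right hn2' hγ0
      _ = 2 ^ (4 * l + 1) * γ k ^ 2 * 2 ^ k := by ring
  have hfin : C * γ k ^ 2 ≤ ε := by
    have := hγ.le
    rw [le_div_iff₀ hCpos] at this
    linarith
  calc ∫ ω, (∑ i ∈ Finset.range n, f (ξ (i + 1) ω) - Mt ξ (DD f g a k) n ω) ^ 2 ∂P
      ≤ 5 * (∫ ω, f (ξ n ω) ^ 2 ∂P + ∫ ω, f (ξ 0 ω) ^ 2 ∂P + ∫ ω, g k (ξ 0 ω) ^ 2 ∂P +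
        ∫ ω, g k (ξ n ω) ^ 2 ∂P + n * ∑ i ∈ Finset.range n, ∫ ω, a k (ξ i ω) ^ 2 ∂P) :=
        hint.trans hval.le
    _ ≤ 5 * (n * γ k ^ 2 + n * γ k ^ 2 + n * γ k ^ 2 + n * γ k ^ 2
          + n * (2 ^ (4 * l + 1) * γ k ^ 2)) := by
        have h1 := hF n
        have h2 := hF 0
        have h3 := hG 0
        have h4 := hG n
        have h5 := mul_le_mul_of_nonneg_left hsum hn0
        linarith
    _ = (C * γ k ^ 2) * n := by rw [hCdef]; ring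
    _ ≤ ε * n := mul_le_mul_of_nonneg_right hfin hn0

end Pool.Agent.K1H85.CL
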